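import Pool.Agent.TH930.GH.Moller

/-! Maps with one multiplier `1` and `d - 1` multipliers `m`: power saving and least elements. -/

set_option autoImplicit false

namespace Pool.Agent.TH930.GH

open Finset Pool.Agent.H319R3.GC

/-- the multipliers -/
def mq (m : ℕ) (i : ℕ) : ℤ := if i = 0 then 1 else (m : ℤ)

lemma prod_mq {d m : ℕ} (hd : 2 ≤ d) : PP d (mq m) = m ^ (d - 1) := by
  obtain ⟨e, rfl⟩ : ∃ e, d = e + 1 := ⟨d - 1, by omega⟩
  unfold PP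
  rw [Finset.prod_range_succ']
  have h1 : ∀ i ∈ Finset.range e, (mq m (i + 1)).natAbs = m := by
    intro i _
    simp [mq]
  rw [Finset.prod_congr rfl h1]
  simp [mq]

/-- admissibility -/
theorem adm_mq {d m : ℕ} (hd : 2 ≤ d) (hm : d < m) (hcop : Nat.Coprime m d) (hc : m ^ (d - 1) < d ^ d)
    {r : ℕ → ℤ} (hr : ∀ i < d, (d : ℤ) ∣ mq m i * i - r i) : Adm d (mq m) r := by
  refine ⟨hd, ?_, hr, ?_, ?_⟩
  · intro i _
    simp only [mq]
    split_ifs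
    · exact isCoprime_one_left
    · exact Nat.isCoprime_iff_coprime.2 hcop
  · rw [prod_mq hd]; exact hc
  · rw [prod_mq hd]
    calc 2 ≤ m ^ 1 := by rw [pow_one]; omega
      _ ≤ m ^ (d - 1) := Nat.pow_le_pow_right (by omega) (by omega)

theorem adm_mq0 {d m : ℕ} (hd : 2 ≤ d) (hm : d < m) (hcop : Nat.Coprime m d) (hc : m ^ (d - 1) < d ^ d) :
    Adm d (mq m) (fun i => mq m i * i) := adm_mq hd hm hcop hc (fun i _ => by simp)

/-- power saving beyond the entropy exponent -/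
theorem moller_power {d m : ℕ} (hd : 2 ≤ d) (hm : d < m) (hcop : Nat.Coprime m d)
    (hc : m ^ (d - 1) < d ^ d) :
    ∃ c : ℝ, 1 - hq d m < c ∧ ∀ r : ℕ → ℤ, (∀ i < d, (d : ℤ) ∣ mq m i * i - r i) →
      ∃ C : ℝ, 0 < C ∧ ∀ X y : ℝ, 1 ≤ X → 1 ≤ y →
      ({x : ℤ | |(x : ℝ)| ≤ X ∧ ∀ k : ℕ, y < |(((Tm d (mq m) r)^[k] x : ℤ) : ℝ)|}.ncard : ℝ)
        ≤ C * X / y ^ c := by
  obtain ⟨s, hs, hsum⟩ := sum_moller (m' := mq m) hd hm hc (by simp [mq]) (by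
    intro i hi _
    simp only [mq]
    rw [if_neg (by omega)]
    exact abs_of_nonneg (by positivity))
  obtain ⟨h0, h1⟩ := hq_lt hd hm hc
  obtain ⟨c, hcc, h⟩ := power_beyond (adm_mq0 hd hm hcop hc) hs h0 h1 hsum.le
  exact ⟨c, hcc, fun r hr => h r (adm_mq hd hm hcop hc hr)⟩

/-- least elements below the entropy exponent -/
theorem moller_least {d m : ℕ} (hd : 2 ≤ d) (hm : d < m) (hcop : Nat.Coprime m d)
    (hc : m ^ (d - 1) < d ^ d) :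
    ∃ η : ℝ, 0 < η ∧ η < hq d m ∧ ∀ r : ℕ → ℤ, (∀ i < d, (d : ℤ) ∣ mq m i * i - r i) →
      ∃ C : ℝ, 0 < C ∧ ∀ X : ℝ, 1 ≤ X → ∀ F : Finset ℤ,
      (∀ x ∈ F, |(x : ℝ)| ≤ X ∧ ∀ k : ℕ, |(x : ℝ)| ≤ |(((Tm d (mq m) r)^[k] x : ℤ) : ℝ)|) →
      (F.card : ℝ) ≤ C * X ^ η := by
  obtain ⟨s, hs, hsum⟩ := sum_moller (m' := mq m) hd hm hc (by simp [mq]) (by
    intro i hi _
    simp only [mq]
    rw [if_neg (by omega)]
    exact abs_of_nonneg (by positivity))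
  obtain ⟨h0, h1⟩ := hq_lt hd hm hc
  obtain ⟨η, hη0, hη, h⟩ := least_elements (adm_mq0 hd hm hcop hc) hs h0 h1 hsum.le
  exact ⟨η, hη0, hη, fun r hr => h r (adm_mq hd hm hcop hc hr)⟩

end Pool.Agent.TH930.GH
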