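import Pool.Agent.TH930.GH.Opt

/-! Maps of coprime type: translation of the hypotheses, least elements and unrelated trajectories. -/

set_option autoImplicit false

namespace Pool.Agent.TH930.GH

open Finset Pool.Agent.H319R3.GC

variable {d : ℕ} {m r : ℕ → ℤ}

/-- the hypotheses of the problem -/
theorem Adm_of (hd : 2 ≤ d) (hm : ∀ i < d, IsCoprime (m i) (d : ℤ))
    (hr : ∀ i < d, r i ≡ i * m i [ZMOD d]) (hL : ∏ i ∈ range d, |(m i : ℝ) / d| < 1)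
    (hb : ∃ i < d, (d : ℤ) < |m i|) : Adm d m r := by
  have hd0 : (0 : ℝ) < d := by positivity
  have hC : Cop d m (fun i => m i * i) := ⟨hd, hm, fun i _ => by simp⟩
  refine ⟨hd, hm, ?_, ?_, ?_⟩
  · intro i hi
    have h1 := (hr i hi).dvd
    rwa [mul_comm (i : ℤ)] at h1
  · have h1 : ∏ i ∈ range d, |(m i : ℝ) / d| = (∏ i ∈ range d, |(m i : ℝ)|) / (d : ℝ) ^ d := by
      simp only [abs_div, abs_of_pos hd0]
      rw [Finset.prod_div_distrib, Finset.prod_const, card_range]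
    rw [h1, div_lt_one (by positivity)] at hL
    have h2 : ((PP d m : ℕ) : ℝ) = ∏ i ∈ range d, |(m i : ℝ)| := by
      unfold PP
      push_cast
      refine Finset.prod_congr rfl fun i _ => ?_
      rw [Nat.cast_natAbs]
      push_cast
      rfl
    have h3 : ((PP d m : ℕ) : ℝ) < ((d ^ d : ℕ) : ℝ) := by
      rw [h2]; push_cast; exact hL
    exact_mod_cast h3
  · obtain ⟨i, hi, h1⟩ := hb
    have h2 : 2 ≤ (m i).natAbs := by
      have h3 : (2 : ℤ) ≤ |m i| := by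
        have : (2 : ℤ) ≤ d := by exact_mod_cast hd
        linarith
      rw [Int.abs_eq_natAbs] at h3
      exact_mod_cast h3
    refine h2.trans ?_
    unfold PP
    apply Nat.le_of_dvd
    · apply prod_pos
      intro j hj
      exact Int.natAbs_pos.2 (hC.m_ne (mem_range.1 hj))
    · exact dvd_prod_of_mem _ (mem_range.2 hi)

/-- the absolute values form: power saving beyond the optimal Chebyshev exponent -/
theorem power_opt {r0 : ℕ → ℤ} (h0 : Adm d m r0) (hb : ∃ i < d, (d : ℤ) < |m i|) :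
    ∃ c : ℝ, 0 < c ∧ (∀ s : ℝ, 0 ≤ s → 1 - Real.log (∑ i ∈ range d, |(m i : ℝ) / d| ^ s) / Real.log d < c) ∧
      ∀ r : ℕ → ℤ, Adm d m r → ∃ C : ℝ, 0 < C ∧ ∀ X y : ℝ, 1 ≤ X → 1 ≤ y →
      (Set.ncard {x : ℤ | |(x : ℝ)| ≤ X ∧ ∀ n : ℕ, y < |(((Tm d m r)^[n] x : ℤ) : ℝ)|} : ℝ) ≤
        C * X / y ^ c := by
  have hd0 : (0 : ℝ) < d := by exact_mod_cast (by have := h0.two_le; omega : 0 < d)
  obtain ⟨s, η, hs, hη0, hη1, hf, hmin⟩ := exists_min h0 hb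
  obtain ⟨c, hc, h⟩ := power_beyond h0 hs hη0 hη1 hf.le
  refine ⟨c, by linarith, ?_, h⟩
  intro s' hs'
  have h1 := hmin s' hs'
  unfold fs at h1
  simp only [abs_div, abs_of_pos hd0]
  linarith

/-- the least elements, beyond the optimal Chebyshev exponent -/
theorem least_opt {r0 : ℕ → ℤ} (h0 : Adm d m r0) (hb : ∃ i < d, (d : ℤ) < |m i|) :
    ∃ η : ℝ, 0 < η ∧ (∀ s : ℝ, 0 ≤ s → η < Real.log (∑ i ∈ range d, |(m i : ℝ) / d| ^ s) / Real.log d) ∧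
      ∀ r : ℕ → ℤ, Adm d m r → ∃ C : ℝ, 0 < C ∧ ∀ X : ℝ, 1 ≤ X → ∀ F : Finset ℤ,
      (∀ x ∈ F, |(x : ℝ)| ≤ X ∧ ∀ k : ℕ, |(x : ℝ)| ≤ |(((Tm d m r)^[k] x : ℤ) : ℝ)|) →
      (F.card : ℝ) ≤ C * X ^ η := by
  have hd0 : (0 : ℝ) < d := by exact_mod_cast (by have := h0.two_le; omega : 0 < d)
  obtain ⟨s, η, hs, hη0, hη1, hf, hmin⟩ := exists_min h0 hb
  obtain ⟨η', hη'0, hη', h⟩ := least_elements h0 hs hη0 hη1 hf.le
  refine ⟨η', hη'0, ?_, h⟩
  intro s' hs'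
  have h1 := hmin s' hs'
  unfold fs at h1
  simp only [abs_div, abs_of_pos hd0]
  linarith

/-- every trajectory has a least element -/
theorem exists_least (T : ℤ → ℤ) (x : ℤ) : ∃ a : ℕ, |(T^[a] x)| ≤ |x| ∧
    ∀ k : ℕ, |(T^[a] x)| ≤ |T^[k] (T^[a] x)| := by
  classical
  have hex : ∃ v : ℕ, ∃ a : ℕ, (T^[a] x).natAbs = v := ⟨_, 0, rfl⟩
  obtain ⟨a, ha⟩ := Nat.find_spec hex
  have hmin : ∀ b : ℕ, (T^[a] x).natAbs ≤ (T^[b] x).natAbs := by
    intro b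
    rw [ha]
    exact Nat.find_min' hex ⟨b, rfl⟩
  refine ⟨a, ?_, ?_⟩
  · have h1 := hmin 0
    simp only [Function.iterate_zero, id] at h1
    rw [Int.abs_eq_natAbs, Int.abs_eq_natAbs]
    exact_mod_cast h1
  · intro k
    have h1 := hmin (k + a)
    rw [Function.iterate_add_apply] at h1
    rw [Int.abs_eq_natAbs, Int.abs_eq_natAbs]
    exact_mod_cast h1

/-- unrelated trajectories -/
theorem unrelated {T : ℤ → ℤ} {C η : ℝ} {X : ℝ}
    (h : ∀ F : Finset ℤ, (∀ x ∈ F, |(x : ℝ)| ≤ X ∧ ∀ k : ℕ, |(x : ℝ)| ≤ |((T^[k] x : ℤ) : ℝ)|) →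
      (F.card : ℝ) ≤ C * X ^ η) (F : Finset ℤ) (hF : ∀ x ∈ F, |(x : ℝ)| ≤ X)
    (hne : ∀ x ∈ F, ∀ y ∈ F, x ≠ y → ∀ a b : ℕ, T^[a] x ≠ T^[b] y) : (F.card : ℝ) ≤ C * X ^ η := by
  classical
  choose a ha1 ha2 using fun x : ℤ => exists_least T x
  have hinj : Set.InjOn (fun x => T^[a x] x) F := by
    intro x hx y hy hxy
    by_contra hcon
    exact hne x hx y hy hcon _ _ hxy
  have h1 := h (F.image (fun x => T^[a x] x)) (by
    intro z hz
    rw [mem_image] at hz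
    obtain ⟨x, hx, rfl⟩ := hz
    constructor
    · have h2 : |((T^[a x] x : ℤ) : ℝ)| ≤ |(x : ℝ)| := by exact_mod_cast ha1 x
      exact h2.trans (hF x hx)
    · intro k
      exact_mod_cast ha2 x k)
  rwa [card_image_of_injOn hinj] at h1

end Pool.Agent.TH930.GH
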