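import Pool.Agent.TH930.GH.Mid
import Pool.Agent.TH930.EBQ.Bad

/-! Counting the frequencies with few white blocks by their carries. -/

set_option autoImplicit false

namespace Pool.Agent.TH930.GH

open Finset Pool.Agent.H319R3.GC
open Pool.Agent.TH930.EBQ (e e_zero e_add norm_e psi abs_psi nz nz_nil nz_cons sin_sq_psi)

variable {d : ℕ} {m r : ℕ → ℤ}

/-- the number of white blocks -/
noncomputable def wh (d : ℕ) (m : ℕ → ℤ) (L : ℕ) : ℝ → List ℕ → ℕ
  | φ, (a :: b :: v) => by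
    classical
    exact (if 1 / (L : ℝ) ≤ |psi φ| then 1 else 0) + wh d m L ((d : ℝ) ^ 2 * φ / (m a * m b)) v
  | _, _ => 0

/-- the carries -/
noncomputable def car (d : ℕ) (m : ℕ → ℤ) : ℝ → List ℕ → List ℤ
  | φ, (a :: b :: v) =>
    ((d : ℤ) ^ 2 * round φ - m a * m b * round ((d : ℝ) ^ 2 * φ / (m a * m b))) ::
      car d m ((d : ℝ) ^ 2 * φ / (m a * m b)) v
  | _, _ => []

open Classical in
lemma wh_cons (L : ℕ) (φ : ℝ) (a b : ℕ) (v : List ℕ) : wh d m L φ (a :: b :: v) =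
    (if 1 / (L : ℝ) ≤ |psi φ| then 1 else 0) + wh d m L ((d : ℝ) ^ 2 * φ / (m a * m b)) v := rfl

lemma car_cons (φ : ℝ) (a b : ℕ) (v : List ℕ) : car d m φ (a :: b :: v) =
    ((d : ℤ) ^ 2 * round φ - m a * m b * round ((d : ℝ) ^ 2 * φ / (m a * m b))) ::
      car d m ((d : ℝ) ^ 2 * φ / (m a * m b)) v := rfl

/-- the lists with entries in `[-L, L]` -/
noncomputable def cl (L : ℕ) : ℕ → Finset (List ℤ)
  | 0 => {[]}
  | n + 1 => ((Icc (-(L : ℤ)) L) ×ˢ cl L n).image (fun p => p.1 :: p.2)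

lemma sum_Icc_z (L : ℕ) (z : ℝ) : ∑ x ∈ Icc (-(L : ℤ)) L, (if x = 0 then 1 else z) = 1 + 2 * L * z := by
  have h1 : ∀ x ∈ Icc (-(L : ℤ)) L, (if x = 0 then 1 else z) = z + (if x = 0 then 1 - z else 0) := by
    intro x _
    split_ifs <;> ring
  rw [sum_congr rfl h1, sum_add_distrib, sum_const, sum_ite_eq', if_pos (by rw [mem_Icc]; omega),
    Int.card_Icc, nsmul_eq_mul]
  have h2 : ((((L : ℤ) + 1 - -(L : ℤ)).toNat : ℤ) : ℝ) = 2 * L + 1 := by
    rw [Int.toNat_of_nonneg (by omega)]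
    push_cast
    ring
  have h3 : (((L : ℤ) + 1 - -(L : ℤ)).toNat : ℝ) = 2 * L + 1 := by exact_mod_cast h2
  rw [h3]
  ring

lemma sum_cl (L : ℕ) (z : ℝ) (n : ℕ) : ∑ c ∈ cl L n, z ^ nz c = (1 + 2 * L * z) ^ n := by
  induction n with
  | zero => simp [cl]
  | succ n ih =>
    rw [cl, sum_image, sum_product]
    · have h1 : ∀ x ∈ Icc (-(L : ℤ)) L, ∑ c ∈ cl L n, z ^ nz (x :: c) =
          (if x = 0 then 1 else z) * (1 + 2 * L * z) ^ n := by
        intro x _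
        rw [← ih, mul_sum]
        apply sum_congr rfl
        intro c _
        rw [nz_cons]
        split_ifs
        · rw [zero_add, one_mul]
        · rw [pow_add, pow_one]
      simp only
      rw [sum_congr rfl h1, ← sum_mul, pow_succ, mul_comm, sum_Icc_z]
    · intro p _ q _ h
      simp only [List.cons.injEq] at h
      exact Prod.ext h.1 h.2

lemma cl_cons {L n : ℕ} {x : ℤ} {c : List ℤ} (hx : |x| ≤ L) (hc : c ∈ cl L n) :
    x :: c ∈ cl L (n + 1) := by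
  rw [cl, mem_image]
  refine ⟨(x, c), ?_, rfl⟩
  rw [mem_product, mem_Icc, ← abs_le]
  exact ⟨hx, hc⟩

/-- one carry -/
lemma carry_eq (h : Cop d m r) {φ : ℝ} {a b : ℕ} (ha : a < d) (hb : b < d) :
    (((d : ℤ) ^ 2 * round φ - m a * m b * round ((d : ℝ) ^ 2 * φ / (m a * m b)) : ℤ) : ℝ) =
      (m a * m b : ℝ) * psi ((d : ℝ) ^ 2 * φ / (m a * m b)) - (d : ℝ) ^ 2 * psi φ := by
  unfold psi
  push_cast
  have m1 : (m a : ℝ) ≠ 0 := by exact_mod_cast h.m_ne ha
  have m2 : (m b : ℝ) ≠ 0 := by exact_mod_cast h.m_ne hb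
  field_simp
  ring

/-- the size of the blocks -/
def Big (d : ℕ) (m : ℕ → ℤ) (L : ℕ) : Prop :=
  ∀ a < d, ∀ b < d, |(m a : ℝ) * m b| + (d : ℝ) ^ 2 ≤ L

lemma exists_Big (d : ℕ) (m : ℕ → ℤ) : ∃ L : ℕ, 1 ≤ L ∧ Big d m L := by
  refine ⟨⌈(∑ a ∈ range d, ∑ b ∈ range d, |(m a : ℝ) * m b|) + (d : ℝ) ^ 2⌉₊ + 1, by omega, ?_⟩
  intro a ha b hb
  push_cast
  have h1 := Nat.le_ceil ((∑ a ∈ range d, ∑ b ∈ range d, |(m a : ℝ) * m b|) + (d : ℝ) ^ 2)
  have h2 : |(m a : ℝ) * m b| ≤ ∑ b ∈ range d, |(m a : ℝ) * m b| :=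
    single_le_sum (f := fun b => |(m a : ℝ) * m b|) (fun _ _ => abs_nonneg _) (mem_range.2 hb)
  have h3 : ∑ b ∈ range d, |(m a : ℝ) * m b| ≤ ∑ a ∈ range d, ∑ b ∈ range d, |(m a : ℝ) * m b| :=
    single_le_sum (f := fun a => ∑ b ∈ range d, |(m a : ℝ) * m b|)
      (fun _ _ => sum_nonneg fun _ _ => abs_nonneg _) (mem_range.2 ha)
  linarith

lemma len_two {n : ℕ} {a b : ℕ} {v : List ℕ} (hv : (a :: b :: v) ∈ LW d (2 * (n + 1))) :
    a < d ∧ b < d ∧ v ∈ LW d (2 * n) := by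
  rw [mem_LW] at hv ⊢
  obtain ⟨h1, h2⟩ := hv
  refine ⟨h2 a (by simp), h2 b (by simp), ?_, fun i hi => h2 i (by simp [hi])⟩
  simp only [List.length_cons] at h1
  omega

lemma car_mem (h : Cop d m r) {L : ℕ} (hL : Big d m L) (n : ℕ) : ∀ (φ : ℝ) (v : List ℕ),
    v ∈ LW d (2 * n) → car d m φ v ∈ cl L n := by
  induction n with
  | zero =>
    intro φ v hv
    have := LW_len hv
    rw [mul_zero, List.length_eq_zero_iff] at this
    rw [this]; simp [car, cl]
  | succ n ih =>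
    intro φ v hv
    match v, hv with
    | [], hv => have := LW_len hv; simp at this
    | [a], hv => have := LW_len hv; simp at this; omega
    | (a :: b :: v), hv =>
      obtain ⟨ha, hb, hv'⟩ := len_two hv
      rw [car_cons]
      apply cl_cons _ (ih _ v hv')
      have h2 := carry_eq h (φ := φ) ha hb
      have h3 := abs_psi ((d : ℝ) ^ 2 * φ / (m a * m b))
      have h4 := abs_psi φ
      have h5 := hL a ha b hb
      have h6 : |(((d : ℤ) ^ 2 * round φ - m a * m b * round ((d : ℝ) ^ 2 * φ / (m a * m b)) : ℤ) : ℝ)|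
          ≤ L := by
        rw [h2]
        have h7 : |(m a : ℝ) * m b * psi ((d : ℝ) ^ 2 * φ / (m a * m b))| ≤ |(m a : ℝ) * m b| * (1 / 2) := by
          rw [abs_mul]
          exact mul_le_mul_of_nonneg_left h3 (abs_nonneg _)
        have h8 : |(d : ℝ) ^ 2 * psi φ| ≤ (d : ℝ) ^ 2 * (1 / 2) := by
          rw [abs_mul, abs_of_nonneg (by positivity : (0 : ℝ) ≤ (d : ℝ) ^ 2)]
          exact mul_le_mul_of_nonneg_left h4 (by positivity)
        have h9 := abs_sub ((m a : ℝ) * m b * psi ((d : ℝ) ^ 2 * φ / (m a * m b))) ((d : ℝ) ^ 2 * psi φ)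
        have h10 := abs_nonneg ((m a : ℝ) * m b)
        have h11 : (0 : ℝ) ≤ (d : ℝ) ^ 2 := by positivity
        linarith
      exact_mod_cast h6

lemma nz_le (h : Cop d m r) {L : ℕ} (hL1 : 1 ≤ L) (hL : Big d m L) (n : ℕ) : ∀ (φ : ℝ) (v : List ℕ),
    v ∈ LW d (2 * n) → nz (car d m φ v) ≤ 2 * wh d m L φ v + 1 ∧
      (0 < n → 1 / (L : ℝ) ≤ |psi φ| → nz (car d m φ v) ≤ 2 * wh d m L φ v) := by
  have hLR : (0 : ℝ) < L := by exact_mod_cast hL1
  induction n with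
  | zero =>
    intro φ v hv
    have := LW_len hv
    rw [mul_zero, List.length_eq_zero_iff] at this
    rw [this]; simp [car]
  | succ n ih =>
    intro φ v hv
    match v, hv with
    | [], hv => have := LW_len hv; simp at this
    | [a], hv => have := LW_len hv; simp at this; omega
    | (a :: b :: v), hv =>
      obtain ⟨ha, hb, hv'⟩ := len_two hv
      obtain ⟨i1, i2⟩ := ih ((d : ℝ) ^ 2 * φ / (m a * m b)) v hv'
      rw [car_cons, nz_cons, wh_cons]
      by_cases hw : 1 / (L : ℝ) ≤ |psi φ|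
      · rw [if_pos hw]
        constructor
        · split_ifs <;> omega
        · intro _ _
          split_ifs <;> omega
      · rw [if_neg hw]
        refine ⟨?_, fun _ h => absurd h hw⟩
        rcases Nat.eq_zero_or_pos n with hn | hn
        · have : nz (car d m ((d : ℝ) ^ 2 * φ / (m a * m b)) v) = 0 := by
            have := LW_len hv'
            rw [hn, mul_zero, List.length_eq_zero_iff] at this
            rw [this]; rfl
          rw [this]
          split_ifs <;> omega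
        · by_cases hw' : 1 / (L : ℝ) ≤ |psi ((d : ℝ) ^ 2 * φ / (m a * m b))|
          · have := i2 hn hw'
            split_ifs <;> omega
          · have h2 := carry_eq h (φ := φ) ha hb
            have h5 := hL a ha b hb
            push Not at hw hw'
            have h6 : |(((d : ℤ) ^ 2 * round φ - m a * m b * round ((d : ℝ) ^ 2 * φ / (m a * m b)) : ℤ) : ℝ)|
                < 1 := by
              rw [h2]
              have h7 : |(m a : ℝ) * m b * psi ((d : ℝ) ^ 2 * φ / (m a * m b))| ≤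
                  |(m a : ℝ) * m b| * (1 / L) := by
                rw [abs_mul]
                exact mul_le_mul_of_nonneg_left hw'.le (abs_nonneg _)
              have hd0 : (0 : ℝ) < d := by exact_mod_cast (by have := h.two_le; omega : 0 < d)
              have h8 : |(d : ℝ) ^ 2 * psi φ| < (d : ℝ) ^ 2 * (1 / L) := by
                rw [abs_mul, abs_of_nonneg (by positivity : (0 : ℝ) ≤ (d : ℝ) ^ 2)]
                exact mul_lt_mul_of_pos_left hw (by positivity)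
              have h9 := abs_sub ((m a : ℝ) * m b * psi ((d : ℝ) ^ 2 * φ / (m a * m b)))
                ((d : ℝ) ^ 2 * psi φ)
              have h10 : (|(m a : ℝ) * m b| + (d : ℝ) ^ 2) * (1 / L) ≤ L * (1 / L) :=
                mul_le_mul_of_nonneg_right h5 (by positivity)
              rw [mul_one_div_cancel hLR.ne'] at h10
              linarith
            have h9 : |(d : ℤ) ^ 2 * round φ - m a * m b * round ((d : ℝ) ^ 2 * φ / (m a * m b))| < 1 := by
              exact_mod_cast h6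
            rw [Int.abs_lt_one_iff] at h9
            rw [if_pos h9]
            omega

/-- equal carries -/
lemma car_eq (h : Cop d m r) (n : ℕ) : ∀ (φ φ' : ℝ) (v : List ℕ), v ∈ LW d (2 * n) →
    car d m φ v = car d m φ' v →
    (Mw m v : ℝ) * (psi ((d : ℝ) ^ (2 * n) * φ / Mw m v) - psi ((d : ℝ) ^ (2 * n) * φ' / Mw m v)) =
      (d : ℝ) ^ (2 * n) * (psi φ - psi φ') := by
  induction n with
  | zero =>
    intro φ φ' v hv _
    have := LW_len hv
    rw [mul_zero, List.length_eq_zero_iff] at this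
    rw [this]; simp [Mw]
  | succ n ih =>
    intro φ φ' v hv hc
    match v, hv, hc with
    | [], hv, hc => have := LW_len hv; simp at this
    | [a], hv, hc => have := LW_len hv; simp at this; omega
    | (a :: b :: v), hv, hc =>
      obtain ⟨ha, hb, hv'⟩ := len_two hv
      rw [car_cons, car_cons, List.cons.injEq] at hc
      have h2 := ih _ _ v hv' hc.2
      have h3 := carry_eq h (φ := φ) ha hb
      have h4 := carry_eq h (φ := φ') ha hb
      rw [hc.1, h4] at h3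
      have m1 : (m a : ℝ) ≠ 0 := by exact_mod_cast h.m_ne ha
      have m2 : (m b : ℝ) ≠ 0 := by exact_mod_cast h.m_ne hb
      have m3 : (Mw m v : ℝ) ≠ 0 := by exact_mod_cast h.Mw_ne (mem_LW.1 hv').2
      have e1 : ∀ x : ℝ, (d : ℝ) ^ (2 * (n + 1)) * x / (Mw m (a :: b :: v) : ℤ) =
          (d : ℝ) ^ (2 * n) * ((d : ℝ) ^ 2 * x / (m a * m b)) / Mw m v := by
        intro x
        rw [Mw_cons, Mw_cons]
        push_cast
        rw [show 2 * (n + 1) = 2 * n + 2 by ring, pow_add]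
        field_simp
      rw [e1, e1]
      have e2 : ((Mw m (a :: b :: v) : ℤ) : ℝ) = m a * m b * Mw m v := by
        rw [Mw_cons, Mw_cons]; push_cast; ring
      rw [e2, mul_assoc (m a * m b : ℝ), h2, show 2 * (n + 1) = 2 * n + 2 by ring, pow_add]
      linear_combination (-(d : ℝ) ^ (2 * n)) * h3

/-- two frequencies with equal carries -/
lemma car_end (h : Cop d m r) {n i B : ℕ} (hB : B = 2 * n + i) {b b' : ℤ} {v : List ℕ}
    (hv : v ∈ LW d (2 * n)) (hc : car d m ((Mw m v : ℝ) * ((b : ℝ) / (d : ℝ) ^ B)) v =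
      car d m ((Mw m v : ℝ) * ((b' : ℝ) / (d : ℝ) ^ B)) v) :
    ∃ x : ℤ, |x| ≤ (d : ℤ) ^ i ∧ (d : ℤ) ^ B ∣ x - (b - b') := by
  have h1 := car_eq h n _ _ v hv hc
  have hd0 : (0 : ℝ) < d := by exact_mod_cast (by have := h.two_le; omega : 0 < d)
  have hB2 : (d : ℝ) ^ B = (d : ℝ) ^ (2 * n) * (d : ℝ) ^ i := by
    rw [hB, pow_add]
  have hdn : (0 : ℝ) < (d : ℝ) ^ (2 * n) := by positivity
  have hdi : (0 : ℝ) < (d : ℝ) ^ i := by positivity
  have hdB : (0 : ℝ) < (d : ℝ) ^ B := by positivity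
  have m3 : (Mw m v : ℝ) ≠ 0 := by exact_mod_cast h.Mw_ne (mem_LW.1 hv).2
  have e1 : ∀ b : ℤ, (d : ℝ) ^ (2 * n) * ((Mw m v : ℝ) * ((b : ℝ) / (d : ℝ) ^ B)) / Mw m v =
      b / (d : ℝ) ^ i := by
    intro b; rw [hB2]; field_simp
  rw [e1, e1] at h1
  set c : ℤ := round ((b : ℝ) / (d : ℝ) ^ i) with hcdef
  set c' : ℤ := round ((b' : ℝ) / (d : ℝ) ^ i) with hcdef'
  set N : ℤ := round ((Mw m v : ℝ) * ((b : ℝ) / (d : ℝ) ^ B)) with hN
  set N' : ℤ := round ((Mw m v : ℝ) * ((b' : ℝ) / (d : ℝ) ^ B)) with hN'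
  set x : ℤ := (b - (d : ℤ) ^ i * c) - (b' - (d : ℤ) ^ i * c') with hx
  have hxr : psi ((b : ℝ) / (d : ℝ) ^ i) - psi ((b' : ℝ) / (d : ℝ) ^ i) = (x : ℝ) / (d : ℝ) ^ i := by
    unfold psi
    rw [← hcdef, ← hcdef', hx]
    push_cast
    field_simp
  refine ⟨x, ?_, ?_⟩
  · have h2 := abs_sub (psi ((b : ℝ) / (d : ℝ) ^ i)) (psi ((b' : ℝ) / (d : ℝ) ^ i))
    have h3 := abs_psi ((b : ℝ) / (d : ℝ) ^ i)
    have h4 := abs_psi ((b' : ℝ) / (d : ℝ) ^ i)
    rw [hxr, abs_div, abs_of_pos hdi] at h2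
    have h5 : |(x : ℝ)| / (d : ℝ) ^ i ≤ 1 := by linarith
    rw [div_le_one hdi] at h5
    exact_mod_cast h5
  · rw [hxr] at h1
    have h2 : psi ((Mw m v : ℝ) * ((b : ℝ) / (d : ℝ) ^ B)) - psi ((Mw m v : ℝ) * ((b' : ℝ) / (d : ℝ) ^ B)) =
        ((Mw m v * (b - b') - (d : ℤ) ^ B * (N - N') : ℤ) : ℝ) / (d : ℝ) ^ B := by
      unfold psi; rw [← hN, ← hN']; push_cast; field_simp; ring
    rw [h2] at h1
    have h3 : (Mw m v : ℝ) * x = ((Mw m v * (b - b') - (d : ℤ) ^ B * (N - N') : ℤ) : ℝ) := by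
      have h4 : (Mw m v : ℝ) * (x / (d : ℝ) ^ i) * (d : ℝ) ^ B =
          (d : ℝ) ^ (2 * n) * (((Mw m v * (b - b') - (d : ℤ) ^ B * (N - N') : ℤ) : ℝ) / (d : ℝ) ^ B) *
            (d : ℝ) ^ B := by rw [h1]
      have h5 : (Mw m v : ℝ) * (x / (d : ℝ) ^ i) * (d : ℝ) ^ B = (d : ℝ) ^ (2 * n) * (Mw m v * x) := by
        rw [hB2]; field_simp
      have h6 : (d : ℝ) ^ (2 * n) * (((Mw m v * (b - b') - (d : ℤ) ^ B * (N - N') : ℤ) : ℝ) / (d : ℝ) ^ B) *
            (d : ℝ) ^ B =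
          (d : ℝ) ^ (2 * n) * ((Mw m v * (b - b') - (d : ℤ) ^ B * (N - N') : ℤ) : ℝ) := by
        field_simp
      rw [h5, h6] at h4
      exact mul_left_cancel₀ hdn.ne' h4
    have h4 : Mw m v * x = Mw m v * (b - b') - (d : ℤ) ^ B * (N - N') := by exact_mod_cast h3
    have h5 : (d : ℤ) ^ B ∣ Mw m v * (x - (b - b')) := ⟨-(N - N'), by linear_combination h4⟩
    have hc : IsCoprime ((d : ℤ) ^ B) (Mw m v) := (h.Mw_cop (mem_LW.1 hv).2).symm.pow_left
    exact hc.dvd_of_dvd_mul_left h5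

/-! ### The gain -/

lemma g_le {κ : ℝ} (hκ : 0 ≤ κ) {L : ℕ} (hL : 1 ≤ L) {x : ℝ} (hx : 1 / (L : ℝ) ≤ |psi x|) :
    1 - κ * Real.sin (Real.pi * x) ^ 2 ≤ 1 - κ * (4 / (L : ℝ) ^ 2) := by
  have hLR : (0 : ℝ) < L := by exact_mod_cast hL
  have h1 : 2 / (L : ℝ) ≤ Real.sin (Real.pi * |psi x|) := by
    have hpi := Real.pi_pos
    have h2 := Real.mul_le_sin (x := Real.pi * |psi x|) (by positivity) (by
      have := abs_psi x
      nlinarith)
    have h3 : 2 / Real.pi * (Real.pi * |psi x|) = 2 * |psi x| := by field_simp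
    rw [h3] at h2
    have h4 : 2 / (L : ℝ) = 2 * (1 / L) := by ring
    rw [h4]
    linarith
  have h2 : 4 / (L : ℝ) ^ 2 ≤ Real.sin (Real.pi * x) ^ 2 := by
    rw [sin_sq_psi]
    have h3 : 4 / (L : ℝ) ^ 2 = (2 / L) ^ 2 := by rw [div_pow]; norm_num
    rw [h3]
    exact pow_le_pow_left₀ (by positivity) h1 2
  nlinarith

lemma g_le_one {κ : ℝ} (hκ : 0 ≤ κ) (x : ℝ) : 1 - κ * Real.sin x ^ 2 ≤ 1 := by
  nlinarith [sq_nonneg (Real.sin x)]

lemma Gw_le {κ : ℝ} (h0 : 0 ≤ κ) (h1 : κ < 1) {L : ℕ} (hL1 : 2 ≤ L) (n : ℕ) : ∀ (φ : ℝ) (v : List ℕ),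
    v.length = 2 * n → Gw d m κ φ v ≤ (1 - κ * (4 / (L : ℝ) ^ 2)) ^ wh d m L φ v := by
  have hLR : (2 : ℝ) ≤ L := by exact_mod_cast hL1
  have h4L : 4 / (L : ℝ) ^ 2 ≤ 1 := by
    rw [div_le_one (by positivity)]; nlinarith
  have hb : 0 ≤ 1 - κ * (4 / (L : ℝ) ^ 2) := by
    have : 0 < 4 / (L : ℝ) ^ 2 := by positivity
    nlinarith
  induction n with
  | zero =>
    intro φ v hv
    rw [mul_zero, List.length_eq_zero_iff] at hv
    rw [hv, Gw_nil]; simp [wh]
  | succ n ih =>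
    intro φ v hv
    match v, hv with
    | (a :: b :: v), hv =>
      have hv' : v.length = 2 * n := by
        simp only [List.length_cons] at hv
        omega
      rw [Gw_cons, wh_cons, pow_add]
      apply mul_le_mul _ (ih _ v hv') (Gw_pos h0 h1 n _ v hv').le (by
        apply pow_nonneg; exact hb)
      split_ifs with hw
      · rw [pow_one]; exact g_le h0 (by omega) hw
      · rw [pow_zero]; exact g_le_one h0 _

/-- the sum over the frequencies, for one word -/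
lemma sum_word (h : Cop d m r) {κ : ℝ} (hκ0 : 0 ≤ κ) (hκ1 : κ < 1) {L : ℕ} (hL2 : 2 ≤ L)
    (hL : Big d m L) {n i B R k : ℕ} {a lam : ℤ} (hB : B = 2 * n + i) (hRB : R ≤ d ^ B)
    (ha : (d : ℤ) ^ B ∣ lam * a - Dl d m r)
    (hrid : ∀ x D : ℤ, |x| ≤ (d : ℤ) ^ i → |D| < R → (d : ℤ) ^ B ∣ lam * x - Dl d m r * D → x = 0)
    {z : ℝ} (hz0 : 0 < z) (hz1 : z ≤ 1) (hz : (1 - κ * (4 / (L : ℝ) ^ 2)) ^ k ≤ z ^ 2)
    {v : List ℕ} (hv : v ∈ LW d (2 * n)) :
    ∑ ξ ∈ range R, Gw d m κ ((Mw m v : ℝ) * ((((ξ : ℤ) * a : ℤ) : ℝ) / (d : ℝ) ^ B)) v ^ k * z ≤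
      (1 + 2 * L * z) ^ n := by
  classical
  set φ : ℕ → ℝ := fun ξ => (Mw m v : ℝ) * ((((ξ : ℤ) * a : ℤ) : ℝ) / (d : ℝ) ^ B) with hφ
  set C : ℕ → List ℤ := fun ξ => car d m (φ ξ) v with hC
  have hinj : Set.InjOn C (range R) := by
    intro ξ hξ η hη hh
    rw [mem_coe, mem_range] at hξ hη
    obtain ⟨x, hx1, hx2⟩ := car_end h hB hv hh
    have h1 : (d : ℤ) ^ B ∣ lam * x - Dl d m r * ((ξ : ℤ) - η) := by
      have e1 : lam * x - Dl d m r * ((ξ : ℤ) - η) =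
          lam * (x - ((ξ : ℤ) * a - (η : ℤ) * a)) + ((ξ : ℤ) - η) * (lam * a - Dl d m r) := by ring
      rw [e1]
      exact dvd_add (hx2.mul_left _) (ha.mul_left _)
    have h2 : |(ξ : ℤ) - η| < R := by
      have a1 : (ξ : ℤ) < R := by exact_mod_cast hξ
      have a2 : (η : ℤ) < R := by exact_mod_cast hη
      rw [abs_lt]; constructor <;> omega
    have h3 := hrid x _ hx1 h2 h1
    rw [h3, mul_zero, zero_sub, dvd_neg] at h1
    have hc : IsCoprime ((d : ℤ) ^ B) (Dl d m r) := h.Dl_cop.symm.pow_left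
    have h4 := hc.dvd_of_dvd_mul_left h1
    have h5 : (ξ : ℤ) - η = 0 := by
      apply Int.eq_zero_of_abs_lt_dvd h4
      have : (R : ℤ) ≤ (d : ℤ) ^ B := by exact_mod_cast hRB
      omega
    omega
  have h1 : ∑ c ∈ (range R).image C, z ^ nz c ≤ (1 + 2 * L * z) ^ n := by
    rw [← sum_cl]
    apply sum_le_sum_of_subset_of_nonneg
    · intro c hc
      rw [mem_image] at hc
      obtain ⟨ξ, -, rfl⟩ := hc
      exact car_mem h hL n _ v hv
    · intro c _ _; positivity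
  rw [sum_image hinj] at h1
  refine le_trans ?_ h1
  have hLR : (2 : ℝ) ≤ L := by exact_mod_cast hL2
  have h4L : 4 / (L : ℝ) ^ 2 ≤ 1 := by
    rw [div_le_one (by positivity)]; nlinarith
  have hb : 0 ≤ 1 - κ * (4 / (L : ℝ) ^ 2) := by
    have : 0 < 4 / (L : ℝ) ^ 2 := by positivity
    nlinarith
  apply sum_le_sum
  intro ξ _
  have h2 := Gw_le (d := d) (m := m) hκ0 hκ1 hL2 n (φ ξ) v (LW_len hv)
  have h3 := (Gw_pos (d := d) (m := m) hκ0 hκ1 n (φ ξ) v (LW_len hv)).le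
  have h4 := (nz_le h (by omega) hL n (φ ξ) v hv).1
  set w := wh d m L (φ ξ) v with hw
  calc Gw d m κ (φ ξ) v ^ k * z ≤ ((1 - κ * (4 / (L : ℝ) ^ 2)) ^ w) ^ k * z :=
        mul_le_mul_of_nonneg_right (pow_le_pow_left₀ h3 h2 k) hz0.le
    _ = ((1 - κ * (4 / (L : ℝ) ^ 2)) ^ k) ^ w * z := by rw [← pow_mul, ← pow_mul, mul_comm w k]
    _ ≤ (z ^ 2) ^ w * z := by
        apply mul_le_mul_of_nonneg_right _ hz0.le
        exact pow_le_pow_left₀ (by positivity) hz w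
    _ = z ^ (2 * w + 1) := by rw [← pow_mul, pow_succ]
    _ ≤ z ^ nz (C ξ) := pow_le_pow_of_le_one hz0.le hz1 h4

end Pool.Agent.TH930.GH
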