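import Pool.Agent.TH930.GH.Win

/-! The number of integers of an interval whose word has a given multiplier. -/

set_option autoImplicit false

namespace Pool.Agent.TH930.GH

open Finset Pool.Agent.H319R3.GC
open Pool.Agent.TH930.EBQ (e e_zero e_add norm_e)

variable {d : ℕ} {m r : ℕ → ℤ}

/-- the multipliers of words -/
def IsU (d : ℕ) (m : ℕ → ℤ) (ν : ℤ) : Prop := ∃ u : List ℕ, (∀ i ∈ u, i < d) ∧ Mw m u = ν

lemma IsU.mul {ν ν' : ℤ} (h : IsU d m ν) (h' : IsU d m ν') : IsU d m (ν * ν') := by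
  obtain ⟨u, hu, rfl⟩ := h
  obtain ⟨v, hv, rfl⟩ := h'
  refine ⟨u ++ v, fun i hi => ?_, Mw_append u v⟩
  rcases List.mem_append.1 hi with h | h
  · exact hu i h
  · exact hv i h

lemma IsU_of_Ms {n : ℕ} {ν : ℤ} (h : ν ∈ Ms d m n) : IsU d m ν := by
  obtain ⟨v, hv, rfl⟩ := mem_Ms.1 h
  exact ⟨v, (mem_LW.1 hv).2, rfl⟩

lemma Cop.U_ne (h : Cop d m r) {ν : ℤ} (hν : IsU d m ν) : ν ≠ 0 := by
  obtain ⟨u, hu, rfl⟩ := hν
  exact h.Mw_ne hu

open Classical in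
/-- the words with multiplier `μ`, the multiplier of the first `K1` letters being at least `D0` -/
noncomputable def Sg (d : ℕ) (m : ℕ → ℤ) (K1 N2 : ℕ) (μ : ℤ) (D0 : ℕ) : Finset (List ℕ) :=
  (gr d m (K1 + N2) μ).filter (fun v => (D0 : ℤ) ≤ |Mw m (v.take K1)|)

open Classical in
/-- the corresponding factorisations -/
noncomputable def Tg (d : ℕ) (m : ℕ → ℤ) (K1 N2 : ℕ) (μ : ℤ) (D0 : ℕ) : Finset (ℤ × ℤ) :=
  (Tp d m K1 N2 μ).filter (fun p => (D0 : ℤ) ≤ |p.1|)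

lemma sum_Sg {α : Type*} [AddCommMonoid α] (K1 N2 : ℕ) (μ : ℤ) (D0 : ℕ) (f : List ℕ → α) :
    ∑ v ∈ Sg d m K1 N2 μ D0, f v =
      ∑ p ∈ Tg d m K1 N2 μ D0, ∑ u ∈ gr d m K1 p.1, ∑ v ∈ gr d m N2 p.2, f (u ++ v) := by
  classical
  unfold Sg Tg
  rw [sum_filter, sum_filter, sum_gr_add]
  apply sum_congr rfl
  intro p _
  have h1 : ∀ u ∈ gr d m K1 p.1, ∑ v ∈ gr d m N2 p.2,
      (if (D0 : ℤ) ≤ |Mw m ((u ++ v).take K1)| then f (u ++ v) else 0) =
      if (D0 : ℤ) ≤ |p.1| then ∑ v ∈ gr d m N2 p.2, f (u ++ v) else 0 := by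
    intro u hu
    rw [mem_gr] at hu
    have h2 : ∀ v ∈ gr d m N2 p.2,
        (if (D0 : ℤ) ≤ |Mw m ((u ++ v).take K1)| then f (u ++ v) else 0) =
        if (D0 : ℤ) ≤ |p.1| then f (u ++ v) else 0 := by
      intro v _
      rw [List.take_left' (LW_len hu.1), hu.2]
    rw [sum_congr rfl h2]
    split_ifs
    · rfl
    · exact sum_const_zero
  rw [sum_congr rfl h1]
  split_ifs
  · rfl
  · exact sum_const_zero

lemma norm_Sg (h : Cop d m r) {K1 n M K : ℕ} (hK : K = K1 + 2 * n * M) (μ : ℤ) (D0 : ℕ) (g0 : ℤ)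
    (ξ : ℕ) :
    ‖∑ v ∈ Sg d m K1 (2 * n * M) μ D0,
      e (ξ * (((m 0 * m 1 * g0 * Ww d m r v : ℤ) : ℝ) / ((d ^ K : ℕ) : ℝ)))‖ ≤
      ∑ p ∈ Tg d m K1 (2 * n * M) μ D0, ((gr d m K1 p.1).card : ℝ) * A d m r n M g0 ξ p.2 := by
  have hd0 : (0 : ℝ) < d := by exact_mod_cast (by have := h.two_le; omega : 0 < d)
  rw [sum_Sg]
  refine (norm_sum_le _ _).trans (sum_le_sum fun p _ => ?_)
  have h1 : ∀ u ∈ gr d m K1 p.1, ∑ v ∈ gr d m (2 * n * M) p.2,
      e (ξ * (((m 0 * m 1 * g0 * Ww d m r (u ++ v) : ℤ) : ℝ) / ((d ^ K : ℕ) : ℝ))) =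
      e (ξ * (((m 0 * m 1 * g0 * (p.2 * Ww d m r u) : ℤ) : ℝ) / (d : ℝ) ^ K)) *
        ∑ v ∈ gr d m (2 * n * M) p.2, e (((m 0 * m 1 : ℤ) : ℝ) *
          ((((ξ : ℤ) * g0 : ℤ) : ℝ) / (d : ℝ) ^ (2 * n * M)) * ((Ww d m r v : ℤ) : ℝ)) := by
    intro u hu
    rw [mul_sum]
    apply sum_congr rfl
    intro v hv
    rw [mem_gr] at hu hv
    rw [← e_add, Ww_append, LW_len hu.1, hv.2]
    congr 1
    have e2 : (d : ℝ) ^ K = (d : ℝ) ^ K1 * (d : ℝ) ^ (2 * n * M) := by rw [hK, pow_add]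
    push_cast
    rw [e2]
    field_simp
  rw [sum_congr rfl h1]
  refine (norm_sum_le _ _).trans ?_
  have h2 : ∀ u ∈ gr d m K1 p.1,
      ‖e (ξ * (((m 0 * m 1 * g0 * (p.2 * Ww d m r u) : ℤ) : ℝ) / (d : ℝ) ^ K)) *
        ∑ v ∈ gr d m (2 * n * M) p.2, e (((m 0 * m 1 : ℤ) : ℝ) *
          ((((ξ : ℤ) * g0 : ℤ) : ℝ) / (d : ℝ) ^ (2 * n * M)) * ((Ww d m r v : ℤ) : ℝ))‖ =
      A d m r n M g0 ξ p.2 := by
    intro u _
    rw [norm_mul, norm_e, one_mul]
    rfl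
  rw [sum_congr rfl h2, sum_const, nsmul_eq_mul]

theorem count_type (h : Cop d m r) (s : ℝ) {L : ℕ} (hL2 : 2 ≤ L) (hL : Big d m L)
    {n M K1 K R k D0 : ℕ} {μ : ℤ} (hK : K = K1 + 2 * n * M) (hM : M = 2 * k) (hk : 1 ≤ k)
    (hR0 : 0 < R) (hR : R ≤ d ^ (2 * n)) (hμ : μ ≠ 0) (hμd : IsCoprime μ (d : ℤ))
    (hrid : ∀ j < M, ∀ ν : ℤ, IsU d m ν → (D0 : ℤ) ≤ |ν| → ν ∣ μ → ∀ x D : ℤ,
      |x| ≤ (d : ℤ) ^ (2 * n * j) → |D| < R →
      (d : ℤ) ^ (2 * n * (j + 1)) ∣ m 0 * m 1 * ν * x - Dl d m r * D → x = 0)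
    {z : ℝ} (hz0 : 0 < z) (hz1 : z ≤ 1)
    (hz : (1 - 2 * ps d m s 0 * ps d m s 1 * (4 / (L : ℝ) ^ 2)) ^ k ≤ z ^ 2)
    (u : ℤ) (B : Finset ℤ)
    (hB : ∀ x ∈ B, |x - u| * (8 * R) ≤ (d : ℤ) ^ K ∧ wd d m r K x ∈ Sg d m K1 (2 * n * M) μ D0) :
    (B.card : ℝ) * PM d m s K μ ≤
      4 / R * ((((K : ℝ) + 1) ^ (2 * d)) ^ (k + 1) *
        (M * ((K : ℝ) + 1) ^ (2 * d) * ((1 + 2 * L * z) ^ n / z))) := by
  classical
  have hd := h.two_le
  set Qb : ℝ := ((K : ℝ) + 1) ^ (2 * d) with hQb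
  have hQb0 : 0 < Qb := by positivity
  set κ : ℝ := 2 * ps d m s 0 * ps d m s 1 with hκ
  obtain ⟨hκ0, hκ1⟩ := h.ps_kap s
  rw [← hκ] at hκ0 hκ1
  -- the inverse
  obtain ⟨g0, hg0⟩ : ∃ g0 : ℤ, (d : ℤ) ^ K ∣ μ * (m 0 * m 1 * g0) - 1 := by
    have hc : IsCoprime (μ * (m 0 * m 1)) ((d : ℤ) ^ K) :=
      (hμd.mul_left ((h.cop 0 (by omega)).mul_left (h.cop 1 (by omega)))).pow_right
    obtain ⟨u, w, huw⟩ := hc
    exact ⟨u, -w, by linear_combination huw⟩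
  have hRR : (0 : ℝ) < R := by exact_mod_cast hR0
  set P : ℝ := PM d m s K μ with hP
  have hP0 : 0 < P := PM_pos h s K hμ
  -- the cardinalities
  have hTp : ∀ N1 N2 : ℕ, N1 ≤ K → N2 ≤ K → ∀ μ, ((Tp d m N1 N2 μ).card : ℝ) ≤ Qb := by
    intro N1 N2 h1 h2 μ
    have h3 := card_Tp (d := d) (m := m) N1 N2 μ
    have h4 : (N1 + 1) ^ d * (N2 + 1) ^ d ≤ (K + 1) ^ (2 * d) := by
      rw [two_mul, pow_add]
      exact Nat.mul_le_mul (Nat.pow_le_pow_left (by omega) d) (Nat.pow_le_pow_left (by omega) d)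
    rw [hQb]
    exact_mod_cast h3.trans h4
  -- the count
  have hdK : 0 < d ^ K := by positivity
  have hcount := count_abs (N := d ^ K) hdK hR0 (Sg d m K1 (2 * n * M) μ D0)
    (fun v => m 0 * m 1 * g0 * Ww d m r v) u B (fun x => wd d m r K x) (by
      intro x hx y hy hxy
      rw [mem_coe] at hx hy
      have h3 := h.wd_cong hxy
      have h1 := (hB x hx).1
      have h2 := (hB y hy).1
      have h4 : x - y = 0 := by
        apply Int.eq_zero_of_abs_lt_dvd h3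
        have h5 : |x - y| ≤ |x - u| + |y - u| := by
          have : x - y = (x - u) - (y - u) := by ring
          rw [this]; exact abs_sub _ _
        have hR1 : (1 : ℤ) ≤ R := by exact_mod_cast hR0
        have h6 : ∀ w : ℤ, 0 ≤ w → w * (8 * R) ≤ (d : ℤ) ^ K → w * 8 ≤ (d : ℤ) ^ K := by
          intro w hw h
          nlinarith
        have h7 := h6 _ (abs_nonneg _) h1
        have h8 := h6 _ (abs_nonneg _) h2
        have h9 : (0 : ℤ) < (d : ℤ) ^ K := by exact_mod_cast hdK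
        linarith
      linarith) (by
      intro x hx
      obtain ⟨h1, h2⟩ := hB x hx
      refine ⟨by push_cast; exact h1, h2, ?_⟩
      push_cast
      apply h.residue hg0
      have h3 := (mem_filter.1 h2).1
      exact (mem_gr.1 h3).2)
  -- the parameters
  set Gd : ℤ → Prop := fun μ2 => ∃ ν : ℤ, IsU d m ν ∧ (D0 : ℤ) ≤ |ν| ∧ ν * μ2 = μ with hGd
  set Pm : Finset (Σ _ : ℕ, ℤ × ℤ) := (range M).sigma
    (fun j => ((Ms d m (2 * n * j)).filter Gd) ×ˢ Ms d m (2 * n)) with hPm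
  set Gp : ℕ → (Σ _ : ℕ, ℤ × ℤ) → ℝ := fun ξ x =>
    G d m r κ n x.2.2 (2 * n * (x.1 + 1)) (g0 * x.2.1) ξ with hGp
  have hGp0 : ∀ ξ x, 0 ≤ Gp ξ x := fun ξ x => G_nonneg hκ0.le hκ1 _ _ _ _ _
  have hmax : ∀ ξ : ℕ, ∃ S : ℝ, 0 ≤ S ∧ (∀ x ∈ Pm, Gp ξ x ≤ S) ∧ S ^ k ≤ ∑ x ∈ Pm, Gp ξ x ^ k := by
    intro ξ
    rcases Pm.eq_empty_or_nonempty with h0 | hne
    · refine ⟨0, le_rfl, ?_, ?_⟩
      · intro x hx; rw [h0] at hx; simp at hx
      · rw [h0, sum_empty, zero_pow (by omega)]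
    · obtain ⟨x0, hx0, hmx⟩ := exists_max_image Pm (Gp ξ) hne
      refine ⟨Gp ξ x0, hGp0 ξ x0, hmx, ?_⟩
      exact single_le_sum (f := fun x => Gp ξ x ^ k) (fun x _ => pow_nonneg (hGp0 ξ x) k) hx0
  choose S hS0 hSG hSn using hmax
  have hKn : 2 * n * M ≤ K := by omega
  have hnj : ∀ j < M, 2 * n * j ≤ K ∧ 2 * n ≤ K ∧ 2 * n * (j + 1) ≤ K := by
    intro j hj
    have h1 : 2 * n * (j + 1) ≤ 2 * n * M := Nat.mul_le_mul_left _ (by omega)
    have h2 : 2 * n * (j + 1) = 2 * n * j + 2 * n := by ring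
    omega
  -- one frequency
  have hfreq : ∀ ξ : ℕ, ‖∑ v ∈ Sg d m K1 (2 * n * M) μ D0,
      e (ξ * (((m 0 * m 1 * g0 * Ww d m r v : ℤ) : ℝ) / ((d ^ K : ℕ) : ℝ)))‖ * P ≤
      Qb ^ (k + 1) * S ξ ^ k := by
    intro ξ
    have h1 := norm_Sg h hK μ D0 g0 ξ
    have hS := hS0 ξ
    have h2 : ∀ p ∈ Tg d m K1 (2 * n * M) μ D0,
        ((gr d m K1 p.1).card : ℝ) * A d m r n M g0 ξ p.2 * P ≤ Qb ^ k * S ξ ^ k := by
      intro p hp
      unfold Tg at hp
      rw [mem_filter] at hp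
      obtain ⟨hp1, hp2⟩ := hp
      unfold Tp at hp1
      rw [mem_filter, mem_product] at hp1
      obtain ⟨⟨hq1, hq2⟩, hq3⟩ := hp1
      have hgood : Gd p.2 := ⟨p.1, IsU_of_Ms hq1, hp2, hq3⟩
      have e1 : P = PM d m s K1 p.1 * PM d m s (2 * n * M) p.2 := by
        rw [hP, hK, ← PM_mul, hq3]
      have h8 := card_gr_PM h s K1 p.1
      have h9 := card_gr_PM h s (2 * n * M) p.2
      have h10 := A_bound h s n g0 ξ M hS (fun j hj μ => hTp _ _ (hnj j hj).2.1 (hnj j hj).1 μ) Gd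
        (by
          intro μ1 hμ1 μ2 hg
          obtain ⟨ν, h11, h12, h13⟩ := hg
          refine ⟨ν * μ1, h11.mul (IsU_of_Ms hμ1), ?_, by rw [mul_assoc]; exact h13⟩
          rw [abs_mul]
          refine h12.trans ?_
          exact le_mul_of_one_le_right (abs_nonneg _) (Int.one_le_abs (h.Ms_ne hμ1)))
        (by
          intro j hj μ2 hμ2 hg μ1 hμ1
          exact hSG ξ ⟨j, (μ2, μ1)⟩ (by
            rw [hPm, mem_sigma, mem_product, mem_filter, mem_range]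
            exact ⟨hj, ⟨hμ2, hg⟩, hμ1⟩)) M le_rfl p.2 hgood
      set P1 : ℝ := PM d m s K1 p.1 with hP1
      set P2 : ℝ := PM d m s (2 * n * M) p.2 with hP2
      have hP10 : 0 ≤ P1 := PM_nonneg h s _ _
      have hP20 : 0 ≤ P2 := PM_nonneg h s _ _
      have hA0 : 0 ≤ A d m r n M g0 ξ p.2 := norm_nonneg _
      have h11 : A d m r n M g0 ξ p.2 * P2 ≤ Qb ^ k * S ξ ^ k := by
        apply le_of_sq_le_sq _ (by positivity)
        calc (A d m r n M g0 ξ p.2 * P2) ^ 2 = (A d m r n M g0 ξ p.2 ^ 2 * P2) * P2 := by ring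
          _ ≤ (Qb ^ M * S ξ ^ M * (gr d m (2 * n * M) p.2).card) * P2 :=
              mul_le_mul_of_nonneg_right h10 hP20
          _ = Qb ^ M * S ξ ^ M * ((gr d m (2 * n * M) p.2).card * P2) := by ring
          _ ≤ Qb ^ M * S ξ ^ M * 1 := mul_le_mul_of_nonneg_left h9 (by positivity)
          _ = _ := by rw [mul_one, hM, mul_comm 2 k, pow_mul, pow_mul, mul_pow]
      calc ((gr d m K1 p.1).card : ℝ) * A d m r n M g0 ξ p.2 * P
          = (((gr d m K1 p.1).card : ℝ) * P1) * (A d m r n M g0 ξ p.2 * P2) := by rw [e1]; ring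
        _ ≤ 1 * (Qb ^ k * S ξ ^ k) := mul_le_mul h8 h11 (by positivity) zero_le_one
        _ = _ := one_mul _
    calc ‖∑ v ∈ Sg d m K1 (2 * n * M) μ D0,
          e (ξ * (((m 0 * m 1 * g0 * Ww d m r v : ℤ) : ℝ) / ((d ^ K : ℕ) : ℝ)))‖ * P
        ≤ (∑ p ∈ Tg d m K1 (2 * n * M) μ D0, ((gr d m K1 p.1).card : ℝ) * A d m r n M g0 ξ p.2) * P :=
          mul_le_mul_of_nonneg_right h1 hP0.le
      _ = ∑ p ∈ Tg d m K1 (2 * n * M) μ D0,
          ((gr d m K1 p.1).card : ℝ) * A d m r n M g0 ξ p.2 * P := by rw [sum_mul]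
      _ ≤ ∑ _p ∈ Tg d m K1 (2 * n * M) μ D0, Qb ^ k * S ξ ^ k := sum_le_sum h2
      _ = ((Tg d m K1 (2 * n * M) μ D0).card : ℝ) * (Qb ^ k * S ξ ^ k) := by
          rw [sum_const, nsmul_eq_mul]
      _ ≤ Qb * (Qb ^ k * S ξ ^ k) := by
          apply mul_le_mul_of_nonneg_right _ (by positivity)
          refine le_trans ?_ (hTp K1 (2 * n * M) (by omega) hKn μ)
          unfold Tg
          exact_mod_cast card_filter_le _ _
      _ = _ := by rw [pow_succ]; ring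
  -- all frequencies
  have hsum : ∑ ξ ∈ range R, S ξ ^ k ≤ M * Qb * ((1 + 2 * L * z) ^ n / z) := by
    calc ∑ ξ ∈ range R, S ξ ^ k ≤ ∑ ξ ∈ range R, ∑ x ∈ Pm, Gp ξ x ^ k := sum_le_sum fun ξ _ => hSn ξ
      _ = ∑ x ∈ Pm, ∑ ξ ∈ range R, Gp ξ x ^ k := sum_comm
      _ ≤ ∑ _x ∈ Pm, (1 + 2 * L * z) ^ n / z := by
          apply sum_le_sum
          rintro ⟨j, μ2, μ1⟩ hx
          rw [hPm, mem_sigma, mem_product, mem_filter, mem_range] at hx
          obtain ⟨hj, ⟨hμ2, ν, hν1, hν2, hν3⟩, hμ1⟩ := hx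
          simp only at hj hμ2 hν3 hμ1
          change ∑ ξ ∈ range R, G d m r κ n μ1 (2 * n * (j + 1)) (g0 * μ2) ξ ^ k ≤ _
          refine sum_G h hκ0.le hκ1 hL2 hL (i := 2 * n * j) (lam := m 0 * m 1 * ν) (by ring) ?_ ?_
            (hrid j hj ν hν1 hν2 ⟨μ2, hν3.symm⟩) hz0 hz1 hz hk hμ1
          · refine hR.trans (Nat.pow_le_pow_right (by omega) ?_)
            exact Nat.le_mul_of_pos_right _ (by omega)
          · have e2 : m 0 * m 1 * ν * (Dl d m r * (g0 * μ2)) - Dl d m r =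
                Dl d m r * (μ * (m 0 * m 1 * g0) - 1) := by rw [← hν3]; ring
            rw [e2]
            exact ((pow_dvd_pow _ (hnj j hj).2.2).trans hg0).mul_left _
      _ = (Pm.card : ℝ) * ((1 + 2 * L * z) ^ n / z) := by rw [sum_const, nsmul_eq_mul]
      _ ≤ _ := by
          apply mul_le_mul_of_nonneg_right _ (by positivity)
          rw [hPm, card_sigma]
          push_cast
          have h1 : ∀ j ∈ range M, ((((Ms d m (2 * n * j)).filter Gd) ×ˢ Ms d m (2 * n)).card : ℝ) ≤ Qb := by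
            intro j hj
            rw [mem_range] at hj
            rw [card_product]
            have h2 : ((Ms d m (2 * n * j)).filter Gd).card * (Ms d m (2 * n)).card ≤
                (K + 1) ^ (2 * d) := by
              rw [show 2 * d = d + d by ring, pow_add]
              apply Nat.mul_le_mul
              · refine (card_filter_le _ _).trans ((card_Ms _).trans ?_)
                exact Nat.pow_le_pow_left (by have := (hnj j hj).1; omega) d
              · refine (card_Ms _).trans ?_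
                exact Nat.pow_le_pow_left (by have := (hnj j hj).2.1; omega) d
            rw [hQb]
            exact_mod_cast h2
          have h3 := sum_le_card_nsmul (range M) _ _ h1
          rwa [card_range, nsmul_eq_mul] at h3
  calc (B.card : ℝ) * P ≤ (4 / R * ∑ ξ ∈ range R, ‖∑ v ∈ Sg d m K1 (2 * n * M) μ D0,
        e (ξ * (((m 0 * m 1 * g0 * Ww d m r v : ℤ) : ℝ) / ((d ^ K : ℕ) : ℝ)))‖) * P :=
        mul_le_mul_of_nonneg_right hcount hP0.le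
    _ = 4 / R * ∑ ξ ∈ range R, ‖∑ v ∈ Sg d m K1 (2 * n * M) μ D0,
        e (ξ * (((m 0 * m 1 * g0 * Ww d m r v : ℤ) : ℝ) / ((d ^ K : ℕ) : ℝ)))‖ * P := by
        rw [mul_assoc, sum_mul]
    _ ≤ 4 / R * ∑ ξ ∈ range R, Qb ^ (k + 1) * S ξ ^ k :=
        mul_le_mul_of_nonneg_left (sum_le_sum fun ξ _ => hfreq ξ) (by positivity)
    _ = 4 / R * (Qb ^ (k + 1) * ∑ ξ ∈ range R, S ξ ^ k) := by rw [← mul_sum]
    _ ≤ _ := by
        apply mul_le_mul_of_nonneg_left _ (by positivity)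
        exact mul_le_mul_of_nonneg_left hsum (by positivity)

/-- the words whose first letters have a small multiplier -/
lemma bad_words (h : Cop d m r) (s : ℝ) (K1 N2 : ℕ) (μ : ℤ) (D0 : ℕ) (S : Finset (List ℕ))
    (hS : ∀ v ∈ S, v ∈ gr d m (K1 + N2) μ ∧ |Mw m (v.take K1)| < D0) :
    (S.card : ℝ) * PM d m s (K1 + N2) μ ≤
      D0 * (∑ i ∈ range d, ps d m s i / |(m i : ℝ)|) ^ K1 := by
  classical
  have h1 : ∑ v ∈ S, Pr (ps d m s) v = (S.card : ℝ) * PM d m s (K1 + N2) μ := by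
    rw [← nsmul_eq_mul, ← sum_const]
    apply sum_congr rfl
    intro v hv
    have h1 := mem_gr.1 (hS v hv).1
    rw [Pr_ps, LW_len h1.1, h1.2]
  rw [← h1]
  have hsub : S ⊆ (LW d (K1 + N2)).filter (fun v => |Mw m (v.take K1)| < D0) := by
    intro v hv
    rw [mem_filter]
    exact ⟨(mem_gr.1 (hS v hv).1).1, (hS v hv).2⟩
  have hPr0 : ∀ v : List ℕ, (∀ i ∈ v, i < d) → 0 < Pr (ps d m s) v := fun v hv =>
    Pr_pos (h.ps_pos s) hv
  have h2 : ∑ v ∈ S, Pr (ps d m s) v ≤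
      ∑ v ∈ LW d (K1 + N2), if |Mw m (v.take K1)| < D0 then Pr (ps d m s) v else 0 := by
    rw [← sum_filter]
    apply sum_le_sum_of_subset_of_nonneg hsub
    intro v hv _
    exact (hPr0 v (mem_LW.1 (mem_filter.1 hv).1).2).le
  refine h2.trans ?_
  rw [sum_LW_add]
  have hdiv : ∀ u : List ℕ, (∀ i ∈ u, i < d) →
      Pr (fun i => ps d m s i / |(m i : ℝ)|) u = Pr (ps d m s) u / |(Mw m u : ℝ)| := by
    intro u
    induction u with
    | nil => intro _; simp [Pr, Mw]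
    | cons a u ih =>
      intro hu
      have ih' := ih fun i hi => hu i (by simp [hi])
      rw [Pr_cons, Pr_cons, ih', Mw_cons]
      push_cast
      rw [abs_mul, div_mul_div_comm]
  calc ∑ u ∈ LW d K1, ∑ v ∈ LW d N2,
        (if |Mw m ((u ++ v).take K1)| < D0 then Pr (ps d m s) (u ++ v) else 0)
      ≤ ∑ u ∈ LW d K1, ∑ v ∈ LW d N2,
        D0 * (Pr (fun i => ps d m s i / |(m i : ℝ)|) u * Pr (ps d m s) v) := by
        apply sum_le_sum
        intro u hu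
        apply sum_le_sum
        intro v hv
        have hul := (mem_LW.1 hu).2
        have hvl := (mem_LW.1 hv).2
        rw [List.take_left' (LW_len hu), Pr_append, hdiv u hul]
        have hu0 := hPr0 u hul
        have hv0 := hPr0 v hvl
        have hM0 : (0 : ℝ) < |(Mw m u : ℝ)| := _root_.abs_pos.2 (by exact_mod_cast h.Mw_ne hul)
        split_ifs with hh
        · have hhR : |(Mw m u : ℝ)| ≤ D0 := by exact_mod_cast hh.le
          have h3 : 1 ≤ D0 / |(Mw m u : ℝ)| := by rwa [le_div_iff₀ hM0, one_mul]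
          calc Pr (ps d m s) u * Pr (ps d m s) v = 1 * (Pr (ps d m s) u * Pr (ps d m s) v) :=
                (one_mul _).symm
            _ ≤ (D0 / |(Mw m u : ℝ)|) * (Pr (ps d m s) u * Pr (ps d m s) v) :=
                mul_le_mul_of_nonneg_right h3 (by positivity)
            _ = _ := by ring
        · positivity
    _ = D0 * ((∑ u ∈ LW d K1, Pr (fun i => ps d m s i / |(m i : ℝ)|) u) *
          ∑ v ∈ LW d N2, Pr (ps d m s) v) := by
        rw [sum_mul_sum, mul_sum]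
        apply sum_congr rfl
        intro u _
        rw [mul_sum]
    _ = _ := by
        rw [sum_Pr, sum_Pr, h.ps_sum s, one_pow, mul_one]

end Pool.Agent.TH930.GH
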