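import Pool.Agent.TH930.GH.Inv

/-! Cycles of maps of coprime type. -/

set_option autoImplicit false

namespace Pool.Agent.TH930.GH

open Finset Filter Topology Pool.Agent.H319R3.GC

variable {d : ℕ} {m r : ℕ → ℤ}

/-- the periodic orbits (cycles) of a map on the integers, as finite sets -/
def IsCycle (f : ℤ → ℤ) (c : Finset ℤ) : Prop :=
  ∃ x : ℤ, ∃ p : ℕ, 1 ≤ p ∧ f^[p] x = x ∧ c = (range p).image (fun j => f^[j] x)

theorem IsCycle.nonempty {f : ℤ → ℤ} {c : Finset ℤ} (h : IsCycle f c) : c.Nonempty := by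
  obtain ⟨x, p, hp, hx, rfl⟩ := h
  exact ⟨x, mem_image.2 ⟨0, mem_range.2 hp, rfl⟩⟩

theorem IsCycle.mem_iff {f : ℤ → ℤ} {c : Finset ℤ} (h : IsCycle f c) {y : ℤ} (hy : y ∈ c) (z : ℤ) :
    z ∈ c ↔ ∃ k : ℕ, f^[k] y = z := by
  obtain ⟨x, p, hp, hx, rfl⟩ := h
  rw [mem_image] at hy
  obtain ⟨j, hj, rfl⟩ := hy
  rw [mem_range] at hj
  rw [mem_image]
  constructor
  · rintro ⟨i, hi, rfl⟩
    refine ⟨i + p - j, ?_⟩
    rw [← Function.iterate_add_apply, show i + p - j + j = i + p by omega, Function.iterate_add_apply, hx]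
  · rintro ⟨k, rfl⟩
    have hper : Function.IsPeriodicPt f p x := hx
    refine ⟨(k + j) % p, mem_range.2 (Nat.mod_lt _ hp), ?_⟩
    rw [hper.iterate_mod_apply, Function.iterate_add_apply]

theorem IsCycle.map_mem {f : ℤ → ℤ} {c : Finset ℤ} (h : IsCycle f c) : ∀ x ∈ c, f x ∈ c := by
  intro x hx
  exact (h.mem_iff hx _).2 ⟨1, rfl⟩

theorem IsCycle.disjoint {f : ℤ → ℤ} {c c' : Finset ℤ} (h : IsCycle f c) (h' : IsCycle f c')
    (hne : c ≠ c') : Disjoint c c' := by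
  rw [Finset.disjoint_left]
  intro y hy hy'
  apply hne
  ext z
  rw [h.mem_iff hy, h'.mem_iff hy']

/-- the cycles contained in `[-X, X]` are finitely many -/
theorem cycles_finite (f : ℤ → ℤ) (X : ℝ) :
    {c : Finset ℤ | IsCycle f c ∧ ∀ x ∈ c, |(x : ℝ)| ≤ X}.Finite := by
  apply ((Icc (-⌈X⌉) ⌈X⌉).powerset.finite_toSet).subset
  rintro c ⟨-, hc⟩
  rw [mem_coe, mem_powerset]
  intro x hx
  have h1 := abs_le.1 (hc x hx)
  have h2 := Int.le_ceil X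
  rw [mem_Icc]
  constructor
  · have : (-(⌈X⌉ : ℤ) : ℝ) ≤ x := by linarith
    exact_mod_cast this
  · have : (x : ℝ) ≤ (⌈X⌉ : ℤ) := by linarith
    exact_mod_cast this

/-- counting cycles: expanding case -/
theorem cycles_of_inv {T : ℤ → ℤ} {C X η : ℝ}
    (h : ∀ 𝒞 : Finset (Finset ℤ),
      (∀ c ∈ 𝒞, c.Nonempty ∧ (∀ x ∈ c, T x ∈ c) ∧ ∀ x ∈ c, |(x : ℝ)| ≤ X) →
      (∀ c ∈ 𝒞, ∀ c' ∈ 𝒞, c ≠ c' → Disjoint c c') → (𝒞.card : ℝ) ≤ C * X ^ η) :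
    ({c : Finset ℤ | IsCycle T c ∧ ∀ x ∈ c, |(x : ℝ)| ≤ X}.ncard : ℝ) ≤ C * X ^ η := by
  classical
  rw [Set.ncard_eq_toFinset_card _ (cycles_finite T X)]
  apply h
  · intro c hc
    rw [Set.Finite.mem_toFinset] at hc
    exact ⟨hc.1.nonempty, hc.1.map_mem, hc.2⟩
  · intro c hc c' hc' hne
    rw [Set.Finite.mem_toFinset] at hc hc'
    exact hc.1.disjoint hc'.1 hne

/-- counting cycles: contracting case -/
theorem cycles_of_least {T : ℤ → ℤ} {C X η : ℝ}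
    (h : ∀ F : Finset ℤ, (∀ x ∈ F, |(x : ℝ)| ≤ X ∧ ∀ k : ℕ, |(x : ℝ)| ≤ |((T^[k] x : ℤ) : ℝ)|) →
      (F.card : ℝ) ≤ C * X ^ η) :
    ({c : Finset ℤ | IsCycle T c ∧ ∀ x ∈ c, |(x : ℝ)| ≤ X}.ncard : ℝ) ≤ C * X ^ η := by
  classical
  rw [Set.ncard_eq_toFinset_card _ (cycles_finite T X)]
  set 𝒞 := (cycles_finite T X).toFinset with h𝒞
  have hm : ∀ c ∈ 𝒞, IsCycle T c ∧ ∀ x ∈ c, |(x : ℝ)| ≤ X := by
    intro c hc
    rw [h𝒞, Set.Finite.mem_toFinset] at hc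
    exact hc
  have hx : ∀ c ∈ 𝒞, ∃ x ∈ c, ∀ z ∈ c, |(x : ℝ)| ≤ |(z : ℝ)| :=
    fun c hc => exists_min_image c (fun z : ℤ => |(z : ℝ)|) (hm c hc).1.nonempty
  choose! x hx1 hx2 using hx
  have hinj : Set.InjOn x 𝒞 := by
    intro c hc c' hc' hcc
    by_contra hne
    have h1 := (hm c hc).1.disjoint (hm c' hc').1 hne
    exact Finset.disjoint_left.1 h1 (hx1 c hc) (hcc ▸ hx1 c' hc')
  rw [← card_image_of_injOn hinj]
  apply h
  intro w hw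
  rw [mem_image] at hw
  obtain ⟨c, hc, rfl⟩ := hw
  refine ⟨(hm c hc).2 _ (hx1 c hc), fun k => ?_⟩
  exact hx2 c hc _ (((hm c hc).1.mem_iff (hx1 c hc) _).2 ⟨k, rfl⟩)

/-- the expanding case in general -/
theorem expanding (hd : 2 ≤ d) (hm : ∀ i < d, IsCoprime (m i) (d : ℤ))
    (hL : 1 < ∏ i ∈ range d, |(m i : ℝ) / d|) (hb : ∃ i < d, |m i| < (d : ℤ)) :
    ∃ η : ℝ, 0 < η ∧ η < 1 ∧
      (∀ s : ℝ, s ≤ 0 → η < Real.log (∑ i ∈ range d, |(m i : ℝ) / d| ^ s) / Real.log d) ∧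
      ∀ r : ℕ → ℤ, (∀ i < d, r i ≡ i * m i [ZMOD d]) → ∃ C : ℝ, 0 < C ∧ ∀ X : ℝ, 1 ≤ X →
        ({c : Finset ℤ | IsCycle (Tm d m r) c ∧ ∀ x ∈ c, |(x : ℝ)| ≤ X}.ncard : ℝ) ≤ C * X ^ η := by
  have hd0 : (0 : ℝ) < d := by exact_mod_cast (by omega : 0 < d)
  have hadm : ∀ r : ℕ → ℤ, (∀ i < d, r i ≡ i * m i [ZMOD d]) → Cop d m r := by
    intro r hr
    refine ⟨hd, hm, fun i hi => ?_⟩
    have h1 := (hr i hi).dvd
    rwa [mul_comm (i : ℤ)] at h1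
  have hC := hadm (fun i => i * m i) (fun i _ => Int.ModEq.refl _)
  have hpos : ∀ i < d, 0 < |(m i : ℝ) / d| := by
    intro i hi
    rw [abs_div, abs_of_pos hd0]
    exact div_pos (hC.abs_pos hi) hd0
  have hbig0 : ∃ i < d, 2 ≤ |m i| := by
    by_contra hcon
    push Not at hcon
    have h1 : ∏ i ∈ range d, |(m i : ℝ) / d| ≤ 1 := by
      apply prod_le_one (fun i _ => abs_nonneg _)
      intro i hi
      rw [mem_range] at hi
      have h2 := hcon i hi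
      have h3 : |(m i : ℝ)| ≤ 1 := by
        have h4 : |m i| ≤ 1 := by omega
        exact_mod_cast h4
      rw [abs_div, abs_of_pos hd0, div_le_one hd0]
      have : (2 : ℝ) ≤ d := by exact_mod_cast hd
      linarith
    linarith
  obtain ⟨s, η, hs, hη0, hη1, hf, hmin⟩ := exists_min_real hd
    (a := fun i => |(m i : ℝ) / d|⁻¹) (fun i hi => inv_pos.2 (hpos i hi)) (by
      rw [prod_inv_distrib]
      exact inv_lt_one_of_one_lt₀ hL) (by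
      obtain ⟨i, hi, h1⟩ := hb
      refine ⟨i, hi, ?_⟩
      have h2 : |(m i : ℝ) / d| < 1 := by
        rw [abs_div, abs_of_pos hd0, div_lt_one hd0]
        exact_mod_cast h1
      exact (one_lt_inv₀ (hpos i hi)).2 h2)
  have hconv : ∀ t : ℝ, ∑ i ∈ range d, |(m i : ℝ) / d|⁻¹ ^ t = ∑ i ∈ range d, |(m i : ℝ) / d| ^ (-t) := by
    intro t
    apply sum_congr rfl
    intro i _
    rw [Real.inv_rpow (abs_nonneg _), Real.rpow_neg (abs_nonneg _)]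
  rw [hconv] at hf
  have hf' : ∑ j ∈ range d, (|(m j : ℝ)| / d) ^ (-s) ≤ (d : ℝ) ^ η := by
    rw [← hf]
    apply le_of_eq
    apply sum_congr rfl
    intro i _
    rw [abs_div, abs_of_pos hd0]
  obtain ⟨η', hη'0, hη', h⟩ := largest_elements hC hbig0 (s := -s) (by linarith) hη0 hη1 hf'
  refine ⟨η', hη'0, by linarith, ?_, fun r hr => ?_⟩
  · intro t ht
    have h1 := hmin (-t) (by linarith)
    rw [hconv, neg_neg] at h1
    linarith
  · obtain ⟨L, hL0, C, hC0, h1⟩ := h r (hadm r hr)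
    obtain ⟨C', hC', h2⟩ := inv_sets hL0 hC0 hη'0 h1
    exact ⟨C', hC', fun X hX => cycles_of_inv (h2 X hX)⟩

end Pool.Agent.TH930.GH
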