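import Pool.Agent.TH930.GH.Leigh

/-! Maps of coprime type without contraction: elements with a prescribed size of the multiplier, and the
largest elements of trajectories. -/

set_option autoImplicit false

namespace Pool.Agent.TH930.GH

open Finset Filter Topology Pool.Agent.H319R3.GC

variable {d : ℕ} {m r : ℕ → ℤ}

/-- the bound for sets of integers of `[-d ^ i, d ^ i]` with a condition on the multiplier of the first
`(1 + τ) i` steps -/
theorem card_B_gen {r0 : ℕ → ℤ} (h0 : Cop d m r0) (hbig0 : ∃ i < d, 2 ≤ |m i|) {s η A0 : ℝ}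
    (hη0 : 0 ≤ η) (hη1 : η < 1) (hA0 : 0 < A0)
    (hsum : ∑ j ∈ range d, (|(m j : ℝ)| / d) ^ s ≤ (d : ℝ) ^ η) :
    ∃ c1 : ℝ, 0 < c1 ∧ ∃ τ0 : ℝ, 0 < τ0 ∧ τ0 ≤ 1 ∧ ∀ τ : ℝ, 0 < τ → τ ≤ τ0 → ∀ r : ℕ → ℤ,
      Cop d m r → ∃ A : ℝ, 0 ≤ A ∧ ∀ i : ℕ, 1 ≤ i → ∀ B : Finset ℤ,
      (∀ x ∈ B, |x| ≤ (d : ℤ) ^ i ∧ |(Mw m (wd d m r (i + ⌊τ * (i : ℝ)⌋₊) x) : ℝ)| ^ (-s) ≤
        A0 * (d : ℝ) ^ (-(s * (i + ⌊τ * (i : ℝ)⌋₊ : ℕ)))) →
      (B.card : ℝ) ≤ A * ((d : ℝ) ^ (η - τ * (1 - η) + Real.exp (-(c1 / τ)))) ^ i := by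
  classical
  have hd := h0.two_le
  have hdR : (2 : ℝ) ≤ d := by exact_mod_cast hd
  have hd0 : (0 : ℝ) < d := by linarith
  have hl2 : (0.6931471803 : ℝ) < Real.log 2 := Real.log_two_gt_d9
  have hld2 : Real.log 2 ≤ Real.log d := Real.log_le_log (by norm_num) hdR
  have hld : 0 < Real.log d := by linarith
  obtain ⟨c0, hc0, k0, hk0, hmain⟩ := main_large h0 hbig0 s
  -- the error term
  obtain ⟨τ1, hτ10, hτ11⟩ : ∃ τ1 : ℝ, 0 < τ1 ∧ ∀ τ : ℝ, 0 < τ → τ ≤ τ1 →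
      3 * Real.exp (-(c0 / (16 * τ))) ≤ Real.exp (-(c0 / 32 / τ)) := by
    refine ⟨c0 / 64, by positivity, fun τ h1 h2 => ?_⟩
    have h3 : Real.exp (-(c0 / (16 * τ))) = Real.exp (-(c0 / 32 / τ)) * Real.exp (-(c0 / 32 / τ)) := by
      rw [← Real.exp_add]; congr 1; field_simp; ring
    have h4 : Real.exp (-(c0 / 32 / τ)) ≤ 1 / 3 := by
      rw [Real.exp_neg, ← one_div]
      apply one_div_le_one_div_of_le (by norm_num)
      have h5 : 2 ≤ c0 / 32 / τ := by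
        rw [le_div_iff₀ h1]; linarith
      have h6 := Real.add_one_le_exp (c0 / 32 / τ)
      linarith
    have h5 := Real.exp_pos (-(c0 / 32 / τ))
    rw [h3]
    nlinarith
  refine ⟨c0 / 32, by positivity, min τ1 (min (1 / 16) (1 / (16 * k0))), ?_, ?_, ?_⟩
  · have : (0 : ℝ) < k0 := by exact_mod_cast hk0
    positivity
  · exact (min_le_right _ _).trans ((min_le_left _ _).trans (by norm_num))
  intro τ hτ0 hτ r hC
  have hτa : τ ≤ τ1 := hτ.trans (min_le_left _ _)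
  have hτb : τ ≤ 1 / 16 := hτ.trans ((min_le_right _ _).trans (min_le_left _ _))
  have hτc : τ ≤ 1 / (16 * k0) := hτ.trans ((min_le_right _ _).trans (min_le_right _ _))
  have hk0R : (1 : ℝ) ≤ k0 := by exact_mod_cast hk0
  set k : ℕ := ⌊1 / (8 * τ)⌋₊ with hk
  have hk1 : (k : ℝ) ≤ 1 / (8 * τ) := Nat.floor_le (by positivity)
  have hk2 : 1 / (16 * τ) ≤ k := by
    have h1 := Nat.lt_floor_add_one (1 / (8 * τ))
    rw [← hk] at h1
    have h2 : 1 ≤ 1 / (16 * τ) := by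
      rw [le_div_iff₀ (by positivity)]; linarith
    have h3 : 1 / (8 * τ) = 1 / (16 * τ) + 1 / (16 * τ) := by field_simp; norm_num
    linarith
  have hkk0 : k0 ≤ k := by
    have h1 : (k0 : ℝ) ≤ 1 / (16 * τ) := by
      rw [le_div_iff₀ (by positivity)] at hτc ⊢
      linarith
    exact_mod_cast h1.trans hk2
  have hk8 : 8 * k * τ ≤ 1 := by
    rw [le_div_iff₀ (by positivity)] at hk1
    linarith
  obtain ⟨C, hC0, hcount⟩ := hmain k hkk0 r hC
  set E : ℝ := Real.exp (-(c0 / 32 / τ)) with hE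
  have hE0 : 0 < E := Real.exp_pos _
  set θ : ℝ := η - τ * (1 - η) + E with hθ
  -- the threshold
  have e2 : ∀ᶠ i : ℕ in atTop, 3 ≤ τ * (i : ℝ) :=
    (Tendsto.const_mul_atTop hτ0 tendsto_natCast_atTop_atTop).eventually_ge_atTop _
  obtain ⟨i0, hi0⟩ := eventually_atTop.1 e2
  have hdθ : (0 : ℝ) < (d : ℝ) ^ θ := Real.rpow_pos_of_pos hd0 θ
  -- the constants
  set A1 : ℝ := C * A0 * (d : ℝ) ^ (5 : ℝ) with hA1
  have hA10 : 0 < A1 := by positivity
  set A2 : ℝ := ∑ i ∈ range (i0 + 1), 3 * (d : ℝ) ^ i / ((d : ℝ) ^ θ) ^ i with hA2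
  have hA20 : 0 ≤ A2 := sum_nonneg fun _ _ => by positivity
  refine ⟨A1 + A2, by positivity, ?_⟩
  intro i hi B hB
  have hSub : B ⊆ Icc (-(d : ℤ) ^ i) ((d : ℤ) ^ i) := by
    intro x hx
    have h1 := abs_le.1 (hB x hx).1
    exact mem_Icc.2 ⟨by linarith, h1.2⟩
  rcases lt_or_ge i i0 with hsm | hbig
  · have h1 : (B.card : ℝ) ≤ 3 * (d : ℝ) ^ i := by
      have h2 := card_le_card hSub
      rw [Int.card_Icc] at h2
      have h3 : ((d : ℤ) ^ i + 1 - -(d : ℤ) ^ i).toNat = 2 * d ^ i + 1 := by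
        have : ((d : ℤ) ^ i + 1 - -(d : ℤ) ^ i) = ((2 * d ^ i + 1 : ℕ) : ℤ) := by push_cast; ring
        rw [this, Int.toNat_natCast]
      rw [h3] at h2
      have h4 : (B.card : ℝ) ≤ 2 * (d : ℝ) ^ i + 1 := by exact_mod_cast h2
      have h5 : (1 : ℝ) ≤ (d : ℝ) ^ i := one_le_pow₀ (by linarith)
      linarith
    have h2 : 3 * (d : ℝ) ^ i / ((d : ℝ) ^ θ) ^ i ≤ A2 :=
      single_le_sum (f := fun i => 3 * (d : ℝ) ^ i / ((d : ℝ) ^ θ) ^ i) (fun _ _ => by positivity)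
        (mem_range.2 (by omega))
    rw [div_le_iff₀ (by positivity)] at h2
    have h3 : 0 ≤ A1 * ((d : ℝ) ^ θ) ^ i := by positivity
    linarith
  · have g2 := hi0 i hbig
    have hin : (0 : ℝ) ≤ i := Nat.cast_nonneg i
    set ρ0 : ℕ := ⌊τ * (i : ℝ)⌋₊ with hρ0
    have hfl : (ρ0 : ℝ) ≤ τ * i := Nat.floor_le (by positivity)
    have hfl2 : τ * (i : ℝ) < ρ0 + 1 := Nat.lt_floor_add_one _
    have hρ3 : 3 ≤ ρ0 := Nat.le_floor (by exact_mod_cast g2)
    set K : ℕ := i + ρ0 with hK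
    have hKR : (K : ℝ) = i + ρ0 := by rw [hK]; push_cast; rfl
    have hρi : ρ0 ≤ i := by
      have : (ρ0 : ℝ) ≤ i := by nlinarith
      exact_mod_cast this
    set ρ : ℕ := ρ0 - 3 with hρ
    have hρK : ρ ≤ K / (8 * k) := by
      have hk0' : 0 < k := by omega
      rw [Nat.le_div_iff_mul_le (by omega)]
      have h1 : ((ρ0 * (8 * k) : ℕ) : ℝ) ≤ K := by
        push_cast
        rw [hKR]
        have h2 : (ρ0 : ℝ) * (8 * k) ≤ τ * i * (8 * k) := mul_le_mul_of_nonneg_right hfl (by positivity)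
        have h3 : τ * i * (8 * k) = (8 * k * τ) * i := by ring
        have h4 : (8 * k * τ) * i ≤ 1 * i := mul_le_mul_of_nonneg_right hk8 hin
        have h5 : (0 : ℝ) ≤ ρ0 := Nat.cast_nonneg _
        linarith
      have h2 : ρ0 * (8 * k) ≤ K := by exact_mod_cast h1
      exact (Nat.mul_le_mul_right _ (by omega)).trans h2
    have hRpos : 1 ≤ d ^ ρ := Nat.one_le_pow _ _ (by omega)
    -- the count
    have hct := hcount K (d ^ ρ) hRpos (Nat.pow_le_pow_right (by omega) hρK)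
      (A0 * (d : ℝ) ^ (-(s * K))) (by positivity) 0 B (by
        intro x hx
        obtain ⟨hx1, hx2⟩ := hB x hx
        constructor
        · rw [sub_zero]
          have h1 : |x| ≤ (d : ℤ) ^ i := hx1
          have h2 : (8 : ℤ) ≤ (d : ℤ) ^ 3 := by
            have : (2 : ℤ) ≤ d := by exact_mod_cast hd
            calc (8 : ℤ) = 2 ^ 3 := by norm_num
              _ ≤ (d : ℤ) ^ 3 := pow_le_pow_left₀ (by norm_num) this 3
          push_cast
          calc |x| * (8 * (d : ℤ) ^ ρ) ≤ (d : ℤ) ^ i * ((d : ℤ) ^ 3 * (d : ℤ) ^ ρ) := by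
                apply mul_le_mul h1 _ (by positivity) (by positivity)
                exact mul_le_mul_of_nonneg_right h2 (by positivity)
            _ = (d : ℤ) ^ K := by
                rw [← pow_add, ← pow_add]; congr 1; omega
        · exact hx2)
    -- the exponents
    have hZ : Zs d m s ^ K * (A0 * (d : ℝ) ^ (-(s * K))) ≤ A0 * (d : ℝ) ^ (η * K) := by
      have h1 : Zs d m s ≤ (d : ℝ) ^ (η + s) := by
        have h2 : ∑ j ∈ range d, (|(m j : ℝ)| / d) ^ s = Zs d m s / (d : ℝ) ^ s := by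
          unfold Zs
          rw [sum_div]
          apply sum_congr rfl
          intro j _
          rw [Real.div_rpow (abs_nonneg _) hd0.le]
        rw [h2, div_le_iff₀ (Real.rpow_pos_of_pos hd0 s), ← Real.rpow_add hd0] at hsum
        exact hsum
      have h2 : Zs d m s ^ K ≤ (d : ℝ) ^ ((η + s) * K) := by
        calc Zs d m s ^ K ≤ ((d : ℝ) ^ (η + s)) ^ K := pow_le_pow_left₀ (hC.Zs_pos s).le h1 K
          _ = _ := by rw [← Real.rpow_natCast, ← Real.rpow_mul hd0.le]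
      calc Zs d m s ^ K * (A0 * (d : ℝ) ^ (-(s * K)))
          ≤ (d : ℝ) ^ ((η + s) * K) * (A0 * (d : ℝ) ^ (-(s * K))) :=
            mul_le_mul_of_nonneg_right h2 (by positivity)
        _ = A0 * ((d : ℝ) ^ ((η + s) * K) * (d : ℝ) ^ (-(s * K))) := by ring
        _ = _ := by rw [← Real.rpow_add hd0]; congr 2; ring
    have hkE : Real.exp (-(c0 * k)) * 3 ≤ E := by
      refine le_trans ?_ (hτ11 τ hτ0 hτa)
      rw [mul_comm]
      apply mul_le_mul_of_nonneg_left _ (by norm_num)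
      apply Real.exp_le_exp.2
      have h1 : c0 * (1 / (16 * τ)) ≤ c0 * k := mul_le_mul_of_nonneg_left hk2 hc0.le
      have h2 : c0 * (1 / (16 * τ)) = c0 / (16 * τ) := by ring
      linarith
    refine hct.trans ?_
    have hRc : ((d ^ ρ : ℕ) : ℝ) = (d : ℝ) ^ (ρ : ℝ) := by push_cast; rw [Real.rpow_natCast]
    rw [hRc]
    have hexp : Real.exp (Real.exp (-(c0 * k)) * K) = (d : ℝ) ^ (Real.exp (-(c0 * k)) * K / Real.log d) := by
      rw [Real.rpow_def_of_pos hd0]; congr 1; field_simp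
    rw [hexp]
    have hfin : C * (d : ℝ) ^ (Real.exp (-(c0 * k)) * K / Real.log d) *
        (Zs d m s ^ K * (A0 * (d : ℝ) ^ (-(s * K)))) / (d : ℝ) ^ (ρ : ℝ) ≤
        C * A0 * (d : ℝ) ^ (Real.exp (-(c0 * k)) * K / Real.log d + η * K - ρ) := by
      rw [Real.rpow_sub hd0, Real.rpow_add hd0]
      have g3 := mul_le_mul_of_nonneg_left hZ
        (show 0 ≤ C * (d : ℝ) ^ (Real.exp (-(c0 * k)) * K / Real.log d) by positivity)
      have g4 := div_le_div_of_nonneg_right g3 (show 0 ≤ (d : ℝ) ^ (ρ : ℝ) by positivity)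
      refine g4.trans (le_of_eq ?_)
      ring
    refine hfin.trans ?_
    have h1 : (d : ℝ) ^ (Real.exp (-(c0 * k)) * K / Real.log d + η * K - ρ) ≤
        (d : ℝ) ^ (5 : ℝ) * ((d : ℝ) ^ θ) ^ i := by
      rw [← Real.rpow_natCast ((d : ℝ) ^ θ), ← Real.rpow_mul hd0.le, ← Real.rpow_add hd0]
      apply Real.rpow_le_rpow_of_exponent_le (by linarith)
      have h2 : Real.exp (-(c0 * k)) * K / Real.log d ≤ E * i := by
        rw [div_le_iff₀ hld]
        have h3 : (K : ℝ) ≤ 2 * i := by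
          rw [hKR]
          have : (ρ0 : ℝ) ≤ i := by exact_mod_cast hρi
          linarith
        have h4 : Real.exp (-(c0 * k)) * K ≤ Real.exp (-(c0 * k)) * (2 * i) :=
          mul_le_mul_of_nonneg_left h3 (Real.exp_pos _).le
        have h5 : Real.exp (-(c0 * k)) * (2 * i) ≤ (2 / 3) * (E * i) := by
          have h6 : Real.exp (-(c0 * k)) * 3 * i ≤ E * i := mul_le_mul_of_nonneg_right hkE hin
          linarith
        have h6 : (2 / 3) * (E * i) ≤ E * i * Real.log d := by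
          have h7 : 0 ≤ E * i := by positivity
          nlinarith
        linarith
      have h3 : (ρ : ℝ) = ρ0 - 3 := by
        rw [hρ, Nat.cast_sub hρ3]; norm_num
      rw [h3, hKR, hθ]
      have h4 : η * (i + ρ0) - (ρ0 - 3) ≤ 5 + (η - τ * (1 - η)) * i := by
        have h5 : (τ * i - 1) * (1 - η) ≤ ρ0 * (1 - η) :=
          mul_le_mul_of_nonneg_right (by linarith) (by linarith)
        nlinarith
      rw [hKR] at h2
      linarith
    calc C * A0 * (d : ℝ) ^ (Real.exp (-(c0 * k)) * K / Real.log d + η * K - ρ)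
        ≤ C * A0 * ((d : ℝ) ^ (5 : ℝ) * ((d : ℝ) ^ θ) ^ i) :=
          mul_le_mul_of_nonneg_left h1 (by positivity)
      _ = A1 * ((d : ℝ) ^ θ) ^ i := by rw [hA1]; ring
      _ ≤ _ := mul_le_mul_of_nonneg_right (by linarith) (by positivity)

/-- a smaller exponent -/
theorem card_B_less {r0 : ℕ → ℤ} (h : Cop d m r0) (hbig0 : ∃ i < d, 2 ≤ |m i|) {s η A0 : ℝ}
    (hη0 : 0 < η) (hη1 : η < 1) (hA0 : 0 < A0)
    (hsum : ∑ j ∈ range d, (|(m j : ℝ)| / d) ^ s ≤ (d : ℝ) ^ η) :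
    ∃ τ : ℝ, 0 < τ ∧ τ ≤ 1 ∧ ∃ η' : ℝ, 0 ≤ η' ∧ η' < η ∧ ∀ r : ℕ → ℤ, Cop d m r → ∃ A : ℝ, 0 ≤ A ∧
      ∀ i : ℕ, 1 ≤ i → ∀ B : Finset ℤ,
      (∀ x ∈ B, |x| ≤ (d : ℤ) ^ i ∧ |(Mw m (wd d m r (i + ⌊τ * (i : ℝ)⌋₊) x) : ℝ)| ^ (-s) ≤
        A0 * (d : ℝ) ^ (-(s * (i + ⌊τ * (i : ℝ)⌋₊ : ℕ)))) →
      (B.card : ℝ) ≤ A * ((d : ℝ) ^ η') ^ i := by
  have hd := h.two_le
  have hdR : (2 : ℝ) ≤ d := by exact_mod_cast hd
  have hd0 : (0 : ℝ) < d := by linarith
  obtain ⟨c1, hc1, τ0, hτ0, hτ01, hmain⟩ := card_B_gen h hbig0 hη0.le hη1 hA0 hsum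
  obtain ⟨τ, hτ, hτl, hτe⟩ : ∃ τ : ℝ, 0 < τ ∧ τ ≤ τ0 ∧ Real.exp (-(c1 / τ)) < τ * (1 - η) := by
    -- `exp (c1 / τ) ≥ (c1 / τ) ^ 2 / 2`
    refine ⟨min τ0 (c1 ^ 2 * (1 - η) / 4), ?_, min_le_left _ _, ?_⟩
    · have : 0 < 1 - η := by linarith
      positivity
    · set τ : ℝ := min τ0 (c1 ^ 2 * (1 - η) / 4) with hτ
      have h1η : 0 < 1 - η := by linarith
      have hτp : 0 < τ := by rw [hτ]; positivity
      have hτ2 : τ ≤ c1 ^ 2 * (1 - η) / 4 := min_le_right _ _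
      rw [Real.exp_neg, inv_lt_comm₀ (Real.exp_pos _) (by positivity)]
      have h1 := Real.quadratic_le_exp_of_nonneg (x := c1 / τ) (by positivity)
      have h2 : (τ * (1 - η))⁻¹ < (c1 / τ) ^ 2 / 2 := by
        rw [div_pow, inv_eq_one_div, div_div, div_lt_div_iff₀ (by positivity) (by positivity)]
        have h3 : τ ^ 2 * 2 ≤ τ * (c1 ^ 2 * (1 - η) / 2) := by nlinarith
        have h4 : 0 < c1 ^ 2 * (1 - η) := by positivity
        nlinarith [mul_pos hτp h4]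
      have h3 : 0 ≤ c1 / τ := by positivity
      linarith
  refine ⟨τ, hτ, hτl.trans hτ01, max (η - τ * (1 - η) + Real.exp (-(c1 / τ))) 0, le_max_right _ _,
    max_lt (by linarith) hη0, fun r hr => ?_⟩
  obtain ⟨A, hA, hb⟩ := hmain τ hτ hτl r hr
  refine ⟨A, hA, fun i hi B hB => (hb i hi B hB).trans ?_⟩
  apply mul_le_mul_of_nonneg_left _ hA
  apply pow_le_pow_left₀ (by positivity)
  exact Real.rpow_le_rpow_of_exponent_le (by linarith) (le_max_left _ _)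

/-- the multiplier describes the iterate with a small relative error -/
theorem approx_cop (h : Cop d m r) {R Y : ℝ} (hR : ∀ i < d, |(r i : ℝ)| ≤ R) (hR0 : 0 ≤ R) (hY : 0 < Y)
    (n : ℕ) {x : ℤ} (hx : ∀ j < n, Y ≤ |(((Tm d m r)^[j] x : ℤ) : ℝ)|) (hn : 2 * n * R ≤ Y) :
    |(Pool.Agent.H828R3.GP.Mu d m r n x : ℝ) * x - (d : ℝ) ^ n * (((Tm d m r)^[n] x : ℤ) : ℝ)| ≤
      n * (2 * R / Y) * ((d : ℝ) ^ n * |(((Tm d m r)^[n] x : ℤ) : ℝ)|) := by
  induction n with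
  | zero => simp [Pool.Agent.H828R3.GP.Mu]
  | succ n ih =>
    push_cast at hn
    have hnn : (0 : ℝ) ≤ n := Nat.cast_nonneg n
    have ih' := ih (fun j hj => hx j (by omega)) (by nlinarith)
    have hz := hx n (by omega)
    rw [Pool.Agent.H828R3.GP.Mu_succ, Function.iterate_succ_apply']
    set z : ℤ := (Tm d m r)^[n] x with hzdef
    have hd0 : (0 : ℝ) < d := by exact_mod_cast (by have := h.two_le; omega : 0 < d)
    obtain ⟨e1, e2⟩ := toNat_mod h.two_le z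
    have hTz := h.Tm_eq z
    set i := (z % d).toNat with hi
    have hT : (d : ℝ) * ((Tm d m r z : ℤ) : ℝ) = (m i : ℝ) * z - (r i : ℝ) := by exact_mod_cast hTz
    have hmi := h.one_le e2
    have hri := hR i e2
    push_cast
    set M : ℝ := (Pool.Agent.H828R3.GP.Mu d m r n x : ℝ) with hM
    have hsplit : M * m i * x - (d : ℝ) ^ (n + 1) * ((Tm d m r z : ℤ) : ℝ) =
        (m i : ℝ) * (M * x - (d : ℝ) ^ n * z) + (d : ℝ) ^ n * r i := by
      rw [pow_succ]; linear_combination (-(d : ℝ) ^ n) * hT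
    have hD : 0 < (d : ℝ) ^ n := by positivity
    set u : ℝ := |(m i : ℝ)| * |(z : ℝ)| with hu
    have huY : Y ≤ u := by
      rw [hu]
      calc Y ≤ 1 * |(z : ℝ)| := by rw [one_mul]; exact hz
        _ ≤ _ := mul_le_mul_of_nonneg_right hmi (abs_nonneg _)
    set e : ℝ := 2 * R / Y with he
    have he0 : 0 ≤ e := by positivity
    have heY : e * Y = 2 * R := by rw [he]; field_simp
    have k1 : 2 * R ≤ e * u := by rw [← heY]; exact mul_le_mul_of_nonneg_left huY he0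
    have k2 : ((n : ℝ) + 1) * e ≤ 1 := by
      rw [he, mul_div_assoc', div_le_one hY]; linarith
    have k3 : ((n : ℝ) + 1) * e * R ≤ 1 * R := mul_le_mul_of_nonneg_right k2 hR0
    have hTabs : u - R ≤ (d : ℝ) * |((Tm d m r z : ℤ) : ℝ)| := by
      have h1 : (d : ℝ) * |((Tm d m r z : ℤ) : ℝ)| = |(m i : ℝ) * z - (r i : ℝ)| := by
        rw [← hT, abs_mul, abs_of_pos hd0]
      rw [h1]
      have h2 := abs_sub_abs_le_abs_sub ((m i : ℝ) * z) (r i : ℝ)
      rw [abs_mul] at h2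
      linarith
    have hstep : |M * m i * x - (d : ℝ) ^ (n + 1) * ((Tm d m r z : ℤ) : ℝ)| ≤
        (n * e) * ((d : ℝ) ^ n * u) + (d : ℝ) ^ n * R := by
      rw [hsplit]
      refine (abs_add_le _ _).trans (add_le_add ?_ ?_)
      · rw [abs_mul]
        calc |(m i : ℝ)| * |M * x - (d : ℝ) ^ n * z|
            ≤ |(m i : ℝ)| * (n * e * ((d : ℝ) ^ n * |(z : ℝ)|)) :=
              mul_le_mul_of_nonneg_left ih' (abs_nonneg _)
          _ = _ := by rw [hu]; ring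
      · rw [abs_mul, abs_of_pos hD]
        exact mul_le_mul_of_nonneg_left hri hD.le
    refine hstep.trans ?_
    have h5 : ((n : ℝ) + 1) * e * ((d : ℝ) ^ n * (u - R)) ≤
        ((n : ℝ) + 1) * e * ((d : ℝ) ^ (n + 1) * |((Tm d m r z : ℤ) : ℝ)|) := by
      apply mul_le_mul_of_nonneg_left _ (by positivity)
      rw [pow_succ, mul_assoc]
      exact mul_le_mul_of_nonneg_left hTabs hD.le
    refine le_trans ?_ h5
    have h6 : (n * e) * u + R ≤ ((n : ℝ) + 1) * e * (u - R) := by nlinarith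
    calc (n * e) * ((d : ℝ) ^ n * u) + (d : ℝ) ^ n * R = (d : ℝ) ^ n * ((n * e) * u + R) := by ring
      _ ≤ (d : ℝ) ^ n * (((n : ℝ) + 1) * e * (u - R)) := mul_le_mul_of_nonneg_left h6 hD.le
      _ = _ := by ring


/-- the multiplier of a trajectory that stays between `Y` and its start -/
theorem mult_le (h : Cop d m r) {R Y : ℝ} (hR : ∀ i < d, |(r i : ℝ)| ≤ R) (hR0 : 0 ≤ R) (hY : 0 < Y)
    {n : ℕ} (hn : 4 * n * R ≤ Y) {x : ℤ} (hx : ∀ j ≤ n, Y ≤ |(((Tm d m r)^[j] x : ℤ) : ℝ)| ∧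
      |(((Tm d m r)^[j] x : ℤ) : ℝ)| ≤ |(x : ℝ)|) :
    |(Mw m (wd d m r n x) : ℝ)| ≤ 2 * (d : ℝ) ^ n := by
  have hd0 : (0 : ℝ) < d := by exact_mod_cast (by have := h.two_le; omega : 0 < d)
  have hnn : (0 : ℝ) ≤ n := Nat.cast_nonneg n
  have h6 := approx_cop h hR hR0 hY n (fun j hj => (hx j hj.le).1) (by nlinarith)
  rw [Mu_eq] at h6
  set M : ℝ := (Mw m (wd d m r n x) : ℝ) with hM
  set z : ℝ := (((Tm d m r)^[n] x : ℤ) : ℝ) with hz
  have hD : (0 : ℝ) < (d : ℝ) ^ n := by positivity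
  have h8 : n * (2 * R / Y) ≤ 1 / 2 := by
    rw [mul_div_assoc', div_le_iff₀ hY]; linarith
  have h9 : |M * x - (d : ℝ) ^ n * z| ≤ 1 / 2 * ((d : ℝ) ^ n * |z|) :=
    h6.trans (mul_le_mul_of_nonneg_right h8 (by positivity))
  have hx0 : 0 < |(x : ℝ)| := by
    have := (hx 0 (Nat.zero_le _)).1
    simp only [Function.iterate_zero, id] at this
    linarith
  have h10 : |M| * |(x : ℝ)| ≤ 3 / 2 * ((d : ℝ) ^ n * |z|) := by
    have e1 : |(d : ℝ) ^ n * z| = (d : ℝ) ^ n * |z| := by rw [abs_mul, abs_of_pos hD]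
    have e2 := abs_sub_abs_le_abs_sub (M * x) ((d : ℝ) ^ n * z)
    rw [e1, abs_mul M] at e2
    linarith
  have h11 : |z| ≤ |(x : ℝ)| := (hx n le_rfl).2
  have h12 : |M| * |(x : ℝ)| ≤ (2 * (d : ℝ) ^ n) * |(x : ℝ)| := by
    have := mul_le_mul_of_nonneg_left h11 hD.le
    nlinarith
  exact le_of_mul_le_mul_right h12 hx0

end Pool.Agent.TH930.GH
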