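import Pool.Agent.TH930.GH.Main
import Pool.Agent.TH930.PS.Main

/-! The count of the integers with an atypical multiplier, and power savings beyond the exponent of
Chebyshev's inequality. -/

set_option autoImplicit false

namespace Pool.Agent.TH930.GH

open Finset Filter Topology Pool.Agent.H319R3.GC
open Pool.Agent.H828R3.GP (Mu m_abs approx)
open Pool.Agent.TH930.PS (Sj)

variable {d : ℕ} {m r : ℕ → ℤ}

/-- THE COUNT, over all multipliers -/
theorem main_large {r0 : ℕ → ℤ} (h0 : Cop d m r0) (hbig : ∃ i < d, 2 ≤ |m i|) (s : ℝ) :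
    ∃ c0 : ℝ, 0 < c0 ∧ ∃ k0 : ℕ, 1 ≤ k0 ∧ ∀ k : ℕ, k0 ≤ k → ∀ r : ℕ → ℤ, Cop d m r →
      ∃ C : ℝ, 0 < C ∧ ∀ K R : ℕ,
      1 ≤ R → R ≤ d ^ (K / (8 * k)) → ∀ Y : ℝ, 0 ≤ Y → ∀ (u : ℤ) (B : Finset ℤ),
      (∀ x ∈ B, |x - u| * (8 * R) ≤ (d : ℤ) ^ K ∧ |(Mw m (wd d m r K x) : ℝ)| ^ (-s) ≤ Y) →
      (B.card : ℝ) ≤ C * Real.exp (Real.exp (-(c0 * k)) * K) * (Zs d m s ^ K * Y) / R := by
  classical
  obtain ⟨c0, hc0, k0, hk0, hmain⟩ := main_gen h0 hbig s
  refine ⟨c0 / 2, by positivity, k0 + ⌈2 * Real.log 2 / c0⌉₊, by omega, ?_⟩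
  intro k hk r h
  obtain ⟨C, hC, hB0⟩ := hmain k (by omega) r h
  have hkR : (0 : ℝ) < k := by
    have : 0 < k := by omega
    exact_mod_cast this
  have hk2 : 2 * Real.log 2 ≤ c0 * k := by
    have h1 := Nat.le_ceil (2 * Real.log 2 / c0)
    have h2 : (⌈2 * Real.log 2 / c0⌉₊ : ℝ) ≤ k := by
      have : ⌈2 * Real.log 2 / c0⌉₊ ≤ k := by omega
      exact_mod_cast this
    have h3 := h1.trans h2
    rw [div_le_iff₀ hc0] at h3
    linarith
  obtain ⟨C1, hC1, hpoly⟩ := poly_le_exp d (a := Real.exp (-(c0 * k))) (Real.exp_pos _)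
  refine ⟨C * C1, by positivity, ?_⟩
  intro K R hR1 hRn Y hY u B hB
  have hRR : (1 : ℝ) ≤ R := by exact_mod_cast hR1
  have hRR0 : (0 : ℝ) < R := by linarith
  have hZ := h.Zs_pos s
  set F : ℝ := C * Real.exp (Real.exp (-(c0 * k)) * K) / R * (Zs d m s ^ K * Y) with hF
  have hF0 : 0 ≤ F := by positivity
  -- split according to the multiplier
  have hsum : (B.card : ℝ) ≤ ∑ μ ∈ Ms d m K, F := by
    have h1 : B.card = ∑ μ ∈ Ms d m K, (B.filter (fun x => Mw m (wd d m r K x) = μ)).card := by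
      apply card_eq_sum_card_fiberwise
      intro x _
      exact mem_coe.2 (mem_Ms.2 ⟨wd d m r K x, wd_mem h.two_le K x, rfl⟩)
    rw [h1]
    push_cast
    apply sum_le_sum
    intro μ hμ
    have hμ0 : (0 : ℝ) < |(μ : ℝ)| := _root_.abs_pos.2 (by exact_mod_cast h.Ms_ne hμ)
    set Bμ := B.filter (fun x => Mw m (wd d m r K x) = μ) with hBμ
    rcases Bμ.eq_empty_or_nonempty with h0 | ⟨x0, hx0⟩
    · rw [h0, card_empty, Nat.cast_zero]; exact hF0
    have h2 := hB0 K μ hμ R hR1 hRn u Bμ (by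
      intro x hx
      rw [hBμ, mem_filter] at hx
      exact ⟨(hB x hx.1).1, hx.2⟩)
    have h3 : |(μ : ℝ)| ^ (-s) ≤ Y := by
      rw [hBμ, mem_filter] at hx0
      have := (hB x0 hx0.1).2
      rwa [hx0.2] at this
    have h4 : (Bμ.card : ℝ) = (Bμ.card * PM d m s K μ) * (Zs d m s ^ K * |(μ : ℝ)| ^ (-s)) := by
      unfold PM
      rw [Real.rpow_neg hμ0.le]
      have h5 : (0 : ℝ) < |(μ : ℝ)| ^ s := Real.rpow_pos_of_pos hμ0 s
      have h6 : (0 : ℝ) < Zs d m s ^ K := by positivity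
      field_simp
    rw [h4]
    have h5 : (0 : ℝ) ≤ |(μ : ℝ)| ^ (-s) := Real.rpow_nonneg hμ0.le _
    calc (Bμ.card * PM d m s K μ) * (Zs d m s ^ K * |(μ : ℝ)| ^ (-s))
        ≤ (C * Real.exp (Real.exp (-(c0 * k)) * K) / R) * (Zs d m s ^ K * |(μ : ℝ)| ^ (-s)) :=
          mul_le_mul_of_nonneg_right h2 (by positivity)
      _ ≤ (C * Real.exp (Real.exp (-(c0 * k)) * K) / R) * (Zs d m s ^ K * Y) := by
          apply mul_le_mul_of_nonneg_left _ (by positivity)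
          exact mul_le_mul_of_nonneg_left h3 (by positivity)
      _ = F := rfl
  rw [sum_const, nsmul_eq_mul] at hsum
  have hcard : ((Ms d m K).card : ℝ) ≤ C1 * Real.exp (Real.exp (-(c0 * k)) * K) := by
    refine le_trans ?_ (hpoly K)
    exact_mod_cast card_Ms (d := d) (m := m) K
  have hexp : Real.exp (Real.exp (-(c0 * k)) * K) * Real.exp (Real.exp (-(c0 * k)) * K) ≤
      Real.exp (Real.exp (-(c0 / 2 * k)) * K) := by
    rw [← Real.exp_add]
    apply Real.exp_le_exp.2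
    rw [← add_mul]
    apply mul_le_mul_of_nonneg_right _ (Nat.cast_nonneg K)
    have h1 : Real.exp (-(c0 * k)) = Real.exp (-(c0 / 2 * k)) * Real.exp (-(c0 / 2 * k)) := by
      rw [← Real.exp_add]; congr 1; ring
    have h2 : Real.exp (-(c0 / 2 * k)) ≤ 1 / 2 := by
      rw [Real.exp_neg, ← one_div]
      apply one_div_le_one_div_of_le (by norm_num)
      rw [← Real.log_le_iff_le_exp (by norm_num)]
      linarith
    have h3 := Real.exp_pos (-(c0 / 2 * k))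
    rw [h1]
    nlinarith
  calc (B.card : ℝ) ≤ (Ms d m K).card * F := hsum
    _ ≤ (C1 * Real.exp (Real.exp (-(c0 * k)) * K)) * F := mul_le_mul_of_nonneg_right hcard hF0
    _ = C * C1 * (Real.exp (Real.exp (-(c0 * k)) * K) * Real.exp (Real.exp (-(c0 * k)) * K)) *
        (Zs d m s ^ K * Y) / R := by rw [hF]; ring
    _ ≤ _ := by
        apply div_le_div_of_nonneg_right _ hRR0.le
        apply mul_le_mul_of_nonneg_right _ (by positivity)
        exact mul_le_mul_of_nonneg_left hexp (by positivity)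

lemma Cop_of_Adm (h : Adm d m r) : Cop d m r := ⟨h.two_le, h.cop, h.adm⟩

lemma big_of_Adm (h : Adm d m r) : ∃ i < d, 2 ≤ |m i| := by
  by_contra hcon
  push Not at hcon
  have h1 : PP d m = 1 := by
    unfold PP
    apply prod_eq_one
    intro i hi
    rw [mem_range] at hi
    have h2 := hcon i hi
    have h3 := Int.one_le_abs ((Cop_of_Adm h).m_ne hi)
    have h4 : |m i| = 1 := by omega
    rw [Int.abs_eq_natAbs] at h4
    exact_mod_cast h4
  have := h.big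
  omega

lemma Mu_eq (n : ℕ) (x : ℤ) : Mu d m r n x = Mw m (wd d m r n x) := by
  induction n generalizing x with
  | zero => simp [Mu, wd, Mw]
  | succ n ih =>
    have h1 := ih (Tm d m r x)
    unfold Mu at h1 ⊢
    rw [prod_range_succ']
    simp only [Function.iterate_succ_apply, Function.iterate_zero, id]
    rw [h1]
    simp [wd, Mw, mul_comm]

/-- the multiplier along an orbit that stays high -/
theorem stay_mult (h : Adm d m r) {R : ℝ} (hR : ∀ i < d, |(r i : ℝ)| ≤ R) (hR0 : 0 ≤ R) {i n : ℕ}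
    (hi : 1 ≤ i) (hn : 4 * n * R ≤ (d : ℝ) ^ (i - 1)) {y : ℤ} (hy : |(y : ℝ)| ≤ (d : ℝ) ^ i)
    (hst : ∀ j ≤ n, (d : ℝ) ^ (i - 1) ≤ |(((Tm d m r)^[j] y : ℤ) : ℝ)|) :
    (d : ℝ) ^ n ≤ 2 * d * |(Mw m (wd d m r n y) : ℝ)| := by
  have hd0 : (0 : ℝ) < d := by exact_mod_cast (by have := h.two_le; omega : 0 < d)
  have hY : (0 : ℝ) < (d : ℝ) ^ (i - 1) := by positivity
  have hnn : (0 : ℝ) ≤ n := Nat.cast_nonneg n
  have h6 := approx h hR hR0 hY n (fun j hj => hst j hj.le) (by nlinarith)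
  rw [Mu_eq] at h6
  set M : ℝ := (Mw m (wd d m r n y) : ℝ) with hM
  set z : ℝ := (((Tm d m r)^[n] y : ℤ) : ℝ) with hz
  have hD : (0 : ℝ) < (d : ℝ) ^ n := by positivity
  have h8 : n * (2 * R / (d : ℝ) ^ (i - 1)) ≤ 1 / 2 := by
    rw [mul_div_assoc', div_le_iff₀ hY]; linarith
  have h9 : |M * y - (d : ℝ) ^ n * z| ≤ 1 / 2 * ((d : ℝ) ^ n * |z|) :=
    h6.trans (mul_le_mul_of_nonneg_right h8 (by positivity))
  have h10 : (d : ℝ) ^ n * |z| ≤ 2 * (|M| * |(y : ℝ)|) := by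
    have e1 : (d : ℝ) ^ n * |z| = |(d : ℝ) ^ n * z| := by rw [abs_mul, abs_of_pos hD]
    have e2 := abs_sub_abs_le_abs_sub ((d : ℝ) ^ n * z) (M * y)
    rw [abs_sub_comm, ← e1, abs_mul M] at e2
    linarith
  have h11 : (d : ℝ) ^ (i - 1) ≤ |z| := hst n le_rfl
  have h12 : (d : ℝ) ^ n * (d : ℝ) ^ (i - 1) ≤ (2 * d * |M|) * (d : ℝ) ^ (i - 1) := by
    have e : (d : ℝ) ^ i = d * (d : ℝ) ^ (i - 1) := by rw [← pow_succ']; congr 1; omega
    calc (d : ℝ) ^ n * (d : ℝ) ^ (i - 1) ≤ (d : ℝ) ^ n * |z| := mul_le_mul_of_nonneg_left h11 hD.le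
      _ ≤ 2 * (|M| * |(y : ℝ)|) := h10
      _ ≤ 2 * (|M| * (d : ℝ) ^ i) := by
          apply mul_le_mul_of_nonneg_left _ (by norm_num)
          exact mul_le_mul_of_nonneg_left hy (abs_nonneg _)
      _ = _ := by rw [e]; ring
  exact le_of_mul_le_mul_right h12 hY

/-- THE BOUND FOR THE STUCK SETS -/
theorem card_Sj_gen {r0 : ℕ → ℤ} (h0 : Adm d m r0) {s η : ℝ} (hs : 0 < s) (hη0 : 0 ≤ η) (hη1 : η < 1)
    (hsum : ∑ j ∈ range d, (|(m j : ℝ)| / d) ^ s ≤ (d : ℝ) ^ η) :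
    ∃ c1 : ℝ, 0 < c1 ∧ ∃ τ0 : ℝ, 0 < τ0 ∧ τ0 ≤ 1 ∧ ∀ τ : ℝ, 0 < τ → τ ≤ τ0 → ∀ r : ℕ → ℤ,
      Adm d m r → ∃ A : ℝ, 0 ≤ A ∧ ∀ i : ℕ, 1 ≤ i → ((Sj d m r τ i).card : ℝ) ≤
        A * ((d : ℝ) ^ (η - τ * (1 - η) + Real.exp (-(c1 / τ)))) ^ i := by
  classical
  have hd := h0.two_le
  have hdR : (2 : ℝ) ≤ d := by exact_mod_cast hd
  have hd0 : (0 : ℝ) < d := by linarith
  have hl2 : (0.6931471803 : ℝ) < Real.log 2 := Real.log_two_gt_d9
  have hld2 : Real.log 2 ≤ Real.log d := Real.log_le_log (by norm_num) hdR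
  have hld : 0 < Real.log d := by linarith
  obtain ⟨c0, hc0, k0, hk0, hmain⟩ := main_large (Cop_of_Adm h0) (big_of_Adm h0) s
  -- the error term
  obtain ⟨τ1, hτ10, hτ11⟩ : ∃ τ1 : ℝ, 0 < τ1 ∧ ∀ τ : ℝ, 0 < τ → τ ≤ τ1 →
      3 * Real.exp (-(c0 / (16 * τ))) ≤ Real.exp (-(c0 / 32 / τ)) := by
    refine ⟨c0 / 64, by positivity, fun τ h1 h2 => ?_⟩
    have h3 : Real.exp (-(c0 / (16 * τ))) = Real.exp (-(c0 / 32 / τ)) * Real.exp (-(c0 / 32 / τ)) := by
      rw [← Real.exp_add]; congr 1; field_simp; ring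
    have h4 : Real.exp (-(c0 / 32 / τ)) ≤ 1 / 3 := by
      rw [Real.exp_neg, ← one_div]
      apply one_div_le_one_div_of_le (by norm_num)
      have h5 : 2 ≤ c0 / 32 / τ := by
        rw [le_div_iff₀ h1]; linarith
      have h6 := Real.add_one_le_exp (c0 / 32 / τ)
      linarith
    have h5 := Real.exp_pos (-(c0 / 32 / τ))
    rw [h3]
    nlinarith
  refine ⟨c0 / 32, by positivity, min τ1 (min (1 / 16) (1 / (16 * k0))), ?_, ?_, ?_⟩
  · have : (0 : ℝ) < k0 := by exact_mod_cast hk0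
    positivity
  · exact (min_le_right _ _).trans ((min_le_left _ _).trans (by norm_num))
  intro τ hτ0 hτ r h
  have hC := Cop_of_Adm h
  have hτa : τ ≤ τ1 := hτ.trans (min_le_left _ _)
  have hτb : τ ≤ 1 / 16 := hτ.trans ((min_le_right _ _).trans (min_le_left _ _))
  have hτc : τ ≤ 1 / (16 * k0) := hτ.trans ((min_le_right _ _).trans (min_le_right _ _))
  have hk0R : (1 : ℝ) ≤ k0 := by exact_mod_cast hk0
  set k : ℕ := ⌊1 / (8 * τ)⌋₊ with hk
  have hk1 : (k : ℝ) ≤ 1 / (8 * τ) := Nat.floor_le (by positivity)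
  have hk2 : 1 / (16 * τ) ≤ k := by
    have h1 := Nat.lt_floor_add_one (1 / (8 * τ))
    rw [← hk] at h1
    have h2 : 1 ≤ 1 / (16 * τ) := by
      rw [le_div_iff₀ (by positivity)]; linarith
    have h3 : 1 / (8 * τ) = 1 / (16 * τ) + 1 / (16 * τ) := by field_simp; norm_num
    linarith
  have hkk0 : k0 ≤ k := by
    have h1 : (k0 : ℝ) ≤ 1 / (16 * τ) := by
      rw [le_div_iff₀ (by positivity)] at hτc ⊢
      linarith
    exact_mod_cast h1.trans hk2
  have hk8 : 8 * k * τ ≤ 1 := by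
    rw [le_div_iff₀ (by positivity)] at hk1
    linarith
  obtain ⟨C, hC0, hcount⟩ := hmain k hkk0 r hC
  obtain ⟨R0, hR0, hR00⟩ : ∃ R0 : ℝ, (∀ i < d, |(r i : ℝ)| ≤ R0) ∧ 0 ≤ R0 :=
    ⟨∑ i ∈ range d, |(r i : ℝ)|, fun i hi =>
      single_le_sum (f := fun i => |(r i : ℝ)|) (fun _ _ => abs_nonneg _) (mem_range.2 hi),
      sum_nonneg fun _ _ => abs_nonneg _⟩
  set E : ℝ := Real.exp (-(c0 / 32 / τ)) with hE
  have hE0 : 0 < E := Real.exp_pos _
  set θ : ℝ := η - τ * (1 - η) + E with hθ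
  -- the threshold
  have e1 : ∀ᶠ i : ℕ in atTop, 4 * (2 * (i : ℝ)) * R0 ≤ (d : ℝ) ^ (i - 1) := by
    have h1 := tendsto_pow_const_div_const_pow_of_one_lt 1 (show (1 : ℝ) < 2 by norm_num)
    have h2 := h1.eventually_le_const (show (0 : ℝ) < 1 / (16 * (R0 + 1)) by positivity)
    filter_upwards [h2, eventually_ge_atTop 1] with i hi hi1
    rw [div_le_div_iff₀ (by positivity) (by positivity), pow_one, one_mul] at hi
    have h3 : (0 : ℝ) ≤ i := Nat.cast_nonneg i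
    have h4 : (2 : ℝ) ^ i = 2 * 2 ^ (i - 1) := by rw [← pow_succ']; congr 1; omega
    have h5 : (2 : ℝ) ^ (i - 1) ≤ (d : ℝ) ^ (i - 1) := pow_le_pow_left₀ (by norm_num) hdR _
    nlinarith
  have e2 : ∀ᶠ i : ℕ in atTop, 3 ≤ τ * (i : ℝ) :=
    (Tendsto.const_mul_atTop hτ0 tendsto_natCast_atTop_atTop).eventually_ge_atTop _
  obtain ⟨i0, hi0⟩ := eventually_atTop.1 (e1.and e2)
  have hdθ : (0 : ℝ) < (d : ℝ) ^ θ := Real.rpow_pos_of_pos hd0 θ
  -- the constants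
  set A1 : ℝ := C * (2 * d) ^ s * (d : ℝ) ^ (5 : ℝ) with hA1
  have hA10 : 0 < A1 := by positivity
  set A2 : ℝ := ∑ i ∈ range (i0 + 1), 3 * (d : ℝ) ^ i / ((d : ℝ) ^ θ) ^ i with hA2
  have hA20 : 0 ≤ A2 := sum_nonneg fun _ _ => by positivity
  refine ⟨A1 + A2, by positivity, ?_⟩
  intro i hi
  have hSub : Sj d m r τ i ⊆ Icc (-(d : ℤ) ^ i) ((d : ℤ) ^ i) := by
    unfold Sj
    exact filter_subset _ _
  rcases lt_or_ge i i0 with hsm | hbig
  · have h1 : ((Sj d m r τ i).card : ℝ) ≤ 3 * (d : ℝ) ^ i := by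
      have h2 := card_le_card hSub
      rw [Int.card_Icc] at h2
      have h3 : ((d : ℤ) ^ i + 1 - -(d : ℤ) ^ i).toNat = 2 * d ^ i + 1 := by
        have : ((d : ℤ) ^ i + 1 - -(d : ℤ) ^ i) = ((2 * d ^ i + 1 : ℕ) : ℤ) := by push_cast; ring
        rw [this, Int.toNat_natCast]
      rw [h3] at h2
      have h4 : ((Sj d m r τ i).card : ℝ) ≤ 2 * (d : ℝ) ^ i + 1 := by exact_mod_cast h2
      have h5 : (1 : ℝ) ≤ (d : ℝ) ^ i := one_le_pow₀ (by linarith)
      linarith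
    have h2 : 3 * (d : ℝ) ^ i / ((d : ℝ) ^ θ) ^ i ≤ A2 :=
      single_le_sum (f := fun i => 3 * (d : ℝ) ^ i / ((d : ℝ) ^ θ) ^ i) (fun _ _ => by positivity)
        (mem_range.2 (by omega))
    rw [div_le_iff₀ (by positivity)] at h2
    have h3 : 0 ≤ A1 * ((d : ℝ) ^ θ) ^ i := by positivity
    linarith
  · obtain ⟨g1, g2⟩ := hi0 i hbig
    have hin : (0 : ℝ) ≤ i := Nat.cast_nonneg i
    set ρ0 : ℕ := ⌊τ * (i : ℝ)⌋₊ with hρ0
    have hfl : (ρ0 : ℝ) ≤ τ * i := Nat.floor_le (by positivity)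
    have hfl2 : τ * (i : ℝ) < ρ0 + 1 := Nat.lt_floor_add_one _
    have hρ3 : 3 ≤ ρ0 := Nat.le_floor (by exact_mod_cast g2)
    set K : ℕ := i + ρ0 with hK
    have hKR : (K : ℝ) = i + ρ0 := by rw [hK]; push_cast; rfl
    have hρi : ρ0 ≤ i := by
      have : (ρ0 : ℝ) ≤ i := by nlinarith
      exact_mod_cast this
    set ρ : ℕ := ρ0 - 3 with hρ
    have hρK : ρ ≤ K / (8 * k) := by
      have hk0' : 0 < k := by omega
      rw [Nat.le_div_iff_mul_le (by omega)]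
      have h1 : ((ρ0 * (8 * k) : ℕ) : ℝ) ≤ K := by
        push_cast
        rw [hKR]
        have h2 : (ρ0 : ℝ) * (8 * k) ≤ τ * i * (8 * k) := mul_le_mul_of_nonneg_right hfl (by positivity)
        have h3 : τ * i * (8 * k) = (8 * k * τ) * i := by ring
        have h4 : (8 * k * τ) * i ≤ 1 * i := mul_le_mul_of_nonneg_right hk8 hin
        have h5 : (0 : ℝ) ≤ ρ0 := Nat.cast_nonneg _
        linarith
      have h2 : ρ0 * (8 * k) ≤ K := by exact_mod_cast h1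
      exact (Nat.mul_le_mul_right _ (by omega)).trans h2
    have hRpos : 1 ≤ d ^ ρ := Nat.one_le_pow _ _ (by omega)
    -- the count
    have hct := hcount K (d ^ ρ) hRpos (Nat.pow_le_pow_right (by omega) hρK)
      ((2 * d) ^ s * (d : ℝ) ^ (-(s * K))) (by positivity) 0 (Sj d m r τ i) (by
        intro x hx
        unfold Sj at hx
        rw [mem_filter, mem_Icc] at hx
        obtain ⟨⟨hx1, hx2⟩, hx3, hx4⟩ := hx
        constructor
        · rw [sub_zero]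
          have h1 : |x| ≤ (d : ℤ) ^ i := abs_le.2 ⟨by linarith, hx2⟩
          have h2 : (8 : ℤ) ≤ (d : ℤ) ^ 3 := by
            have : (2 : ℤ) ≤ d := by exact_mod_cast hd
            calc (8 : ℤ) = 2 ^ 3 := by norm_num
              _ ≤ (d : ℤ) ^ 3 := pow_le_pow_left₀ (by norm_num) this 3
          push_cast
          calc |x| * (8 * (d : ℤ) ^ ρ) ≤ (d : ℤ) ^ i * ((d : ℤ) ^ 3 * (d : ℤ) ^ ρ) := by
                apply mul_le_mul h1 _ (by positivity) (by positivity)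
                exact mul_le_mul_of_nonneg_right h2 (by positivity)
            _ = (d : ℤ) ^ K := by
                rw [← pow_add, ← pow_add]; congr 1; omega
        · have h1 := stay_mult h hR0 hR00 hi (n := K) (by
            have h2 : (K : ℝ) ≤ 2 * i := by
              rw [hKR]
              have : (ρ0 : ℝ) ≤ i := by exact_mod_cast hρi
              linarith
            have h3 : 4 * (K : ℝ) * R0 ≤ 4 * (2 * i) * R0 := by
              apply mul_le_mul_of_nonneg_right _ hR00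
              linarith
            linarith) hx3.le hx4
          have hM0 : (0 : ℝ) < |(Mw m (wd d m r K x) : ℝ)| :=
            _root_.abs_pos.2 (by exact_mod_cast hC.Mw_ne (hC.wd_mem' K x))
          have h2 : ((d : ℝ) ^ K / (2 * d)) ≤ |(Mw m (wd d m r K x) : ℝ)| := by
            rw [div_le_iff₀ (by positivity)]; linarith
          calc |(Mw m (wd d m r K x) : ℝ)| ^ (-s) ≤ ((d : ℝ) ^ K / (2 * d)) ^ (-s) :=
                Real.rpow_le_rpow_of_nonpos (by positivity) h2 (by linarith)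
            _ = _ := by
                rw [Real.rpow_neg (by positivity), Real.div_rpow (by positivity) (by positivity),
                  inv_div, ← Real.rpow_natCast, ← Real.rpow_mul hd0.le, Real.rpow_neg hd0.le,
                  div_eq_mul_inv, mul_comm (K : ℝ) s])
    -- the exponents
    have hZ : Zs d m s ^ K * ((2 * d) ^ s * (d : ℝ) ^ (-(s * K))) ≤ (2 * d) ^ s * (d : ℝ) ^ (η * K) := by
      have h1 : Zs d m s ≤ (d : ℝ) ^ (η + s) := by
        have h2 : ∑ j ∈ range d, (|(m j : ℝ)| / d) ^ s = Zs d m s / (d : ℝ) ^ s := by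
          unfold Zs
          rw [sum_div]
          apply sum_congr rfl
          intro j _
          rw [Real.div_rpow (abs_nonneg _) hd0.le]
        rw [h2, div_le_iff₀ (Real.rpow_pos_of_pos hd0 s), ← Real.rpow_add hd0] at hsum
        exact hsum
      have h2 : Zs d m s ^ K ≤ (d : ℝ) ^ ((η + s) * K) := by
        calc Zs d m s ^ K ≤ ((d : ℝ) ^ (η + s)) ^ K := pow_le_pow_left₀ (hC.Zs_pos s).le h1 K
          _ = _ := by rw [← Real.rpow_natCast, ← Real.rpow_mul hd0.le]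
      calc Zs d m s ^ K * ((2 * d) ^ s * (d : ℝ) ^ (-(s * K)))
          ≤ (d : ℝ) ^ ((η + s) * K) * ((2 * d) ^ s * (d : ℝ) ^ (-(s * K))) :=
            mul_le_mul_of_nonneg_right h2 (by positivity)
        _ = (2 * d) ^ s * ((d : ℝ) ^ ((η + s) * K) * (d : ℝ) ^ (-(s * K))) := by ring
        _ = _ := by rw [← Real.rpow_add hd0]; congr 2; ring
    have hkE : Real.exp (-(c0 * k)) * 3 ≤ E := by
      refine le_trans ?_ (hτ11 τ hτ0 hτa)
      rw [mul_comm]
      apply mul_le_mul_of_nonneg_left _ (by norm_num)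
      apply Real.exp_le_exp.2
      have h1 : c0 * (1 / (16 * τ)) ≤ c0 * k := mul_le_mul_of_nonneg_left hk2 hc0.le
      have h2 : c0 * (1 / (16 * τ)) = c0 / (16 * τ) := by ring
      linarith
    refine hct.trans ?_
    have hRc : ((d ^ ρ : ℕ) : ℝ) = (d : ℝ) ^ (ρ : ℝ) := by push_cast; rw [Real.rpow_natCast]
    rw [hRc]
    have hexp : Real.exp (Real.exp (-(c0 * k)) * K) = (d : ℝ) ^ (Real.exp (-(c0 * k)) * K / Real.log d) := by
      rw [Real.rpow_def_of_pos hd0]; congr 1; field_simp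
    rw [hexp]
    have hfin : C * (d : ℝ) ^ (Real.exp (-(c0 * k)) * K / Real.log d) *
        (Zs d m s ^ K * ((2 * d) ^ s * (d : ℝ) ^ (-(s * K)))) / (d : ℝ) ^ (ρ : ℝ) ≤
        C * (2 * d) ^ s * (d : ℝ) ^ (Real.exp (-(c0 * k)) * K / Real.log d + η * K - ρ) := by
      rw [Real.rpow_sub hd0, Real.rpow_add hd0]
      have g3 := mul_le_mul_of_nonneg_left hZ
        (show 0 ≤ C * (d : ℝ) ^ (Real.exp (-(c0 * k)) * K / Real.log d) by positivity)
      have g4 := div_le_div_of_nonneg_right g3 (show 0 ≤ (d : ℝ) ^ (ρ : ℝ) by positivity)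
      refine g4.trans (le_of_eq ?_)
      ring
    refine hfin.trans ?_
    have h1 : (d : ℝ) ^ (Real.exp (-(c0 * k)) * K / Real.log d + η * K - ρ) ≤
        (d : ℝ) ^ (5 : ℝ) * ((d : ℝ) ^ θ) ^ i := by
      rw [← Real.rpow_natCast ((d : ℝ) ^ θ), ← Real.rpow_mul hd0.le, ← Real.rpow_add hd0]
      apply Real.rpow_le_rpow_of_exponent_le (by linarith)
      have h2 : Real.exp (-(c0 * k)) * K / Real.log d ≤ E * i := by
        rw [div_le_iff₀ hld]
        have h3 : (K : ℝ) ≤ 2 * i := by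
          rw [hKR]
          have : (ρ0 : ℝ) ≤ i := by exact_mod_cast hρi
          linarith
        have h4 : Real.exp (-(c0 * k)) * K ≤ Real.exp (-(c0 * k)) * (2 * i) :=
          mul_le_mul_of_nonneg_left h3 (Real.exp_pos _).le
        have h5 : Real.exp (-(c0 * k)) * (2 * i) ≤ (2 / 3) * (E * i) := by
          have h6 : Real.exp (-(c0 * k)) * 3 * i ≤ E * i := mul_le_mul_of_nonneg_right hkE hin
          linarith
        have h6 : (2 / 3) * (E * i) ≤ E * i * Real.log d := by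
          have h7 : 0 ≤ E * i := by positivity
          nlinarith
        linarith
      have h3 : (ρ : ℝ) = ρ0 - 3 := by
        rw [hρ, Nat.cast_sub hρ3]; norm_num
      rw [h3, hKR, hθ]
      have h4 : η * (i + ρ0) - (ρ0 - 3) ≤ 5 + (η - τ * (1 - η)) * i := by
        have h5 : (τ * i - 1) * (1 - η) ≤ ρ0 * (1 - η) :=
          mul_le_mul_of_nonneg_right (by linarith) (by linarith)
        nlinarith
      rw [hKR] at h2
      linarith
    calc C * (2 * d) ^ s * (d : ℝ) ^ (Real.exp (-(c0 * k)) * K / Real.log d + η * K - ρ)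
        ≤ C * (2 * d) ^ s * ((d : ℝ) ^ (5 : ℝ) * ((d : ℝ) ^ θ) ^ i) :=
          mul_le_mul_of_nonneg_left h1 (by positivity)
      _ = A1 * ((d : ℝ) ^ θ) ^ i := by rw [hA1]; ring
      _ ≤ _ := mul_le_mul_of_nonneg_right (by linarith) (by positivity)

/-- a smaller exponent for the stuck sets -/
theorem card_Sj_less {r0 : ℕ → ℤ} (h : Adm d m r0) {s η : ℝ} (hs : 0 < s) (hη0 : 0 < η) (hη1 : η < 1)
    (hsum : ∑ j ∈ range d, (|(m j : ℝ)| / d) ^ s ≤ (d : ℝ) ^ η) :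
    ∃ τ : ℝ, 0 < τ ∧ τ ≤ 1 ∧ ∃ η' : ℝ, 0 ≤ η' ∧ η' < η ∧ ∀ r : ℕ → ℤ, Adm d m r → ∃ A : ℝ, 0 ≤ A ∧
      ∀ i : ℕ, 1 ≤ i → ((Sj d m r τ i).card : ℝ) ≤ A * ((d : ℝ) ^ η') ^ i := by
  have hd := h.two_le
  have hdR : (2 : ℝ) ≤ d := by exact_mod_cast hd
  have hd0 : (0 : ℝ) < d := by linarith
  obtain ⟨c1, hc1, τ0, hτ0, hτ01, hmain⟩ := card_Sj_gen h hs hη0.le hη1 hsum
  obtain ⟨τ, hτ, hτl, hτe⟩ : ∃ τ : ℝ, 0 < τ ∧ τ ≤ τ0 ∧ Real.exp (-(c1 / τ)) < τ * (1 - η) := by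
    -- `exp (c1 / τ) ≥ (c1 / τ) ^ 2 / 2`
    refine ⟨min τ0 (c1 ^ 2 * (1 - η) / 4), ?_, min_le_left _ _, ?_⟩
    · have : 0 < 1 - η := by linarith
      positivity
    · set τ : ℝ := min τ0 (c1 ^ 2 * (1 - η) / 4) with hτ
      have h1η : 0 < 1 - η := by linarith
      have hτp : 0 < τ := by rw [hτ]; positivity
      have hτ2 : τ ≤ c1 ^ 2 * (1 - η) / 4 := min_le_right _ _
      rw [Real.exp_neg, inv_lt_comm₀ (Real.exp_pos _) (by positivity)]
      have h1 := Real.quadratic_le_exp_of_nonneg (x := c1 / τ) (by positivity)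
      have h2 : (τ * (1 - η))⁻¹ < (c1 / τ) ^ 2 / 2 := by
        rw [div_pow, inv_eq_one_div, div_div, div_lt_div_iff₀ (by positivity) (by positivity)]
        have h3 : τ ^ 2 * 2 ≤ τ * (c1 ^ 2 * (1 - η) / 2) := by nlinarith
        have h4 : 0 < c1 ^ 2 * (1 - η) := by positivity
        nlinarith [mul_pos hτp h4]
      have h3 : 0 ≤ c1 / τ := by positivity
      linarith
  refine ⟨τ, hτ, hτl.trans hτ01, max (η - τ * (1 - η) + Real.exp (-(c1 / τ))) 0, le_max_right _ _,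
    max_lt (by linarith) hη0, fun r hr => ?_⟩
  obtain ⟨A, hA, hb⟩ := hmain τ hτ hτl r hr
  refine ⟨A, hA, fun i hi => (hb i hi).trans ?_⟩
  apply mul_le_mul_of_nonneg_left _ hA
  apply pow_le_pow_left₀ (by positivity)
  exact Real.rpow_le_rpow_of_exponent_le (by linarith) (le_max_left _ _)

/-- POWER SAVING BEYOND THE EXPONENT OF CHEBYSHEV'S INEQUALITY -/
theorem power_beyond {r0 : ℕ → ℤ} (h0 : Adm d m r0) {s η : ℝ} (hs : 0 < s) (hη0 : 0 < η) (hη1 : η < 1)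
    (hsum : ∑ j ∈ range d, (|(m j : ℝ)| / d) ^ s ≤ (d : ℝ) ^ η) :
    ∃ c : ℝ, 1 - η < c ∧ ∀ r : ℕ → ℤ, Adm d m r → ∃ C : ℝ, 0 < C ∧ ∀ X y : ℝ, 1 ≤ X → 1 ≤ y →
    ({x : ℤ | |(x : ℝ)| ≤ X ∧ ∀ k : ℕ, y < |(((Tm d m r)^[k] x : ℤ) : ℝ)|}.ncard : ℝ)
      ≤ C * X / y ^ c := by
  obtain ⟨τ, hτ0, hτ1, η', hη'0, hη', hSt'⟩ := card_Sj_less h0 hs hη0 hη1 hsum
  refine ⟨1 - (η + η') / 2, by linarith, fun r h => ?_⟩
  obtain ⟨A, hA, hSt⟩ := hSt' r h
  obtain ⟨C, hC, hb⟩ := Pool.Agent.TH930.PS.power_saving' h hA hτ1 hη'0 (by linarith) hSt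
    (c := 1 - (η + η') / 2) (by linarith) (by linarith)
  exact ⟨C, hC, hb⟩

end Pool.Agent.TH930.GH
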