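import Pool.Agent.TH930.GH.MainU
import Pool.Agent.TH930.GH.Exp

/-! Expanding maps of coprime type: trajectories grow beyond the range of free residue vectors. -/

set_option autoImplicit false

namespace Pool.Agent.TH930.GH

open Finset Filter Topology Pool.Agent.H319R3.GC

variable {d : ℕ} {m r : ℕ → ℤ}

/-- the logarithm of the product of the rates -/
noncomputable def lsum (d : ℕ) (m : ℕ → ℤ) : ℝ := ∑ i ∈ range d, Real.log (|(m i : ℝ)| / d)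

theorem Zs_neg (h : Cop d m r) : ∃ M : ℝ, 1 ≤ M ∧ lsum d m / d ≤ M ∧ ∀ σ : ℝ, 0 ≤ σ → σ * M ≤ 1 →
    Zs d m (-σ) ≤ (d : ℝ) ^ (1 - σ) * Real.exp (-(σ * (lsum d m / d)) + σ ^ 2 * M ^ 2) := by
  have hdR : (2 : ℝ) ≤ d := by exact_mod_cast h.two_le
  have hd0 : (0 : ℝ) < d := by linarith
  set l : ℕ → ℝ := fun i => Real.log (|(m i : ℝ)| / d) with hl
  set M : ℝ := 1 + ∑ i ∈ range d, |l i| with hM
  have hM0 : 0 ≤ ∑ i ∈ range d, |l i| := sum_nonneg fun _ _ => abs_nonneg _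
  have hM1 : 1 ≤ M := by linarith
  have hls : lsum d m = ∑ i ∈ range d, l i := rfl
  have hle : lsum d m ≤ M := by
    rw [hls, hM]
    have := sum_le_sum (fun i (_ : i ∈ range d) => le_abs_self (l i))
    linarith
  refine ⟨M, hM1, ?_, ?_⟩
  · rw [div_le_iff₀ hd0]
    nlinarith
  · intro σ hσ hσM
    have h1 : ∀ i ∈ range d, |(m i : ℝ)| ^ (-σ) ≤ (d : ℝ) ^ (-σ) * (1 - σ * l i + σ ^ 2 * M ^ 2) := by
      intro i hi
      have hpos : 0 < |(m i : ℝ)| := h.abs_pos (mem_range.1 hi)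
      have hli : |l i| ≤ M := by
        have := single_le_sum (f := fun i => |l i|) (fun _ _ => abs_nonneg _) hi
        linarith
      have e1 : |(m i : ℝ)| ^ (-σ) = (d : ℝ) ^ (-σ) * (|(m i : ℝ)| / d) ^ (-σ) := by
        rw [← Real.mul_rpow hd0.le (by positivity)]
        congr 1
        field_simp
      rw [e1]
      apply mul_le_mul_of_nonneg_left _ (by positivity)
      rw [Real.rpow_def_of_pos (by positivity)]
      have h2 : |l i * -σ| ≤ 1 := by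
        rw [abs_mul, abs_neg, abs_of_nonneg hσ]
        have : |l i| * σ ≤ M * σ := mul_le_mul_of_nonneg_right hli hσ
        linarith
      have h3 := Real.abs_exp_sub_one_sub_id_le h2
      have h4 := (abs_le.1 h3).2
      have h5 : (l i * -σ) ^ 2 ≤ σ ^ 2 * M ^ 2 := by
        have h6 : (l i) ^ 2 ≤ M ^ 2 := by
          rw [← sq_abs (l i)]
          exact pow_le_pow_left₀ (abs_nonneg _) hli 2
        calc (l i * -σ) ^ 2 = σ ^ 2 * (l i) ^ 2 := by ring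
          _ ≤ _ := mul_le_mul_of_nonneg_left h6 (sq_nonneg σ)
      have h7 : Real.exp (Real.log (|(m i : ℝ)| / d) * -σ) = Real.exp (l i * -σ) := rfl
      rw [h7]
      linarith
    unfold Zs
    refine (sum_le_sum h1).trans ?_
    rw [← mul_sum, sum_add_distrib, sum_sub_distrib, sum_const, sum_const, card_range, nsmul_eq_mul,
      nsmul_eq_mul, ← mul_sum, ← hls]
    have h8 : (d : ℝ) * 1 - σ * lsum d m + d * (σ ^ 2 * M ^ 2) =
        d * (1 + (-(σ * (lsum d m / d)) + σ ^ 2 * M ^ 2)) := by field_simp; ring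
    rw [h8]
    have h9 : 1 + (-(σ * (lsum d m / d)) + σ ^ 2 * M ^ 2) ≤
        Real.exp (-(σ * (lsum d m / d)) + σ ^ 2 * M ^ 2) := by
      have := Real.add_one_le_exp (-(σ * (lsum d m / d)) + σ ^ 2 * M ^ 2)
      linarith
    have h10 : (d : ℝ) ^ (1 - σ) = (d : ℝ) ^ (-σ) * d := by
      rw [show (1 : ℝ) - σ = -σ + 1 by ring, Real.rpow_add hd0, Real.rpow_one]
    rw [h10, mul_assoc]
    apply mul_le_mul_of_nonneg_left _ (by positivity)
    exact mul_le_mul_of_nonneg_left h9 hd0.le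

lemma Pr_pow (h : Cop d m r) (s : ℝ) {v : List ℕ} (hv : ∀ i ∈ v, i < d) :
    Pr (fun i => |(m i : ℝ)| ^ s) v = |(Mw m v : ℝ)| ^ s := by
  induction v with
  | nil => simp [Pr, Mw]
  | cons a v ih =>
    rw [Pr_cons, ih (fun i hi => hv i (by simp [hi])), Mw_cons]
    push_cast
    rw [abs_mul, Real.mul_rpow (abs_nonneg _) (abs_nonneg _)]

/-- counting in the range of free residue vectors -/
theorem free_count (h : Cop d m r) {i j : ℕ} (hji : j ≤ i) {σ D : ℝ} (hσ : 0 ≤ σ) (hD : 0 < D)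
    (B : Finset ℤ) (hB : ∀ x ∈ B, |x| ≤ (d : ℤ) ^ i ∧ |(Mw m (wd d m r j x) : ℝ)| ≤ D) :
    (B.card : ℝ) ≤ 4 * (d : ℝ) ^ (i - j) * (D ^ σ * Zs d m (-σ) ^ j) := by
  classical
  have hdR : (2 : ℝ) ≤ d := by exact_mod_cast h.two_le
  have hd0 : (0 : ℝ) < d := by linarith
  have hcard : B.card = ∑ w ∈ LW d j, (B.filter (fun x => wd d m r j x = w)).card := by
    apply card_eq_sum_card_fiberwise
    intro x _
    exact mem_coe.2 (wd_mem h.two_le j x)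
  have hfib : ∀ w ∈ LW d j, ((B.filter (fun x => wd d m r j x = w)).card : ℝ) ≤
      4 * (d : ℝ) ^ (i - j) * (D ^ σ * |(Mw m w : ℝ)| ^ (-σ)) := by
    intro w hw
    have hw' := (mem_LW.1 hw).2
    have hM0 : (0 : ℝ) < |(Mw m w : ℝ)| := _root_.abs_pos.2 (by exact_mod_cast h.Mw_ne hw')
    rcases (B.filter (fun x => wd d m r j x = w)).eq_empty_or_nonempty with h0 | ⟨x0, hx0⟩
    · rw [h0, card_empty, Nat.cast_zero]; positivity
    rw [mem_filter] at hx0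
    have h1 : |(Mw m w : ℝ)| ≤ D := by
      have := (hB x0 hx0.1).2
      rwa [hx0.2] at this
    have h2 : 1 ≤ D ^ σ * |(Mw m w : ℝ)| ^ (-σ) := by
      rw [Real.rpow_neg hM0.le, ← div_eq_mul_inv, one_le_div (Real.rpow_pos_of_pos hM0 σ)]
      exact Real.rpow_le_rpow hM0.le h1 hσ
    have h3 := Pool.Agent.H828R3.GP.card_ap (B.filter (fun x => wd d m r j x = w)) (d ^ j)
      (by have := h.two_le; positivity) x0 (2 * (d : ℝ) ^ i) (by positivity) (by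
        intro x hx
        rw [mem_filter] at hx
        have h4 := h.wd_cong (hx.2.trans hx0.2.symm)
        push_cast
        exact h4) (by
        intro x hx z hz
        rw [mem_filter] at hx hz
        have h4 := (hB x hx.1).1
        have h5 := (hB z hz.1).1
        rw [abs_le] at h4 h5
        have h6 : x - z ≤ 2 * (d : ℤ) ^ i := by linarith [h4.2, h5.1]
        exact_mod_cast h6)
    have h4 : 2 * (d : ℝ) ^ i / ((d ^ j : ℕ) : ℝ) = 2 * (d : ℝ) ^ (i - j) := by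
      push_cast
      rw [mul_div_assoc, div_eq_mul_inv, ← pow_sub₀ (d : ℝ) hd0.ne' hji]
    rw [h4] at h3
    have h5 : (1 : ℝ) ≤ (d : ℝ) ^ (i - j) := one_le_pow₀ (by linarith)
    calc ((B.filter (fun x => wd d m r j x = w)).card : ℝ) ≤ 2 * (d : ℝ) ^ (i - j) + 1 := h3
      _ ≤ 4 * (d : ℝ) ^ (i - j) * 1 := by linarith
      _ ≤ _ := mul_le_mul_of_nonneg_left h2 (by positivity)
  rw [hcard]
  push_cast
  refine (sum_le_sum hfib).trans ?_
  rw [← mul_sum, ← mul_sum]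
  have h6 : ∑ w ∈ LW d j, |(Mw m w : ℝ)| ^ (-σ) = Zs d m (-σ) ^ j := by
    unfold Zs
    rw [← sum_Pr]
    apply sum_congr rfl
    intro w hw
    exact (Pr_pow h (-σ) (mem_LW.1 hw).2).symm
  rw [h6]

/-- the multiplier after more steps is larger -/
theorem Mw_mono (h : Cop d m r) {j k : ℕ} (hjk : j ≤ k) (x : ℤ) :
    |(Mw m (wd d m r j x) : ℝ)| ≤ |(Mw m (wd d m r k x) : ℝ)| := by
  obtain ⟨e, rfl⟩ := Nat.exists_eq_add_of_le hjk
  induction e with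
  | zero => exact le_refl _
  | succ e ih =>
    refine (ih (by omega)).trans ?_
    rw [← Mu_eq, ← Mu_eq, show j + (e + 1) = (j + e) + 1 by ring, Pool.Agent.H828R3.GP.Mu_succ]
    push_cast
    rw [abs_mul]
    apply le_mul_of_one_le_right (abs_nonneg _)
    exact h.one_le (toNat_mod h.two_le _).2

/-- the dynamical part: a point with large multipliers grows -/
theorem dyn (h : Cop d m r) {R0 Y : ℝ} (hR0 : ∀ i < d, |(r i : ℝ)| ≤ R0) (hR00 : 0 ≤ R0) (hY0 : 0 < Y)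
    {i K j0 ρ : ℕ} (hKi : K = i + ρ) (hi : 1 ≤ i) (hn4 : 4 * (K : ℝ) * R0 ≤ Y)
    (hYd : Y * 2 * (d : ℝ) ^ (j0 + 1) ≤ (d : ℝ) ^ i) {x : ℤ} (hx1 : (d : ℝ) ^ (i - 1) ≤ |(x : ℝ)|)
    {W : ℝ} (hW : 0 < W) (hMa : 2 * (d : ℝ) ^ K * W < |(Mw m (wd d m r K x) : ℝ)|)
    (hMb : 2 * Y * (d : ℝ) ^ (ρ + 1) < |(Mw m (wd d m r j0 x) : ℝ)|) :
    |(x : ℝ)| * W < |(((Tm d m r)^[K] x : ℤ) : ℝ)| := by
  have hdR : (2 : ℝ) ≤ d := by exact_mod_cast h.two_le
  have hd0 : (0 : ℝ) < d := by linarith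
  have hdi : (d : ℝ) ^ i = (d : ℝ) ^ (i - 1) * d := by rw [← pow_succ]; congr 1; omega
  have hxpos : 0 < |(x : ℝ)| := lt_of_lt_of_le (by positivity) hx1
  -- the relation between the multiplier and the iterate
  have happ : ∀ n ≤ K, (∀ j < n, Y ≤ |(((Tm d m r)^[j] x : ℤ) : ℝ)|) →
      |(Mw m (wd d m r n x) : ℝ)| * |(x : ℝ)| ≤
        3 / 2 * ((d : ℝ) ^ n * |(((Tm d m r)^[n] x : ℤ) : ℝ)|) := by
    intro n hn hj
    have hnn : (0 : ℝ) ≤ n := Nat.cast_nonneg n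
    have hnK : 4 * (n : ℝ) * R0 ≤ Y := by
      have h1 : (n : ℝ) ≤ K := by exact_mod_cast hn
      have h2 : 4 * (n : ℝ) * R0 ≤ 4 * K * R0 := by
        apply mul_le_mul_of_nonneg_right _ hR00
        linarith
      linarith
    have h6 := approx_cop h hR0 hR00 hY0 n hj (by nlinarith)
    rw [Mu_eq] at h6
    have h8 : n * (2 * R0 / Y) ≤ 1 / 2 := by
      rw [mul_div_assoc', div_le_iff₀ hY0]
      linarith
    have hDn : (0 : ℝ) < (d : ℝ) ^ n := by positivity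
    have h9 := h6.trans (mul_le_mul_of_nonneg_right h8
      (show 0 ≤ (d : ℝ) ^ n * |(((Tm d m r)^[n] x : ℤ) : ℝ)| by positivity))
    have e1 : |(d : ℝ) ^ n * (((Tm d m r)^[n] x : ℤ) : ℝ)| =
        (d : ℝ) ^ n * |(((Tm d m r)^[n] x : ℤ) : ℝ)| := by rw [abs_mul, abs_of_pos hDn]
    have e2 := abs_sub_abs_le_abs_sub ((Mw m (wd d m r n x) : ℝ) * x)
      ((d : ℝ) ^ n * (((Tm d m r)^[n] x : ℤ) : ℝ))
    rw [e1, abs_mul (Mw m (wd d m r n x) : ℝ)] at e2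
    linarith
  -- the trajectory stays above `Y`
  have hstay : ∀ n ≤ K, Y ≤ |(((Tm d m r)^[n] x : ℤ) : ℝ)| := by
    intro n
    induction n using Nat.strong_induction_on with
    | _ n ih =>
      intro hn
      by_contra hcon
      push Not at hcon
      have h1 := happ n hn (fun j hj => ih j hj (by omega))
      have hDn : (0 : ℝ) < (d : ℝ) ^ n := by positivity
      have h2 : |(Mw m (wd d m r n x) : ℝ)| * |(x : ℝ)| < 2 * ((d : ℝ) ^ n * Y) := by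
        have h3 : (d : ℝ) ^ n * |(((Tm d m r)^[n] x : ℤ) : ℝ)| ≤ (d : ℝ) ^ n * Y :=
          mul_le_mul_of_nonneg_left hcon.le hDn.le
        have h4 : 0 < (d : ℝ) ^ n * Y := by positivity
        linarith
      have hMn : (1 : ℝ) ≤ |(Mw m (wd d m r n x) : ℝ)| := by
        have := Int.one_le_abs (h.Mw_ne (h.wd_mem' n x))
        exact_mod_cast this
      -- `n ≥ j0`
      have hnj : j0 ≤ n := by
        by_contra hlt
        push Not at hlt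
        have h3 : (d : ℝ) ^ (n + 1) ≤ (d : ℝ) ^ (j0 + 1) := pow_le_pow_right₀ (by linarith) (by omega)
        have h4 : (d : ℝ) ^ (i - 1) ≤ 1 * |(x : ℝ)| := by rw [one_mul]; exact hx1
        have h5 : (d : ℝ) ^ (i - 1) < 2 * ((d : ℝ) ^ n * Y) :=
          lt_of_le_of_lt (h4.trans (mul_le_mul_of_nonneg_right hMn hxpos.le)) h2
        have h6 : (d : ℝ) ^ i < Y * 2 * (d : ℝ) ^ (n + 1) := by
          rw [hdi, pow_succ]
          have := mul_lt_mul_of_pos_right h5 hd0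
          linarith
        have h7 : Y * 2 * (d : ℝ) ^ (n + 1) ≤ Y * 2 * (d : ℝ) ^ (j0 + 1) :=
          mul_le_mul_of_nonneg_left h3 (by positivity)
        linarith
      have h3 : |(Mw m (wd d m r j0 x) : ℝ)| ≤ |(Mw m (wd d m r n x) : ℝ)| := Mw_mono h hnj x
      have h4 : |(Mw m (wd d m r n x) : ℝ)| * (d : ℝ) ^ (i - 1) < 2 * ((d : ℝ) ^ n * Y) :=
        lt_of_le_of_lt (mul_le_mul_of_nonneg_left hx1 (abs_nonneg _)) h2
      have h5 : (d : ℝ) ^ n ≤ (d : ℝ) ^ (ρ + 1) * (d : ℝ) ^ (i - 1) := by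
        rw [← pow_add]
        apply pow_le_pow_right₀ (by linarith)
        omega
      have h6 : |(Mw m (wd d m r n x) : ℝ)| * (d : ℝ) ^ (i - 1) <
          (2 * Y * (d : ℝ) ^ (ρ + 1)) * (d : ℝ) ^ (i - 1) := by
        refine lt_of_lt_of_le h4 ?_
        have := mul_le_mul_of_nonneg_right h5 hY0.le
        linarith
      have h7 := lt_of_mul_lt_mul_right h6 (by positivity)
      linarith
  have hfin := happ K le_rfl (fun j hj => hstay j hj.le)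
  have hDK : (0 : ℝ) < (d : ℝ) ^ K := by positivity
  have h1 : 2 * (d : ℝ) ^ K * W * |(x : ℝ)| <
      3 / 2 * ((d : ℝ) ^ K * |(((Tm d m r)^[K] x : ℤ) : ℝ)|) :=
    lt_of_lt_of_le (mul_lt_mul_of_pos_right hMa hxpos) hfin
  have h2 : 0 < (d : ℝ) ^ K * (|(x : ℝ)| * W) := by positivity
  have h3 : (d : ℝ) ^ K * (|(x : ℝ)| * W) <
      (d : ℝ) ^ K * |(((Tm d m r)^[K] x : ℤ) : ℝ)| := by
    have e : 2 * (d : ℝ) ^ K * W * |(x : ℝ)| = 2 * ((d : ℝ) ^ K * (|(x : ℝ)| * W)) := by ring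
    rw [e] at h1
    linarith
  exact lt_of_mul_lt_mul_left h3 hDK.le

/-- the weights -/
theorem weight_a {Z lam δ σ M g dd : ℝ} (hd0 : 0 < dd) (hZ0 : 0 < Z)
    (hZ : Z ≤ dd ^ (1 - σ) * Real.exp (-(σ * lam) + σ ^ 2 * M ^ 2))
    (hg : σ * δ - σ ^ 2 * M ^ 2 = g) (K : ℕ) :
    Z ^ K * (2 * dd ^ K * Real.exp ((lam - δ) * K)) ^ σ ≤
      (2 : ℝ) ^ σ * (dd ^ (K : ℝ) * Real.exp (-(g * K))) := by
  have h2 : Z ^ K ≤ dd ^ ((1 - σ) * K) * Real.exp ((-(σ * lam) + σ ^ 2 * M ^ 2) * K) := by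
    calc Z ^ K ≤ (dd ^ (1 - σ) * Real.exp (-(σ * lam) + σ ^ 2 * M ^ 2)) ^ K :=
          pow_le_pow_left₀ hZ0.le hZ K
      _ = _ := by
          rw [mul_pow, ← Real.rpow_natCast, ← Real.rpow_mul hd0.le, ← Real.exp_nat_mul,
            mul_comm (K : ℝ) (-(σ * lam) + σ ^ 2 * M ^ 2)]
  have h3 : (2 * dd ^ K * Real.exp ((lam - δ) * K)) ^ σ =
      (2 : ℝ) ^ σ * (dd ^ (σ * K) * Real.exp (σ * (lam - δ) * K)) := by
    rw [Real.mul_rpow (by positivity) (by positivity), Real.mul_rpow (by norm_num) (by positivity),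
      ← Real.rpow_natCast, ← Real.rpow_mul hd0.le, ← Real.exp_mul, mul_comm (K : ℝ) σ, mul_assoc]
    congr 3
    ring
  rw [h3]
  calc Z ^ K * ((2 : ℝ) ^ σ * (dd ^ (σ * K) * Real.exp (σ * (lam - δ) * K)))
      ≤ (dd ^ ((1 - σ) * K) * Real.exp ((-(σ * lam) + σ ^ 2 * M ^ 2) * K)) *
        ((2 : ℝ) ^ σ * (dd ^ (σ * K) * Real.exp (σ * (lam - δ) * K))) :=
        mul_le_mul_of_nonneg_right h2 (by positivity)
    _ = (2 : ℝ) ^ σ * ((dd ^ ((1 - σ) * K) * dd ^ (σ * K)) *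
        (Real.exp ((-(σ * lam) + σ ^ 2 * M ^ 2) * K) * Real.exp (σ * (lam - δ) * K))) := by ring
    _ = _ := by
        rw [← Real.rpow_add hd0, ← Real.exp_add]
        congr 3
        · ring
        · rw [← hg]; ring_nf

/-- the second count -/
theorem weight_b (h : Cop d m r) {σ κ1 D : ℝ} (hσ0 : 0 < σ) (hZ' : Zs d m (-σ) ≤ (d : ℝ) ^ (1 - σ))
    {i : ℕ} (hi8 : 8 ≤ i) (hD0 : 0 < D) (h3 : D ≤ (d : ℝ) ^ ((i : ℝ) / 8)) (hκ1b : κ1 ≤ σ / 4)
    (B : Finset ℤ) (hB : ∀ x ∈ B, |x| ≤ (d : ℤ) ^ i ∧ |(Mw m (wd d m r (i / 2) x) : ℝ)| ≤ D) :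
    (B.card : ℝ) ≤ 4 * ((d : ℝ) ^ (1 - κ1)) ^ i := by
  have hdR : (2 : ℝ) ≤ d := by exact_mod_cast h.two_le
  have hd0 : (0 : ℝ) < d := by linarith
  have hin : (0 : ℝ) ≤ i := Nat.cast_nonneg i
  have hi8R : (8 : ℝ) ≤ i := by exact_mod_cast hi8
  obtain ⟨j0, hj0⟩ : ∃ j0, j0 = i / 2 := ⟨_, rfl⟩
  rw [← hj0] at hB
  have hj0a : j0 ≤ i := by omega
  have hj0b : (i : ℝ) / 2 - 1 ≤ j0 := by
    have : i ≤ 2 * j0 + 1 := by omega
    have h' : (i : ℝ) ≤ 2 * j0 + 1 := by exact_mod_cast this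
    linarith
  have h1 := free_count h hj0a hσ0.le hD0 B hB
  refine h1.trans ?_
  have h2 : Zs d m (-σ) ^ j0 ≤ (d : ℝ) ^ ((1 - σ) * j0) := by
    calc Zs d m (-σ) ^ j0 ≤ ((d : ℝ) ^ (1 - σ)) ^ j0 := pow_le_pow_left₀ (h.Zs_pos (-σ)).le hZ' j0
      _ = _ := by rw [← Real.rpow_natCast, ← Real.rpow_mul hd0.le]
  have h4 : D ^ σ ≤ (d : ℝ) ^ (σ * (i / 8)) := by
    calc D ^ σ ≤ ((d : ℝ) ^ ((i : ℝ) / 8)) ^ σ := Real.rpow_le_rpow hD0.le h3 hσ0.le
      _ = _ := by rw [← Real.rpow_mul hd0.le]; congr 1; ring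
  have hq3 : ((d : ℝ) ^ (1 - κ1)) ^ i = (d : ℝ) ^ ((1 - κ1) * i) := by
    rw [← Real.rpow_natCast, ← Real.rpow_mul hd0.le]
  rw [hq3]
  have h5 : (d : ℝ) ^ (i - j0) = (d : ℝ) ^ ((i : ℝ) - j0) := by
    rw [← Real.rpow_natCast, Nat.cast_sub hj0a]
  rw [h5, mul_assoc]
  apply mul_le_mul_of_nonneg_left _ (by norm_num)
  have hZ0 : 0 ≤ Zs d m (-σ) ^ j0 := pow_nonneg (h.Zs_pos (-σ)).le _
  calc (d : ℝ) ^ ((i : ℝ) - j0) * (D ^ σ * Zs d m (-σ) ^ j0)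
      ≤ (d : ℝ) ^ ((i : ℝ) - j0) * ((d : ℝ) ^ (σ * (i / 8)) * (d : ℝ) ^ ((1 - σ) * j0)) := by
        apply mul_le_mul_of_nonneg_left _ (by positivity)
        exact mul_le_mul h4 h2 hZ0 (by positivity)
    _ = (d : ℝ) ^ ((i : ℝ) - j0 + (σ * (i / 8) + (1 - σ) * j0)) := by
        rw [← Real.rpow_add hd0, ← Real.rpow_add hd0]
    _ ≤ _ := by
        apply Real.rpow_le_rpow_of_exponent_le (by linarith)
        have e1 : σ * ((i : ℝ) / 2 - 1) ≤ σ * j0 := mul_le_mul_of_nonneg_left hj0b hσ0.le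
        have e2 : κ1 * i ≤ σ / 4 * i := mul_le_mul_of_nonneg_right hκ1b hin
        have e3 : σ * 8 ≤ σ * i := mul_le_mul_of_nonneg_left hi8R hσ0.le
        linarith

/-- the comparison of the exponents -/
theorem grow_exp {x lam δ τ ld : ℝ} {i K : ℝ} (hx : 1 ≤ x) (hld : 0 < ld) (hx2 : Real.log x ≤ i * ld)
    (hlam : 0 < lam) (hτ0 : 0 < τ) (hτ1 : τ ≤ 1 / 16) (hδ : δ = τ * lam / 4) (hi : 4 ≤ τ * i)
    (hi0 : 0 ≤ i) (hK : (1 + τ) * i - 1 ≤ K) :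
    x ^ (1 + lam / ld * (1 + τ / 4)) ≤ x * Real.exp ((lam - δ) * K) := by
  have hxpos : 0 < x := by linarith
  rw [Real.rpow_add hxpos, Real.rpow_one]
  apply mul_le_mul_of_nonneg_left _ hxpos.le
  rw [Real.rpow_def_of_pos hxpos]
  apply Real.exp_le_exp.2
  have e2 : Real.log x * (lam / ld * (1 + τ / 4)) ≤ i * lam * (1 + τ / 4) := by
    calc Real.log x * (lam / ld * (1 + τ / 4))
        ≤ (i * ld) * (lam / ld * (1 + τ / 4)) := mul_le_mul_of_nonneg_right hx2 (by positivity)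
      _ = _ := by field_simp
  refine e2.trans ?_
  have e4 : lam * (1 - τ / 4) * ((1 + τ) * i - 1) ≤ (lam - δ) * K := by
    have : lam - δ = lam * (1 - τ / 4) := by rw [hδ]; ring
    rw [this]
    apply mul_le_mul_of_nonneg_left hK
    apply mul_nonneg hlam.le
    linarith
  refine le_trans ?_ e4
  have e5 : (1 + τ / 4) * i ≤ (1 - τ / 4) * ((1 + τ) * i - 1) := by
    have e6 : τ * τ * i ≤ τ * 1 * i := by
      apply mul_le_mul_of_nonneg_right _ hi0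
      apply mul_le_mul_of_nonneg_left _ hτ0.le
      linarith
    nlinarith
  calc i * lam * (1 + τ / 4) = lam * ((1 + τ / 4) * i) := by ring
    _ ≤ lam * ((1 - τ / 4) * ((1 + τ) * i - 1)) := mul_le_mul_of_nonneg_left e5 hlam.le
    _ = _ := by ring

/-- the parameters -/
theorem params {lam M c0 : ℝ} {k0 : ℕ} (hM1 : 1 ≤ M) (hlam0 : 0 < lam) (hlM : lam ≤ M) (hc0 : 0 < c0)
    (hk0 : 1 ≤ k0) : ∃ τ δ σ g : ℝ, ∃ k : ℕ, 0 < τ ∧ τ ≤ 1 / 16 ∧ δ = τ * lam / 4 ∧ 0 < σ ∧ σ * M ≤ 1 ∧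
      σ ≤ 1 ∧ 0 < g ∧ σ * δ - σ ^ 2 * M ^ 2 = g ∧ -(σ * lam) + σ ^ 2 * M ^ 2 ≤ 0 ∧ k0 ≤ k ∧
      8 * k * τ ≤ 1 ∧ Real.exp (-(c0 * k)) ≤ g / 2 := by
  have hk0R : (1 : ℝ) ≤ k0 := by exact_mod_cast hk0
  obtain ⟨G, hG⟩ : ∃ G : ℝ, G = lam ^ 2 / (64 * M ^ 2) := ⟨_, rfl⟩
  have hG0 : 0 < G := by rw [hG]; positivity
  obtain ⟨τ, hτ⟩ : ∃ τ : ℝ, τ = min (1 / 16 : ℝ) (min (1 / (16 * (k0 : ℝ))) (G * c0 ^ 3 / 49152)) :=
    ⟨_, rfl⟩
  have hτ0 : 0 < τ := by rw [hτ]; positivity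
  have hτb : τ ≤ 1 / 16 := by rw [hτ]; exact min_le_left _ _
  have hτc : τ ≤ 1 / (16 * k0) := by rw [hτ]; exact (min_le_right _ _).trans (min_le_left _ _)
  have hτd : τ ≤ G * c0 ^ 3 / 49152 := by rw [hτ]; exact (min_le_right _ _).trans (min_le_right _ _)
  obtain ⟨δ, hδ⟩ : ∃ δ : ℝ, δ = τ * lam / 4 := ⟨_, rfl⟩
  have hδ0 : 0 < δ := by rw [hδ]; positivity
  obtain ⟨σ, hσ⟩ : ∃ σ : ℝ, σ = δ / (2 * M ^ 2) := ⟨_, rfl⟩
  have hM0 : 0 < M := by linarith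
  have hσ0 : 0 < σ := by rw [hσ]; positivity
  have hMM : M ≤ M ^ 2 := by nlinarith
  have hσδ : σ * M ^ 2 = δ / 2 := by rw [hσ]; field_simp
  have hδM : δ ≤ M / 64 := by
    rw [hδ]
    have : τ * lam ≤ 1 / 16 * M := mul_le_mul hτb hlM hlam0.le (by norm_num)
    linarith
  have hσM : σ * M ≤ 1 := by
    have h1 : σ * M * M ≤ 1 * M := by
      have : σ * M * M = σ * M ^ 2 := by ring
      rw [this, hσδ]; linarith
    exact le_of_mul_le_mul_right h1 hM0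
  have hσ1 : σ ≤ 1 := by nlinarith
  have hg : σ * δ - σ ^ 2 * M ^ 2 = G * τ ^ 2 := by
    have h1 : σ ^ 2 * M ^ 2 = σ * (σ * M ^ 2) := by ring
    rw [h1, hσδ, hσ, hδ, hG]
    field_simp
    ring
  have hneg : -(σ * lam) + σ ^ 2 * M ^ 2 ≤ 0 := by
    have h2 : σ ^ 2 * M ^ 2 = σ * (δ / 2) := by rw [← hσδ]; ring
    rw [h2]
    have h3 : δ / 2 ≤ lam := by rw [hδ]; nlinarith
    nlinarith
  obtain ⟨k, hk⟩ : ∃ k : ℕ, k = ⌊1 / (8 * τ)⌋₊ := ⟨_, rfl⟩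
  have hk1 : (k : ℝ) ≤ 1 / (8 * τ) := by rw [hk]; exact Nat.floor_le (by positivity)
  have hk2 : 1 / (16 * τ) ≤ k := by
    have h1 := Nat.lt_floor_add_one (1 / (8 * τ))
    rw [← hk] at h1
    have h2 : 1 ≤ 1 / (16 * τ) := by
      rw [le_div_iff₀ (by positivity)]; linarith
    have h3 : 1 / (8 * τ) = 1 / (16 * τ) + 1 / (16 * τ) := by field_simp; norm_num
    linarith
  have hkk0 : k0 ≤ k := by
    have h1 : (k0 : ℝ) ≤ 1 / (16 * τ) := by
      rw [le_div_iff₀ (by positivity)] at hτc ⊢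
      linarith
    exact_mod_cast h1.trans hk2
  have hk8 : 8 * k * τ ≤ 1 := by
    rw [le_div_iff₀ (by positivity)] at hk1
    linarith
  refine ⟨τ, δ, σ, G * τ ^ 2, k, hτ0, hτb, hδ, hσ0, hσM, hσ1, by positivity, hg, hneg, hkk0, hk8, ?_⟩
  have h1 : Real.exp (-(c0 * k)) ≤ Real.exp (-(c0 / (16 * τ))) := by
    apply Real.exp_le_exp.2
    have h2 : c0 * (1 / (16 * τ)) ≤ c0 * k := mul_le_mul_of_nonneg_left hk2 hc0.le
    have h3 : c0 * (1 / (16 * τ)) = c0 / (16 * τ) := by ring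
    linarith
  refine h1.trans ?_
  rw [Real.exp_neg]
  have h2 := Real.pow_div_factorial_le_exp (c0 / (16 * τ)) (by positivity) 3
  have h3 : ((Nat.factorial 3 : ℕ) : ℝ) = 6 := by norm_num [Nat.factorial]
  rw [h3] at h2
  have h4 : (Real.exp (c0 / (16 * τ)))⁻¹ ≤ ((c0 / (16 * τ)) ^ 3 / 6)⁻¹ :=
    inv_anti₀ (by positivity) h2
  refine h4.trans ?_
  have h5 : ((c0 / (16 * τ)) ^ 3 / 6)⁻¹ = 24576 * τ ^ 3 / c0 ^ 3 := by field_simp; norm_num
  rw [h5, div_le_iff₀ (by positivity)]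
  rw [le_div_iff₀ (by norm_num)] at hτd
  have h6 : 0 < τ ^ 2 := by positivity
  nlinarith

end Pool.Agent.TH930.GH
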