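import Pool.Agent.TH930.GH.Grow

/-! Expanding maps of coprime type: trajectories grow beyond the range of free residue vectors. -/

set_option autoImplicit false

namespace Pool.Agent.TH930.GH

open Finset Filter Topology Pool.Agent.H319R3.GC

variable {d : ℕ} {m r : ℕ → ℤ}

/-- the first count -/
theorem count_a (h : Cop d m r) {lam M δ σ g τ c0 C κ1 : ℝ} {k : ℕ} (hσ0 : 0 < σ) (hC0 : 0 < C)
    (hτ0 : 0 < τ) (hτb : τ ≤ 1 / 16) (hg0 : 0 < g) (hk1 : 1 ≤ k)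
    (hZ : Zs d m (-σ) ≤ (d : ℝ) ^ (1 - σ) * Real.exp (-(σ * lam) + σ ^ 2 * M ^ 2))
    (hg : σ * δ - σ ^ 2 * M ^ 2 = g) (hk8 : 8 * k * τ ≤ 1) (hkE : Real.exp (-(c0 * k)) ≤ g / 2)
    (hκ1c : κ1 ≤ g / (2 * Real.log d))
    (hcount : ∀ K R : ℕ, 1 ≤ R → R ≤ d ^ (K / (8 * k)) → ∀ Y : ℝ, 0 ≤ Y → ∀ (u : ℤ) (B : Finset ℤ),
      (∀ x ∈ B, |x - u| * (8 * R) ≤ (d : ℤ) ^ K ∧ |(Mw m (wd d m r K x) : ℝ)| ^ (-(-σ)) ≤ Y) →
      (B.card : ℝ) ≤ C * Real.exp (Real.exp (-(c0 * k)) * K) * (Zs d m (-σ) ^ K * Y) / R)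
    {i ρ0 K : ℕ} (hρ0 : (ρ0 : ℝ) ≤ τ * i) (hρ3 : 3 ≤ ρ0) (hK : K = i + ρ0) (B : Finset ℤ)
    (hB : ∀ x ∈ B, |x| ≤ (d : ℤ) ^ i ∧
      |(Mw m (wd d m r K x) : ℝ)| ≤ 2 * (d : ℝ) ^ K * Real.exp ((lam - δ) * K)) :
    (B.card : ℝ) ≤ C * (2 : ℝ) ^ σ * (d : ℝ) ^ 3 * ((d : ℝ) ^ (1 - κ1)) ^ i := by
  have hd := h.two_le
  have hdR : (2 : ℝ) ≤ d := by exact_mod_cast hd
  have hd0 : (0 : ℝ) < d := by linarith
  have hld : 0 < Real.log d := Real.log_pos (by linarith)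
  have hin : (0 : ℝ) ≤ i := Nat.cast_nonneg i
  have hKR : (K : ℝ) = i + ρ0 := by rw [hK]; push_cast; rfl
  obtain ⟨ρ, hρ⟩ : ∃ ρ, ρ = ρ0 - 3 := ⟨_, rfl⟩
  have hρK : ρ ≤ K / (8 * k) := by
    rw [Nat.le_div_iff_mul_le (by omega)]
    have h1 : ((ρ0 * (8 * k) : ℕ) : ℝ) ≤ K := by
      push_cast
      rw [hKR]
      have h2 : (ρ0 : ℝ) * (8 * k) ≤ τ * i * (8 * k) := mul_le_mul_of_nonneg_right hρ0 (by positivity)
      have h3 : τ * i * (8 * k) = (8 * k * τ) * i := by ring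
      have h4 : (8 * k * τ) * i ≤ 1 * i := mul_le_mul_of_nonneg_right hk8 hin
      have h5 : (0 : ℝ) ≤ ρ0 := Nat.cast_nonneg _
      linarith
    have h2 : ρ0 * (8 * k) ≤ K := by exact_mod_cast h1
    exact (Nat.mul_le_mul_right _ (by omega)).trans h2
  have hRpos : 1 ≤ d ^ ρ := Nat.one_le_pow _ _ (by omega)
  have hct := hcount K (d ^ ρ) hRpos (Nat.pow_le_pow_right (by omega) hρK)
    ((2 * (d : ℝ) ^ K * Real.exp ((lam - δ) * K)) ^ σ) (by positivity) 0 B (by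
      intro x hx
      constructor
      · rw [sub_zero]
        have h1 := (hB x hx).1
        have h2 : (8 : ℤ) ≤ (d : ℤ) ^ 3 := by
          have : (2 : ℤ) ≤ d := by exact_mod_cast hd
          calc (8 : ℤ) = 2 ^ 3 := by norm_num
            _ ≤ (d : ℤ) ^ 3 := pow_le_pow_left₀ (by norm_num) this 3
        push_cast
        calc |x| * (8 * (d : ℤ) ^ ρ) ≤ (d : ℤ) ^ i * ((d : ℤ) ^ 3 * (d : ℤ) ^ ρ) := by
              apply mul_le_mul h1 _ (by positivity) (by positivity)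
              exact mul_le_mul_of_nonneg_right h2 (by positivity)
          _ = (d : ℤ) ^ K := by
              rw [← pow_add, ← pow_add]; congr 1; omega
      · rw [neg_neg]
        exact Real.rpow_le_rpow (abs_nonneg _) (hB x hx).2 hσ0.le)
  refine hct.trans ?_
  have hRc : ((d ^ ρ : ℕ) : ℝ) = (d : ℝ) ^ (ρ : ℝ) := by push_cast; rw [Real.rpow_natCast]
  rw [hRc]
  have h1 := weight_a (Z := Zs d m (-σ)) hd0 (h.Zs_pos (-σ)) hZ hg K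
  have h2 : Real.exp (Real.exp (-(c0 * k)) * K) ≤ Real.exp (g / 2 * K) := by
    apply Real.exp_le_exp.2
    exact mul_le_mul_of_nonneg_right hkE (Nat.cast_nonneg K)
  have hq3 : ((d : ℝ) ^ (1 - κ1)) ^ i = (d : ℝ) ^ ((1 - κ1) * i) := by
    rw [← Real.rpow_natCast, ← Real.rpow_mul hd0.le]
  have h3 : Real.exp (g / 2 * K) * ((d : ℝ) ^ (K : ℝ) * Real.exp (-(g * K))) / (d : ℝ) ^ (ρ : ℝ) ≤
      (d : ℝ) ^ 3 * ((d : ℝ) ^ (1 - κ1)) ^ i := by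
    have e1 : Real.exp (g / 2 * K) * ((d : ℝ) ^ (K : ℝ) * Real.exp (-(g * K))) / (d : ℝ) ^ (ρ : ℝ) =
        (d : ℝ) ^ ((K : ℝ) - ρ) * Real.exp (-(g / 2 * K)) := by
      rw [Real.rpow_sub hd0]
      have : Real.exp (g / 2 * K) * Real.exp (-(g * K)) = Real.exp (-(g / 2 * K)) := by
        rw [← Real.exp_add]; congr 1; ring
      rw [← this]; ring
    have e2 : (K : ℝ) - ρ = i + 3 := by
      rw [hKR, hρ, Nat.cast_sub hρ3]; push_cast; ring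
    rw [e1, e2, hq3]
    have e3 : Real.exp (-(g / 2 * K)) ≤ (d : ℝ) ^ (-(κ1 * i)) := by
      rw [Real.rpow_def_of_pos hd0]
      apply Real.exp_le_exp.2
      rw [le_div_iff₀ (by positivity)] at hκ1c
      have h5 : (i : ℝ) ≤ K := by
        have : (0 : ℝ) ≤ ρ0 := Nat.cast_nonneg _
        linarith
      have h4 : κ1 * (2 * Real.log d) * i ≤ g * K :=
        (mul_le_mul_of_nonneg_right hκ1c hin).trans (mul_le_mul_of_nonneg_left h5 hg0.le)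
      nlinarith
    calc (d : ℝ) ^ ((i : ℝ) + 3) * Real.exp (-(g / 2 * K)) ≤ (d : ℝ) ^ ((i : ℝ) + 3) *
          (d : ℝ) ^ (-(κ1 * i)) := mul_le_mul_of_nonneg_left e3 (by positivity)
      _ = (d : ℝ) ^ (3 : ℝ) * (d : ℝ) ^ ((1 - κ1) * i) := by
          rw [← Real.rpow_add hd0, ← Real.rpow_add hd0]; congr 1; ring
      _ = _ := by
          rw [show (3 : ℝ) = ((3 : ℕ) : ℝ) by norm_num, Real.rpow_natCast]
  have hZK : 0 ≤ Zs d m (-σ) ^ K * (2 * (d : ℝ) ^ K * Real.exp ((lam - δ) * K)) ^ σ := by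
    have := h.Zs_pos (-σ)
    positivity
  calc C * Real.exp (Real.exp (-(c0 * k)) * K) *
        (Zs d m (-σ) ^ K * (2 * (d : ℝ) ^ K * Real.exp ((lam - δ) * K)) ^ σ) / (d : ℝ) ^ (ρ : ℝ)
      ≤ C * Real.exp (g / 2 * K) *
        ((2 : ℝ) ^ σ * ((d : ℝ) ^ (K : ℝ) * Real.exp (-(g * K)))) / (d : ℝ) ^ (ρ : ℝ) := by
        apply div_le_div_of_nonneg_right _ (by positivity)
        exact mul_le_mul (mul_le_mul_of_nonneg_left h2 hC0.le) h1 hZK (by positivity)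
    _ = C * (2 : ℝ) ^ σ *
        (Real.exp (g / 2 * K) * ((d : ℝ) ^ (K : ℝ) * Real.exp (-(g * K))) / (d : ℝ) ^ (ρ : ℝ)) := by ring
    _ ≤ C * (2 : ℝ) ^ σ * ((d : ℝ) ^ 3 * ((d : ℝ) ^ (1 - κ1)) ^ i) :=
        mul_le_mul_of_nonneg_left h3 (by positivity)
    _ = _ := by ring

/-- one level -/
theorem level (h : Cop d m r) {lam M δ σ g τ c0 C κ1 R0 : ℝ} {k : ℕ} (hσ0 : 0 < σ) (hC0 : 0 < C)
    (hτ0 : 0 < τ) (hτb : τ ≤ 1 / 16) (hg0 : 0 < g) (hk1 : 1 ≤ k) (hlam0 : 0 < lam)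
    (hδ : δ = τ * lam / 4) (hneg : -(σ * lam) + σ ^ 2 * M ^ 2 ≤ 0)
    (hZ : Zs d m (-σ) ≤ (d : ℝ) ^ (1 - σ) * Real.exp (-(σ * lam) + σ ^ 2 * M ^ 2))
    (hg : σ * δ - σ ^ 2 * M ^ 2 = g) (hk8 : 8 * k * τ ≤ 1) (hkE : Real.exp (-(c0 * k)) ≤ g / 2)
    (hκ1b : κ1 ≤ σ / 4) (hκ1c : κ1 ≤ g / (2 * Real.log d))
    (hR0 : ∀ i < d, |(r i : ℝ)| ≤ R0) (hR00 : 0 ≤ R0)
    (hcount : ∀ K R : ℕ, 1 ≤ R → R ≤ d ^ (K / (8 * k)) → ∀ Y : ℝ, 0 ≤ Y → ∀ (u : ℤ) (B : Finset ℤ),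
      (∀ x ∈ B, |x - u| * (8 * R) ≤ (d : ℤ) ^ K ∧ |(Mw m (wd d m r K x) : ℝ)| ^ (-(-σ)) ≤ Y) →
      (B.card : ℝ) ≤ C * Real.exp (Real.exp (-(c0 * k)) * K) * (Zs d m (-σ) ^ K * Y) / R)
    {i : ℕ} (g2 : 4 ≤ τ * (i : ℝ)) (g8 : 8 ≤ i)
    (gY : 32 * (R0 + 1) * i * d ≤ (d : ℝ) ^ ((i : ℝ) / 16)) (F : Finset ℤ)
    (hF : ∀ x ∈ F, (∀ k : ℕ, |(((Tm d m r)^[k] x : ℤ) : ℝ)| ≤
      |(x : ℝ)| ^ (1 + lam / Real.log d * (1 + τ / 4))) ∧ (d : ℝ) ^ (i - 1) ≤ |(x : ℝ)| ∧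
      |(x : ℝ)| < (d : ℝ) ^ i) :
    (F.card : ℝ) ≤ (C * (2 : ℝ) ^ σ * (d : ℝ) ^ 3 + 4) * ((d : ℝ) ^ (1 - κ1)) ^ i := by
  classical
  have hd := h.two_le
  have hdR : (2 : ℝ) ≤ d := by exact_mod_cast hd
  have hd0 : (0 : ℝ) < d := by linarith
  have hld : 0 < Real.log d := Real.log_pos (by linarith)
  have hin : (0 : ℝ) ≤ i := Nat.cast_nonneg i
  have hi8 : (8 : ℝ) ≤ i := by exact_mod_cast g8
  obtain ⟨ρ0, hρ0⟩ : ∃ ρ0, ρ0 = ⌊τ * (i : ℝ)⌋₊ := ⟨_, rfl⟩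
  have hfl : (ρ0 : ℝ) ≤ τ * i := by rw [hρ0]; exact Nat.floor_le (by positivity)
  have hfl2 : τ * (i : ℝ) < ρ0 + 1 := by rw [hρ0]; exact Nat.lt_floor_add_one _
  have hρ3 : 3 ≤ ρ0 := by
    have h' : (3 : ℝ) < ((ρ0 + 1 : ℕ) : ℝ) := by push_cast; linarith
    have h'' : 3 < ρ0 + 1 := by exact_mod_cast h'
    omega
  obtain ⟨K, hK⟩ : ∃ K, K = i + ρ0 := ⟨_, rfl⟩
  have hKR : (K : ℝ) = i + ρ0 := by rw [hK]; push_cast; rfl
  have hτi : τ * i ≤ i / 16 := by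
    have := mul_le_mul_of_nonneg_right hτb hin
    linarith
  have hK2 : (K : ℝ) ≤ 2 * i := by rw [hKR]; linarith
  obtain ⟨Y, hY⟩ : ∃ Y : ℝ, Y = 16 * (R0 + 1) * i := ⟨_, rfl⟩
  have hY0 : 0 < Y := by rw [hY]; positivity
  obtain ⟨j0, hj0⟩ : ∃ j0, j0 = i / 2 := ⟨_, rfl⟩
  have hj0c : (j0 : ℝ) ≤ i / 2 := by
    have : 2 * j0 ≤ i := by omega
    have h' : 2 * (j0 : ℝ) ≤ i := by exact_mod_cast this
    linarith
  obtain ⟨D, hD⟩ : ∃ D : ℝ, D = 2 * Y * (d : ℝ) ^ (ρ0 + 1) := ⟨_, rfl⟩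
  have hD0 : 0 < D := by rw [hD]; positivity
  have hYd' : Y * 2 * d ≤ (d : ℝ) ^ ((i : ℝ) / 16) := by
    calc Y * 2 * d = 32 * (R0 + 1) * i * d := by rw [hY]; ring
      _ ≤ _ := gY
  have hDle : D ≤ (d : ℝ) ^ ((i : ℝ) / 8) := by
    have e1 : (d : ℝ) ^ (ρ0 + 1) ≤ (d : ℝ) ^ ((i : ℝ) / 16) * d := by
      rw [pow_succ]
      apply mul_le_mul_of_nonneg_right _ hd0.le
      rw [← Real.rpow_natCast]
      apply Real.rpow_le_rpow_of_exponent_le (by linarith)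
      linarith
    have e2 : (d : ℝ) ^ ((i : ℝ) / 8) = (d : ℝ) ^ ((i : ℝ) / 16) * (d : ℝ) ^ ((i : ℝ) / 16) := by
      rw [← Real.rpow_add hd0]; congr 1; ring
    rw [hD, e2]
    calc 2 * Y * (d : ℝ) ^ (ρ0 + 1) ≤ 2 * Y * ((d : ℝ) ^ ((i : ℝ) / 16) * d) :=
          mul_le_mul_of_nonneg_left e1 (by positivity)
      _ = (Y * 2 * d) * (d : ℝ) ^ ((i : ℝ) / 16) := by ring
      _ ≤ _ := mul_le_mul_of_nonneg_right hYd' (by positivity)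
  have hYd : Y * 2 * (d : ℝ) ^ (j0 + 1) ≤ (d : ℝ) ^ i := by
    calc Y * 2 * (d : ℝ) ^ (j0 + 1) = (Y * 2 * d) * (d : ℝ) ^ j0 := by rw [pow_succ]; ring
      _ ≤ (d : ℝ) ^ ((i : ℝ) / 16) * (d : ℝ) ^ (j0 : ℝ) := by
          rw [Real.rpow_natCast]
          exact mul_le_mul_of_nonneg_right hYd' (by positivity)
      _ ≤ (d : ℝ) ^ (i : ℝ) := by
          rw [← Real.rpow_add hd0]
          apply Real.rpow_le_rpow_of_exponent_le (by linarith)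
          linarith
      _ = _ := Real.rpow_natCast _ _
  have hn4 : 4 * (K : ℝ) * R0 ≤ Y := by
    have h2 : 4 * (K : ℝ) * R0 ≤ 4 * (2 * i) * R0 := by
      apply mul_le_mul_of_nonneg_right _ hR00
      linarith
    have h3 : 0 ≤ (i : ℝ) * R0 := by positivity
    rw [hY]
    nlinarith
  have habs : ∀ x ∈ F, |x| ≤ (d : ℤ) ^ i := by
    intro x hx
    have h1 := (hF x hx).2.2
    have h2 : |x| < (d : ℤ) ^ i := by exact_mod_cast h1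
    exact h2.le
  have hZ' : Zs d m (-σ) ≤ (d : ℝ) ^ (1 - σ) := by
    refine hZ.trans ?_
    have h1 : Real.exp (-(σ * lam) + σ ^ 2 * M ^ 2) ≤ 1 := Real.exp_le_one_iff.2 hneg
    calc (d : ℝ) ^ (1 - σ) * Real.exp (-(σ * lam) + σ ^ 2 * M ^ 2) ≤ (d : ℝ) ^ (1 - σ) * 1 :=
          mul_le_mul_of_nonneg_left h1 (by positivity)
      _ = _ := mul_one _
  have hca := count_a h (τ := τ) hσ0 hC0 hτ0 hτb hg0 hk1 hZ hg hk8 hkE hκ1c hcount hfl hρ3 hK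
    (F.filter (fun x => |(Mw m (wd d m r K x) : ℝ)| ≤ 2 * (d : ℝ) ^ K * Real.exp ((lam - δ) * K))) (by
      intro x hx
      rw [mem_filter] at hx
      exact ⟨habs x hx.1, hx.2⟩)
  have hcb := weight_b h hσ0 hZ' g8 hD0 hDle hκ1b
    (F.filter (fun x => |(Mw m (wd d m r (i / 2) x) : ℝ)| ≤ D)) (by
      intro x hx
      rw [mem_filter] at hx
      exact ⟨habs x hx.1, hx.2⟩)
  have hsub : F ⊆ F.filter (fun x => |(Mw m (wd d m r K x) : ℝ)| ≤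
        2 * (d : ℝ) ^ K * Real.exp ((lam - δ) * K)) ∪
      F.filter (fun x => |(Mw m (wd d m r (i / 2) x) : ℝ)| ≤ D) := by
    intro x hx
    by_contra hcon
    rw [mem_union, not_or, mem_filter, mem_filter, not_and, not_and, not_le, not_le] at hcon
    have hMa := hcon.1 hx
    have hMb := hcon.2 hx
    obtain ⟨hS, hx1, hx2⟩ := hF x hx
    rw [← hj0, hD] at hMb
    have hdy := dyn h hR0 hR00 hY0 hK (by omega) hn4 hYd hx1 (Real.exp_pos ((lam - δ) * K)) hMa hMb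
    have hx1' : 1 ≤ |(x : ℝ)| := le_trans (one_le_pow₀ (by linarith)) hx1
    have hpow := grow_exp (x := |(x : ℝ)|) (lam := lam) (δ := δ) (τ := τ) (ld := Real.log d)
      (i := i) (K := K) hx1' hld (by
        rw [← Real.log_pow]
        exact Real.log_le_log (by linarith) hx2.le) hlam0 hτ0 hτb hδ g2 hin (by rw [hKR]; linarith)
    have := hS K
    linarith
  have hcard : (F.card : ℝ) ≤ ((F.filter (fun x => |(Mw m (wd d m r K x) : ℝ)| ≤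
        2 * (d : ℝ) ^ K * Real.exp ((lam - δ) * K))).card : ℝ) +
      ((F.filter (fun x => |(Mw m (wd d m r (i / 2) x) : ℝ)| ≤ D)).card : ℝ) := by
    exact_mod_cast (card_le_card hsub).trans (card_union_le _ _)
  refine hcard.trans ((add_le_add hca hcb).trans (le_of_eq ?_))
  ring

/-- the threshold -/
theorem threshold {R0 τ : ℝ} {d : ℕ} (hd : 2 ≤ d) (hR00 : 0 ≤ R0) (hτ0 : 0 < τ) :
    ∃ i0 : ℕ, ∀ i : ℕ, i0 ≤ i → 4 ≤ τ * (i : ℝ) ∧ 8 ≤ i ∧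
      32 * (R0 + 1) * i * d ≤ (d : ℝ) ^ ((i : ℝ) / 16) := by
  have hdR : (2 : ℝ) ≤ d := by exact_mod_cast hd
  have hd0 : (0 : ℝ) < d := by linarith
  have e2 : ∀ᶠ i : ℕ in atTop, 4 ≤ τ * (i : ℝ) :=
    (Tendsto.const_mul_atTop hτ0 tendsto_natCast_atTop_atTop).eventually_ge_atTop _
  have e3 : ∀ᶠ i : ℕ in atTop, 32 * (R0 + 1) * i * d ≤ (d : ℝ) ^ ((i : ℝ) / 16) := by
    have h1 := tendsto_pow_const_div_const_pow_of_one_lt 1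
      (show (1 : ℝ) < (2 : ℝ) ^ ((1 : ℝ) / 16) from Real.one_lt_rpow (by norm_num) (by norm_num))
    have h2 := h1.eventually_le_const (show (0 : ℝ) < 1 / (32 * (R0 + 1) * d) by positivity)
    filter_upwards [h2] with i hi
    rw [div_le_div_iff₀ (by positivity) (by positivity), pow_one, one_mul] at hi
    have h3 : ((2 : ℝ) ^ ((1 : ℝ) / 16)) ^ i ≤ (d : ℝ) ^ ((i : ℝ) / 16) := by
      rw [← Real.rpow_natCast, ← Real.rpow_mul (by norm_num)]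
      have : (1 : ℝ) / 16 * i = (i : ℝ) / 16 := by ring
      rw [this]
      exact Real.rpow_le_rpow (by norm_num) hdR (by positivity)
    calc 32 * (R0 + 1) * i * d = i * (32 * (R0 + 1) * d) := by ring
      _ ≤ _ := hi.trans h3
  obtain ⟨i0, hi0⟩ := eventually_atTop.1 ((e2.and (eventually_ge_atTop 8)).and e3)
  exact ⟨i0, fun i hi => ⟨(hi0 i hi).1.1, (hi0 i hi).1.2, (hi0 i hi).2⟩⟩

/-- small levels -/
theorem small_level {q : ℝ} (hq0 : 0 < q) {d : ℕ} (hd : 2 ≤ d) (i0 : ℕ) : ∃ A2 : ℝ, 0 ≤ A2 ∧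
    ∀ i < i0, ∀ F : Finset ℤ, (∀ x ∈ F, |(x : ℝ)| < (d : ℝ) ^ i) → (F.card : ℝ) ≤ A2 * q ^ i := by
  have hdR : (2 : ℝ) ≤ d := by exact_mod_cast hd
  refine ⟨∑ i ∈ range (i0 + 1), 3 * (d : ℝ) ^ i / q ^ i, sum_nonneg fun _ _ => by positivity, ?_⟩
  intro i hi F hF
  have hsub : F ⊆ Icc (-(d : ℤ) ^ i) ((d : ℤ) ^ i) := by
    intro x hx
    have h1 := hF x hx
    have h2 : |x| < (d : ℤ) ^ i := by exact_mod_cast h1
    have h3 := abs_lt.1 h2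
    exact mem_Icc.2 ⟨by linarith, by linarith⟩
  have h2 := card_le_card hsub
  rw [Int.card_Icc] at h2
  have h3 : ((d : ℤ) ^ i + 1 - -(d : ℤ) ^ i).toNat = 2 * d ^ i + 1 := by
    have : ((d : ℤ) ^ i + 1 - -(d : ℤ) ^ i) = ((2 * d ^ i + 1 : ℕ) : ℤ) := by push_cast; ring
    rw [this, Int.toNat_natCast]
  rw [h3] at h2
  have h4 : (F.card : ℝ) ≤ 2 * (d : ℝ) ^ i + 1 := by exact_mod_cast h2
  have h5 : (1 : ℝ) ≤ (d : ℝ) ^ i := one_le_pow₀ (by linarith)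
  have h6 : 3 * (d : ℝ) ^ i / q ^ i ≤ ∑ i ∈ range (i0 + 1), 3 * (d : ℝ) ^ i / q ^ i :=
    single_le_sum (f := fun i => 3 * (d : ℝ) ^ i / q ^ i) (fun _ _ => by positivity)
      (mem_range.2 (by omega))
  rw [div_le_iff₀ (by positivity)] at h6
  linarith

/-- GROWTH BEYOND THE FREE RANGE -/
theorem growth {r0 : ℕ → ℤ} (h0 : Cop d m r0) (hbig : ∃ i < d, 2 ≤ |m i|) (hL : 0 < lsum d m) :
    ∃ θ κ : ℝ, 1 + lsum d m / d / Real.log d < θ ∧ 0 < κ ∧ κ < 1 ∧ ∀ r : ℕ → ℤ, Cop d m r →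
      ∃ C : ℝ, 0 < C ∧ ∀ X : ℝ, 1 ≤ X → ∀ F : Finset ℤ,
      (∀ x ∈ F, |(x : ℝ)| ≤ X ∧ ∀ k : ℕ, |(((Tm d m r)^[k] x : ℤ) : ℝ)| ≤ |(x : ℝ)| ^ θ) →
      (F.card : ℝ) ≤ C * X ^ (1 - κ) := by
  have hd := h0.two_le
  have hdR : (2 : ℝ) ≤ d := by exact_mod_cast hd
  have hd0 : (0 : ℝ) < d := by linarith
  have hld : 0 < Real.log d := Real.log_pos (by linarith)
  obtain ⟨M, hM1, hlM, hZs⟩ := Zs_neg h0
  obtain ⟨c0, hc0, k0, hk0, hmain⟩ := main_large_unif h0 hbig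
  have hlam0 : 0 < lsum d m / d := by positivity
  obtain ⟨τ, δ, σ, g, k, hτ0, hτb, hδ, hσ0, hσM, hσ1, hg0, hg, hneg, hkk0, hk8, hkE⟩ :=
    params hM1 hlam0 hlM hc0 hk0
  have hZ := hZs σ hσ0.le hσM
  obtain ⟨κ1, hκ1⟩ : ∃ κ1 : ℝ, κ1 = min (1 / 2) (min (σ / 4) (g / (2 * Real.log d))) := ⟨_, rfl⟩
  have hκ10 : 0 < κ1 := by rw [hκ1]; positivity
  have hκ1a : κ1 ≤ 1 / 2 := by rw [hκ1]; exact min_le_left _ _
  have hκ1b : κ1 ≤ σ / 4 := by rw [hκ1]; exact (min_le_right _ _).trans (min_le_left _ _)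
  have hκ1c : κ1 ≤ g / (2 * Real.log d) := by rw [hκ1]; exact (min_le_right _ _).trans (min_le_right _ _)
  refine ⟨1 + lsum d m / d / Real.log d * (1 + τ / 4), κ1 / 2, ?_, by positivity, by linarith, ?_⟩
  · have h1 : 0 < lsum d m / d / Real.log d := by positivity
    nlinarith
  intro r h
  obtain ⟨C, hC0, hcount⟩ := hmain (-σ) (by linarith) (by linarith) k hkk0 r h
  obtain ⟨R0, hR0, hR00⟩ : ∃ R0 : ℝ, (∀ i < d, |(r i : ℝ)| ≤ R0) ∧ 0 ≤ R0 :=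
    ⟨∑ i ∈ range d, |(r i : ℝ)|, fun i hi =>
      single_le_sum (f := fun i => |(r i : ℝ)|) (fun _ _ => abs_nonneg _) (mem_range.2 hi),
      sum_nonneg fun _ _ => abs_nonneg _⟩
  obtain ⟨i0, hi0⟩ := threshold (R0 := R0) (τ := τ) hd hR00 hτ0
  have hq0 : 0 < (d : ℝ) ^ (1 - κ1) := Real.rpow_pos_of_pos hd0 _
  obtain ⟨A2, hA20, hA2⟩ := small_level hq0 hd i0
  obtain ⟨C', hC', hb⟩ := count_levels (d := d) hd (A := C * (2 : ℝ) ^ σ * (d : ℝ) ^ 3 + 4 + A2)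
    (η := 1 - κ1) (η' := 1 - κ1 / 2) (by positivity) (by linarith) (by linarith)
    {x : ℤ | ∀ k : ℕ, |(((Tm d m r)^[k] x : ℤ) : ℝ)| ≤
      |(x : ℝ)| ^ (1 + lsum d m / d / Real.log d * (1 + τ / 4))} (by
    intro i hi F hF
    rcases lt_or_ge i i0 with hsm | hbg
    · have h1 := hA2 i hsm F (fun x hx => (hF x hx).2.2)
      have h2 : 0 ≤ (C * (2 : ℝ) ^ σ * (d : ℝ) ^ 3 + 4) * ((d : ℝ) ^ (1 - κ1)) ^ i := by positivity
      linarith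
    · obtain ⟨g2, g8, gY⟩ := hi0 i hbg
      have h1 := level h (κ1 := κ1) hσ0 hC0 hτ0 hτb hg0 (hk0.trans hkk0) hlam0 hδ hneg hZ hg hk8 hkE hκ1b
        hκ1c hR0 hR00 hcount g2 g8 gY F hF
      have h2 : 0 ≤ A2 * ((d : ℝ) ^ (1 - κ1)) ^ i := by positivity
      linarith)
  exact ⟨C', hC', fun X hX F hF => hb X hX F (fun x hx => ⟨(hF x hx).2, (hF x hx).1⟩)⟩

end Pool.Agent.TH930.GH
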