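import Pool.Agent.TH930.GH.Exp
import Pool.Agent.TH930.GH.MollerB

/-! Disjoint invariant sets of integers (in particular cycles) of expanding maps of coprime type. -/

set_option autoImplicit false

namespace Pool.Agent.TH930.GH

open Finset Filter Topology Pool.Agent.H319R3.GC

variable {d : ℕ} {m r : ℕ → ℤ}

/-- the largest elements of trajectories -/
theorem largest_elements {r0 : ℕ → ℤ} (h0 : Cop d m r0) (hbig0 : ∃ i < d, 2 ≤ |m i|) {s η : ℝ}
    (hs : s < 0) (hη0 : 0 < η) (hη1 : η < 1)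
    (hsum : ∑ j ∈ range d, (|(m j : ℝ)| / d) ^ s ≤ (d : ℝ) ^ η) :
    ∃ η' : ℝ, 0 < η' ∧ η' < η ∧ ∀ r : ℕ → ℤ, Cop d m r → ∃ L : ℝ, 0 < L ∧ ∃ C : ℝ, 0 < C ∧
      ∀ X : ℝ, 1 ≤ X → ∀ F : Finset ℤ,
      (∀ x ∈ F, |(x : ℝ)| ≤ X ∧ ∀ k : ℕ, |(((Tm d m r)^[k] x : ℤ) : ℝ)| ≤ |(x : ℝ)| ∧
        L * (Real.log X + 1) ≤ |(((Tm d m r)^[k] x : ℤ) : ℝ)|) →
      (F.card : ℝ) ≤ C * X ^ η' := by
  obtain ⟨τ, hτ0, hτ1, η1, hη10, hη11, hSt'⟩ := card_B_less h0 hbig0 hη0 hη1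
    (A0 := (2 : ℝ) ^ (-s)) (by positivity) hsum
  refine ⟨(η1 + η) / 2, by linarith, by linarith, fun r h => ?_⟩
  obtain ⟨A, hA, hSt⟩ := hSt' r h
  have hd := h.two_le
  have hdR : (2 : ℝ) ≤ d := by exact_mod_cast hd
  have hd0 : (0 : ℝ) < d := by linarith
  have hl2 : (0.6931471803 : ℝ) < Real.log 2 := Real.log_two_gt_d9
  have hld2 : Real.log 2 ≤ Real.log d := Real.log_le_log (by norm_num) hdR
  have hld : 0 < Real.log d := by linarith
  obtain ⟨R0, hR0, hR00⟩ : ∃ R0 : ℝ, (∀ i < d, |(r i : ℝ)| ≤ R0) ∧ 0 ≤ R0 :=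
    ⟨∑ i ∈ range d, |(r i : ℝ)|, fun i hi =>
      single_le_sum (f := fun i => |(r i : ℝ)|) (fun _ _ => abs_nonneg _) (mem_range.2 hi),
      sum_nonneg fun _ _ => abs_nonneg _⟩
  set L : ℝ := 16 * (R0 + 1) with hL
  have hL0 : 0 < L := by positivity
  -- the set
  obtain ⟨C, hC, hb⟩ := count_levels (d := d) h.two_le (A := A) (η := η1) (η' := (η1 + η) / 2) hA hη10
    (by linarith) {x : ℤ | ∀ k : ℕ, |(((Tm d m r)^[k] x : ℤ) : ℝ)| ≤ |(x : ℝ)| ∧
      L * (Real.log |(x : ℝ)| + 1) ≤ |(((Tm d m r)^[k] x : ℤ) : ℝ)|} (by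
      intro i hi F hF
      apply hSt i hi
      intro x hx
      obtain ⟨h1, h2, h3⟩ := hF x hx
      have hx1 : (1 : ℝ) ≤ |(x : ℝ)| := le_trans (one_le_pow₀ (by linarith)) h2
      refine ⟨?_, ?_⟩
      · have : (|(x : ℤ)| : ℤ) < (d : ℤ) ^ i := by exact_mod_cast h3
        exact this.le
      · set K : ℕ := i + ⌊τ * (i : ℝ)⌋₊ with hK
        have hfl : (⌊τ * (i : ℝ)⌋₊ : ℝ) ≤ τ * i := Nat.floor_le (by positivity)
        have hin : (0 : ℝ) ≤ i := Nat.cast_nonneg i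
        have hK2 : (K : ℝ) ≤ 2 * i := by
          rw [hK]; push_cast; nlinarith
        have hlog : (i : ℝ) ≤ 2 * (Real.log |(x : ℝ)| + 1) := by
          have h4 := Real.log_le_log (by positivity) h2
          rw [Real.log_pow, Nat.cast_sub hi, Nat.cast_one] at h4
          have hi1 : (1 : ℝ) ≤ i := by exact_mod_cast hi
          nlinarith
        have hY0 : 0 < L * (Real.log |(x : ℝ)| + 1) := by
          have := Real.log_nonneg hx1
          positivity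
        have hM := mult_le h hR0 hR00 hY0 (n := K) (x := x) (by
          have h5 : 4 * (K : ℝ) * R0 ≤ 4 * (2 * i) * R0 := by
            apply mul_le_mul_of_nonneg_right _ hR00
            linarith
          have h6 : 4 * (2 * (i : ℝ)) * R0 ≤ 16 * (Real.log |(x : ℝ)| + 1) * R0 := by
            apply mul_le_mul_of_nonneg_right _ hR00
            linarith
          have h7 : 0 ≤ Real.log |(x : ℝ)| + 1 := by
            have := Real.log_nonneg hx1; linarith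
          rw [hL]
          nlinarith) (fun j _ => ⟨(h1 j).2, (h1 j).1⟩)
        have hM0 : (0 : ℝ) < |(Mw m (wd d m r K x) : ℝ)| :=
          _root_.abs_pos.2 (by exact_mod_cast h.Mw_ne (h.wd_mem' K x))
        calc |(Mw m (wd d m r K x) : ℝ)| ^ (-s) ≤ (2 * (d : ℝ) ^ K) ^ (-s) :=
              Real.rpow_le_rpow hM0.le hM (by linarith)
          _ = _ := by
              rw [Real.mul_rpow (by norm_num) (by positivity), ← Real.rpow_natCast, ← Real.rpow_mul hd0.le]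
              congr 2
              ring)
  refine ⟨L, hL0, C + 1, by linarith, fun X hX F hF => ?_⟩
  have h2 := hb X hX (F.filter (fun x => x ≠ 0)) (by
    intro x hx
    rw [mem_filter] at hx
    obtain ⟨h1, h2⟩ := hF x hx.1
    refine ⟨fun k => ⟨(h2 k).1, le_trans ?_ (h2 k).2⟩, h1⟩
    apply mul_le_mul_of_nonneg_left _ hL0.le
    have h3 : (1 : ℤ) ≤ |x| := Int.one_le_abs hx.2
    have h4 : (1 : ℝ) ≤ |(x : ℝ)| := by exact_mod_cast h3
    have := Real.log_le_log (by linarith) h1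
    linarith)
  have h3 : F.card ≤ (F.filter (fun x => x ≠ 0)).card + 1 := by
    have h4 : F ⊆ F.filter (fun x => x ≠ 0) ∪ {0} := by
      intro x hx
      rw [mem_union, mem_filter, mem_singleton]
      by_cases h5 : x = 0
      · exact Or.inr h5
      · exact Or.inl ⟨hx, h5⟩
    have h5 := (card_le_card h4).trans (card_union_le _ _)
    rwa [card_singleton] at h5
  have h3R : (F.card : ℝ) ≤ ((F.filter (fun x => x ≠ 0)).card : ℝ) + 1 := by exact_mod_cast h3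
  have h4 : 1 ≤ X ^ ((η1 + η) / 2) := Real.one_le_rpow hX (by linarith)
  linarith

/-- pairwise disjoint invariant sets in `[-X, X]` -/
theorem inv_sets {T : ℤ → ℤ} {L C η : ℝ} (hL : 0 < L) (hC : 0 < C) (hη : 0 < η)
    (h : ∀ X : ℝ, 1 ≤ X → ∀ F : Finset ℤ, (∀ x ∈ F, |(x : ℝ)| ≤ X ∧ ∀ k : ℕ,
      |((T^[k] x : ℤ) : ℝ)| ≤ |(x : ℝ)| ∧ L * (Real.log X + 1) ≤ |((T^[k] x : ℤ) : ℝ)|) →
      (F.card : ℝ) ≤ C * X ^ η) :
    ∃ C' : ℝ, 0 < C' ∧ ∀ X : ℝ, 1 ≤ X → ∀ 𝒞 : Finset (Finset ℤ),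
      (∀ c ∈ 𝒞, c.Nonempty ∧ (∀ x ∈ c, T x ∈ c) ∧ ∀ x ∈ c, |(x : ℝ)| ≤ X) →
      (∀ c ∈ 𝒞, ∀ c' ∈ 𝒞, c ≠ c' → Disjoint c c') → (𝒞.card : ℝ) ≤ C' * X ^ η := by
  classical
  refine ⟨C + 2 * L * (1 / η + 1) + 1, by positivity, ?_⟩
  intro X hX 𝒞 h𝒞 hdis
  have hX0 : 0 < X := by linarith
  have hlX : 0 ≤ Real.log X := Real.log_nonneg hX
  set Y : ℝ := L * (Real.log X + 1) with hY
  have hY0 : 0 < Y := by positivity
  have hiter : ∀ c ∈ 𝒞, ∀ x ∈ c, ∀ k : ℕ, T^[k] x ∈ c := by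
    intro c hc x hx k
    induction k with
    | zero => exact hx
    | succ k ih => rw [Function.iterate_succ_apply']; exact (h𝒞 c hc).2.1 _ ih
  -- the families
  have hlow : ((𝒞.filter (fun c => ∃ z : ℤ, z ∈ c ∧ |(z : ℝ)| < Y)).card : ℝ) ≤ 2 * Y + 1 := by
    have hz : ∀ c ∈ 𝒞.filter (fun c => ∃ z : ℤ, z ∈ c ∧ |(z : ℝ)| < Y), ∃ z : ℤ, z ∈ c ∧ |(z : ℝ)| < Y :=
      fun c hc => (mem_filter.1 hc).2
    choose! z hz1 hz2 using hz
    have hinj : Set.InjOn z (𝒞.filter (fun c => ∃ z : ℤ, z ∈ c ∧ |(z : ℝ)| < Y)) := by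
      intro c hc c' hc' hcc
      by_contra hne
      have h1 := hdis c (mem_filter.1 hc).1 c' (mem_filter.1 hc').1 hne
      exact Finset.disjoint_left.1 h1 (hz1 c hc) (hcc ▸ hz1 c' hc')
    rw [← card_image_of_injOn hinj]
    have h1 : (𝒞.filter (fun c => ∃ z : ℤ, z ∈ c ∧ |(z : ℝ)| < Y)).image z ⊆ Icc (-⌊Y⌋) ⌊Y⌋ := by
      intro w hw
      rw [mem_image] at hw
      obtain ⟨c, hc, rfl⟩ := hw
      have h2 := abs_lt.1 (hz2 c hc)
      rw [mem_Icc]
      constructor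
      · rw [neg_le]
        apply Int.le_floor.2
        push_cast
        linarith
      · apply Int.le_floor.2
        linarith
    have h2 := card_le_card h1
    rw [Int.card_Icc] at h2
    have h3 : 0 ≤ ⌊Y⌋ := Int.floor_nonneg.2 hY0.le
    have h4 : ((⌊Y⌋ + 1 - -⌊Y⌋).toNat : ℤ) = 2 * ⌊Y⌋ + 1 := by
      rw [Int.toNat_of_nonneg (by linarith)]; ring
    have h5 : ((((𝒞.filter (fun c => ∃ z : ℤ, z ∈ c ∧ |(z : ℝ)| < Y)).image z).card : ℕ) : ℤ) ≤ 2 * ⌊Y⌋ + 1 := by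
      rw [← h4]; exact_mod_cast h2
    have h6 : ((((𝒞.filter (fun c => ∃ z : ℤ, z ∈ c ∧ |(z : ℝ)| < Y)).image z).card : ℕ) : ℝ) ≤
        2 * (⌊Y⌋ : ℝ) + 1 := by exact_mod_cast h5
    have h7 := Int.floor_le Y
    linarith
  have hhigh : ((𝒞.filter (fun c => ¬ ∃ z : ℤ, z ∈ c ∧ |(z : ℝ)| < Y)).card : ℝ) ≤ C * X ^ η := by
    have hx : ∀ c ∈ 𝒞.filter (fun c => ¬ ∃ z : ℤ, z ∈ c ∧ |(z : ℝ)| < Y), ∃ x ∈ c, ∀ z ∈ c, |(z : ℝ)| ≤ |(x : ℝ)| :=
      fun c hc => exists_max_image c (fun z : ℤ => |(z : ℝ)|) (h𝒞 c (mem_filter.1 hc).1).1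
    choose! x hx1 hx2 using hx
    have hinj : Set.InjOn x (𝒞.filter (fun c => ¬ ∃ z : ℤ, z ∈ c ∧ |(z : ℝ)| < Y)) := by
      intro c hc c' hc' hcc
      by_contra hne
      have h1 := hdis c (mem_filter.1 hc).1 c' (mem_filter.1 hc').1 hne
      exact Finset.disjoint_left.1 h1 (hx1 c hc) (hcc ▸ hx1 c' hc')
    rw [← card_image_of_injOn hinj]
    apply h X hX
    intro w hw
    rw [mem_image] at hw
    obtain ⟨c, hc, rfl⟩ := hw
    have hc1 := (mem_filter.1 hc).1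
    have hc2 := (mem_filter.1 hc).2
    refine ⟨(h𝒞 c hc1).2.2 _ (hx1 c hc), fun k => ⟨?_, ?_⟩⟩
    · exact hx2 c hc _ (hiter c hc1 _ (hx1 c hc) k)
    · by_contra hcon
      exact hc2 ⟨_, hiter c hc1 _ (hx1 c hc) k, not_le.1 hcon⟩
  have hcard : (𝒞.card : ℝ) ≤ (2 * Y + 1) + C * X ^ η := by
    rw [← card_filter_add_card_filter_not (s := 𝒞) (fun c => ∃ z : ℤ, z ∈ c ∧ |(z : ℝ)| < Y)]
    push_cast
    linarith
  have h1 : Real.log X ≤ X ^ η / η := Real.log_le_rpow_div hX0.le hη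
  have h2 : 1 ≤ X ^ η := Real.one_le_rpow hX hη.le
  have h3 : Y ≤ L * (1 / η + 1) * X ^ η := by
    rw [hY, mul_assoc]
    apply mul_le_mul_of_nonneg_left _ hL.le
    have : X ^ η / η = 1 / η * X ^ η := by ring
    linarith
  linarith

/-- the minimum, for positive reals -/
theorem exists_min_real {d : ℕ} (hd : 2 ≤ d) {a : ℕ → ℝ} (ha : ∀ i < d, 0 < a i)
    (hprod : ∏ i ∈ range d, a i < 1) (hb : ∃ j < d, 1 < a j) : ∃ s η : ℝ, 0 < s ∧ 0 < η ∧ η < 1 ∧
    ∑ i ∈ range d, a i ^ s = (d : ℝ) ^ η ∧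
    ∀ s' : ℝ, 0 ≤ s' → η ≤ Real.log (∑ i ∈ range d, a i ^ s') / Real.log d := by
  have hdR : (2 : ℝ) ≤ d := by exact_mod_cast hd
  have hd0 : (0 : ℝ) < d := by linarith
  have hld : 0 < Real.log d := Real.log_pos (by linarith)
  set f : ℝ → ℝ := fun s => ∑ i ∈ range d, a i ^ s with hf
  have hcont : Continuous f := by
    apply continuous_finsetSum
    intro i hi
    exact Real.continuous_const_rpow (ha i (mem_range.1 hi)).ne'
  have hzero : f 0 = d := by simp [hf]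
  -- a value smaller than `d`
  obtain ⟨s1, hs1, hlt⟩ : ∃ s1 : ℝ, 0 < s1 ∧ f s1 < d := by
    set l : ℕ → ℝ := fun i => Real.log (a i) with hl
    have hLs : ∑ i ∈ range d, l i < 0 := by
      have h1 : ∑ i ∈ range d, l i = Real.log (∏ i ∈ range d, a i) := by
        rw [Real.log_prod (fun i hi => (ha i (mem_range.1 hi)).ne')]
      rw [h1]
      exact Real.log_neg (prod_pos fun i hi => ha i (mem_range.1 hi)) hprod
    set M : ℝ := ∑ i ∈ range d, |l i| with hM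
    have hM0 : 0 ≤ M := sum_nonneg fun _ _ => abs_nonneg _
    set S : ℝ := -∑ i ∈ range d, l i with hS
    have hS0 : 0 < S := by linarith
    set s : ℝ := min (1 / (M + 1)) (S / (2 * (M ^ 2 + 1) * d)) with hs
    have hs0 : 0 < s := by positivity
    have hsa : s ≤ 1 / (M + 1) := min_le_left _ _
    have hsb : s ≤ S / (2 * (M ^ 2 + 1) * d) := min_le_right _ _
    refine ⟨s, hs0, ?_⟩
    have h1 : ∀ i ∈ range d, a i ^ s ≤ 1 + s * l i + s ^ 2 * M ^ 2 := by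
      intro i hi
      have hli : |l i| ≤ M := single_le_sum (f := fun i => |l i|) (fun _ _ => abs_nonneg _) hi
      rw [Real.rpow_def_of_pos (ha i (mem_range.1 hi))]
      have h2 : |l i * s| ≤ 1 := by
        rw [abs_mul, abs_of_pos hs0]
        rw [le_div_iff₀ (by positivity)] at hsa
        have : |l i| * s ≤ M * s := mul_le_mul_of_nonneg_right hli hs0.le
        nlinarith
      have h3 := Real.abs_exp_sub_one_sub_id_le h2
      have h4 := (abs_le.1 h3).2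
      have h5 : (l i * s) ^ 2 ≤ s ^ 2 * M ^ 2 := by
        have h6 : (l i) ^ 2 ≤ M ^ 2 := by
          rw [← sq_abs (l i)]
          exact pow_le_pow_left₀ (abs_nonneg _) hli 2
        calc (l i * s) ^ 2 = s ^ 2 * (l i) ^ 2 := by ring
          _ ≤ _ := mul_le_mul_of_nonneg_left h6 (sq_nonneg s)
      have h7 : Real.exp (Real.log (a i) * s) = Real.exp (l i * s) := rfl
      rw [h7]
      linarith
    have h2 := sum_le_sum h1
    rw [sum_add_distrib, sum_add_distrib, sum_const, sum_const, card_range, nsmul_eq_mul, nsmul_eq_mul,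
      ← mul_sum] at h2
    refine lt_of_le_of_lt h2 ?_
    have h3 : ∑ i ∈ range d, l i = -S := by rw [hS]; ring
    rw [h3]
    rw [le_div_iff₀ (by positivity)] at hsb
    have h4 : s * (M ^ 2 * d) * 2 ≤ S := by
      have : s * (M ^ 2 * d) * 2 ≤ s * (2 * (M ^ 2 + 1) * d) := by
        have h5 : 0 ≤ s * d := by positivity
        nlinarith
      linarith
    have h5 : (d : ℝ) * (s ^ 2 * M ^ 2) ≤ s * S / 2 := by
      have h6 := mul_le_mul_of_nonneg_left h4 hs0.le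
      nlinarith
    have h6 : 0 < s * S := by positivity
    linarith
  obtain ⟨j, hj, haj⟩ := hb
  have hla : 0 < Real.log (a j) := Real.log_pos haj
  have hterm : ∀ s, a j ^ s < f s := by
    intro s
    obtain ⟨i, hi, hij⟩ : ∃ i < d, i ≠ j := by
      rcases Nat.eq_zero_or_pos j with h0 | h0
      · exact ⟨1, by omega, by omega⟩
      · exact ⟨0, by omega, by omega⟩
    have h1 : ({i, j} : Finset ℕ) ⊆ range d := by
      intro x hx
      rw [mem_insert, mem_singleton] at hx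
      rw [mem_range]
      rcases hx with rfl | rfl <;> assumption
    have h2 : ∑ x ∈ ({i, j} : Finset ℕ), a x ^ s ≤ f s :=
      sum_le_sum_of_subset_of_nonneg h1 (fun x hx _ =>
        Real.rpow_nonneg (ha x (mem_range.1 hx)).le s)
    rw [sum_pair hij] at h2
    have h3 : 0 < a i ^ s := Real.rpow_pos_of_pos (ha i hi) s
    linarith
  set S0 : ℝ := Real.log d / Real.log (a j) with hS0
  have hS00 : 0 ≤ S0 := by positivity
  have hlarge : ∀ s, S0 ≤ s → (d : ℝ) ≤ f s := by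
    intro s hs
    refine le_trans ?_ (hterm s).le
    rw [Real.rpow_def_of_pos (by linarith)]
    rw [← Real.log_le_iff_le_exp hd0]
    rw [hS0, div_le_iff₀ hla] at hs
    linarith
  obtain ⟨s0, hs0, hmin⟩ := (isCompact_Icc (a := (0 : ℝ)) (b := S0)).exists_isMinOn
    ⟨0, by constructor <;> linarith⟩ hcont.continuousOn
  have hall : ∀ s : ℝ, 0 ≤ s → f s0 ≤ f s := by
    intro s hs
    rcases le_or_gt s S0 with h1 | h1
    · exact hmin ⟨hs, h1⟩
    · have h2 : f s0 ≤ f 0 := hmin ⟨le_rfl, hS00⟩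
      rw [hzero] at h2
      exact h2.trans (hlarge s h1.le)
  have hlt0 : f s0 < d := lt_of_le_of_lt (hall s1 hs1.le) hlt
  have hs0p : 0 < s0 := by
    rcases eq_or_lt_of_le hs0.1 with h1 | h1
    · exfalso
      rw [← h1, hzero] at hlt0
      exact lt_irrefl _ hlt0
    · exact h1
  have hgt : 1 < f s0 := lt_of_le_of_lt (Real.one_le_rpow haj.le hs0p.le) (hterm s0)
  have hf0 : 0 < f s0 := by linarith
  refine ⟨s0, Real.log (f s0) / Real.log d, hs0p, div_pos (Real.log_pos hgt) hld, ?_, ?_, ?_⟩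
  · rw [div_lt_one hld]
    exact Real.log_lt_log hf0 hlt0
  · rw [Real.rpow_def_of_pos hd0, mul_div_cancel₀ _ hld.ne', Real.exp_log hf0]
  · intro s' hs'
    apply div_le_div_of_nonneg_right _ hld.le
    exact Real.log_le_log hf0 (hall s' hs')

end Pool.Agent.TH930.GH
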