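import Pool.Agent.W180.RR.Plc
import Pool.Agent.W180.RR.Rid

/-! The theorem of Ridout for `S`-units. -/

set_option autoImplicit false

namespace Pool.Agent.TH930.GH

open Finset Pool.Agent.W180.RR

/-- the product formula for an `S`-unit -/
lemma unit_prod (S : Finset ℕ) (hS : ∀ ℓ ∈ S, ℓ.Prime) {A : ℤ} (hA : A ≠ 0)
    (hAS : ∀ ℓ : ℕ, ℓ.Prime → (ℓ : ℤ) ∣ A → ℓ ∈ S) :
    ∏ ℓ ∈ S, (padicNorm ℓ (A : ℚ) : ℝ) = |(A : ℝ)|⁻¹ := by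
  classical
  have hn : A.natAbs ≠ 0 := Int.natAbs_ne_zero.2 hA
  have hsub : A.natAbs.primeFactors ⊆ S := by
    intro ℓ hℓ
    rw [Nat.mem_primeFactors] at hℓ
    exact hAS ℓ hℓ.1 (Int.natCast_dvd.2 hℓ.2.1)
  have h2 : ∀ ℓ ∈ S, (padicNorm ℓ (A : ℚ) : ℝ) = ((ℓ : ℝ) ^ (A.natAbs.factorization ℓ))⁻¹ := by
    intro ℓ hℓ
    rw [padicNorm.eq_zpow_of_nonzero (by exact_mod_cast hA), padicValRat.of_int]
    push_cast
    rw [zpow_neg, zpow_natCast, Nat.factorization_def _ (hS ℓ hℓ)]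
    rfl
  rw [Finset.prod_congr rfl h2, Finset.prod_inv_distrib]
  congr 1
  have h3 : ∏ ℓ ∈ S, (ℓ : ℝ) ^ (A.natAbs.factorization ℓ) =
      ∏ ℓ ∈ A.natAbs.primeFactors, (ℓ : ℝ) ^ (A.natAbs.factorization ℓ) := by
    symm
    apply Finset.prod_subset hsub
    intro ℓ _ hℓ
    rw [Finsupp.notMem_support_iff.1 (by rwa [Nat.support_factorization]), pow_zero]
  rw [h3]
  have h4 := Nat.prod_factorization_pow_eq_self hn
  have h5 : ((∏ ℓ ∈ A.natAbs.primeFactors, ℓ ^ (A.natAbs.factorization ℓ) : ℕ) : ℝ) = A.natAbs := by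
    rw [← Nat.support_factorization]
    exact_mod_cast h4
  push_cast at h5
  rw [h5, Nat.cast_natAbs]
  push_cast
  rfl

lemma norm_le_of_dvd (S : Finset ℕ) (hS : ∀ ℓ ∈ S, ℓ.Prime) {A X : ℤ} (h : A ∣ X) (hX : X ≠ 0) :
    ∏ ℓ ∈ S, (padicNorm ℓ (X : ℚ) : ℝ) ≤ ∏ ℓ ∈ S, (padicNorm ℓ (A : ℚ) : ℝ) := by
  apply Finset.prod_le_prod
  · intro ℓ _
    exact_mod_cast padicNorm.nonneg _
  · intro ℓ hℓ
    haveI : Fact ℓ.Prime := ⟨hS ℓ hℓ⟩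
    obtain ⟨t, rfl⟩ := h
    have h1 : padicNorm ℓ ((A * t : ℤ) : ℚ) ≤ padicNorm ℓ (A : ℚ) := by
      push_cast
      rw [padicNorm.mul]
      exact mul_le_of_le_one_right (padicNorm.nonneg _) (padicNorm.of_int t)
    exact_mod_cast h1

theorem ridout_S (S1 S2 : Finset ℕ) (hS1 : ∀ ℓ ∈ S1, ℓ.Prime) (hS2 : ∀ ℓ ∈ S2, ℓ.Prime)
    (hdj : Disjoint S1 S2) {ε : ℝ} (hε : 0 < ε) :
    ∃ C : ℝ, 0 < C ∧ ∀ A B : ℤ, A ≠ 0 → B ≠ 0 → (∀ ℓ : ℕ, ℓ.Prime → (ℓ : ℤ) ∣ A → ℓ ∈ S1) →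
      (∀ ℓ : ℕ, ℓ.Prime → (ℓ : ℤ) ∣ B → ℓ ∈ S2) → ∀ X D : ℤ, X ≠ 0 → D ≠ 0 → |D| < |X| →
      A ∣ X → B ∣ X + D → |(A : ℝ)| * |(B : ℝ)| ≤ C * |(D : ℝ)| * |(X : ℝ)| ^ (1 + ε) := by
  classical
  have hS : ∀ ℓ ∈ S1 ∪ S2, ℓ.Prime := by
    intro ℓ hℓ
    rw [mem_union] at hℓ
    exact hℓ.elim (hS1 ℓ) (hS2 ℓ)
  obtain ⟨Y, w, v, κ, -, -, -, hY⟩ := exists_sys ℚ (S1 ∪ S2) hS
  set g : Polynomial ℤ := Polynomial.X * (Polynomial.X - Polynomial.C 1) *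
    (Polynomial.X - Polynomial.C 2) with hg
  have hmon : g.Monic := by
    rw [hg]
    exact (Polynomial.monic_X.mul (Polynomial.monic_X_sub_C 1)).mul (Polynomial.monic_X_sub_C 2)
  have hdeg : 0 < g.natDegree := by
    rw [hg, (Polynomial.monic_X.mul (Polynomial.monic_X_sub_C 1)).natDegree_mul
      (Polynomial.monic_X_sub_C 2), Polynomial.natDegree_X_sub_C]
    omega
  have hev : ∀ x : ℚ, x = 0 ∨ x = 1 ∨ x = 2 → Polynomial.aeval x g = 0 := by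
    intro x hx
    rw [hg]
    simp only [map_mul, map_sub, Polynomial.aeval_X, Polynomial.aeval_C]
    rcases hx with rfl | rfl | rfl <;> simp
  set ξ : (↥(S1 ∪ S2)) → ℚ := fun i => if i.1 ∈ S1 then 1 else 2 with hξ
  obtain ⟨C, hC0, hR⟩ := ridout Y.f0 Y.fs Y.na Y.int Y.prod g hmon hdeg 0 ξ (hev 0 (Or.inl rfl))
    (fun i => by
      rw [hξ]
      simp only
      split_ifs
      · exact hev 1 (Or.inr (Or.inl rfl))
      · exact hev 2 (Or.inr (Or.inr rfl))) ε hε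
  refine ⟨2 * 3 ^ (1 + ε) * Real.exp C, by positivity, ?_⟩
  intro A B hA hB hAS hBS X D hX hD hDX hAX hBX
  have hXR : (0 : ℝ) < |(X : ℝ)| := abs_pos.2 (by exact_mod_cast hX)
  have hDR : (0 : ℝ) < |(D : ℝ)| := abs_pos.2 (by exact_mod_cast hD)
  have hAR : (0 : ℝ) < |(A : ℝ)| := abs_pos.2 (by exact_mod_cast hA)
  have hBR : (0 : ℝ) < |(B : ℝ)| := abs_pos.2 (by exact_mod_cast hB)
  have hDXR : |(D : ℝ)| < |(X : ℝ)| := by exact_mod_cast hDX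
  have hXD : X + D ≠ 0 := by
    intro h
    have : X = -D := by linarith
    rw [this, abs_neg] at hDX
    exact lt_irrefl _ hDX
  -- the gcd
  have hG0 : 0 < Int.gcd (2 * D) (X + 2 * D) := Int.gcd_pos_of_ne_zero_left _ (by omega)
  set G : ℤ := (Int.gcd (2 * D) (X + 2 * D) : ℤ) with hG
  have hGpos : 0 < G := by rw [hG]; exact_mod_cast hG0
  have hG1 : 1 ≤ G := hGpos
  obtain ⟨p, hp⟩ : G ∣ 2 * D := Int.gcd_dvd_left _ _
  obtain ⟨q, hq⟩ : G ∣ X + 2 * D := Int.gcd_dvd_right _ _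
  have hcop : IsCoprime p q := by
    rw [Int.isCoprime_iff_gcd_eq_one]
    have h1 := Int.gcd_ediv_gcd_ediv_gcd hG0
    rw [← hG, hq, hp, Int.mul_ediv_cancel_left _ hGpos.ne', Int.mul_ediv_cancel_left _ hGpos.ne'] at h1
    exact h1
  have e1 : G * (p - q) = -X := by linear_combination hq - hp
  have e2 : G * (p - 2 * q) = -(2 * (X + D)) := by linear_combination 2 * hq - hp
  have hpq1 : p - q ≠ 0 := by
    intro h; rw [h, mul_zero] at e1; omega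
  have hpq2 : p - 2 * q ≠ 0 := by
    intro h; rw [h, mul_zero] at e2; omega
  have hp0 : p ≠ 0 := by
    intro h; rw [h, mul_zero] at hp; omega
  set nn : ↥(S1 ∪ S2) → ℤ := fun i => if i.1 ∈ S1 then p - q else p - 2 * q with hnn
  have hnn0 : ∀ i, nn i ≠ 0 := by
    intro i
    rw [hnn]
    simp only
    split_ifs
    · exact hpq1
    · exact hpq2
  have hval : ∀ i, (p : ℚ) - ξ i * q = (nn i : ℤ) := by
    intro i
    rw [hξ, hnn]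
    simp only
    split_ifs
    · push_cast; ring
    · push_cast; ring
  have h := hR p q hcop (by
    rw [zero_mul, sub_zero]
    exact_mod_cast hp0) (fun i => by
    rw [hval i]
    exact_mod_cast hnn0 i)
  rw [zero_mul, sub_zero, Y.f0i] at h
  have hfs : ∀ i, Y.fs i ((p : ℚ) - ξ i * q) = (padicNorm i.1 ((nn i : ℤ) : ℚ) : ℝ) := by
    intro i
    rw [hval i]
    exact hY i (nn i)
  simp only [hfs] at h
  have hpos : ∀ ℓ ∈ S1 ∪ S2, ∀ n : ℤ, n ≠ 0 → 0 < (padicNorm ℓ (n : ℚ) : ℝ) := by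
    intro ℓ hℓ n hn
    haveI : Fact ℓ.Prime := ⟨hS ℓ hℓ⟩
    have h1 : padicNorm ℓ (n : ℚ) ≠ 0 := padicNorm.nonzero (by exact_mod_cast hn)
    have h2 : 0 < padicNorm ℓ (n : ℚ) := lt_of_le_of_ne (padicNorm.nonneg _) (Ne.symm h1)
    exact_mod_cast h2
  -- the product of the finite places
  set Pa : ℝ := ∏ i : ↥(S1 ∪ S2), (padicNorm i.1 ((nn i : ℤ) : ℚ) : ℝ) with hPa
  have hPa0 : 0 < Pa := Finset.prod_pos fun i _ => hpos i.1 i.2 _ (hnn0 i)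
  have hlog : ∑ i : ↥(S1 ∪ S2), -Real.log (padicNorm i.1 ((nn i : ℤ) : ℚ) : ℝ) = -Real.log Pa := by
    rw [hPa, Real.log_prod (fun i _ => (hpos i.1 i.2 _ (hnn0 i)).ne'), Finset.sum_neg_distrib]
  rw [hlog] at h
  have hsplit : Pa = (∏ ℓ ∈ S1, (padicNorm ℓ ((p - q : ℤ) : ℚ) : ℝ)) *
      ∏ ℓ ∈ S2, (padicNorm ℓ ((p - 2 * q : ℤ) : ℚ) : ℝ) := by
    have h1 : Pa = ∏ ℓ ∈ S1 ∪ S2,
        (padicNorm ℓ ((if ℓ ∈ S1 then p - q else p - 2 * q : ℤ) : ℚ) : ℝ) := by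
      rw [hPa, ← Finset.prod_coe_sort (S1 ∪ S2)
        (fun ℓ => (padicNorm ℓ ((if ℓ ∈ S1 then p - q else p - 2 * q : ℤ) : ℚ) : ℝ))]
    rw [h1, Finset.prod_union hdj]
    congr 1
    · apply Finset.prod_congr rfl
      intro ℓ hℓ
      rw [if_pos hℓ]
    · apply Finset.prod_congr rfl
      intro ℓ hℓ
      rw [if_neg (fun h => Finset.disjoint_left.1 hdj h hℓ)]
  have hmul : ∀ (S : Finset ℕ), (∀ ℓ ∈ S, ℓ.Prime) → ∀ a b : ℤ,
      ∏ ℓ ∈ S, (padicNorm ℓ ((a * b : ℤ) : ℚ) : ℝ) =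
      (∏ ℓ ∈ S, (padicNorm ℓ (a : ℚ) : ℝ)) * ∏ ℓ ∈ S, (padicNorm ℓ (b : ℚ) : ℝ) := by
    intro S hS a b
    rw [← Finset.prod_mul_distrib]
    apply Finset.prod_congr rfl
    intro ℓ hℓ
    haveI : Fact ℓ.Prime := ⟨hS ℓ hℓ⟩
    push_cast
    rw [padicNorm.mul]
    push_cast
    rfl
  have hb1 : (∏ ℓ ∈ S1, (padicNorm ℓ (G : ℚ) : ℝ)) * ∏ ℓ ∈ S1, (padicNorm ℓ ((p - q : ℤ) : ℚ) : ℝ) ≤
      |(A : ℝ)|⁻¹ := by
    rw [← hmul S1 hS1, e1, ← unit_prod S1 hS1 hA hAS]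
    exact norm_le_of_dvd S1 hS1 ((dvd_neg).2 hAX) (neg_ne_zero.2 hX)
  have hb2 : (∏ ℓ ∈ S2, (padicNorm ℓ (G : ℚ) : ℝ)) *
      ∏ ℓ ∈ S2, (padicNorm ℓ ((p - 2 * q : ℤ) : ℚ) : ℝ) ≤ |(B : ℝ)|⁻¹ := by
    rw [← hmul S2 hS2, e2, ← unit_prod S2 hS2 hB hBS]
    exact norm_le_of_dvd S2 hS2 ((dvd_neg).2 (hBX.mul_left 2)) (neg_ne_zero.2 (mul_ne_zero two_ne_zero hXD))
  have hGprod : 1 ≤ |(G : ℝ)| * ((∏ ℓ ∈ S1, (padicNorm ℓ (G : ℚ) : ℝ)) *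
      ∏ ℓ ∈ S2, (padicNorm ℓ (G : ℚ) : ℝ)) := by
    have := prod_ge (S1 ∪ S2) hS G hGpos.ne'
    rwa [Finset.prod_union hdj] at this
  have hGR : (1 : ℝ) ≤ G := by exact_mod_cast hG1
  have hGabs : |(G : ℝ)| = G := abs_of_pos (by linarith)
  have hPle : Pa * (|(A : ℝ)| * |(B : ℝ)|) ≤ G := by
    set a1 := ∏ ℓ ∈ S1, (padicNorm ℓ (G : ℚ) : ℝ) with ha1
    set a2 := ∏ ℓ ∈ S2, (padicNorm ℓ (G : ℚ) : ℝ) with ha2
    set b1 := ∏ ℓ ∈ S1, (padicNorm ℓ ((p - q : ℤ) : ℚ) : ℝ) with hb1'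
    set b2 := ∏ ℓ ∈ S2, (padicNorm ℓ ((p - 2 * q : ℤ) : ℚ) : ℝ) with hb2'
    have p1 : 0 < a1 := Finset.prod_pos fun ℓ hℓ => hpos ℓ (mem_union_left _ hℓ) _ hGpos.ne'
    have p2 : 0 < a2 := Finset.prod_pos fun ℓ hℓ => hpos ℓ (mem_union_right _ hℓ) _ hGpos.ne'
    have p3 : 0 < b1 := Finset.prod_pos fun ℓ hℓ => hpos ℓ (mem_union_left _ hℓ) _ hpq1
    have p4 : 0 < b2 := Finset.prod_pos fun ℓ hℓ => hpos ℓ (mem_union_right _ hℓ) _ hpq2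
    have h1 : (a1 * b1) * (a2 * b2) ≤ |(A : ℝ)|⁻¹ * |(B : ℝ)|⁻¹ :=
      mul_le_mul hb1 hb2 (by positivity) (by positivity)
    rw [hGabs] at hGprod
    have h2 : Pa ≤ G * (|(A : ℝ)|⁻¹ * |(B : ℝ)|⁻¹) := by
      calc Pa = 1 * (b1 * b2) := by rw [hsplit, one_mul]
        _ ≤ (G * (a1 * a2)) * (b1 * b2) := mul_le_mul_of_nonneg_right hGprod (by positivity)
        _ = G * ((a1 * b1) * (a2 * b2)) := by ring
        _ ≤ _ := mul_le_mul_of_nonneg_left h1 (by linarith)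
    calc Pa * (|(A : ℝ)| * |(B : ℝ)|) ≤ G * (|(A : ℝ)|⁻¹ * |(B : ℝ)|⁻¹) * (|(A : ℝ)| * |(B : ℝ)|) :=
          mul_le_mul_of_nonneg_right h2 (by positivity)
      _ = G := by field_simp
  -- the height
  have hH1 : 1 ≤ HH p q := HH_ge_one (coprime_ne hcop)
  have hHpos : 0 < HH p q := by linarith
  have hHle : HH p q ≤ 3 * |(X : ℝ)| := by
    have h1 : ∀ a b : ℤ, G * a = b → |(a : ℝ)| ≤ |(b : ℝ)| := by
      intro a b hab
      have h2 : (G : ℝ) * a = b := by exact_mod_cast hab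
      rw [← h2, abs_mul, hGabs]
      exact le_mul_of_one_le_left (abs_nonneg _) hGR
    unfold HH
    apply max_le
    · refine (h1 _ _ hp.symm).trans ?_
      push_cast
      rw [abs_mul, abs_of_pos (by norm_num : (0 : ℝ) < 2)]
      linarith
    · refine (h1 _ _ hq.symm).trans ?_
      push_cast
      have h3 := abs_add_le (X : ℝ) (2 * D)
      rw [abs_mul, abs_of_pos (by norm_num : (0 : ℝ) < 2)] at h3
      linarith
  have hpR : (0 : ℝ) < |(p : ℝ)| := abs_pos.2 (by exact_mod_cast hp0)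
  have hGp : (G : ℝ) * |(p : ℝ)| = 2 * |(D : ℝ)| := by
    have h2 : (G : ℝ) * p = 2 * D := by exact_mod_cast hp.symm
    rw [← hGabs, ← abs_mul, h2, abs_mul, abs_of_pos (by norm_num : (0 : ℝ) < 2)]
  -- the conclusion
  have h3 : Real.log (HH p q) - Real.log |(p : ℝ)| - Real.log Pa ≤ (2 + ε) * Real.log (HH p q) + C := by
    rw [Real.log_div hpR.ne' hHpos.ne'] at h
    linarith
  have h4 : -Real.log Pa ≤ Real.log |(p : ℝ)| + (1 + ε) * Real.log (HH p q) + C := by linarith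
  have h5 : Pa⁻¹ ≤ |(p : ℝ)| * HH p q ^ (1 + ε) * Real.exp C := by
    rw [← Real.exp_log (inv_pos.2 hPa0), Real.log_inv]
    refine (Real.exp_le_exp.2 h4).trans (le_of_eq ?_)
    rw [Real.exp_add, Real.exp_add, Real.exp_log hpR, Real.rpow_def_of_pos hHpos, mul_comm (1 + ε)]
  have h6 : |(A : ℝ)| * |(B : ℝ)| ≤ G * Pa⁻¹ := by
    rw [← div_eq_mul_inv, le_div_iff₀ hPa0]
    linarith
  calc |(A : ℝ)| * |(B : ℝ)| ≤ G * Pa⁻¹ := h6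
    _ ≤ G * (|(p : ℝ)| * HH p q ^ (1 + ε) * Real.exp C) :=
        mul_le_mul_of_nonneg_left h5 (by linarith)
    _ = (G * |(p : ℝ)|) * HH p q ^ (1 + ε) * Real.exp C := by ring
    _ ≤ (2 * |(D : ℝ)|) * (3 * |(X : ℝ)|) ^ (1 + ε) * Real.exp C := by
        rw [hGp]
        apply mul_le_mul_of_nonneg_right _ (Real.exp_pos _).le
        apply mul_le_mul_of_nonneg_left _ (by positivity)
        exact Real.rpow_le_rpow hHpos.le hHle (by linarith)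
    _ = _ := by
        rw [Real.mul_rpow (by norm_num) hXR.le]
        ring

end Pool.Agent.TH930.GH
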