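import Pool.Agent.TH930.GH.Count
import Pool.Agent.TH930.GH.Rid

/-! The main count for generalised `3x+1` maps of coprime type. -/

set_option autoImplicit false

namespace Pool.Agent.TH930.GH

open Finset Pool.Agent.H319R3.GC

variable {d : ℕ} {m r : ℕ → ℤ}

lemma poly_le_exp (q : ℕ) {a : ℝ} (ha : 0 < a) : ∃ C : ℝ, 0 < C ∧ ∀ K : ℕ,
    ((K : ℝ) + 1) ^ q ≤ C * Real.exp (a * K) := by
  refine ⟨q.factorial / a ^ q * Real.exp a, by positivity, fun K => ?_⟩
  have h1 := Real.pow_div_factorial_le_exp (a * ((K : ℝ) + 1)) (by positivity) q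
  rw [div_le_iff₀ (by positivity), mul_pow] at h1
  have h2 : Real.exp (a * ((K : ℝ) + 1)) = Real.exp (a * K) * Real.exp a := by
    rw [← Real.exp_add]; congr 1; ring
  rw [h2] at h1
  have had : 0 < a ^ q := by positivity
  calc ((K : ℝ) + 1) ^ q = a ^ q * ((K : ℝ) + 1) ^ q / a ^ q := by field_simp
    _ ≤ (Real.exp (a * K) * Real.exp a * q.factorial) / a ^ q :=
        div_le_div_of_nonneg_right h1 had.le
    _ = _ := by ring

/-- bound for the multipliers -/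
lemma exists_Mx (h : Cop d m r) : ∃ Mx : ℝ, 2 ≤ Mx ∧ (∀ i < d, |(m i : ℝ)| ≤ Mx) ∧
    ∀ u : List ℕ, (∀ i ∈ u, i < d) → |(Mw m u : ℝ)| ≤ Mx ^ u.length := by
  refine ⟨∑ i ∈ range d, |(m i : ℝ)|, ?_, ?_, ?_⟩
  · have h1 : ∑ i ∈ range 2, |(m i : ℝ)| ≤ ∑ i ∈ range d, |(m i : ℝ)| :=
      sum_le_sum_of_subset_of_nonneg (range_subset_range.2 h.two_le) (fun _ _ _ => abs_nonneg _)
    rw [sum_range_succ, sum_range_one] at h1
    have := h.one_le (i := 0) (by have := h.two_le; omega)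
    have := h.one_le (i := 1) (by have := h.two_le; omega)
    linarith
  · intro i hi
    exact single_le_sum (f := fun i => |(m i : ℝ)|) (fun _ _ => abs_nonneg _) (mem_range.2 hi)
  · intro u
    induction u with
    | nil => intro _; simp [Mw]
    | cons a u ih =>
      intro hu
      rw [Mw_cons, List.length_cons, pow_succ']
      push_cast
      rw [abs_mul]
      apply mul_le_mul _ (ih fun i hi => hu i (by simp [hi])) (abs_nonneg _)
        (sum_nonneg fun _ _ => abs_nonneg _)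
      exact single_le_sum (f := fun i => |(m i : ℝ)|) (fun _ _ => abs_nonneg _)
        (mem_range.2 (hu a (by simp)))

lemma IsU_prime {ν : ℤ} (hν : IsU d m ν) {ℓ : ℕ} (hℓ : ℓ.Prime) (hd : (ℓ : ℤ) ∣ ν) :
    ∃ i < d, (ℓ : ℤ) ∣ m i := by
  obtain ⟨u, hu, rfl⟩ := hν
  induction u with
  | nil =>
    exfalso
    simp only [Mw, List.map_nil, List.prod_nil] at hd
    have := Int.isUnit_iff.1 (isUnit_of_dvd_one hd)
    have := hℓ.two_le
    omega
  | cons a u ih =>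
    rw [Mw_cons] at hd
    rcases (Nat.prime_iff_prime_int.1 hℓ).dvd_or_dvd hd with h | h
    · exact ⟨a, hu a (by simp), h⟩
    · exact ih (fun i hi => hu i (by simp [hi])) h

/-- the hypothesis on the frequencies, from the theorem of Ridout -/
theorem hrid_of (h : Cop d m r) {k : ℕ} (hk : 1 ≤ k) : ∃ K0 : ℕ, ∀ K : ℕ, K0 ≤ K →
    ∀ R : ℕ, R ≤ d ^ (K / (8 * k)) → ∀ μ ∈ Ms d m K, ∀ j < 2 * k, ∀ ν : ℤ, IsU d m ν →
      ((d ^ (2 * (K / (8 * k))) : ℕ) : ℤ) ≤ |ν| → ν ∣ μ → ∀ x D : ℤ,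
      |x| ≤ (d : ℤ) ^ (2 * (K / (8 * k)) * j) → |D| < R →
      (d : ℤ) ^ (2 * (K / (8 * k)) * (j + 1)) ∣ m 0 * m 1 * ν * x - Dl d m r * D → x = 0 := by
  classical
  have hd := h.two_le
  have hdR : (2 : ℝ) ≤ d := by exact_mod_cast hd
  have hd0 : (0 : ℝ) < d := by linarith
  have hkR : (1 : ℝ) ≤ k := by exact_mod_cast hk
  obtain ⟨Mx, hMx2, hMx, hMxu⟩ := exists_Mx h
  -- the places
  set S1 : Finset ℕ := (range d).biUnion (fun i => (m i).natAbs.primeFactors) with hS1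
  set S2 : Finset ℕ := d.primeFactors with hS2
  have hS1p : ∀ ℓ ∈ S1, ℓ.Prime := by
    intro ℓ hℓ
    rw [hS1, mem_biUnion] at hℓ
    obtain ⟨i, -, hi⟩ := hℓ
    exact Nat.prime_of_mem_primeFactors hi
  have hS2p : ∀ ℓ ∈ S2, ℓ.Prime := fun ℓ hℓ => Nat.prime_of_mem_primeFactors hℓ
  have hS1m : ∀ ℓ : ℕ, ℓ.Prime → ∀ i < d, (ℓ : ℤ) ∣ m i → ℓ ∈ S1 := by
    intro ℓ hℓ i hi hdv
    rw [hS1, mem_biUnion]
    refine ⟨i, mem_range.2 hi, ?_⟩
    rw [Nat.mem_primeFactors]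
    exact ⟨hℓ, Int.natCast_dvd.1 hdv, Int.natAbs_ne_zero.2 (h.m_ne hi)⟩
  have hdj : Disjoint S1 S2 := by
    rw [Finset.disjoint_left]
    intro ℓ h1 h2
    rw [hS1, mem_biUnion] at h1
    obtain ⟨i, hi, h1⟩ := h1
    rw [mem_range] at hi
    rw [Nat.mem_primeFactors] at h1
    rw [hS2, Nat.mem_primeFactors] at h2
    have h3 : (ℓ : ℤ) ∣ m i := Int.natCast_dvd.2 h1.2.1
    have h4 : (ℓ : ℤ) ∣ (d : ℤ) := by exact_mod_cast h2.2.1
    have h5 := (h.cop i hi).isUnit_of_dvd' h3 h4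
    have := Int.isUnit_iff.1 h5
    have := h1.1.two_le
    omega
  -- the exponent
  have hlMd : 0 < Real.log (Mx * d) := Real.log_pos (by nlinarith)
  have hld : 0 < Real.log d := Real.log_pos (by linarith)
  set ε : ℝ := Real.log d / (64 * k * Real.log (Mx * d)) with hε
  have hε0 : 0 < ε := by positivity
  obtain ⟨C, hC, hR⟩ := ridout_S S1 S2 hS1p hS2p hdj hε0
  have hΔ0 : (1 : ℝ) ≤ |(Dl d m r : ℝ)| := by
    have := Int.one_le_abs h.Dl_ne
    exact_mod_cast this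
  set Δ : ℝ := |(Dl d m r : ℝ)| with hΔ
  -- the threshold
  obtain ⟨n0, hn0⟩ : ∃ n0 : ℕ, (C + 1) * Δ < (d : ℝ) ^ n0 :=
    pow_unbounded_of_one_lt _ (by linarith)
  refine ⟨16 * k * (4 * n0 + 4), ?_⟩
  intro K hK R hRn μ hμ j hj ν hν hνD hνμ x D hx hD hdvd
  set n : ℕ := K / (8 * k) with hn
  have hn1 : 8 * k * n ≤ K := Nat.mul_div_le _ _
  have hn2 : K < 8 * k * n + 8 * k := Nat.lt_mul_div_succ K (by omega)
  have hnge : 8 * n0 + 8 ≤ n := by
    rw [hn, Nat.le_div_iff_mul_le (by omega)]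
    calc (8 * n0 + 8) * (8 * k) = 16 * k * (4 * n0 + 4) := by ring
      _ ≤ K := hK
  have hKn : K + 2 ≤ 16 * k * n := by nlinarith
  by_contra hx0
  have hnR : ((8 : ℝ) * n0 + 8) ≤ n := by exact_mod_cast hnge
  -- the case `D = 0`
  have hdz : (0 : ℤ) < d := by exact_mod_cast (by omega : 0 < d)
  have hm0 : m 0 ≠ 0 := h.m_ne (by omega)
  have hm1 : m 1 ≠ 0 := h.m_ne (by omega)
  have hν0 : ν ≠ 0 := h.U_ne hν
  have hνd : IsCoprime ν (d : ℤ) := by
    obtain ⟨u, hu, rfl⟩ := hν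
    exact h.Mw_cop hu
  by_cases hD0 : D = 0
  · rw [hD0, mul_zero, sub_zero] at hdvd
    have hc : IsCoprime ((d : ℤ) ^ (2 * n * (j + 1))) (m 0 * m 1 * ν) :=
      (((h.cop 0 (by omega)).mul_left (h.cop 1 (by omega))).mul_left hνd).symm.pow_left
    have h1 := hc.dvd_of_dvd_mul_left hdvd
    apply hx0
    apply Int.eq_zero_of_abs_lt_dvd h1
    refine lt_of_le_of_lt hx ?_
    apply pow_lt_pow_right₀ (by exact_mod_cast (by omega : 1 < d))
    have : 2 * n * (j + 1) = 2 * n * j + 2 * n := by ring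
    omega
  -- the theorem of Ridout
  set lam : ℤ := m 0 * m 1 * ν with hlam
  have hlam0 : lam ≠ 0 := mul_ne_zero (mul_ne_zero hm0 hm1) hν0
  have hX0 : lam * x ≠ 0 := mul_ne_zero hlam0 hx0
  have hDD0 : -(Dl d m r * D) ≠ 0 := neg_ne_zero.2 (mul_ne_zero h.Dl_ne hD0)
  have hRR : (R : ℝ) ≤ (d : ℝ) ^ n := by exact_mod_cast hRn
  have hDR : |(D : ℝ)| ≤ R := by exact_mod_cast hD.le
  have hDDR : |((-(Dl d m r * D) : ℤ) : ℝ)| ≤ Δ * R := by
    push_cast
    rw [abs_neg, abs_mul]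
    exact mul_le_mul_of_nonneg_left hDR (abs_nonneg _)
  have hνR : (d : ℝ) ^ (2 * n) ≤ |(ν : ℝ)| := by exact_mod_cast hνD
  have hlamν : |(ν : ℝ)| ≤ |(lam : ℝ)| := by
    rw [hlam]
    push_cast
    rw [abs_mul, abs_mul]
    have h1 := h.one_le (i := 0) (by omega)
    have h2 := h.one_le (i := 1) (by omega)
    have h3 : 1 ≤ |(m 0 : ℝ)| * |(m 1 : ℝ)| := by nlinarith
    exact le_mul_of_one_le_left (abs_nonneg _) h3
  have hxR1 : (1 : ℝ) ≤ |(x : ℝ)| := by
    have := Int.one_le_abs hx0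
    exact_mod_cast this
  have hn0n : (d : ℝ) ^ n0 ≤ (d : ℝ) ^ (n / 2) := by
    apply pow_le_pow_right₀ (by linarith)
    omega
  have hΔn : Δ < (d : ℝ) ^ n := by
    have h1 : Δ ≤ (C + 1) * Δ := le_mul_of_one_le_left (by linarith) (by linarith)
    have h2 : (d : ℝ) ^ n0 ≤ (d : ℝ) ^ n := pow_le_pow_right₀ (by linarith) (by omega)
    linarith
  have hDX : |-(Dl d m r * D)| < |lam * x| := by
    have h1 : |((-(Dl d m r * D) : ℤ) : ℝ)| < |((lam * x : ℤ) : ℝ)| := by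
      refine lt_of_le_of_lt hDDR ?_
      push_cast
      rw [abs_mul]
      calc Δ * R ≤ Δ * (d : ℝ) ^ n := mul_le_mul_of_nonneg_left hRR (by linarith)
        _ < (d : ℝ) ^ n * (d : ℝ) ^ n := mul_lt_mul_of_pos_right hΔn (by positivity)
        _ = (d : ℝ) ^ (2 * n) := by rw [← pow_add]; congr 1; ring
        _ ≤ |(lam : ℝ)| := hνR.trans hlamν
        _ ≤ |(lam : ℝ)| * |(x : ℝ)| := le_mul_of_one_le_right (abs_nonneg _) hxR1
    exact_mod_cast h1
  have hprime1 : ∀ ℓ : ℕ, ℓ.Prime → (ℓ : ℤ) ∣ lam → ℓ ∈ S1 := by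
    intro ℓ hℓ hdv
    have hpp := Nat.prime_iff_prime_int.1 hℓ
    rcases hpp.dvd_or_dvd hdv with h1 | h1
    · rcases hpp.dvd_or_dvd h1 with h2 | h2
      · exact hS1m ℓ hℓ 0 (by omega) h2
      · exact hS1m ℓ hℓ 1 (by omega) h2
    · obtain ⟨i, hi, h2⟩ := IsU_prime hν hℓ h1
      exact hS1m ℓ hℓ i hi h2
  have hprime2 : ∀ ℓ : ℕ, ℓ.Prime → (ℓ : ℤ) ∣ (d : ℤ) ^ (2 * n * (j + 1)) → ℓ ∈ S2 := by
    intro ℓ hℓ hdv
    have h1 : (ℓ : ℤ) ∣ (d : ℤ) := (Nat.prime_iff_prime_int.1 hℓ).dvd_of_dvd_pow hdv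
    rw [hS2, Nat.mem_primeFactors]
    exact ⟨hℓ, by exact_mod_cast h1, by omega⟩
  have hmain := hR lam ((d : ℤ) ^ (2 * n * (j + 1))) hlam0 (pow_ne_zero _ hdz.ne') hprime1 hprime2
    (lam * x) (-(Dl d m r * D)) hX0 hDD0 hDX (dvd_mul_right _ _) (by
      rw [← sub_eq_add_neg]; exact hdvd)
  -- the size of `X`
  have hlamR : (0 : ℝ) < |(lam : ℝ)| := _root_.abs_pos.2 (by exact_mod_cast hlam0)
  have hxR : |(x : ℝ)| ≤ (d : ℝ) ^ (2 * n * j) := by exact_mod_cast hx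
  have hμR : |(μ : ℝ)| ≤ Mx ^ K := by
    obtain ⟨v, hv, rfl⟩ := mem_Ms.1 hμ
    have := hMxu v (mem_LW.1 hv).2
    rwa [LW_len hv] at this
  have hνμR : |(ν : ℝ)| ≤ |(μ : ℝ)| := by
    have h1 : |ν| ≤ |μ| := Int.le_of_dvd (_root_.abs_pos.2 (h.Ms_ne hμ)) ((abs_dvd_abs _ _).2 hνμ)
    exact_mod_cast h1
  have hlamM : |(lam : ℝ)| ≤ Mx ^ (K + 2) := by
    rw [hlam]
    push_cast
    rw [abs_mul, abs_mul, pow_add, mul_comm (Mx ^ K)]
    apply mul_le_mul _ (hνμR.trans hμR) (abs_nonneg _) (by positivity)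
    rw [pow_two]
    exact mul_le_mul (hMx 0 (by omega)) (hMx 1 (by omega)) (abs_nonneg _) (by linarith)
  have hjK : 2 * n * j ≤ K + 2 := by
    have h1 : 2 * n * j ≤ 2 * n * (2 * k) := Nat.mul_le_mul_left _ (by omega)
    nlinarith
  have hXle : |((lam * x : ℤ) : ℝ)| ≤ (Mx * d) ^ (K + 2) := by
    push_cast
    rw [abs_mul, mul_pow]
    apply mul_le_mul hlamM _ (abs_nonneg _) (by positivity)
    exact hxR.trans (pow_le_pow_right₀ (by linarith) hjK)
  have hXpos : (0 : ℝ) < |((lam * x : ℤ) : ℝ)| := _root_.abs_pos.2 (by exact_mod_cast hX0)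
  have hXε : |((lam * x : ℤ) : ℝ)| ^ ε ≤ (d : ℝ) ^ (n / 4 : ℝ) := by
    calc |((lam * x : ℤ) : ℝ)| ^ ε ≤ ((Mx * d) ^ (K + 2)) ^ ε :=
          Real.rpow_le_rpow hXpos.le hXle hε0.le
      _ = Real.exp (Real.log (Mx * d) * ((K + 2 : ℕ) * ε)) := by
          rw [← Real.rpow_natCast, ← Real.rpow_mul (by positivity), Real.rpow_def_of_pos (by positivity)]
      _ ≤ Real.exp (Real.log d * (n / 4)) := by
          apply Real.exp_le_exp.2
          have h1 : Real.log (Mx * d) * ((K + 2 : ℕ) * ε) = Real.log d * ((K + 2 : ℕ) / (64 * k)) := by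
            rw [hε]; field_simp
          rw [h1]
          apply mul_le_mul_of_nonneg_left _ hld.le
          rw [div_le_div_iff₀ (by positivity) (by norm_num)]
          have h2 : ((K + 2 : ℕ) : ℝ) ≤ 16 * k * n := by exact_mod_cast hKn
          nlinarith
      _ = _ := by rw [Real.rpow_def_of_pos hd0]
  have hX1 : |((lam * x : ℤ) : ℝ)| ≤ |(lam : ℝ)| * (d : ℝ) ^ (2 * n * j) := by
    push_cast
    rw [abs_mul]
    exact mul_le_mul_of_nonneg_left hxR (abs_nonneg _)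
  have h1 : |(lam : ℝ)| * (d : ℝ) ^ (2 * n * (j + 1)) ≤
      (C * (Δ * (d : ℝ) ^ n) * (d : ℝ) ^ (n / 4 : ℝ)) * (|(lam : ℝ)| * (d : ℝ) ^ (2 * n * j)) := by
    have h2 : |(((d : ℤ) ^ (2 * n * (j + 1)) : ℤ) : ℝ)| = (d : ℝ) ^ (2 * n * (j + 1)) := by
      push_cast
      exact abs_of_pos (by positivity)
    rw [h2] at hmain
    refine hmain.trans ?_
    rw [Real.rpow_add hXpos, Real.rpow_one]
    calc C * |((-(Dl d m r * D) : ℤ) : ℝ)| * (|((lam * x : ℤ) : ℝ)| * |((lam * x : ℤ) : ℝ)| ^ ε)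
        ≤ C * (Δ * (d : ℝ) ^ n) * ((|(lam : ℝ)| * (d : ℝ) ^ (2 * n * j)) * (d : ℝ) ^ (n / 4 : ℝ)) := by
          apply mul_le_mul _ _ (by positivity) (by positivity)
          · apply mul_le_mul_of_nonneg_left _ hC.le
            exact hDDR.trans (mul_le_mul_of_nonneg_left hRR (by linarith))
          · exact mul_le_mul hX1 hXε (by positivity) (by positivity)
      _ = _ := by ring
  have h2 : (d : ℝ) ^ (2 * n * (j + 1)) = (d : ℝ) ^ (2 * n) * (d : ℝ) ^ (2 * n * j) := by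
    rw [← pow_add]; congr 1; ring
  rw [h2] at h1
  have h3 : (d : ℝ) ^ (2 * n) ≤ C * (Δ * (d : ℝ) ^ n) * (d : ℝ) ^ (n / 4 : ℝ) := by
    have h4 : (0 : ℝ) < |(lam : ℝ)| * (d : ℝ) ^ (2 * n * j) := by positivity
    have h5 : (d : ℝ) ^ (2 * n) * (|(lam : ℝ)| * (d : ℝ) ^ (2 * n * j)) ≤
        (C * (Δ * (d : ℝ) ^ n) * (d : ℝ) ^ (n / 4 : ℝ)) * (|(lam : ℝ)| * (d : ℝ) ^ (2 * n * j)) := by
      linarith
    exact le_of_mul_le_mul_right h5 h4
  have h4 : (d : ℝ) ^ n ≤ C * Δ * (d : ℝ) ^ (n / 4 : ℝ) := by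
    have h5 : (d : ℝ) ^ (2 * n) = (d : ℝ) ^ n * (d : ℝ) ^ n := by rw [← pow_add]; congr 1; ring
    rw [h5] at h3
    have h6 : (d : ℝ) ^ n * (d : ℝ) ^ n ≤ (C * Δ * (d : ℝ) ^ (n / 4 : ℝ)) * (d : ℝ) ^ n := by linarith
    exact le_of_mul_le_mul_right h6 (by positivity)
  have h5 : C * Δ ≤ (d : ℝ) ^ (n / 2 : ℝ) := by
    have h6 : C * Δ ≤ (C + 1) * Δ := by nlinarith
    have h7 : (d : ℝ) ^ n0 ≤ (d : ℝ) ^ (n / 2 : ℝ) := by
      rw [← Real.rpow_natCast]
      apply Real.rpow_le_rpow_of_exponent_le (by linarith)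
      linarith
    linarith
  have h6 : (d : ℝ) ^ (n : ℝ) ≤ (d : ℝ) ^ (n / 2 + n / 4 : ℝ) := by
    rw [Real.rpow_natCast, Real.rpow_add hd0]
    exact h4.trans (mul_le_mul_of_nonneg_right h5 (by positivity))
  have h7 := (Real.rpow_le_rpow_left_iff (by linarith : (1 : ℝ) < d)).1 h6
  have : (0 : ℝ) ≤ n0 := Nat.cast_nonneg _
  linarith

/-- THE MAIN COUNT -/
theorem main_gen {r0 : ℕ → ℤ} (h0 : Cop d m r0) (hbig : ∃ i < d, 2 ≤ |m i|) (s : ℝ) :
    ∃ c0 : ℝ, 0 < c0 ∧ ∃ k0 : ℕ, 1 ≤ k0 ∧ ∀ k : ℕ, k0 ≤ k → ∀ r : ℕ → ℤ, Cop d m r →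
      ∃ C : ℝ, 0 < C ∧ ∀ K : ℕ, ∀ μ ∈ Ms d m K, ∀ R : ℕ, 1 ≤ R → R ≤ d ^ (K / (8 * k)) → ∀ (u : ℤ) (B : Finset ℤ),
      (∀ x ∈ B, |x - u| * (8 * R) ≤ (d : ℤ) ^ K ∧ Mw m (wd d m r K x) = μ) →
      (B.card : ℝ) * PM d m s K μ ≤ C * Real.exp (Real.exp (-(c0 * k)) * K) / R := by
  classical
  have hd := h0.two_le
  have hdR : (2 : ℝ) ≤ d := by exact_mod_cast hd
  have hd0 : (0 : ℝ) < d := by linarith
  have hld : 0 < Real.log d := Real.log_pos (by linarith)
  obtain ⟨hκ0, hκ1⟩ := h0.ps_kap s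
  set κ : ℝ := 2 * ps d m s 0 * ps d m s 1 with hκ
  obtain ⟨L0, hL01, hL0⟩ := exists_Big d m
  set L : ℕ := L0 + 1 with hLdef
  have hL2 : 2 ≤ L := by omega
  have hL : Big d m L := by
    intro a ha b hb
    have := hL0 a ha b hb
    rw [hLdef]
    push_cast
    linarith
  have hLR : (2 : ℝ) ≤ L := by exact_mod_cast hL2
  set γ : ℝ := κ * (4 / (L : ℝ) ^ 2) with hγ
  have hγ0 : 0 < γ := by positivity
  have hγ1 : γ ≤ 1 := by
    have h1 : 4 / (L : ℝ) ^ 2 ≤ 1 := by rw [div_le_one (by positivity)]; nlinarith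
    have h2 : 0 < 4 / (L : ℝ) ^ 2 := by positivity
    rw [hγ]; nlinarith
  -- the contraction of the bad words
  set ρ1 : ℝ := ∑ i ∈ range d, ps d m s i / |(m i : ℝ)| with hρ1
  have hρ10 : 0 < ρ1 := by
    rw [hρ1]
    apply sum_pos
    · intro i hi
      rw [mem_range] at hi
      exact div_pos (h0.ps_pos s i hi) (h0.abs_pos hi)
    · exact nonempty_range_iff.2 (by omega)
  have hρ11 : ρ1 < 1 := by
    rw [hρ1, ← h0.ps_sum s]
    obtain ⟨i, hi, h2⟩ := hbig
    apply sum_lt_sum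
    · intro i hi
      rw [mem_range] at hi
      rw [div_le_iff₀ (h0.abs_pos hi)]
      exact le_mul_of_one_le_right (h0.ps_pos s i hi).le (h0.one_le hi)
    · refine ⟨i, mem_range.2 hi, ?_⟩
      rw [div_lt_iff₀ (h0.abs_pos hi)]
      have h3 : (2 : ℝ) ≤ |(m i : ℝ)| := by exact_mod_cast h2
      have h4 := h0.ps_pos s i hi
      nlinarith
  have hlρ : 0 < -Real.log ρ1 := by
    have := Real.log_neg hρ10 hρ11
    linarith
  -- the number of windows
  set k0 : ℕ := ⌈3 * Real.log d / -Real.log ρ1⌉₊ + ⌈4 * Real.log L / γ⌉₊ + 1 with hk0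
  refine ⟨γ / 4, by positivity, k0, by omega, ?_⟩
  intro k hk r h
  have hk1 : 1 ≤ k := by omega
  have hkR : (1 : ℝ) ≤ k := by exact_mod_cast hk1
  have hka : 3 * Real.log d ≤ k * -Real.log ρ1 := by
    have h1 := Nat.le_ceil (3 * Real.log d / -Real.log ρ1)
    have h2 : (⌈3 * Real.log d / -Real.log ρ1⌉₊ : ℝ) ≤ k := by
      have : ⌈3 * Real.log d / -Real.log ρ1⌉₊ ≤ k := by omega
      exact_mod_cast this
    have h3 := h1.trans h2
    rwa [div_le_iff₀ hlρ] at h3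
  have hkb : 4 * Real.log L ≤ k * γ := by
    have h1 := Nat.le_ceil (4 * Real.log L / γ)
    have h2 : (⌈4 * Real.log L / γ⌉₊ : ℝ) ≤ k := by
      have : ⌈4 * Real.log L / γ⌉₊ ≤ k := by omega
      exact_mod_cast this
    have h3 := h1.trans h2
    rwa [div_le_iff₀ hγ0] at h3
  set z : ℝ := Real.exp (-(γ * k / 2)) with hz
  have hz0 : 0 < z := Real.exp_pos _
  have hz1 : z ≤ 1 := by
    rw [hz, Real.exp_le_one_iff]
    have : 0 < γ * k / 2 := by positivity
    linarith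
  have hLz : L * z ≤ Real.exp (-(γ / 4 * k)) := by
    have h1 : (L : ℝ) ≤ Real.exp (γ * k / 4) := by
      rw [← Real.log_le_iff_le_exp (by linarith)]
      linarith
    calc L * z ≤ Real.exp (γ * k / 4) * z := mul_le_mul_of_nonneg_right h1 hz0.le
      _ = _ := by rw [hz, ← Real.exp_add]; congr 1; ring
  obtain ⟨K0, hrid⟩ := hrid_of h hk1
  obtain ⟨C1, hC1, hpoly⟩ := poly_le_exp (2 * d * (k + 2)) (a := z / 2) (by positivity)
  refine ⟨3 * (d : ℝ) ^ (2 * K0) + 8 * k * C1 / z + 1, by positivity, ?_⟩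
  intro K μ hμ R hR1 hRn u B hB
  have hRR : (1 : ℝ) ≤ R := by exact_mod_cast hR1
  have hRR0 : (0 : ℝ) < R := by linarith
  have hRnR : (R : ℝ) ≤ (d : ℝ) ^ (K / (8 * k)) := by exact_mod_cast hRn
  have hμ0 : μ ≠ 0 := h.Ms_ne hμ
  have hP0 : 0 < PM d m s K μ := PM_pos h s K hμ0
  have hPle : PM d m s K μ ≤ 1 := by
    have h1 := card_gr_PM h s K μ
    have h2 : (1 : ℝ) ≤ (gr d m K μ).card := by exact_mod_cast gr_pos hμ
    nlinarith
  have hE1 : 1 ≤ Real.exp (Real.exp (-(γ / 4 * k)) * K) := Real.one_le_exp (by positivity)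
  have hinj : Set.InjOn (fun x => wd d m r K x) B := by
    intro x hx y hy hxy
    rw [mem_coe] at hx hy
    have h3 := h.wd_cong hxy
    have h1 := (hB x hx).1
    have h2 := (hB y hy).1
    have h4 : x - y = 0 := by
      apply Int.eq_zero_of_abs_lt_dvd h3
      have h5 : |x - y| ≤ |x - u| + |y - u| := by
        have : x - y = (x - u) - (y - u) := by ring
        rw [this]; exact abs_sub _ _
      have hR1' : (1 : ℤ) ≤ R := by exact_mod_cast hR1
      have h6 : ∀ w : ℤ, 0 ≤ w → w * (8 * R) ≤ (d : ℤ) ^ K → w * 8 ≤ (d : ℤ) ^ K := by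
        intro w hw h
        nlinarith
      have h7 := h6 _ (abs_nonneg _) h1
      have h8 := h6 _ (abs_nonneg _) h2
      have h9 : (0 : ℤ) < (d : ℤ) ^ K := by positivity
      linarith
    linarith
  rcases Nat.lt_or_ge K K0 with hKs | hKb
  · -- small `K`
    have h1 : B ⊆ Icc (u - (d : ℤ) ^ K) (u + (d : ℤ) ^ K) := by
      intro x hx
      have h2 := (hB x hx).1
      have h3 : |x - u| ≤ (d : ℤ) ^ K := by
        have h4 : |x - u| * 1 ≤ |x - u| * (8 * R) := by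
          apply mul_le_mul_of_nonneg_left _ (abs_nonneg _)
          have : (1 : ℤ) ≤ R := by exact_mod_cast hR1
          linarith
        linarith
      rw [abs_le] at h3
      rw [mem_Icc]
      constructor <;> linarith [h3.1, h3.2]
    have h2 : (B.card : ℝ) ≤ 3 * (d : ℝ) ^ K := by
      have h3 := card_le_card h1
      rw [Int.card_Icc] at h3
      have h4 : (u + (d : ℤ) ^ K + 1 - (u - (d : ℤ) ^ K) : ℤ).toNat = 2 * d ^ K + 1 := by
        have : (u + (d : ℤ) ^ K + 1 - (u - (d : ℤ) ^ K) : ℤ) = ((2 * d ^ K + 1 : ℕ) : ℤ) := by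
          push_cast; ring
        rw [this, Int.toNat_natCast]
      rw [h4] at h3
      have h5 : (B.card : ℝ) ≤ 2 * (d : ℝ) ^ K + 1 := by exact_mod_cast h3
      have h6 : (1 : ℝ) ≤ (d : ℝ) ^ K := one_le_pow₀ (by linarith)
      linarith
    have h3 : (R : ℝ) ≤ (d : ℝ) ^ K0 := by
      refine hRnR.trans (pow_le_pow_right₀ (by linarith) ?_)
      exact (Nat.div_le_self _ _).trans hKs.le
    have h4 : (d : ℝ) ^ K ≤ (d : ℝ) ^ K0 := pow_le_pow_right₀ (by linarith) hKs.le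
    have h5 : (d : ℝ) ^ (2 * K0) = (d : ℝ) ^ K0 * (d : ℝ) ^ K0 := by rw [← pow_add]; congr 1; ring
    rw [le_div_iff₀ hRR0]
    calc (B.card : ℝ) * PM d m s K μ * R ≤ (3 * (d : ℝ) ^ K0) * 1 * (d : ℝ) ^ K0 := by
          apply mul_le_mul _ h3 hRR0.le (by positivity)
          apply mul_le_mul _ hPle hP0.le (by positivity)
          linarith
      _ = 3 * (d : ℝ) ^ (2 * K0) * 1 := by rw [h5]; ring
      _ ≤ _ := by
          apply mul_le_mul _ hE1 zero_le_one (by positivity)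
          have : 0 < 8 * k * C1 / z := by positivity
          linarith
  -- large `K`
  set n : ℕ := K / (8 * k) with hn
  have hn1 : 8 * k * n ≤ K := Nat.mul_div_le _ _
  set K1 : ℕ := K - 2 * n * (2 * k) with hK1
  have e1 : 2 * n * (2 * k) = 4 * (k * n) := by ring
  have e2 : 8 * k * n = 8 * (k * n) := by ring
  have hKK1 : K = K1 + 2 * n * (2 * k) := by omega
  have hK1b : K ≤ 2 * K1 := by omega
  set D0 : ℕ := d ^ (2 * n) with hD0
  set B1 := B.filter (fun x => wd d m r K x ∈ Sg d m K1 (2 * n * (2 * k)) μ D0) with hB1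
  set B2 := B.filter (fun x => ¬ wd d m r K x ∈ Sg d m K1 (2 * n * (2 * k)) μ D0) with hB2
  have hsplit : (B.card : ℝ) = B1.card + B2.card := by
    rw [hB1, hB2]; exact_mod_cast (card_filter_add_card_filter_not (s := B) _).symm
  have hnK8 : (n : ℝ) ≤ K / (8 * k) := by
    rw [le_div_iff₀ (by positivity)]
    have : ((8 * k * n : ℕ) : ℝ) ≤ K := by exact_mod_cast hn1
    push_cast at this
    linarith
  -- the bad part
  have hb2 : (B2.card : ℝ) * PM d m s K μ ≤ 1 / R := by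
    have h1 := bad_words h s K1 (2 * n * (2 * k)) μ D0 (B2.image (fun x => wd d m r K x)) (by
      intro v hv
      rw [mem_image] at hv
      obtain ⟨x, hx, rfl⟩ := hv
      rw [hB2, mem_filter] at hx
      have h2 : wd d m r K x ∈ gr d m (K1 + 2 * n * (2 * k)) μ := by
        rw [← hKK1, mem_gr]
        exact ⟨wd_mem hd K x, (hB x hx.1).2⟩
      refine ⟨h2, ?_⟩
      by_contra hcon
      apply hx.2
      unfold Sg
      rw [mem_filter]
      exact ⟨h2, not_lt.1 hcon⟩)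
    rw [card_image_of_injOn (hinj.mono (by
      intro x hx
      exact (mem_filter.1 hx).1)), ← hKK1, ← hρ1] at h1
    refine h1.trans ?_
    rw [le_div_iff₀ hRR0]
    have h3 : ρ1 ^ K1 = Real.exp (K1 * Real.log ρ1) := by
      rw [Real.exp_nat_mul, Real.exp_log hρ10]
    have h4 : (D0 : ℝ) * R ≤ Real.exp (3 * n * Real.log d) := by
      calc (D0 : ℝ) * R ≤ (d : ℝ) ^ (2 * n) * (d : ℝ) ^ n := by
            rw [hD0]
            push_cast
            exact mul_le_mul_of_nonneg_left hRnR (by positivity)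
        _ = (d : ℝ) ^ (3 * n) := by rw [← pow_add]; congr 1; ring
        _ = _ := by
            have h5 : (3 : ℝ) * n = ((3 * n : ℕ) : ℝ) := by push_cast; ring
            rw [h5, Real.exp_nat_mul, Real.exp_log hd0]
    calc (D0 : ℝ) * ρ1 ^ K1 * R = (D0 * R) * ρ1 ^ K1 := by ring
      _ ≤ Real.exp (3 * n * Real.log d) * Real.exp (K1 * Real.log ρ1) := by
          rw [h3]
          exact mul_le_mul_of_nonneg_right h4 (Real.exp_pos _).le
      _ = Real.exp (3 * n * Real.log d + K1 * Real.log ρ1) := by rw [← Real.exp_add]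
      _ ≤ 1 := by
          rw [Real.exp_le_one_iff]
          have h5 : (K : ℝ) ≤ 2 * K1 := by exact_mod_cast hK1b
          have h6 : 3 * n * Real.log d ≤ n * (k * -Real.log ρ1) := by
            have : (0 : ℝ) ≤ n := Nat.cast_nonneg n
            nlinarith
          have h7 : (n : ℝ) * k ≤ K1 := by
            have : n * k ≤ K1 := by nlinarith
            exact_mod_cast this
          nlinarith
  -- the good part
  have hb1 : (B1.card : ℝ) * PM d m s K μ ≤
      8 * k * C1 / z * Real.exp (Real.exp (-(γ / 4 * k)) * K) / R := by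
    have hμd : IsCoprime μ (d : ℤ) := by
      obtain ⟨v, hv, rfl⟩ := mem_Ms.1 hμ
      exact h.Mw_cop (mem_LW.1 hv).2
    have hct := count_type h s hL2 hL (n := n) (M := 2 * k) (K1 := K1) (K := K) (R := R) (k := k)
      (D0 := D0) (μ := μ) hKK1 rfl hk1 (by omega) (by
        refine hRn.trans (Nat.pow_le_pow_right (by omega) (by omega))) hμ0 hμd
      (fun j hj ν hν hνD hνμ x D hx hD hdv => hrid K hKb R hRn μ hμ j hj ν hν hνD hνμ x D hx hD hdv)
      hz0 hz1 (by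
        have h1 : 1 - γ ≤ Real.exp (-γ) := by
          have := Real.add_one_le_exp (-γ)
          linarith
        calc (1 - 2 * ps d m s 0 * ps d m s 1 * (4 / (L : ℝ) ^ 2)) ^ k = (1 - γ) ^ k := by
              rw [← hκ, ← hγ]
          _ ≤ Real.exp (-γ) ^ k := pow_le_pow_left₀ (by linarith) h1 k
          _ = z ^ 2 := by
              rw [hz, ← Real.exp_nat_mul, ← Real.exp_nat_mul]; congr 1; push_cast; ring) u B1 (by
        intro x hx
        rw [hB1, mem_filter] at hx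
        exact ⟨(hB x hx.1).1, hx.2⟩)
    refine hct.trans ?_
    have hKR : (0 : ℝ) ≤ K := Nat.cast_nonneg K
    have h3 : (1 + 2 * L * z) ^ n ≤ Real.exp (1 / 4 * (L * z) * K) := by
      have h4 : 1 + 2 * L * z ≤ Real.exp (2 * L * z) := by
        have := Real.add_one_le_exp (2 * L * z)
        linarith
      calc (1 + 2 * L * z) ^ n ≤ Real.exp (2 * L * z) ^ n := pow_le_pow_left₀ (by positivity) h4 n
        _ = Real.exp (2 * L * z * n) := by rw [← Real.exp_nat_mul]; congr 1; ring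
        _ ≤ _ := by
            apply Real.exp_le_exp.2
            have h5 : (n : ℝ) ≤ K / 8 := by
              refine hnK8.trans ?_
              rw [div_le_div_iff₀ (by positivity) (by norm_num)]
              nlinarith
            have h6 : 0 < L * z := by positivity
            nlinarith
    have hQ : ((((K : ℝ) + 1) ^ (2 * d)) ^ (k + 1) * ((K : ℝ) + 1) ^ (2 * d)) =
        ((K : ℝ) + 1) ^ (2 * d * (k + 2)) := by
      rw [← pow_mul, ← pow_add]; congr 1
    have h4 : (((K : ℝ) + 1) ^ (2 * d)) ^ (k + 1) *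
        (((2 * k : ℕ) : ℝ) * ((K : ℝ) + 1) ^ (2 * d) * ((1 + 2 * L * z) ^ n / z)) ≤
        2 * k * C1 / z * Real.exp (Real.exp (-(γ / 4 * k)) * K) := by
      calc (((K : ℝ) + 1) ^ (2 * d)) ^ (k + 1) *
            (((2 * k : ℕ) : ℝ) * ((K : ℝ) + 1) ^ (2 * d) * ((1 + 2 * L * z) ^ n / z))
          = ((K : ℝ) + 1) ^ (2 * d * (k + 2)) * (2 * k * ((1 + 2 * L * z) ^ n / z)) := by
            rw [← hQ]; push_cast; ring
        _ ≤ (C1 * Real.exp (z / 2 * K)) * (2 * k * (Real.exp (1 / 4 * (L * z) * K) / z)) := by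
            apply mul_le_mul (hpoly K) _ (by positivity) (by positivity)
            apply mul_le_mul_of_nonneg_left _ (by positivity)
            exact div_le_div_of_nonneg_right h3 hz0.le
        _ = 2 * k * C1 / z * (Real.exp (z / 2 * K) * Real.exp (1 / 4 * (L * z) * K)) := by ring
        _ ≤ _ := by
            apply mul_le_mul_of_nonneg_left _ (by positivity)
            rw [← Real.exp_add]
            apply Real.exp_le_exp.2
            have h5 : z / 2 * K + 1 / 4 * (L * z) * K ≤ (L * z) * K := by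
              have h6 : z * K * 2 ≤ L * z * K := by nlinarith [mul_nonneg hz0.le hKR]
              nlinarith
            exact h5.trans (mul_le_mul_of_nonneg_right hLz hKR)
    calc 4 / (R : ℝ) * ((((K : ℝ) + 1) ^ (2 * d)) ^ (k + 1) *
          (((2 * k : ℕ) : ℝ) * ((K : ℝ) + 1) ^ (2 * d) * ((1 + 2 * L * z) ^ n / z)))
        ≤ 4 / R * (2 * k * C1 / z * Real.exp (Real.exp (-(γ / 4 * k)) * K)) :=
          mul_le_mul_of_nonneg_left h4 (by positivity)
      _ = _ := by ring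
  rw [hsplit, add_mul]
  calc (B1.card : ℝ) * PM d m s K μ + B2.card * PM d m s K μ
      ≤ 8 * k * C1 / z * Real.exp (Real.exp (-(γ / 4 * k)) * K) / R + 1 / R := add_le_add hb1 hb2
    _ = (8 * k * C1 / z * Real.exp (Real.exp (-(γ / 4 * k)) * K) + 1) / R := by rw [add_div]
    _ ≤ _ := by
        apply div_le_div_of_nonneg_right _ hRR0.le
        have h4 : (0 : ℝ) < 3 * (d : ℝ) ^ (2 * K0) := by positivity
        nlinarith

end Pool.Agent.TH930.GH
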