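import Pool.Agent.TH930.GH.Final

/-! The main count, uniformly in the weight `s` in `[-1, 1]`. -/

set_option autoImplicit false

namespace Pool.Agent.TH930.GH

open Finset Pool.Agent.H319R3.GC

variable {d : ℕ} {m r : ℕ → ℤ}

/-- the sum of the weights of the bad words -/
noncomputable def rho1 (d : ℕ) (m : ℕ → ℤ) (s : ℝ) : ℝ := ∑ i ∈ range d, ps d m s i / |(m i : ℝ)|

theorem rho1_pos (h0 : Cop d m r) (s : ℝ) : 0 < rho1 d m s := by
  unfold rho1
  apply sum_pos
  · intro i hi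
    rw [mem_range] at hi
    exact div_pos (h0.ps_pos s i hi) (h0.abs_pos hi)
  · exact nonempty_range_iff.2 (by have := h0.two_le; omega)

theorem rho1_lt (h0 : Cop d m r) (hbig : ∃ i < d, 2 ≤ |m i|) (s : ℝ) : rho1 d m s < 1 := by
  unfold rho1
  rw [← h0.ps_sum s]
  obtain ⟨i, hi, h2⟩ := hbig
  apply sum_lt_sum
  · intro i hi
    rw [mem_range] at hi
    rw [div_le_iff₀ (h0.abs_pos hi)]
    exact le_mul_of_one_le_right (h0.ps_pos s i hi).le (h0.one_le hi)
  · refine ⟨i, mem_range.2 hi, ?_⟩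
    rw [div_lt_iff₀ (h0.abs_pos hi)]
    have h3 : (2 : ℝ) ≤ |(m i : ℝ)| := by exact_mod_cast h2
    have h4 := h0.ps_pos s i hi
    nlinarith

theorem main_core (h : Cop d m r) (hbig : ∃ i < d, 2 ≤ |m i|) (s : ℝ) {L : ℕ} (hL2 : 2 ≤ L)
    (hL : Big d m L) {k : ℕ} (hk1 : 1 ≤ k) (hka' : 3 * Real.log d ≤ k * -Real.log (rho1 d m s))
    (hkb' : 4 * Real.log L ≤ k * (2 * ps d m s 0 * ps d m s 1 * (4 / (L : ℝ) ^ 2))) :
      ∃ C : ℝ, 0 < C ∧ ∀ K : ℕ, ∀ μ ∈ Ms d m K, ∀ R : ℕ, 1 ≤ R → R ≤ d ^ (K / (8 * k)) → ∀ (u : ℤ) (B : Finset ℤ),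
      (∀ x ∈ B, |x - u| * (8 * R) ≤ (d : ℤ) ^ K ∧ Mw m (wd d m r K x) = μ) →
      (B.card : ℝ) * PM d m s K μ ≤ C * Real.exp (Real.exp
        (-(2 * ps d m s 0 * ps d m s 1 * (4 / (L : ℝ) ^ 2) / 4 * k)) * K) / R := by
  classical
  have hd := h.two_le
  have hdR : (2 : ℝ) ≤ d := by exact_mod_cast hd
  have hd0 : (0 : ℝ) < d := by linarith
  have hld : 0 < Real.log d := Real.log_pos (by linarith)
  obtain ⟨hκ0, hκ1⟩ := h.ps_kap s
  set κ : ℝ := 2 * ps d m s 0 * ps d m s 1 with hκ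
  have hLR : (2 : ℝ) ≤ L := by exact_mod_cast hL2
  set γ : ℝ := κ * (4 / (L : ℝ) ^ 2) with hγ
  have hγ0 : 0 < γ := by positivity
  have hγ1 : γ ≤ 1 := by
    have h1 : 4 / (L : ℝ) ^ 2 ≤ 1 := by rw [div_le_one (by positivity)]; nlinarith
    have h2 : 0 < 4 / (L : ℝ) ^ 2 := by positivity
    rw [hγ]; nlinarith
  set ρ1 : ℝ := ∑ i ∈ range d, ps d m s i / |(m i : ℝ)| with hρ1
  have hρ10 : 0 < ρ1 := rho1_pos h s
  have hρ11 : ρ1 < 1 := rho1_lt h hbig s
  have hlρ : 0 < -Real.log ρ1 := by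
    have := Real.log_neg hρ10 hρ11
    linarith
  have hkR : (1 : ℝ) ≤ k := by exact_mod_cast hk1
  have hka : 3 * Real.log d ≤ k * -Real.log ρ1 := hka'
  have hkb : 4 * Real.log L ≤ k * γ := hkb'
  set z : ℝ := Real.exp (-(γ * k / 2)) with hz
  have hz0 : 0 < z := Real.exp_pos _
  have hz1 : z ≤ 1 := by
    rw [hz, Real.exp_le_one_iff]
    have : 0 < γ * k / 2 := by positivity
    linarith
  have hLz : L * z ≤ Real.exp (-(γ / 4 * k)) := by
    have h1 : (L : ℝ) ≤ Real.exp (γ * k / 4) := by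
      rw [← Real.log_le_iff_le_exp (by linarith)]
      linarith
    calc L * z ≤ Real.exp (γ * k / 4) * z := mul_le_mul_of_nonneg_right h1 hz0.le
      _ = _ := by rw [hz, ← Real.exp_add]; congr 1; ring
  obtain ⟨K0, hrid⟩ := hrid_of h hk1
  obtain ⟨C1, hC1, hpoly⟩ := poly_le_exp (2 * d * (k + 2)) (a := z / 2) (by positivity)
  refine ⟨3 * (d : ℝ) ^ (2 * K0) + 8 * k * C1 / z + 1, by positivity, ?_⟩
  intro K μ hμ R hR1 hRn u B hB
  have hRR : (1 : ℝ) ≤ R := by exact_mod_cast hR1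
  have hRR0 : (0 : ℝ) < R := by linarith
  have hRnR : (R : ℝ) ≤ (d : ℝ) ^ (K / (8 * k)) := by exact_mod_cast hRn
  have hμ0 : μ ≠ 0 := h.Ms_ne hμ
  have hP0 : 0 < PM d m s K μ := PM_pos h s K hμ0
  have hPle : PM d m s K μ ≤ 1 := by
    have h1 := card_gr_PM h s K μ
    have h2 : (1 : ℝ) ≤ (gr d m K μ).card := by exact_mod_cast gr_pos hμ
    nlinarith
  have hE1 : 1 ≤ Real.exp (Real.exp (-(γ / 4 * k)) * K) := Real.one_le_exp (by positivity)
  have hinj : Set.InjOn (fun x => wd d m r K x) B := by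
    intro x hx y hy hxy
    rw [mem_coe] at hx hy
    have h3 := h.wd_cong hxy
    have h1 := (hB x hx).1
    have h2 := (hB y hy).1
    have h4 : x - y = 0 := by
      apply Int.eq_zero_of_abs_lt_dvd h3
      have h5 : |x - y| ≤ |x - u| + |y - u| := by
        have : x - y = (x - u) - (y - u) := by ring
        rw [this]; exact abs_sub _ _
      have hR1' : (1 : ℤ) ≤ R := by exact_mod_cast hR1
      have h6 : ∀ w : ℤ, 0 ≤ w → w * (8 * R) ≤ (d : ℤ) ^ K → w * 8 ≤ (d : ℤ) ^ K := by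
        intro w hw h
        nlinarith
      have h7 := h6 _ (abs_nonneg _) h1
      have h8 := h6 _ (abs_nonneg _) h2
      have h9 : (0 : ℤ) < (d : ℤ) ^ K := by positivity
      linarith
    linarith
  rcases Nat.lt_or_ge K K0 with hKs | hKb
  · -- small `K`
    have h1 : B ⊆ Icc (u - (d : ℤ) ^ K) (u + (d : ℤ) ^ K) := by
      intro x hx
      have h2 := (hB x hx).1
      have h3 : |x - u| ≤ (d : ℤ) ^ K := by
        have h4 : |x - u| * 1 ≤ |x - u| * (8 * R) := by
          apply mul_le_mul_of_nonneg_left _ (abs_nonneg _)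
          have : (1 : ℤ) ≤ R := by exact_mod_cast hR1
          linarith
        linarith
      rw [abs_le] at h3
      rw [mem_Icc]
      constructor <;> linarith [h3.1, h3.2]
    have h2 : (B.card : ℝ) ≤ 3 * (d : ℝ) ^ K := by
      have h3 := card_le_card h1
      rw [Int.card_Icc] at h3
      have h4 : (u + (d : ℤ) ^ K + 1 - (u - (d : ℤ) ^ K) : ℤ).toNat = 2 * d ^ K + 1 := by
        have : (u + (d : ℤ) ^ K + 1 - (u - (d : ℤ) ^ K) : ℤ) = ((2 * d ^ K + 1 : ℕ) : ℤ) := by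
          push_cast; ring
        rw [this, Int.toNat_natCast]
      rw [h4] at h3
      have h5 : (B.card : ℝ) ≤ 2 * (d : ℝ) ^ K + 1 := by exact_mod_cast h3
      have h6 : (1 : ℝ) ≤ (d : ℝ) ^ K := one_le_pow₀ (by linarith)
      linarith
    have h3 : (R : ℝ) ≤ (d : ℝ) ^ K0 := by
      refine hRnR.trans (pow_le_pow_right₀ (by linarith) ?_)
      exact (Nat.div_le_self _ _).trans hKs.le
    have h4 : (d : ℝ) ^ K ≤ (d : ℝ) ^ K0 := pow_le_pow_right₀ (by linarith) hKs.le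
    have h5 : (d : ℝ) ^ (2 * K0) = (d : ℝ) ^ K0 * (d : ℝ) ^ K0 := by rw [← pow_add]; congr 1; ring
    rw [le_div_iff₀ hRR0]
    calc (B.card : ℝ) * PM d m s K μ * R ≤ (3 * (d : ℝ) ^ K0) * 1 * (d : ℝ) ^ K0 := by
          apply mul_le_mul _ h3 hRR0.le (by positivity)
          apply mul_le_mul _ hPle hP0.le (by positivity)
          linarith
      _ = 3 * (d : ℝ) ^ (2 * K0) * 1 := by rw [h5]; ring
      _ ≤ _ := by
          apply mul_le_mul _ hE1 zero_le_one (by positivity)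
          have : 0 < 8 * k * C1 / z := by positivity
          linarith
  -- large `K`
  set n : ℕ := K / (8 * k) with hn
  have hn1 : 8 * k * n ≤ K := Nat.mul_div_le _ _
  set K1 : ℕ := K - 2 * n * (2 * k) with hK1
  have e1 : 2 * n * (2 * k) = 4 * (k * n) := by ring
  have e2 : 8 * k * n = 8 * (k * n) := by ring
  have hKK1 : K = K1 + 2 * n * (2 * k) := by omega
  have hK1b : K ≤ 2 * K1 := by omega
  set D0 : ℕ := d ^ (2 * n) with hD0
  set B1 := B.filter (fun x => wd d m r K x ∈ Sg d m K1 (2 * n * (2 * k)) μ D0) with hB1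
  set B2 := B.filter (fun x => ¬ wd d m r K x ∈ Sg d m K1 (2 * n * (2 * k)) μ D0) with hB2
  have hsplit : (B.card : ℝ) = B1.card + B2.card := by
    rw [hB1, hB2]; exact_mod_cast (card_filter_add_card_filter_not (s := B) _).symm
  have hnK8 : (n : ℝ) ≤ K / (8 * k) := by
    rw [le_div_iff₀ (by positivity)]
    have : ((8 * k * n : ℕ) : ℝ) ≤ K := by exact_mod_cast hn1
    push_cast at this
    linarith
  -- the bad part
  have hb2 : (B2.card : ℝ) * PM d m s K μ ≤ 1 / R := by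
    have h1 := bad_words h s K1 (2 * n * (2 * k)) μ D0 (B2.image (fun x => wd d m r K x)) (by
      intro v hv
      rw [mem_image] at hv
      obtain ⟨x, hx, rfl⟩ := hv
      rw [hB2, mem_filter] at hx
      have h2 : wd d m r K x ∈ gr d m (K1 + 2 * n * (2 * k)) μ := by
        rw [← hKK1, mem_gr]
        exact ⟨wd_mem hd K x, (hB x hx.1).2⟩
      refine ⟨h2, ?_⟩
      by_contra hcon
      apply hx.2
      unfold Sg
      rw [mem_filter]
      exact ⟨h2, not_lt.1 hcon⟩)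
    rw [card_image_of_injOn (hinj.mono (by
      intro x hx
      exact (mem_filter.1 hx).1)), ← hKK1, ← hρ1] at h1
    refine h1.trans ?_
    rw [le_div_iff₀ hRR0]
    have h3 : ρ1 ^ K1 = Real.exp (K1 * Real.log ρ1) := by
      rw [Real.exp_nat_mul, Real.exp_log hρ10]
    have h4 : (D0 : ℝ) * R ≤ Real.exp (3 * n * Real.log d) := by
      calc (D0 : ℝ) * R ≤ (d : ℝ) ^ (2 * n) * (d : ℝ) ^ n := by
            rw [hD0]
            push_cast
            exact mul_le_mul_of_nonneg_left hRnR (by positivity)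
        _ = (d : ℝ) ^ (3 * n) := by rw [← pow_add]; congr 1; ring
        _ = _ := by
            have h5 : (3 : ℝ) * n = ((3 * n : ℕ) : ℝ) := by push_cast; ring
            rw [h5, Real.exp_nat_mul, Real.exp_log hd0]
    calc (D0 : ℝ) * ρ1 ^ K1 * R = (D0 * R) * ρ1 ^ K1 := by ring
      _ ≤ Real.exp (3 * n * Real.log d) * Real.exp (K1 * Real.log ρ1) := by
          rw [h3]
          exact mul_le_mul_of_nonneg_right h4 (Real.exp_pos _).le
      _ = Real.exp (3 * n * Real.log d + K1 * Real.log ρ1) := by rw [← Real.exp_add]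
      _ ≤ 1 := by
          rw [Real.exp_le_one_iff]
          have h5 : (K : ℝ) ≤ 2 * K1 := by exact_mod_cast hK1b
          have h6 : 3 * n * Real.log d ≤ n * (k * -Real.log ρ1) := by
            have : (0 : ℝ) ≤ n := Nat.cast_nonneg n
            nlinarith
          have h7 : (n : ℝ) * k ≤ K1 := by
            have : n * k ≤ K1 := by nlinarith
            exact_mod_cast this
          nlinarith
  -- the good part
  have hb1 : (B1.card : ℝ) * PM d m s K μ ≤
      8 * k * C1 / z * Real.exp (Real.exp (-(γ / 4 * k)) * K) / R := by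
    have hμd : IsCoprime μ (d : ℤ) := by
      obtain ⟨v, hv, rfl⟩ := mem_Ms.1 hμ
      exact h.Mw_cop (mem_LW.1 hv).2
    have hct := count_type h s hL2 hL (n := n) (M := 2 * k) (K1 := K1) (K := K) (R := R) (k := k)
      (D0 := D0) (μ := μ) hKK1 rfl hk1 (by omega) (by
        refine hRn.trans (Nat.pow_le_pow_right (by omega) (by omega))) hμ0 hμd
      (fun j hj ν hν hνD hνμ x D hx hD hdv => hrid K hKb R hRn μ hμ j hj ν hν hνD hνμ x D hx hD hdv)
      hz0 hz1 (by
        have h1 : 1 - γ ≤ Real.exp (-γ) := by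
          have := Real.add_one_le_exp (-γ)
          linarith
        calc (1 - 2 * ps d m s 0 * ps d m s 1 * (4 / (L : ℝ) ^ 2)) ^ k = (1 - γ) ^ k := by
              rw [← hκ, ← hγ]
          _ ≤ Real.exp (-γ) ^ k := pow_le_pow_left₀ (by linarith) h1 k
          _ = z ^ 2 := by
              rw [hz, ← Real.exp_nat_mul, ← Real.exp_nat_mul]; congr 1; push_cast; ring) u B1 (by
        intro x hx
        rw [hB1, mem_filter] at hx
        exact ⟨(hB x hx.1).1, hx.2⟩)
    refine hct.trans ?_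
    have hKR : (0 : ℝ) ≤ K := Nat.cast_nonneg K
    have h3 : (1 + 2 * L * z) ^ n ≤ Real.exp (1 / 4 * (L * z) * K) := by
      have h4 : 1 + 2 * L * z ≤ Real.exp (2 * L * z) := by
        have := Real.add_one_le_exp (2 * L * z)
        linarith
      calc (1 + 2 * L * z) ^ n ≤ Real.exp (2 * L * z) ^ n := pow_le_pow_left₀ (by positivity) h4 n
        _ = Real.exp (2 * L * z * n) := by rw [← Real.exp_nat_mul]; congr 1; ring
        _ ≤ _ := by
            apply Real.exp_le_exp.2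
            have h5 : (n : ℝ) ≤ K / 8 := by
              refine hnK8.trans ?_
              rw [div_le_div_iff₀ (by positivity) (by norm_num)]
              nlinarith
            have h6 : 0 < L * z := by positivity
            nlinarith
    have hQ : ((((K : ℝ) + 1) ^ (2 * d)) ^ (k + 1) * ((K : ℝ) + 1) ^ (2 * d)) =
        ((K : ℝ) + 1) ^ (2 * d * (k + 2)) := by
      rw [← pow_mul, ← pow_add]; congr 1
    have h4 : (((K : ℝ) + 1) ^ (2 * d)) ^ (k + 1) *
        (((2 * k : ℕ) : ℝ) * ((K : ℝ) + 1) ^ (2 * d) * ((1 + 2 * L * z) ^ n / z)) ≤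
        2 * k * C1 / z * Real.exp (Real.exp (-(γ / 4 * k)) * K) := by
      calc (((K : ℝ) + 1) ^ (2 * d)) ^ (k + 1) *
            (((2 * k : ℕ) : ℝ) * ((K : ℝ) + 1) ^ (2 * d) * ((1 + 2 * L * z) ^ n / z))
          = ((K : ℝ) + 1) ^ (2 * d * (k + 2)) * (2 * k * ((1 + 2 * L * z) ^ n / z)) := by
            rw [← hQ]; push_cast; ring
        _ ≤ (C1 * Real.exp (z / 2 * K)) * (2 * k * (Real.exp (1 / 4 * (L * z) * K) / z)) := by
            apply mul_le_mul (hpoly K) _ (by positivity) (by positivity)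
            apply mul_le_mul_of_nonneg_left _ (by positivity)
            exact div_le_div_of_nonneg_right h3 hz0.le
        _ = 2 * k * C1 / z * (Real.exp (z / 2 * K) * Real.exp (1 / 4 * (L * z) * K)) := by ring
        _ ≤ _ := by
            apply mul_le_mul_of_nonneg_left _ (by positivity)
            rw [← Real.exp_add]
            apply Real.exp_le_exp.2
            have h5 : z / 2 * K + 1 / 4 * (L * z) * K ≤ (L * z) * K := by
              have h6 : z * K * 2 ≤ L * z * K := by nlinarith [mul_nonneg hz0.le hKR]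
              nlinarith
            exact h5.trans (mul_le_mul_of_nonneg_right hLz hKR)
    calc 4 / (R : ℝ) * ((((K : ℝ) + 1) ^ (2 * d)) ^ (k + 1) *
          (((2 * k : ℕ) : ℝ) * ((K : ℝ) + 1) ^ (2 * d) * ((1 + 2 * L * z) ^ n / z)))
        ≤ 4 / R * (2 * k * C1 / z * Real.exp (Real.exp (-(γ / 4 * k)) * K)) :=
          mul_le_mul_of_nonneg_left h4 (by positivity)
      _ = _ := by ring
  rw [hsplit, add_mul]
  calc (B1.card : ℝ) * PM d m s K μ + B2.card * PM d m s K μ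
      ≤ 8 * k * C1 / z * Real.exp (Real.exp (-(γ / 4 * k)) * K) / R + 1 / R := add_le_add hb1 hb2
    _ = (8 * k * C1 / z * Real.exp (Real.exp (-(γ / 4 * k)) * K) + 1) / R := by rw [add_div]
    _ ≤ _ := by
        apply div_le_div_of_nonneg_right _ hRR0.le
        have h4 : (0 : ℝ) < 3 * (d : ℝ) ^ (2 * K0) := by positivity
        nlinarith

end Pool.Agent.TH930.GH

namespace Pool.Agent.TH930.GH

open Finset Pool.Agent.H319R3.GC

variable {d : ℕ} {m r : ℕ → ℤ}

theorem Zs_cont (h : Cop d m r) : Continuous (Zs d m) := by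
  unfold Zs
  apply continuous_finsetSum
  intro i hi
  exact Real.continuous_const_rpow (h.abs_pos (mem_range.1 hi)).ne'

theorem ps_cont (h : Cop d m r) {i : ℕ} (hi : i < d) : Continuous (fun s => ps d m s i) := by
  unfold ps
  exact (Real.continuous_const_rpow (h.abs_pos hi).ne').div (Zs_cont h) (fun s => (h.Zs_pos s).ne')

/-- the main count, uniformly in `s ∈ [-1, 1]` -/
theorem main_unif {r0 : ℕ → ℤ} (h0 : Cop d m r0) (hbig : ∃ i < d, 2 ≤ |m i|) :
    ∃ c0 : ℝ, 0 < c0 ∧ ∃ k0 : ℕ, 1 ≤ k0 ∧ ∀ s : ℝ, -1 ≤ s → s ≤ 1 → ∀ k : ℕ, k0 ≤ k →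
      ∀ r : ℕ → ℤ, Cop d m r →
      ∃ C : ℝ, 0 < C ∧ ∀ K : ℕ, ∀ μ ∈ Ms d m K, ∀ R : ℕ, 1 ≤ R → R ≤ d ^ (K / (8 * k)) → ∀ (u : ℤ) (B : Finset ℤ),
      (∀ x ∈ B, |x - u| * (8 * R) ≤ (d : ℤ) ^ K ∧ Mw m (wd d m r K x) = μ) →
      (B.card : ℝ) * PM d m s K μ ≤ C * Real.exp (Real.exp (-(c0 * k)) * K) / R := by
  have hd := h0.two_le
  have hdR : (2 : ℝ) ≤ d := by exact_mod_cast hd
  have hld : 0 < Real.log d := Real.log_pos (by linarith)
  obtain ⟨L0, hL01, hL0⟩ := exists_Big d m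
  set L : ℕ := L0 + 1 with hLdef
  have hL2 : 2 ≤ L := by omega
  have hL : Big d m L := by
    intro a ha b hb
    have := hL0 a ha b hb
    rw [hLdef]
    push_cast
    linarith
  have hLR : (2 : ℝ) ≤ L := by exact_mod_cast hL2
  -- the minimum of the variance and the maximum of `ρ1`
  have hI : IsCompact (Set.Icc (-1 : ℝ) 1) := isCompact_Icc
  have hne : (Set.Icc (-1 : ℝ) 1).Nonempty := ⟨0, by constructor <;> norm_num⟩
  obtain ⟨s1, hs1, hmin⟩ := hI.exists_isMinOn hne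
    (f := fun s => 2 * ps d m s 0 * ps d m s 1) (by
      apply Continuous.continuousOn
      exact (continuous_const.mul (ps_cont h0 (by omega))).mul (ps_cont h0 (by omega)))
  obtain ⟨s2, hs2, hmax⟩ := hI.exists_isMaxOn hne (f := fun s => rho1 d m s) (by
      apply Continuous.continuousOn
      unfold rho1
      apply continuous_finsetSum
      intro i hi
      exact (ps_cont h0 (mem_range.1 hi)).div_const _)
  obtain ⟨hκ0, -⟩ := h0.ps_kap s1
  set κ : ℝ := 2 * ps d m s1 0 * ps d m s1 1 with hκ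
  set ρm : ℝ := rho1 d m s2 with hρm
  have hρm0 : 0 < ρm := rho1_pos h0 s2
  have hρm1 : ρm < 1 := rho1_lt h0 hbig s2
  have hlρ : 0 < -Real.log ρm := by
    have := Real.log_neg hρm0 hρm1
    linarith
  set γ : ℝ := κ * (4 / (L : ℝ) ^ 2) with hγ
  have hγ0 : 0 < γ := by positivity
  refine ⟨γ / 4, by positivity, ⌈3 * Real.log d / -Real.log ρm⌉₊ + ⌈4 * Real.log L / γ⌉₊ + 1, by omega, ?_⟩
  intro s hs1' hs2' k hk r h
  have hsI : s ∈ Set.Icc (-1 : ℝ) 1 := ⟨hs1', hs2'⟩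
  have hk1 : 1 ≤ k := by omega
  have hkR : (1 : ℝ) ≤ k := by exact_mod_cast hk1
  have hκs : κ ≤ 2 * ps d m s 0 * ps d m s 1 := hmin hsI
  have hρs : rho1 d m s ≤ ρm := hmax hsI
  have hγs : γ ≤ 2 * ps d m s 0 * ps d m s 1 * (4 / (L : ℝ) ^ 2) :=
    mul_le_mul_of_nonneg_right hκs (by positivity)
  have hka : 3 * Real.log d ≤ k * -Real.log (rho1 d m s) := by
    have h1 := Nat.le_ceil (3 * Real.log d / -Real.log ρm)
    have h2 : (⌈3 * Real.log d / -Real.log ρm⌉₊ : ℝ) ≤ k := by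
      have : ⌈3 * Real.log d / -Real.log ρm⌉₊ ≤ k := by omega
      exact_mod_cast this
    have h3 := h1.trans h2
    rw [div_le_iff₀ hlρ] at h3
    have h4 := Real.log_le_log (rho1_pos h0 s) hρs
    nlinarith
  have hkb : 4 * Real.log L ≤ k * (2 * ps d m s 0 * ps d m s 1 * (4 / (L : ℝ) ^ 2)) := by
    have h1 := Nat.le_ceil (4 * Real.log L / γ)
    have h2 : (⌈4 * Real.log L / γ⌉₊ : ℝ) ≤ k := by
      have : ⌈4 * Real.log L / γ⌉₊ ≤ k := by omega
      exact_mod_cast this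
    have h3 := h1.trans h2
    rw [div_le_iff₀ hγ0] at h3
    nlinarith
  obtain ⟨C, hC, hb⟩ := main_core h hbig s hL2 hL hk1 hka hkb
  refine ⟨C, hC, fun K μ hμ R hR1 hRn u B hB => (hb K μ hμ R hR1 hRn u B hB).trans ?_⟩
  apply div_le_div_of_nonneg_right _ (by positivity)
  apply mul_le_mul_of_nonneg_left _ hC.le
  apply Real.exp_le_exp.2
  apply mul_le_mul_of_nonneg_right _ (Nat.cast_nonneg K)
  apply Real.exp_le_exp.2
  have : γ / 4 * k ≤ 2 * ps d m s 0 * ps d m s 1 * (4 / (L : ℝ) ^ 2) / 4 * k :=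
    mul_le_mul_of_nonneg_right (by linarith) (by linarith)
  linarith

/-- THE COUNT, over all multipliers -/
theorem main_large_unif {r0 : ℕ → ℤ} (h0 : Cop d m r0) (hbig : ∃ i < d, 2 ≤ |m i|) :
    ∃ c0 : ℝ, 0 < c0 ∧ ∃ k0 : ℕ, 1 ≤ k0 ∧ ∀ s : ℝ, -1 ≤ s → s ≤ 1 → ∀ k : ℕ, k0 ≤ k →
      ∀ r : ℕ → ℤ, Cop d m r →
      ∃ C : ℝ, 0 < C ∧ ∀ K R : ℕ,
      1 ≤ R → R ≤ d ^ (K / (8 * k)) → ∀ Y : ℝ, 0 ≤ Y → ∀ (u : ℤ) (B : Finset ℤ),
      (∀ x ∈ B, |x - u| * (8 * R) ≤ (d : ℤ) ^ K ∧ |(Mw m (wd d m r K x) : ℝ)| ^ (-s) ≤ Y) →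
      (B.card : ℝ) ≤ C * Real.exp (Real.exp (-(c0 * k)) * K) * (Zs d m s ^ K * Y) / R := by
  classical
  obtain ⟨c0, hc0, k0, hk0, hmain⟩ := main_unif h0 hbig
  refine ⟨c0 / 2, by positivity, k0 + ⌈2 * Real.log 2 / c0⌉₊, by omega, ?_⟩
  intro s hsa hsb k hk r h
  obtain ⟨C, hC, hB0⟩ := hmain s hsa hsb k (by omega) r h
  have hkR : (0 : ℝ) < k := by
    have : 0 < k := by omega
    exact_mod_cast this
  have hk2 : 2 * Real.log 2 ≤ c0 * k := by
    have h1 := Nat.le_ceil (2 * Real.log 2 / c0)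
    have h2 : (⌈2 * Real.log 2 / c0⌉₊ : ℝ) ≤ k := by
      have : ⌈2 * Real.log 2 / c0⌉₊ ≤ k := by omega
      exact_mod_cast this
    have h3 := h1.trans h2
    rw [div_le_iff₀ hc0] at h3
    linarith
  obtain ⟨C1, hC1, hpoly⟩ := poly_le_exp d (a := Real.exp (-(c0 * k))) (Real.exp_pos _)
  refine ⟨C * C1, by positivity, ?_⟩
  intro K R hR1 hRn Y hY u B hB
  have hRR : (1 : ℝ) ≤ R := by exact_mod_cast hR1
  have hRR0 : (0 : ℝ) < R := by linarith
  have hZ := h.Zs_pos s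
  set F : ℝ := C * Real.exp (Real.exp (-(c0 * k)) * K) / R * (Zs d m s ^ K * Y) with hF
  have hF0 : 0 ≤ F := by positivity
  -- split according to the multiplier
  have hsum : (B.card : ℝ) ≤ ∑ μ ∈ Ms d m K, F := by
    have h1 : B.card = ∑ μ ∈ Ms d m K, (B.filter (fun x => Mw m (wd d m r K x) = μ)).card := by
      apply card_eq_sum_card_fiberwise
      intro x _
      exact mem_coe.2 (mem_Ms.2 ⟨wd d m r K x, wd_mem h.two_le K x, rfl⟩)
    rw [h1]
    push_cast
    apply sum_le_sum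
    intro μ hμ
    have hμ0 : (0 : ℝ) < |(μ : ℝ)| := _root_.abs_pos.2 (by exact_mod_cast h.Ms_ne hμ)
    set Bμ := B.filter (fun x => Mw m (wd d m r K x) = μ) with hBμ
    rcases Bμ.eq_empty_or_nonempty with h0 | ⟨x0, hx0⟩
    · rw [h0, card_empty, Nat.cast_zero]; exact hF0
    have h2 := hB0 K μ hμ R hR1 hRn u Bμ (by
      intro x hx
      rw [hBμ, mem_filter] at hx
      exact ⟨(hB x hx.1).1, hx.2⟩)
    have h3 : |(μ : ℝ)| ^ (-s) ≤ Y := by
      rw [hBμ, mem_filter] at hx0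
      have := (hB x0 hx0.1).2
      rwa [hx0.2] at this
    have h4 : (Bμ.card : ℝ) = (Bμ.card * PM d m s K μ) * (Zs d m s ^ K * |(μ : ℝ)| ^ (-s)) := by
      unfold PM
      rw [Real.rpow_neg hμ0.le]
      have h5 : (0 : ℝ) < |(μ : ℝ)| ^ s := Real.rpow_pos_of_pos hμ0 s
      have h6 : (0 : ℝ) < Zs d m s ^ K := by positivity
      field_simp
    rw [h4]
    have h5 : (0 : ℝ) ≤ |(μ : ℝ)| ^ (-s) := Real.rpow_nonneg hμ0.le _
    calc (Bμ.card * PM d m s K μ) * (Zs d m s ^ K * |(μ : ℝ)| ^ (-s))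
        ≤ (C * Real.exp (Real.exp (-(c0 * k)) * K) / R) * (Zs d m s ^ K * |(μ : ℝ)| ^ (-s)) :=
          mul_le_mul_of_nonneg_right h2 (by positivity)
      _ ≤ (C * Real.exp (Real.exp (-(c0 * k)) * K) / R) * (Zs d m s ^ K * Y) := by
          apply mul_le_mul_of_nonneg_left _ (by positivity)
          exact mul_le_mul_of_nonneg_left h3 (by positivity)
      _ = F := rfl
  rw [sum_const, nsmul_eq_mul] at hsum
  have hcard : ((Ms d m K).card : ℝ) ≤ C1 * Real.exp (Real.exp (-(c0 * k)) * K) := by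
    refine le_trans ?_ (hpoly K)
    exact_mod_cast card_Ms (d := d) (m := m) K
  have hexp : Real.exp (Real.exp (-(c0 * k)) * K) * Real.exp (Real.exp (-(c0 * k)) * K) ≤
      Real.exp (Real.exp (-(c0 / 2 * k)) * K) := by
    rw [← Real.exp_add]
    apply Real.exp_le_exp.2
    rw [← add_mul]
    apply mul_le_mul_of_nonneg_right _ (Nat.cast_nonneg K)
    have h1 : Real.exp (-(c0 * k)) = Real.exp (-(c0 / 2 * k)) * Real.exp (-(c0 / 2 * k)) := by
      rw [← Real.exp_add]; congr 1; ring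
    have h2 : Real.exp (-(c0 / 2 * k)) ≤ 1 / 2 := by
      rw [Real.exp_neg, ← one_div]
      apply one_div_le_one_div_of_le (by norm_num)
      rw [← Real.log_le_iff_le_exp (by norm_num)]
      linarith
    have h3 := Real.exp_pos (-(c0 / 2 * k))
    rw [h1]
    nlinarith
  calc (B.card : ℝ) ≤ (Ms d m K).card * F := hsum
    _ ≤ (C1 * Real.exp (Real.exp (-(c0 * k)) * K)) * F := mul_le_mul_of_nonneg_right hcard hF0
    _ = C * C1 * (Real.exp (Real.exp (-(c0 * k)) * K) * Real.exp (Real.exp (-(c0 * k)) * K)) *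
        (Zs d m s ^ K * Y) / R := by rw [hF]; ring
    _ ≤ _ := by
        apply div_le_div_of_nonneg_right _ hRR0.le
        apply mul_le_mul_of_nonneg_right _ (by positivity)
        exact mul_le_mul_of_nonneg_left hexp (by positivity)


end Pool.Agent.TH930.GH
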