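import Pool.Agent.TH930.GH.Words

/-! Exponential sums over the words with a given multiplier. -/

set_option autoImplicit false

namespace Pool.Agent.TH930.GH

open Finset Pool.Agent.H319R3.GC
open Pool.Agent.TH930.EBQ (e e_zero e_add norm_e conj_e e_int e_eq_one e_sub_int e_congr e_nat_mul
  norm_one_add_e normSq_sum fejer sum_abs_sub psi abs_psi)

variable {d : ℕ} {m r : ℕ → ℤ}

/-- the swap constant -/
def Dl (d : ℕ) (m r : ℕ → ℤ) : ℤ := r 0 * (m 1 - d) - r 1 * (m 0 - d)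

lemma Cop.Dl_cop (h : Cop d m r) : IsCoprime (Dl d m r) (d : ℤ) := by
  have hd := h.two_le
  obtain ⟨a0, h0⟩ := h.adm 0 (by omega)
  obtain ⟨a1, h1⟩ := h.adm 1 (by omega)
  have e1 : Dl d m r = -(m 0 * m 1) + d * (-a0 * (m 1 - d) + m 1 + a1 * (m 0 - d)) := by
    unfold Dl
    push_cast at h0 h1
    linear_combination (-(m 1 - (d : ℤ))) * h0 + (m 0 - (d : ℤ)) * h1
  rw [e1]
  have h2 : IsCoprime (-(m 0 * m 1)) (d : ℤ) :=
    ((h.cop 0 (by omega)).mul_left (h.cop 1 (by omega))).neg_left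
  exact h2.add_mul_left_left _

lemma Cop.Dl_ne (h : Cop d m r) : Dl d m r ≠ 0 := by
  intro h0
  have h1 := h.Dl_cop
  rw [h0, isCoprime_zero_left] at h1
  have h2 := Int.isUnit_iff.1 h1
  have h3 := h.two_le
  omega

lemma norm_e_add_e (x y : ℝ) : ‖e x + e y‖ = 2 * |Real.cos (Real.pi * (x - y))| := by
  have h : e x + e y = e y * (1 + e (x - y)) := by
    rw [mul_add, mul_one, ← e_add, add_comm]
    congr 2
    ring
  rw [h, norm_mul, norm_e, one_mul, norm_one_add_e]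

lemma sum_gr_if {α : Type*} [AddCommMonoid α] (n : ℕ) (μ : ℤ) (f : List ℕ → α) :
    ∑ v ∈ gr d m n μ, f v = ∑ v ∈ LW d n, if Mw m v = μ then f v else 0 := by
  unfold gr
  rw [sum_filter]

/-- a block of two letters -/
lemma blk_sum {α : Type*} [AddCommMonoid α] (h : Cop d m r) (n : ℕ) {a b : ℕ} (ha : a < d) (hb : b < d)
    (ν : ℤ) (f : List ℕ → α) :
    ∑ v ∈ LW d n, (if Mw m (a :: b :: v) = m a * m b * ν then f v else 0) = ∑ v ∈ gr d m n ν, f v := by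
  rw [sum_gr_if]
  apply sum_congr rfl
  intro v _
  rw [Mw_cons, Mw_cons]
  have h0 : m a * m b ≠ 0 := mul_ne_zero (h.m_ne ha) (h.m_ne hb)
  have h1 : m a * (m b * Mw m v) = m a * m b * ν ↔ Mw m v = ν := by
    rw [← mul_assoc]
    exact mul_right_inj' h0
  simp only [h1]

lemma blk_zero {α : Type*} [AddCommMonoid α] (n : ℕ) {a b : ℕ} {μ : ℤ} (hμ : ¬ m a * m b ∣ μ)
    (f : List ℕ → α) : ∑ v ∈ LW d n, (if Mw m (a :: b :: v) = μ then f v else 0) = 0 := by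
  apply sum_eq_zero
  intro v _
  rw [if_neg]
  intro h
  apply hμ
  rw [← h, Mw_cons, Mw_cons]
  exact ⟨Mw m v, by ring⟩

lemma mid_le (h : Cop d m r) : ∀ (n : ℕ) (θ : ℝ) (μ : ℤ),
    ‖∑ v ∈ gr d m (2 * n) μ, e (((m 0 * m 1 : ℤ) : ℝ) * θ * ((Ww d m r v : ℤ) : ℝ))‖ ≤
      ∑ v ∈ gr d m (2 * n) μ, Pw d m ((Dl d m r : ℝ) * μ * θ) v := by
  have hd := h.two_le
  intro n
  induction n with
  | zero =>
    intro θ μ
    refine (norm_sum_le _ _).trans (sum_le_sum fun v hv => ?_)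
    have hl := LW_len (mem_gr.1 hv).1
    rw [mul_zero, List.length_eq_zero_iff] at hl
    rw [norm_e, hl, Pw_nil]
  | succ n ih =>
    intro θ μ
    rw [sum_gr_if, sum_gr_if, sum_LW_two, sum_LW_two]
    set φ : ℝ := (Dl d m r : ℝ) * μ * θ with hφ
    set π0 : ℝ := ((m 0 * m 1 : ℤ) : ℝ) with hπ
    -- the sums over the blocks
    set A : ℕ × ℕ → ℂ := fun x => ∑ v ∈ LW d (2 * n), if Mw m (x.1 :: x.2 :: v) = μ then
      e (π0 * θ * ((Ww d m r (x.1 :: x.2 :: v) : ℤ) : ℝ)) else 0 with hA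
    set Bf : ℕ × ℕ → ℝ := fun x => ∑ v ∈ LW d (2 * n), if Mw m (x.1 :: x.2 :: v) = μ then
      Pw d m ((d : ℝ) ^ 2 * φ / (m x.1 * m x.2)) v else 0 with hBf
    have hBeq : ∀ x : ℕ × ℕ, ∑ v ∈ LW d (2 * n), (if Mw m (x.1 :: x.2 :: v) = μ then
        Pw d m φ (x.1 :: x.2 :: v) else 0) =
        (if mx x then |Real.cos (Real.pi * φ)| else 1) * Bf x := by
      intro x
      rw [hBf]
      simp only
      rw [mul_sum]
      apply sum_congr rfl
      intro v _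
      rw [Pw_cons]
      by_cases hv : Mw m (x.1 :: x.2 :: v) = μ
      · rw [if_pos hv, if_pos hv]
      · rw [if_neg hv, if_neg hv, mul_zero]
    rw [sum_congr rfl (fun x _ => hBeq x)]
    have hWw : ∀ a b : ℕ, ∀ v : List ℕ, Ww d m r (a :: b :: v) =
        (r a * m b + d * r b) * Mw m v + (d : ℤ) ^ 2 * Ww d m r v := by
      intro a b v
      simp only [Ww, Mw_cons]
      ring
    have hAeq : ∀ x : ℕ × ℕ, x.1 < d → x.2 < d → ∀ ν : ℤ, μ = m x.1 * m x.2 * ν →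
        A x = e (π0 * θ * (((r x.1 * m x.2 + d * r x.2) * ν : ℤ) : ℝ)) *
          ∑ v ∈ gr d m (2 * n) ν, e (π0 * ((d : ℝ) ^ 2 * θ) * ((Ww d m r v : ℤ) : ℝ)) := by
      intro x h1 h2 ν hν
      rw [hA]
      simp only
      rw [hν, blk_sum h (2 * n) h1 h2 ν (fun v => e (π0 * θ * ((Ww d m r (x.1 :: x.2 :: v) : ℤ) : ℝ))),
        mul_sum]
      apply sum_congr rfl
      intro v hv
      rw [hWw, (mem_gr.1 hv).2, ← e_add]
      congr 1
      push_cast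
      ring
    have hBeq2 : ∀ x : ℕ × ℕ, x.1 < d → x.2 < d → ∀ ν : ℤ, μ = m x.1 * m x.2 * ν →
        Bf x = ∑ v ∈ gr d m (2 * n) ν, Pw d m ((Dl d m r : ℝ) * ν * ((d : ℝ) ^ 2 * θ)) v := by
      intro x h1 h2 ν hν
      rw [hBf]
      simp only
      have e1 : (d : ℝ) ^ 2 * φ / (m x.1 * m x.2) = (Dl d m r : ℝ) * ν * ((d : ℝ) ^ 2 * θ) := by
        have m1 : (m x.1 : ℝ) ≠ 0 := by exact_mod_cast h.m_ne h1
        have m2 : (m x.2 : ℝ) ≠ 0 := by exact_mod_cast h.m_ne h2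
        have e2 : (μ : ℝ) = m x.1 * m x.2 * ν := by exact_mod_cast hν
        rw [hφ, e2]
        field_simp
      rw [e1, hν]
      exact blk_sum h (2 * n) h1 h2 ν _
    have hzero : ∀ x : ℕ × ℕ, ¬ m x.1 * m x.2 ∣ μ → A x = 0 ∧ Bf x = 0 := by
      intro x hx
      exact ⟨blk_zero (2 * n) hx _, blk_zero (2 * n) hx _⟩
    have hle : ∀ x : ℕ × ℕ, x.1 < d → x.2 < d → ‖A x‖ ≤ Bf x := by
      intro x h1 h2
      by_cases hx : m x.1 * m x.2 ∣ μ
      · obtain ⟨ν, hν⟩ := hx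
        rw [hAeq x h1 h2 ν hν, hBeq2 x h1 h2 ν hν, norm_mul, norm_e, one_mul]
        exact ih ((d : ℝ) ^ 2 * θ) ν
      · rw [(hzero x hx).1, (hzero x hx).2, norm_zero]
    have hmix : ‖A (0, 1) + A (1, 0)‖ ≤ |Real.cos (Real.pi * φ)| * Bf (0, 1) +
        |Real.cos (Real.pi * φ)| * Bf (1, 0) := by
      by_cases hx : m 0 * m 1 ∣ μ
      · obtain ⟨ν, hν⟩ := hx
        have hν' : μ = m 1 * m 0 * ν := by rw [hν]; ring
        rw [hAeq (0, 1) (by simp; omega) (by simp; omega) ν hν,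
          hAeq (1, 0) (by simp; omega) (by simp; omega) ν hν',
          hBeq2 (0, 1) (by simp; omega) (by simp; omega) ν hν,
          hBeq2 (1, 0) (by simp; omega) (by simp; omega) ν hν', ← add_mul, norm_mul, norm_e_add_e]
        have e1 : π0 * θ * (((r 0 * m 1 + d * r 1) * ν : ℤ) : ℝ) -
            π0 * θ * (((r 1 * m 0 + d * r 0) * ν : ℤ) : ℝ) = φ := by
          have e2 : (μ : ℝ) = m 0 * m 1 * ν := by exact_mod_cast hν
          rw [hφ, hπ, e2]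
          unfold Dl
          push_cast
          ring
        simp only
        rw [e1]
        have h3 := ih ((d : ℝ) ^ 2 * θ) ν
        have h4 := abs_nonneg (Real.cos (Real.pi * φ))
        calc 2 * |Real.cos (Real.pi * φ)| *
              ‖∑ v ∈ gr d m (2 * n) ν, e (π0 * ((d : ℝ) ^ 2 * θ) * ((Ww d m r v : ℤ) : ℝ))‖
            ≤ 2 * |Real.cos (Real.pi * φ)| *
              ∑ v ∈ gr d m (2 * n) ν, Pw d m ((Dl d m r : ℝ) * ν * ((d : ℝ) ^ 2 * θ)) v :=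
              mul_le_mul_of_nonneg_left h3 (by positivity)
          _ = _ := by ring
      · have hx' : ¬ m 1 * m 0 ∣ μ := by rwa [mul_comm]
        rw [(hzero (0, 1) hx).1, (hzero (1, 0) hx').1, (hzero (0, 1) hx).2, (hzero (1, 0) hx').2]
        simp
    rw [split_pair hd A, split_pair hd (fun x => (if mx x then |Real.cos (Real.pi * φ)| else 1) * Bf x)]
    have m1 : mx (0, 1) := Or.inl rfl
    have m2 : mx (1, 0) := Or.inr rfl
    rw [if_pos m1, if_pos m2]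
    refine (norm_add_le _ _).trans (add_le_add hmix ((norm_sum_le _ _).trans (sum_le_sum ?_)))
    intro x hx
    rw [mem_filter, mem_product, mem_range, mem_range] at hx
    rw [if_neg hx.2, one_mul]
    exact hle x hx.1.1 hx.1.2

/-- THE BOUND FOR THE MIDDLE LETTERS -/
lemma mid_bound (h : Cop d m r) {p : ℕ → ℝ} (hp : ∀ i < d, 0 < p i) (hp1 : ∑ i ∈ range d, p i = 1)
    (hκ : 2 * p 0 * p 1 < 1) (n : ℕ) (θ : ℝ) (μ : ℤ) {P : ℝ} (hP0 : 0 < P)
    (hP : ∀ v ∈ gr d m (2 * n) μ, Pr p v = P) :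
    ‖∑ v ∈ gr d m (2 * n) μ, e (((m 0 * m 1 : ℤ) : ℝ) * θ * ((Ww d m r v : ℤ) : ℝ))‖ ^ 2 * P ≤
      ∑ v ∈ gr d m (2 * n) μ, Gw d m (2 * p 0 * p 1) ((Dl d m r : ℝ) * μ * θ) v := by
  have h1 := mid_le h n θ μ
  set S := gr d m (2 * n) μ with hS
  set φ : ℝ := (Dl d m r : ℝ) * μ * θ with hφ
  have h2 := cauchy (m := m) h.two_le hp hp1 hκ n φ S (filter_subset _ _)
  have h4 : ∑ v ∈ S, Pr p v * Pw d m φ v = P * ∑ v ∈ S, Pw d m φ v := by
    rw [mul_sum]; exact sum_congr rfl fun v hv => by rw [hP v hv]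
  have h5 : ∑ v ∈ S, Pr p v * Gw d m (2 * p 0 * p 1) φ v =
      P * ∑ v ∈ S, Gw d m (2 * p 0 * p 1) φ v := by
    rw [mul_sum]; exact sum_congr rfl fun v hv => by rw [hP v hv]
  rw [h4, h5] at h2
  have h6 := pow_le_pow_left₀ (norm_nonneg _) h1 2
  have h7 : P * ((∑ v ∈ S, Pw d m φ v) ^ 2 * P) ≤ P * ∑ v ∈ S, Gw d m (2 * p 0 * p 1) φ v := by
    calc P * ((∑ v ∈ S, Pw d m φ v) ^ 2 * P) = (P * ∑ v ∈ S, Pw d m φ v) ^ 2 := by ring
      _ ≤ _ := h2
  have h8 := le_of_mul_le_mul_left h7 hP0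
  exact (mul_le_mul_of_nonneg_right h6 hP0.le).trans h8

end Pool.Agent.TH930.GH
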