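import Pool.Agent.TH930.GH.Opt

/-! The exponent of the maps with one multiplier `1` and `d - 1` multipliers `m`. -/

set_option autoImplicit false

namespace Pool.Agent.TH930.GH

open Finset Pool.Agent.H319R3.GC

/-- `log d / log m` -/
noncomputable def kq (d m : ℕ) : ℝ := Real.log d / Real.log m

/-- the exponent: the `d`-ary entropy of `log d / log m`, in base `d` -/
noncomputable def hq (d m : ℕ) : ℝ := Real.qaryEntropy d (kq d m) / Real.log d

lemma kq_lt {d m : ℕ} (hd : 2 ≤ d) (hm : d < m) : 0 < kq d m ∧ kq d m < 1 := by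
  have hdR : (2 : ℝ) ≤ d := by exact_mod_cast hd
  have hmR : (d : ℝ) < m := by exact_mod_cast hm
  have hld : 0 < Real.log d := Real.log_pos (by linarith)
  have hlm : 0 < Real.log m := Real.log_pos (by linarith)
  refine ⟨div_pos hld hlm, ?_⟩
  unfold kq
  rw [div_lt_one hlm]
  exact Real.log_lt_log (by linarith) hmR

lemma kq_gt {d m : ℕ} (hd : 2 ≤ d) (hm : d < m) (hc : m ^ (d - 1) < d ^ d) :
    1 - 1 / (d : ℝ) < kq d m := by
  have hdR : (2 : ℝ) ≤ d := by exact_mod_cast hd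
  have hd0 : (0 : ℝ) < d := by linarith
  have hmR : (d : ℝ) < m := by exact_mod_cast hm
  have hlm : 0 < Real.log m := Real.log_pos (by linarith)
  unfold kq
  rw [lt_div_iff₀ hlm]
  have h1 : ((m : ℝ)) ^ (d - 1) < (d : ℝ) ^ d := by exact_mod_cast hc
  have hm0 : (0 : ℝ) < m := by linarith
  have h2 := Real.log_lt_log (by positivity) h1
  rw [Real.log_pow, Real.log_pow, Nat.cast_sub (by omega), Nat.cast_one] at h2
  have h3 : (1 - 1 / (d : ℝ)) * Real.log m = ((d : ℝ) - 1) * Real.log m / d := by field_simp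
  rw [h3, div_lt_iff₀ hd0]
  linarith

/-- the exponent is less than `1` -/
lemma hq_lt {d m : ℕ} (hd : 2 ≤ d) (hm : d < m) (hc : m ^ (d - 1) < d ^ d) : 0 < hq d m ∧ hq d m < 1 := by
  have hdR : (2 : ℝ) ≤ d := by exact_mod_cast hd
  have hd0 : (0 : ℝ) < d := by linarith
  have hld : 0 < Real.log d := Real.log_pos (by linarith)
  obtain ⟨k0, k1⟩ := kq_lt hd hm
  have k2 := kq_gt hd hm hc
  unfold hq
  refine ⟨div_pos (Real.qaryEntropy_pos k0 k1) hld, ?_⟩
  rw [div_lt_one hld]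
  have hinv : 1 / (d : ℝ) ≤ 1 / 2 := one_div_le_one_div_of_le (by norm_num) hdR
  have hinv0 : 0 < 1 / (d : ℝ) := by positivity
  have h1 : Real.qaryEntropy d (kq d m) < Real.qaryEntropy d (1 - 1 / (d : ℝ)) := by
    apply Real.qaryEntropy_strictAntiOn hd
    · constructor <;> linarith
    · constructor <;> linarith
    · exact k2
  refine lt_of_lt_of_le h1 (le_of_eq ?_)
  unfold Real.qaryEntropy Real.binEntropy
  have h2 : (1 - 1 / (d : ℝ)) = ((d : ℝ) - 1) / d := by field_simp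
  have h3 : (0 : ℝ) < (d : ℝ) - 1 := by linarith
  rw [sub_sub_cancel, h2, inv_div, one_div, inv_inv, Real.log_div hd0.ne' h3.ne']
  push_cast
  field_simp
  ring

/-- the exponent `s` -/
theorem exists_s {d m : ℕ} (hd : 2 ≤ d) (hm : d < m) (hc : m ^ (d - 1) < d ^ d) :
    ∃ s : ℝ, 0 < s ∧ (1 + ((d : ℝ) - 1) * (m : ℝ) ^ s) / (d : ℝ) ^ s = (d : ℝ) ^ hq d m := by
  have hdR : (2 : ℝ) ≤ d := by exact_mod_cast hd
  have hd0 : (0 : ℝ) < d := by linarith
  have hd1 : (0 : ℝ) < (d : ℝ) - 1 := by linarith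
  have hmR : (d : ℝ) < m := by exact_mod_cast hm
  have hm0 : (0 : ℝ) < m := by linarith
  have hld : 0 < Real.log d := Real.log_pos (by linarith)
  have hlm : 0 < Real.log m := Real.log_pos (by linarith)
  obtain ⟨k0, k1⟩ := kq_lt hd hm
  have k2 := kq_gt hd hm hc
  set κ : ℝ := kq d m with hκ
  have hκm : κ * Real.log m = Real.log d := by
    rw [hκ]; unfold kq; rw [div_mul_cancel₀ _ hlm.ne']
  have hk3 : 0 < 1 - κ := by linarith
  set ρ : ℝ := κ / ((1 - κ) * ((d : ℝ) - 1)) with hρ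
  have hρ0 : 0 < ρ := by positivity
  have hρ1 : 1 < ρ := by
    rw [hρ, lt_div_iff₀ (by positivity), one_mul]
    have h1 : (1 - 1 / (d : ℝ)) * d < κ * d := mul_lt_mul_of_pos_right k2 hd0
    have h2 : (1 - 1 / (d : ℝ)) * d = (d : ℝ) - 1 := by field_simp
    rw [h2] at h1
    nlinarith
  set s : ℝ := Real.log ρ / Real.log m with hs
  have hs0 : 0 < s := div_pos (Real.log_pos hρ1) hlm
  have hms : (m : ℝ) ^ s = ρ := by
    rw [Real.rpow_def_of_pos hm0, hs, mul_div_cancel₀ _ hlm.ne', Real.exp_log hρ0]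
  refine ⟨s, hs0, ?_⟩
  rw [hms]
  have h1 : 1 + ((d : ℝ) - 1) * ρ = (1 - κ)⁻¹ := by
    rw [hρ]; field_simp; ring
  rw [h1, Real.rpow_def_of_pos hd0, Real.rpow_def_of_pos hd0]
  have h2 : (1 - κ)⁻¹ = Real.exp (-Real.log (1 - κ)) := by
    rw [Real.exp_neg, Real.exp_log hk3]
  rw [h2, ← Real.exp_sub]
  congr 1
  unfold hq
  rw [mul_div_cancel₀ _ hld.ne', ← hκ]
  unfold Real.qaryEntropy Real.binEntropy
  have h3 : Real.log d * s = κ * Real.log ρ := by
    rw [hs, ← hκm]; field_simp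
  rw [h3, hρ, Real.log_div k0.ne' (by positivity), Real.log_mul hk3.ne' hd1.ne', Real.log_inv,
    Real.log_inv]
  push_cast
  ring

/-- the condition on the multipliers -/
theorem sum_moller {d m : ℕ} (hd : 2 ≤ d) (hm : d < m) (hc : m ^ (d - 1) < d ^ d) {m' : ℕ → ℤ}
    (h0 : |m' 0| = 1) (h1 : ∀ i, 1 ≤ i → i < d → |m' i| = m) :
    ∃ s : ℝ, 0 < s ∧ ∑ j ∈ range d, (|(m' j : ℝ)| / d) ^ s = (d : ℝ) ^ hq d m := by
  obtain ⟨s, hs, h⟩ := exists_s hd hm hc
  refine ⟨s, hs, ?_⟩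
  rw [← h]
  have hd0 : (0 : ℝ) < d := by exact_mod_cast (by omega : 0 < d)
  obtain ⟨e, rfl⟩ : ∃ e, d = e + 1 := ⟨d - 1, by omega⟩
  rw [Finset.sum_range_succ']
  have g1 : ∀ i ∈ range e, (|(m' (i + 1) : ℝ)| / ((e + 1 : ℕ) : ℝ)) ^ s =
      (m : ℝ) ^ s / ((e + 1 : ℕ) : ℝ) ^ s := by
    intro i hi
    rw [mem_range] at hi
    have g2 : |(m' (i + 1) : ℝ)| = m := by exact_mod_cast h1 (i + 1) (by omega) (by omega)
    rw [g2, Real.div_rpow (by positivity) (by positivity)]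
  rw [Finset.sum_congr rfl g1, Finset.sum_const, card_range, nsmul_eq_mul]
  have g2 : |(m' 0 : ℝ)| = 1 := by exact_mod_cast h0
  rw [g2, Real.div_rpow (by positivity) (by positivity), Real.one_rpow]
  have hds : (0 : ℝ) < ((e + 1 : ℕ) : ℝ) ^ s := Real.rpow_pos_of_pos hd0 _
  push_cast
  field_simp
  ring

end Pool.Agent.TH930.GH
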