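import Pool.Agent.TH930.GH.Final

/-! The optimal exponent, and counting by levels. -/

set_option autoImplicit false

namespace Pool.Agent.TH930.GH

open Finset Filter Topology Pool.Agent.H319R3.GC
open Pool.Agent.TH930.PS (Sj)

variable {d : ℕ} {m r : ℕ → ℤ}

/-- the sum of the powers of the rates -/
noncomputable def fs (d : ℕ) (m : ℕ → ℤ) (s : ℝ) : ℝ := ∑ i ∈ range d, (|(m i : ℝ)| / d) ^ s

lemma fs_pos (h : Cop d m r) (s : ℝ) : 0 < fs d m s := by
  unfold fs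
  have hd0 : (0 : ℝ) < d := by exact_mod_cast (by have := h.two_le; omega : 0 < d)
  apply sum_pos
  · intro i hi
    exact Real.rpow_pos_of_pos (div_pos (h.abs_pos (mem_range.1 hi)) hd0) s
  · exact nonempty_range_iff.2 (by have := h.two_le; omega)

lemma fs_cont (h : Cop d m r) : Continuous (fs d m) := by
  unfold fs
  have hd0 : (0 : ℝ) < d := by exact_mod_cast (by have := h.two_le; omega : 0 < d)
  apply continuous_finsetSum
  intro i hi
  apply Real.continuous_const_rpow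
  have := h.abs_pos (mem_range.1 hi)
  positivity

lemma fs_zero (h : Cop d m r) : fs d m 0 = d := by
  unfold fs
  simp

lemma exists_s1 (h : Adm d m r) : ∃ s : ℝ, 0 < s ∧ fs d m s < d := by
  have hC := Cop_of_Adm h
  have hd0 : (0 : ℝ) < d := by exact_mod_cast (by have := h.two_le; omega : 0 < d)
  set l : ℕ → ℝ := fun i => Real.log (|(m i : ℝ)| / d) with hl
  have hpos : ∀ i < d, 0 < |(m i : ℝ)| / d := fun i hi => div_pos (hC.abs_pos hi) hd0
  have hL : ∑ i ∈ range d, l i < 0 := by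
    have h1 : ∑ i ∈ range d, l i = Real.log (∏ i ∈ range d, (|(m i : ℝ)| / d)) := by
      rw [Real.log_prod (fun i hi => (hpos i (mem_range.1 hi)).ne')]
    rw [h1]
    apply Real.log_neg (prod_pos fun i hi => hpos i (mem_range.1 hi))
    rw [prod_div_distrib, prod_const, card_range, div_lt_one (by positivity)]
    have h2 : ((PP d m : ℕ) : ℝ) = ∏ i ∈ range d, |(m i : ℝ)| := by
      unfold PP
      push_cast
      apply prod_congr rfl
      intro i _
      rw [Nat.cast_natAbs]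
      push_cast
      rfl
    rw [← h2]
    exact_mod_cast h.contr
  set M : ℝ := ∑ i ∈ range d, |l i| with hM
  have hM0 : 0 ≤ M := sum_nonneg fun _ _ => abs_nonneg _
  set S : ℝ := -∑ i ∈ range d, l i with hS
  have hS0 : 0 < S := by linarith
  set s : ℝ := min (1 / (M + 1)) (S / (2 * (M ^ 2 + 1) * d)) with hs
  have hs0 : 0 < s := by positivity
  have hsa : s ≤ 1 / (M + 1) := min_le_left _ _
  have hsb : s ≤ S / (2 * (M ^ 2 + 1) * d) := min_le_right _ _
  refine ⟨s, hs0, ?_⟩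
  have h1 : ∀ i ∈ range d, (|(m i : ℝ)| / d) ^ s ≤ 1 + s * l i + s ^ 2 * M ^ 2 := by
    intro i hi
    have hli : |l i| ≤ M := single_le_sum (f := fun i => |l i|) (fun _ _ => abs_nonneg _) hi
    rw [Real.rpow_def_of_pos (hpos i (mem_range.1 hi))]
    have h2 : |l i * s| ≤ 1 := by
      rw [abs_mul, abs_of_pos hs0]
      rw [le_div_iff₀ (by positivity)] at hsa
      have : |l i| * s ≤ M * s := mul_le_mul_of_nonneg_right hli hs0.le
      nlinarith
    have h3 := Real.abs_exp_sub_one_sub_id_le h2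
    have h4 := (abs_le.1 h3).2
    have h5 : (l i * s) ^ 2 ≤ s ^ 2 * M ^ 2 := by
      have h6 : (l i) ^ 2 ≤ M ^ 2 := by
        rw [← sq_abs (l i)]
        exact pow_le_pow_left₀ (abs_nonneg _) hli 2
      calc (l i * s) ^ 2 = s ^ 2 * (l i) ^ 2 := by ring
        _ ≤ _ := mul_le_mul_of_nonneg_left h6 (sq_nonneg s)
    have h7 : Real.exp (Real.log (|(m i : ℝ)| / d) * s) = Real.exp (l i * s) := rfl
    rw [h7]
    linarith
  have h2 := sum_le_sum h1
  rw [sum_add_distrib, sum_add_distrib, sum_const, sum_const, card_range, nsmul_eq_mul, nsmul_eq_mul,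
    ← mul_sum] at h2
  unfold fs
  refine lt_of_le_of_lt h2 ?_
  have h3 : ∑ i ∈ range d, l i = -S := by rw [hS]; ring
  rw [h3]
  rw [le_div_iff₀ (by positivity)] at hsb
  have h4 : s * (M ^ 2 * d) * 2 ≤ S := by
    have : s * (M ^ 2 * d) * 2 ≤ s * (2 * (M ^ 2 + 1) * d) := by
      have h5 : 0 ≤ s * d := by positivity
      nlinarith
    linarith
  have h5 : (d : ℝ) * (s ^ 2 * M ^ 2) ≤ s * S / 2 := by
    have h6 := mul_le_mul_of_nonneg_left h4 hs0.le
    nlinarith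
  have h6 : 0 < s * S := by positivity
  linarith

/-- the minimum -/
theorem exists_min (h : Adm d m r) (hb : ∃ i < d, (d : ℤ) < |m i|) : ∃ s η : ℝ, 0 < s ∧ 0 < η ∧ η < 1 ∧
    fs d m s = (d : ℝ) ^ η ∧ ∀ s' : ℝ, 0 ≤ s' → η ≤ Real.log (fs d m s') / Real.log d := by
  have hC := Cop_of_Adm h
  have hd := h.two_le
  have hdR : (2 : ℝ) ≤ d := by exact_mod_cast hd
  have hd0 : (0 : ℝ) < d := by linarith
  have hld : 0 < Real.log d := Real.log_pos (by linarith)
  obtain ⟨j, hj, hmj⟩ := hb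
  have hmjR : (d : ℝ) < |(m j : ℝ)| := by exact_mod_cast hmj
  set a : ℝ := |(m j : ℝ)| / d with ha
  have ha1 : 1 < a := by rw [ha, lt_div_iff₀ hd0]; linarith
  have hla : 0 < Real.log a := Real.log_pos ha1
  have hterm : ∀ s, a ^ s < fs d m s := by
    intro s
    obtain ⟨i, hi, hij⟩ : ∃ i < d, i ≠ j := by
      rcases Nat.eq_zero_or_pos j with h0 | h0
      · exact ⟨1, by omega, by omega⟩
      · exact ⟨0, by omega, by omega⟩
    have h1 : ({i, j} : Finset ℕ) ⊆ range d := by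
      intro x hx
      rw [mem_insert, mem_singleton] at hx
      rw [mem_range]
      rcases hx with rfl | rfl <;> assumption
    have h2 : ∑ x ∈ ({i, j} : Finset ℕ), (|(m x : ℝ)| / d) ^ s ≤ fs d m s :=
      sum_le_sum_of_subset_of_nonneg h1 (fun x _ _ => by positivity)
    rw [sum_pair hij] at h2
    have h3 : 0 < (|(m i : ℝ)| / d) ^ s :=
      Real.rpow_pos_of_pos (div_pos (hC.abs_pos hi) hd0) s
    linarith
  set S0 : ℝ := Real.log d / Real.log a with hS0
  have hS00 : 0 ≤ S0 := by positivity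
  have hlarge : ∀ s, S0 ≤ s → (d : ℝ) ≤ fs d m s := by
    intro s hs
    refine le_trans ?_ (hterm s).le
    rw [Real.rpow_def_of_pos (by linarith)]
    rw [← Real.log_le_iff_le_exp hd0]
    rw [hS0, div_le_iff₀ hla] at hs
    linarith
  obtain ⟨s0, hs0, hmin⟩ := (isCompact_Icc (a := (0 : ℝ)) (b := S0)).exists_isMinOn
    ⟨0, by constructor <;> linarith⟩ (fs_cont hC).continuousOn
  have hall : ∀ s : ℝ, 0 ≤ s → fs d m s0 ≤ fs d m s := by
    intro s hs
    rcases le_or_gt s S0 with h1 | h1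
    · exact hmin ⟨hs, h1⟩
    · have h2 : fs d m s0 ≤ fs d m 0 := hmin ⟨le_rfl, hS00⟩
      rw [fs_zero hC] at h2
      exact h2.trans (hlarge s h1.le)
  obtain ⟨s1, hs1, hlt⟩ := exists_s1 h
  have hlt0 : fs d m s0 < d := lt_of_le_of_lt (hall s1 hs1.le) hlt
  have hs0p : 0 < s0 := by
    rcases eq_or_lt_of_le hs0.1 with h1 | h1
    · exfalso
      rw [← h1, fs_zero hC] at hlt0
      exact lt_irrefl _ hlt0
    · exact h1
  have hgt : 1 < fs d m s0 := lt_of_le_of_lt (Real.one_le_rpow ha1.le hs0p.le) (hterm s0)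
  have hf0 : 0 < fs d m s0 := by linarith
  refine ⟨s0, Real.log (fs d m s0) / Real.log d, hs0p, div_pos (Real.log_pos hgt) hld, ?_, ?_, ?_⟩
  · rw [div_lt_one hld]
    exact Real.log_lt_log hf0 hlt0
  · rw [Real.rpow_def_of_pos hd0, mul_div_cancel₀ _ hld.ne', Real.exp_log hf0]
  · intro s' hs'
    apply div_le_div_of_nonneg_right _ hld.le
    exact Real.log_le_log hf0 (hall s' hs')

/-- counting by levels -/
theorem count_levels (hd : 2 ≤ d) {A η η' : ℝ} (hA : 0 ≤ A) (hη0 : 0 ≤ η) (hη : η < η') (S : Set ℤ)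
    (hS : ∀ i : ℕ, 1 ≤ i → ∀ F : Finset ℤ, (∀ x ∈ F, x ∈ S ∧ (d : ℝ) ^ (i - 1) ≤ |(x : ℝ)| ∧
      |(x : ℝ)| < (d : ℝ) ^ i) → (F.card : ℝ) ≤ A * ((d : ℝ) ^ η) ^ i) :
    ∃ C : ℝ, 0 < C ∧ ∀ X : ℝ, 1 ≤ X → ∀ F : Finset ℤ, (∀ x ∈ F, x ∈ S ∧ |(x : ℝ)| ≤ X) →
      (F.card : ℝ) ≤ C * X ^ η' := by
  classical
  have hdR : (2 : ℝ) ≤ d := by exact_mod_cast hd
  have hd0 : (0 : ℝ) < d := by linarith
  have hld : 0 < Real.log d := Real.log_pos (by linarith)
  obtain ⟨C1, hC1, hpoly⟩ := poly_le_exp 1 (a := Real.log d * (η' - η)) (by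
    have : 0 < η' - η := by linarith
    positivity)
  refine ⟨1 + A * C1 * (d : ℝ) ^ η', by positivity, ?_⟩
  intro X hX F hF
  have hX0 : 0 < X := by linarith
  -- the number of levels
  set N : ℕ := ⌊Real.log X / Real.log d⌋₊ + 1 with hN
  have hlX : 0 ≤ Real.log X := Real.log_nonneg hX
  have hXN : X < (d : ℝ) ^ N := by
    have h1 := Nat.lt_floor_add_one (Real.log X / Real.log d)
    rw [div_lt_iff₀ hld] at h1
    have h2 : Real.log X < N * Real.log d := by rw [hN]; push_cast; exact h1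
    rw [← Real.log_pow] at h2
    exact (Real.log_lt_log_iff hX0 (by positivity)).1 h2
  have hNX : (d : ℝ) ^ (N : ℝ) ≤ d * X := by
    have h1 : (⌊Real.log X / Real.log d⌋₊ : ℝ) ≤ Real.log X / Real.log d := Nat.floor_le (by positivity)
    rw [Real.rpow_def_of_pos hd0]
    have h2 : Real.log d * N ≤ Real.log (d * X) := by
      rw [Real.log_mul hd0.ne' hX0.ne', hN]
      push_cast
      rw [le_div_iff₀ hld] at h1
      linarith
    calc Real.exp (Real.log d * N) ≤ Real.exp (Real.log (d * X)) := Real.exp_le_exp.2 h2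
      _ = d * X := Real.exp_log (by positivity)
  -- the levels
  have hlev : ∀ x ∈ F, x ≠ 0 → ∃ i, 1 ≤ i ∧ i ≤ N ∧ (d : ℝ) ^ (i - 1) ≤ |(x : ℝ)| ∧
      |(x : ℝ)| < (d : ℝ) ^ i := by
    intro x hx hx0
    have hex : ∃ i, |(x : ℝ)| < (d : ℝ) ^ i := ⟨N, lt_of_le_of_lt (hF x hx).2 hXN⟩
    refine ⟨Nat.find hex, ?_, Nat.find_min' hex (lt_of_le_of_lt (hF x hx).2 hXN), ?_, Nat.find_spec hex⟩
    · by_contra hcon
      have h1 : Nat.find hex = 0 := by omega
      have h2 := Nat.find_spec hex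
      rw [h1, pow_zero] at h2
      have h3 : (1 : ℤ) ≤ |x| := Int.one_le_abs hx0
      have h4 : (1 : ℝ) ≤ |(x : ℝ)| := by exact_mod_cast h3
      linarith
    · rcases Nat.eq_zero_or_pos (Nat.find hex) with h1 | h1
      · exfalso
        have h2 := Nat.find_spec hex
        rw [h1, pow_zero] at h2
        have h3 : (1 : ℤ) ≤ |x| := Int.one_le_abs hx0
        have h4 : (1 : ℝ) ≤ |(x : ℝ)| := by exact_mod_cast h3
        linarith
      · have h2 := Nat.find_min hex (m := Nat.find hex - 1) (by omega)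
        exact not_lt.1 h2
  have hsub : F ⊆ {0} ∪ (Icc 1 N).biUnion (fun i => F.filter (fun x : ℤ => (d : ℝ) ^ (i - 1) ≤ |(x : ℝ)| ∧
      |(x : ℝ)| < (d : ℝ) ^ i)) := by
    intro x hx
    rw [mem_union, mem_singleton, mem_biUnion]
    by_cases hx0 : x = 0
    · exact Or.inl hx0
    · obtain ⟨i, h1, h2, h3, h4⟩ := hlev x hx hx0
      exact Or.inr ⟨i, mem_Icc.2 ⟨h1, h2⟩, mem_filter.2 ⟨hx, h3, h4⟩⟩
  have hq1 : 1 ≤ (d : ℝ) ^ η := Real.one_le_rpow (by linarith) hη0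
  have hcard : (F.card : ℝ) ≤ 1 + N * (A * ((d : ℝ) ^ η) ^ N) := by
    have h1 := card_le_card hsub
    have h2 : (F.card : ℝ) ≤ 1 + ∑ i ∈ Icc 1 N, ((F.filter (fun x : ℤ => (d : ℝ) ^ (i - 1) ≤ |(x : ℝ)| ∧
        |(x : ℝ)| < (d : ℝ) ^ i)).card : ℝ) := by
      have h3 := h1.trans (card_union_le _ _)
      rw [card_singleton] at h3
      have h4 := h3.trans (Nat.add_le_add_left card_biUnion_le 1)
      exact_mod_cast h4
    refine h2.trans ?_
    have h3 : ∀ i ∈ Icc 1 N, ((F.filter (fun x : ℤ => (d : ℝ) ^ (i - 1) ≤ |(x : ℝ)| ∧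
        |(x : ℝ)| < (d : ℝ) ^ i)).card : ℝ) ≤ A * ((d : ℝ) ^ η) ^ N := by
      intro i hi
      rw [mem_Icc] at hi
      refine (hS i hi.1 _ ?_).trans ?_
      · intro x hx
        rw [mem_filter] at hx
        exact ⟨(hF x hx.1).1, hx.2⟩
      · apply mul_le_mul_of_nonneg_left _ hA
        exact pow_le_pow_right₀ hq1 hi.2
    have h4 := sum_le_card_nsmul _ _ _ h3
    rw [Nat.card_Icc, nsmul_eq_mul] at h4
    simp only [Nat.add_sub_cancel] at h4
    linarith
  refine hcard.trans ?_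
  have h1 := hpoly N
  rw [pow_one] at h1
  have h2 : (N : ℝ) * ((d : ℝ) ^ η) ^ N ≤ C1 * (d : ℝ) ^ (η' * N) := by
    have h3 : ((d : ℝ) ^ η) ^ N = Real.exp (Real.log d * η * N) := by
      rw [← Real.rpow_natCast, ← Real.rpow_mul hd0.le, Real.rpow_def_of_pos hd0]
      congr 1; ring
    have h4 : (d : ℝ) ^ (η' * N) = Real.exp (Real.log d * (η' - η) * N) * Real.exp (Real.log d * η * N) := by
      rw [← Real.exp_add, Real.rpow_def_of_pos hd0]
      congr 1; ring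
    rw [h3, h4, ← mul_assoc]
    apply mul_le_mul_of_nonneg_right _ (Real.exp_pos _).le
    linarith
  have h3 : (d : ℝ) ^ (η' * N) ≤ (d : ℝ) ^ η' * X ^ η' := by
    rw [← Real.mul_rpow hd0.le hX0.le, mul_comm η', Real.rpow_mul hd0.le]
    exact Real.rpow_le_rpow (by positivity) hNX (by linarith)
  have h4 : 1 ≤ X ^ η' := Real.one_le_rpow hX (by linarith)
  calc 1 + (N : ℝ) * (A * ((d : ℝ) ^ η) ^ N) = 1 + A * (N * ((d : ℝ) ^ η) ^ N) := by ring
    _ ≤ 1 + A * (C1 * ((d : ℝ) ^ η' * X ^ η')) := by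
        have := mul_le_mul_of_nonneg_left (h2.trans (mul_le_mul_of_nonneg_left h3 hC1.le)) hA
        linarith
    _ ≤ _ := by nlinarith

/-- THE LEAST ELEMENTS of the orbits: below the exponent of Chebyshev's inequality -/
theorem least_elements {r0 : ℕ → ℤ} (h0 : Adm d m r0) {s η : ℝ} (hs : 0 < s) (hη0 : 0 < η)
    (hη1 : η < 1) (hsum : ∑ j ∈ range d, (|(m j : ℝ)| / d) ^ s ≤ (d : ℝ) ^ η) :
    ∃ η' : ℝ, 0 < η' ∧ η' < η ∧ ∀ r : ℕ → ℤ, Adm d m r → ∃ C : ℝ, 0 < C ∧ ∀ X : ℝ, 1 ≤ X → ∀ F : Finset ℤ,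
      (∀ x ∈ F, |(x : ℝ)| ≤ X ∧ ∀ k : ℕ, |(x : ℝ)| ≤ |(((Tm d m r)^[k] x : ℤ) : ℝ)|) →
      (F.card : ℝ) ≤ C * X ^ η' := by
  obtain ⟨τ, hτ0, hτ1, η1, hη10, hη11, hSt'⟩ := card_Sj_less h0 hs hη0 hη1 hsum
  refine ⟨(η1 + η) / 2, by linarith, by linarith, fun r h => ?_⟩
  obtain ⟨A, hA, hSt⟩ := hSt' r h
  obtain ⟨C, hC, hb⟩ := count_levels (d := d) h.two_le (A := A) (η := η1) (η' := (η1 + η) / 2) hA hη10
    (by linarith) {x : ℤ | ∀ k : ℕ, |(x : ℝ)| ≤ |(((Tm d m r)^[k] x : ℤ) : ℝ)|} (by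
      intro i hi F hF
      refine le_trans ?_ (hSt i hi)
      have h1 : F ⊆ Sj d m r τ i := by
        intro x hx
        obtain ⟨h1, h2, h3⟩ := hF x hx
        unfold Sj
        rw [mem_filter, mem_Icc, ← abs_le]
        refine ⟨?_, h3, fun j _ => h2.trans (h1 j)⟩
        have : |(x : ℝ)| ≤ (d : ℝ) ^ i := h3.le
        exact_mod_cast this
      exact_mod_cast card_le_card h1)
  refine ⟨C, hC, ?_⟩
  intro X hX F hF
  exact hb X hX F (fun x hx => ⟨(hF x hx).2, (hF x hx).1⟩)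

end Pool.Agent.TH930.GH
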