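import Pool.Agent.TH930.GH.Car

/-! Windows. -/

set_option autoImplicit false

namespace Pool.Agent.TH930.GH

open Finset Pool.Agent.H319R3.GC
open Pool.Agent.TH930.EBQ (e e_zero e_add norm_e)

variable {d : ℕ} {m r : ℕ → ℤ}

/-! ### The weights -/

/-- the partition function -/
noncomputable def Zs (d : ℕ) (m : ℕ → ℤ) (s : ℝ) : ℝ := ∑ i ∈ range d, |(m i : ℝ)| ^ s

/-- the weights -/
noncomputable def ps (d : ℕ) (m : ℕ → ℤ) (s : ℝ) (i : ℕ) : ℝ := |(m i : ℝ)| ^ s / Zs d m s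

/-- the probability of a word of length `n` with multiplier `μ` -/
noncomputable def PM (d : ℕ) (m : ℕ → ℤ) (s : ℝ) (n : ℕ) (μ : ℤ) : ℝ := |(μ : ℝ)| ^ s / Zs d m s ^ n

lemma Cop.abs_pos (h : Cop d m r) {i : ℕ} (hi : i < d) : (0 : ℝ) < |(m i : ℝ)| := by
  have := h.one_le hi; linarith

lemma Cop.Zs_pos (h : Cop d m r) (s : ℝ) : 0 < Zs d m s := by
  unfold Zs
  apply sum_pos
  · intro i hi
    exact Real.rpow_pos_of_pos (h.abs_pos (mem_range.1 hi)) s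
  · exact nonempty_range_iff.2 (by have := h.two_le; omega)

lemma Cop.ps_pos (h : Cop d m r) (s : ℝ) : ∀ i < d, 0 < ps d m s i := fun i hi =>
  div_pos (Real.rpow_pos_of_pos (h.abs_pos hi) s) (h.Zs_pos s)

lemma Cop.ps_sum (h : Cop d m r) (s : ℝ) : ∑ i ∈ range d, ps d m s i = 1 := by
  unfold ps
  rw [← sum_div, ← Zs, div_self (h.Zs_pos s).ne']

lemma Cop.ps_kap (h : Cop d m r) (s : ℝ) :
    0 < 2 * ps d m s 0 * ps d m s 1 ∧ 2 * ps d m s 0 * ps d m s 1 < 1 := by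
  have hd := h.two_le
  have h0 := h.ps_pos s 0 (by omega)
  have h1 := h.ps_pos s 1 (by omega)
  refine ⟨by positivity, ?_⟩
  have h2 : ps d m s 0 + ps d m s 1 ≤ 1 := by
    rw [← h.ps_sum s, ← sum_pair (f := ps d m s) (show (0 : ℕ) ≠ 1 by norm_num)]
    apply sum_le_sum_of_subset_of_nonneg
    · intro x hx
      rw [mem_insert, mem_singleton] at hx
      rw [mem_range]
      omega
    · intro i hi _
      exact (h.ps_pos s i (mem_range.1 hi)).le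
  nlinarith [sq_nonneg (ps d m s 0 - ps d m s 1)]

lemma PM_pos (h : Cop d m r) (s : ℝ) (n : ℕ) {μ : ℤ} (hμ : μ ≠ 0) : 0 < PM d m s n μ := by
  unfold PM
  have h1 : (0 : ℝ) < |(μ : ℝ)| := _root_.abs_pos.2 (by exact_mod_cast hμ)
  exact div_pos (Real.rpow_pos_of_pos h1 s) (pow_pos (h.Zs_pos s) n)

lemma PM_nonneg (h : Cop d m r) (s : ℝ) (n : ℕ) (μ : ℤ) : 0 ≤ PM d m s n μ := by
  unfold PM
  exact div_nonneg (Real.rpow_nonneg (abs_nonneg _) s) (pow_pos (h.Zs_pos s) n).le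

lemma PM_mul (s : ℝ) (n n' : ℕ) (μ μ' : ℤ) :
    PM d m s (n + n') (μ * μ') = PM d m s n μ * PM d m s n' μ' := by
  unfold PM
  push_cast
  rw [abs_mul, Real.mul_rpow (abs_nonneg _) (abs_nonneg _), pow_add, div_mul_div_comm]

lemma Pr_ps (s : ℝ) (v : List ℕ) : Pr (ps d m s) v = PM d m s v.length (Mw m v) := by
  induction v with
  | nil => simp [Pr, PM, Mw]
  | cons a v ih =>
    rw [Pr_cons, ih, Mw_cons, List.length_cons, add_comm v.length 1, PM_mul]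
    congr 1
    unfold ps PM
    rw [pow_one]

lemma mem_Ms {n : ℕ} {μ : ℤ} : μ ∈ Ms d m n ↔ ∃ v ∈ LW d n, Mw m v = μ := by
  unfold Ms; rw [mem_image]

lemma Cop.Ms_ne (h : Cop d m r) {n : ℕ} {μ : ℤ} (hμ : μ ∈ Ms d m n) : μ ≠ 0 := by
  obtain ⟨v, hv, rfl⟩ := mem_Ms.1 hμ
  exact h.Mw_ne (mem_LW.1 hv).2

lemma gr_pos {n : ℕ} {μ : ℤ} (hμ : μ ∈ Ms d m n) : 0 < (gr d m n μ).card := by
  obtain ⟨v, hv, h⟩ := mem_Ms.1 hμ
  exact card_pos.2 ⟨v, mem_gr.2 ⟨hv, h⟩⟩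

lemma gr_empty {n : ℕ} {μ : ℤ} (hμ : μ ∉ Ms d m n) : gr d m n μ = ∅ := by
  apply eq_empty_of_forall_notMem
  intro v hv
  exact hμ (mem_Ms.2 ⟨v, (mem_gr.1 hv).1, (mem_gr.1 hv).2⟩)

lemma card_gr_PM (h : Cop d m r) (s : ℝ) (n : ℕ) (μ : ℤ) :
    ((gr d m n μ).card : ℝ) * PM d m s n μ ≤ 1 := by
  have h1 : ∑ v ∈ gr d m n μ, Pr (ps d m s) v ≤ 1 := by
    have h2 := sum_Pr (d := d) (p := ps d m s) n
    rw [h.ps_sum s, one_pow] at h2
    rw [← h2]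
    apply sum_le_sum_of_subset_of_nonneg (filter_subset _ _)
    intro v hv _
    exact (Pr_pos (h.ps_pos s) (mem_LW.1 hv).2).le
  have h2 : ∑ v ∈ gr d m n μ, Pr (ps d m s) v = ((gr d m n μ).card : ℝ) * PM d m s n μ := by
    rw [← nsmul_eq_mul, ← sum_const]
    apply sum_congr rfl
    intro v hv
    rw [mem_gr] at hv
    rw [Pr_ps, LW_len hv.1, hv.2]
  rw [← h2]; exact h1

/-! ### One window -/

/-- the exponential sum of a window -/
noncomputable def E (d : ℕ) (m r : ℕ → ℤ) (n : ℕ) (μ : ℤ) (B : ℕ) (g : ℤ) (ξ : ℕ) : ℝ :=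
  ‖∑ v ∈ gr d m (2 * n) μ, e (((m 0 * m 1 : ℤ) : ℝ) * ((((ξ : ℤ) * g : ℤ) : ℝ) / (d : ℝ) ^ B) *
    ((Ww d m r v : ℤ) : ℝ))‖

/-- its majorant -/
noncomputable def G (d : ℕ) (m r : ℕ → ℤ) (κ : ℝ) (n : ℕ) (μ : ℤ) (B : ℕ) (g : ℤ) (ξ : ℕ) : ℝ :=
  (∑ v ∈ gr d m (2 * n) μ,
    Gw d m κ ((μ : ℝ) * ((((ξ : ℤ) * (Dl d m r * g) : ℤ) : ℝ) / (d : ℝ) ^ B)) v) /
    (gr d m (2 * n) μ).card

lemma G_nonneg {κ : ℝ} (h0 : 0 ≤ κ) (h1 : κ < 1) (n : ℕ) (μ : ℤ) (B : ℕ) (g : ℤ) (ξ : ℕ) :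
    0 ≤ G d m r κ n μ B g ξ := by
  unfold G
  apply div_nonneg _ (Nat.cast_nonneg _)
  apply sum_nonneg
  intro v hv
  exact (Gw_pos h0 h1 n _ v (LW_len (mem_gr.1 hv).1)).le

lemma E_sq (h : Cop d m r) (s : ℝ) (n : ℕ) (μ : ℤ) (B : ℕ) (g : ℤ) (ξ : ℕ) :
    E d m r n μ B g ξ ^ 2 * PM d m s (2 * n) μ ≤
      (gr d m (2 * n) μ).card * G d m r (2 * ps d m s 0 * ps d m s 1) n μ B g ξ := by
  by_cases hμ : μ ∈ Ms d m (2 * n)
  · have h1 := mid_bound h (h.ps_pos s) (h.ps_sum s) (h.ps_kap s).2 n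
      ((((ξ : ℤ) * g : ℤ) : ℝ) / (d : ℝ) ^ B) μ (PM_pos h s (2 * n) (h.Ms_ne hμ)) (by
        intro v hv
        rw [mem_gr] at hv
        rw [Pr_ps, LW_len hv.1, hv.2])
    unfold E G
    have hc : (0 : ℝ) < (gr d m (2 * n) μ).card := by exact_mod_cast gr_pos hμ
    rw [mul_div_cancel₀ _ hc.ne']
    have e1 : (Dl d m r : ℝ) * μ * ((((ξ : ℤ) * g : ℤ) : ℝ) / (d : ℝ) ^ B) =
        (μ : ℝ) * ((((ξ : ℤ) * (Dl d m r * g) : ℤ) : ℝ) / (d : ℝ) ^ B) := by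
      push_cast
      ring
    rw [e1] at h1
    exact h1
  · unfold E
    rw [gr_empty hμ]
    simp

/-- the `k`-th moment of the majorant -/
lemma sum_G (h : Cop d m r) {κ : ℝ} (hκ0 : 0 ≤ κ) (hκ1 : κ < 1) {L : ℕ} (hL2 : 2 ≤ L)
    (hL : Big d m L) {n i B R k : ℕ} {g lam μ : ℤ} (hB : B = 2 * n + i) (hRB : R ≤ d ^ B)
    (ha : (d : ℤ) ^ B ∣ lam * (Dl d m r * g) - Dl d m r)
    (hrid : ∀ x D : ℤ, |x| ≤ (d : ℤ) ^ i → |D| < R → (d : ℤ) ^ B ∣ lam * x - Dl d m r * D → x = 0)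
    {z : ℝ} (hz0 : 0 < z) (hz1 : z ≤ 1) (hz : (1 - κ * (4 / (L : ℝ) ^ 2)) ^ k ≤ z ^ 2) (hk : 1 ≤ k)
    (hμ : μ ∈ Ms d m (2 * n)) :
    ∑ ξ ∈ range R, G d m r κ n μ B g ξ ^ k ≤ (1 + 2 * L * z) ^ n / z := by
  have hc : (0 : ℝ) < (gr d m (2 * n) μ).card := by exact_mod_cast gr_pos hμ
  obtain ⟨k, rfl⟩ := Nat.exists_eq_add_of_le' hk
  set f : ℕ → List ℕ → ℝ := fun ξ v =>
    Gw d m κ ((μ : ℝ) * ((((ξ : ℤ) * (Dl d m r * g) : ℤ) : ℝ) / (d : ℝ) ^ B)) v with hf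
  have key : ∀ ξ, G d m r κ n μ B g ξ ^ (k + 1) ≤
      (∑ v ∈ gr d m (2 * n) μ, f ξ v ^ (k + 1)) / (gr d m (2 * n) μ).card := by
    intro ξ
    have h1 := pow_sum_le_card_mul_sum_pow (s := gr d m (2 * n) μ)
      (f := f ξ) (fun v hv => (Gw_pos hκ0 hκ1 n _ v (LW_len (mem_gr.1 hv).1)).le) k
    unfold G
    rw [div_pow, div_le_div_iff₀ (by positivity) hc]
    calc (∑ v ∈ gr d m (2 * n) μ, f ξ v) ^ (k + 1) * (gr d m (2 * n) μ).card
        ≤ (((gr d m (2 * n) μ).card : ℝ) ^ k * ∑ v ∈ gr d m (2 * n) μ, f ξ v ^ (k + 1)) *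
          (gr d m (2 * n) μ).card := mul_le_mul_of_nonneg_right h1 hc.le
      _ = _ := by rw [pow_succ]; ring
  calc ∑ ξ ∈ range R, G d m r κ n μ B g ξ ^ (k + 1) ≤ ∑ ξ ∈ range R,
        (∑ v ∈ gr d m (2 * n) μ, f ξ v ^ (k + 1)) / (gr d m (2 * n) μ).card :=
        sum_le_sum fun ξ _ => key ξ
    _ = (∑ v ∈ gr d m (2 * n) μ, ∑ ξ ∈ range R, f ξ v ^ (k + 1)) / (gr d m (2 * n) μ).card := by
        rw [← sum_div, sum_comm]
    _ ≤ (∑ v ∈ gr d m (2 * n) μ, (1 + 2 * L * z) ^ n / z) / (gr d m (2 * n) μ).card := by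
        apply div_le_div_of_nonneg_right _ hc.le
        apply sum_le_sum
        intro v hv
        rw [le_div_iff₀ hz0, sum_mul]
        rw [mem_gr] at hv
        have h1 := sum_word h hκ0 hκ1 hL2 hL hB hRB ha hrid hz0 hz1 hz hv.1
        rw [hv.2] at h1
        exact h1
    _ = (1 + 2 * L * z) ^ n / z := by
        rw [sum_const, nsmul_eq_mul, mul_div_assoc, mul_comm, div_mul_cancel₀ _ hc.ne']

/-! ### Concatenation -/

/-- the factorisations of a multiplier -/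
noncomputable def Tp (d : ℕ) (m : ℕ → ℤ) (N1 N2 : ℕ) (μ : ℤ) : Finset (ℤ × ℤ) :=
  (Ms d m N1 ×ˢ Ms d m N2).filter (fun p => p.1 * p.2 = μ)

lemma sum_gr_add {α : Type*} [AddCommMonoid α] (N1 N2 : ℕ) (μ : ℤ) (f : List ℕ → α) :
    ∑ v ∈ gr d m (N1 + N2) μ, f v =
      ∑ p ∈ Tp d m N1 N2 μ, ∑ u ∈ gr d m N1 p.1, ∑ v ∈ gr d m N2 p.2, f (u ++ v) := by
  classical
  rw [sum_gr_if, sum_LW_add, ← sum_gr (d := d) (m := m) N1]
  have h1 : ∀ M1 ∈ Ms d m N1, ∑ u ∈ gr d m N1 M1, ∑ v ∈ LW d N2,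
      (if Mw m (u ++ v) = μ then f (u ++ v) else 0) =
      ∑ M2 ∈ Ms d m N2, if M1 * M2 = μ then
        ∑ u ∈ gr d m N1 M1, ∑ v ∈ gr d m N2 M2, f (u ++ v) else 0 := by
    intro M1 _
    have h2 : ∀ u ∈ gr d m N1 M1, ∑ v ∈ LW d N2, (if Mw m (u ++ v) = μ then f (u ++ v) else 0) =
        ∑ M2 ∈ Ms d m N2, if M1 * M2 = μ then ∑ v ∈ gr d m N2 M2, f (u ++ v) else 0 := by
      intro u hu
      rw [← sum_gr (d := d) (m := m) N2]
      apply sum_congr rfl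
      intro M2 _
      rw [mem_gr] at hu
      split_ifs with h
      · apply sum_congr rfl
        intro v hv
        rw [mem_gr] at hv
        rw [Mw_append, hu.2, hv.2, if_pos h]
      · apply sum_eq_zero
        intro v hv
        rw [mem_gr] at hv
        rw [Mw_append, hu.2, hv.2, if_neg h]
    rw [sum_congr rfl h2, sum_comm]
    apply sum_congr rfl
    intro M2 _
    split_ifs with h
    · rfl
    · exact sum_const_zero
  rw [sum_congr rfl h1]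
  unfold Tp
  rw [sum_filter, sum_product]

lemma card_gr_add (N1 N2 : ℕ) (μ : ℤ) : (gr d m (N1 + N2) μ).card =
    ∑ p ∈ Tp d m N1 N2 μ, (gr d m N1 p.1).card * (gr d m N2 p.2).card := by
  have h := sum_gr_add (d := d) (m := m) N1 N2 μ (fun _ => 1)
  rw [← card_eq_sum_ones] at h
  rw [h]
  apply sum_congr rfl
  intro p _
  rw [sum_const, ← card_eq_sum_ones, smul_eq_mul]

lemma card_Tp (N1 N2 : ℕ) (μ : ℤ) : (Tp d m N1 N2 μ).card ≤ (N1 + 1) ^ d * (N2 + 1) ^ d := by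
  unfold Tp
  refine (card_filter_le _ _).trans ?_
  rw [card_product]
  exact Nat.mul_le_mul (card_Ms N1) (card_Ms N2)

/-- the exponential sum over `j` windows -/
noncomputable def A (d : ℕ) (m r : ℕ → ℤ) (n j : ℕ) (g : ℤ) (ξ : ℕ) (μ : ℤ) : ℝ :=
  ‖∑ v ∈ gr d m (2 * n * j) μ, e (((m 0 * m 1 : ℤ) : ℝ) *
    ((((ξ : ℤ) * g : ℤ) : ℝ) / (d : ℝ) ^ (2 * n * j)) * ((Ww d m r v : ℤ) : ℝ))‖

lemma A_step (h : Cop d m r) (n j : ℕ) (g : ℤ) (ξ : ℕ) (μ : ℤ) :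
    A d m r n (j + 1) g ξ μ ≤ ∑ p ∈ Tp d m (2 * n) (2 * n * j) μ,
      E d m r n p.1 (2 * n * (j + 1)) (g * p.2) ξ * A d m r n j g ξ p.2 := by
  have hd0 : (0 : ℝ) < d := by exact_mod_cast (by have := h.two_le; omega : 0 < d)
  unfold A
  have e1 : 2 * n * (j + 1) = 2 * n + 2 * n * j := by ring
  have h1 := sum_gr_add (d := d) (m := m) (2 * n) (2 * n * j) μ
    (fun v => e (((m 0 * m 1 : ℤ) : ℝ) * ((((ξ : ℤ) * g : ℤ) : ℝ) / (d : ℝ) ^ (2 * n * (j + 1))) *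
      ((Ww d m r v : ℤ) : ℝ)))
  rw [← e1] at h1
  rw [h1]
  refine (norm_sum_le _ _).trans (sum_le_sum fun p _ => ?_)
  unfold E
  rw [← norm_mul, sum_mul_sum]
  apply le_of_eq
  congr 1
  apply sum_congr rfl
  intro u hu
  apply sum_congr rfl
  intro v hv
  rw [mem_gr] at hu hv
  rw [← e_add, Ww_append, LW_len hu.1, hv.2]
  congr 1
  have e2 : (d : ℝ) ^ (2 * n * (j + 1)) = (d : ℝ) ^ (2 * n) * (d : ℝ) ^ (2 * n * j) := by
    rw [← pow_add]; congr 1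
  rw [e2]
  push_cast
  field_simp

/-- the induction -/
lemma A_bound (h : Cop d m r) (s : ℝ) (n : ℕ) (g : ℤ) (ξ M : ℕ) {S Qb : ℝ} (hS : 0 ≤ S)
    (hQb : ∀ j < M, ∀ μ, ((Tp d m (2 * n) (2 * n * j) μ).card : ℝ) ≤ Qb) (Gd : ℤ → Prop)
    (hGd : ∀ μ1 ∈ Ms d m (2 * n), ∀ μ2, Gd (μ1 * μ2) → Gd μ2)
    (hG : ∀ j < M, ∀ μ2 ∈ Ms d m (2 * n * j), Gd μ2 → ∀ μ1 ∈ Ms d m (2 * n),
      G d m r (2 * ps d m s 0 * ps d m s 1) n μ1 (2 * n * (j + 1)) (g * μ2) ξ ≤ S) :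
    ∀ j ≤ M, ∀ μ, Gd μ → A d m r n j g ξ μ ^ 2 * PM d m s (2 * n * j) μ ≤
      Qb ^ j * S ^ j * (gr d m (2 * n * j) μ).card := by
  intro j
  induction j with
  | zero =>
    intro _ μ _
    by_cases hμ : μ = 1
    · have h0 : gr d m (2 * n * 0) μ = {[]} := by
        ext v
        rw [mem_gr, mem_singleton, mul_zero, hμ]
        constructor
        · rintro ⟨h1, -⟩
          exact List.length_eq_zero_iff.1 (LW_len h1)
        · rintro rfl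
          simp [LW, Mw]
      unfold A
      rw [h0, sum_singleton, norm_e, hμ]
      simp [PM]
    · have h1 : gr d m (2 * n * 0) μ = ∅ := by
        apply eq_empty_of_forall_notMem
        intro v hv
        rw [mem_gr] at hv
        have := LW_len hv.1
        rw [mul_zero, List.length_eq_zero_iff] at this
        rw [this] at hv
        apply hμ
        rw [← hv.2]; simp [Mw]
      have h2 : A d m r n 0 g ξ μ = 0 := by unfold A; rw [h1]; simp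
      rw [h1, h2]; simp
  | succ j ih =>
    intro hj μ hμ
    have ih' := ih (by omega)
    have h1 := A_step h n j g ξ μ
    have hA0 : 0 ≤ A d m r n (j + 1) g ξ μ := norm_nonneg _
    have hQ0 : 0 ≤ Qb := le_trans (Nat.cast_nonneg _) (hQb j (by omega) μ)
    have h2 : A d m r n (j + 1) g ξ μ ^ 2 ≤ Qb * ∑ p ∈ Tp d m (2 * n) (2 * n * j) μ,
        (E d m r n p.1 (2 * n * (j + 1)) (g * p.2) ξ * A d m r n j g ξ p.2) ^ 2 := by
      have h3 := sq_sum_le_card_mul_sum_sq (s := Tp d m (2 * n) (2 * n * j) μ)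
        (f := fun p => E d m r n p.1 (2 * n * (j + 1)) (g * p.2) ξ * A d m r n j g ξ p.2)
      refine (pow_le_pow_left₀ hA0 h1 2).trans (h3.trans ?_)
      exact mul_le_mul_of_nonneg_right (hQb j (by omega) μ) (sum_nonneg fun _ _ => sq_nonneg _)
    have hP : 0 ≤ PM d m s (2 * n * (j + 1)) μ := PM_nonneg h s _ μ
    refine (mul_le_mul_of_nonneg_right h2 hP).trans ?_
    have h4 : ∀ p ∈ Tp d m (2 * n) (2 * n * j) μ,
        (E d m r n p.1 (2 * n * (j + 1)) (g * p.2) ξ * A d m r n j g ξ p.2) ^ 2 *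
          PM d m s (2 * n * (j + 1)) μ ≤
        Qb ^ j * S ^ (j + 1) *
          (((gr d m (2 * n) p.1).card : ℝ) * (gr d m (2 * n * j) p.2).card) := by
      intro p hp
      unfold Tp at hp
      rw [mem_filter, mem_product] at hp
      obtain ⟨⟨hp1, hp2⟩, hp3⟩ := hp
      have hgood : Gd p.2 := hGd p.1 hp1 p.2 (by rw [hp3]; exact hμ)
      have h8 := E_sq h s n p.1 (2 * n * (j + 1)) (g * p.2) ξ
      have h9 := ih' p.2 hgood
      have h10 := hG j (by omega) p.2 hp2 hgood p.1 hp1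
      have e1 : PM d m s (2 * n * (j + 1)) μ = PM d m s (2 * n) p.1 * PM d m s (2 * n * j) p.2 := by
        rw [← PM_mul, hp3]
        congr 1
        ring
      rw [e1]
      have hP1 := PM_nonneg h s (2 * n) p.1
      have hP2 := PM_nonneg h s (2 * n * j) p.2
      calc (E d m r n p.1 (2 * n * (j + 1)) (g * p.2) ξ * A d m r n j g ξ p.2) ^ 2 *
            (PM d m s (2 * n) p.1 * PM d m s (2 * n * j) p.2)
          = (E d m r n p.1 (2 * n * (j + 1)) (g * p.2) ξ ^ 2 * PM d m s (2 * n) p.1) *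
            (A d m r n j g ξ p.2 ^ 2 * PM d m s (2 * n * j) p.2) := by ring
        _ ≤ ((gr d m (2 * n) p.1).card * S) *
            (Qb ^ j * S ^ j * (gr d m (2 * n * j) p.2).card) := by
            apply mul_le_mul _ h9 (by positivity) (by positivity)
            exact h8.trans (mul_le_mul_of_nonneg_left h10 (Nat.cast_nonneg _))
        _ = _ := by rw [pow_succ S]; ring
    calc Qb * (∑ p ∈ Tp d m (2 * n) (2 * n * j) μ,
          (E d m r n p.1 (2 * n * (j + 1)) (g * p.2) ξ * A d m r n j g ξ p.2) ^ 2) *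
          PM d m s (2 * n * (j + 1)) μ
        = Qb * ∑ p ∈ Tp d m (2 * n) (2 * n * j) μ,
          (E d m r n p.1 (2 * n * (j + 1)) (g * p.2) ξ * A d m r n j g ξ p.2) ^ 2 *
          PM d m s (2 * n * (j + 1)) μ := by rw [mul_assoc, sum_mul]
      _ ≤ Qb * ∑ p ∈ Tp d m (2 * n) (2 * n * j) μ, Qb ^ j * S ^ (j + 1) *
          (((gr d m (2 * n) p.1).card : ℝ) * (gr d m (2 * n * j) p.2).card) :=
          mul_le_mul_of_nonneg_left (sum_le_sum h4) hQ0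
      _ = Qb ^ (j + 1) * S ^ (j + 1) *
          ∑ p ∈ Tp d m (2 * n) (2 * n * j) μ,
            ((gr d m (2 * n) p.1).card : ℝ) * (gr d m (2 * n * j) p.2).card := by
          rw [← mul_sum, pow_succ Qb]; ring
      _ = _ := by
          have e2 : 2 * n * (j + 1) = 2 * n + 2 * n * j := by ring
          rw [e2, card_gr_add]
          push_cast
          rfl

end Pool.Agent.TH930.GH
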