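import Pool.Agent.H319R3.GC.W1
import Pool.Agent.H319R3.GC.W2
import Pool.Agent.TH930.EBQ.Carry

/-! Generalised `3x+1` maps of coprime type, without contraction: words and exponential sums. -/

set_option autoImplicit false

namespace Pool.Agent.TH930.GH

open Finset Pool.Agent.H319R3.GC
open Pool.Agent.TH930.EBQ (e e_zero e_add norm_e conj_e e_int e_eq_one e_sub_int e_congr e_nat_mul
  norm_one_add_e normSq_sum fejer sum_abs_sub psi abs_psi)

variable {d : ℕ} {m r : ℕ → ℤ}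

/-- coprime type: `T(x) = (m_i x - r_i)/d` for `x ≡ i mod d`, with `m_i` coprime to `d` -/
structure Cop (d : ℕ) (m r : ℕ → ℤ) : Prop where
  two_le : 2 ≤ d
  cop : ∀ i < d, IsCoprime (m i) (d : ℤ)
  adm : ∀ i < d, (d : ℤ) ∣ m i * i - r i

lemma Cop.m_ne (h : Cop d m r) {i : ℕ} (hi : i < d) : m i ≠ 0 := by
  intro h0
  have := h.cop i hi
  rw [h0, isCoprime_zero_left, Int.isUnit_iff] at this
  have := h.two_le
  omega

lemma Cop.one_le (h : Cop d m r) {i : ℕ} (hi : i < d) : (1 : ℝ) ≤ |(m i : ℝ)| := by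
  have := Int.one_le_abs (h.m_ne hi)
  exact_mod_cast this

lemma Cop.Mw_cop (h : Cop d m r) {w : List ℕ} (hw : ∀ i ∈ w, i < d) : IsCoprime (Mw m w) (d : ℤ) := by
  induction w with
  | nil => simpa [Mw] using isCoprime_one_left
  | cons i w ih =>
    rw [Mw_cons]
    exact IsCoprime.mul_left (h.cop i (hw i (by simp))) (ih fun j hj => hw j (by simp [hj]))

lemma Cop.Mw_ne (h : Cop d m r) {w : List ℕ} (hw : ∀ i ∈ w, i < d) : Mw m w ≠ 0 := by
  intro h0
  have h1 := h.Mw_cop hw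
  rw [h0, isCoprime_zero_left] at h1
  have h2 := Int.isUnit_iff.1 h1
  have h3 := h.two_le
  omega

lemma toNat_mod (h : 2 ≤ d) (x : ℤ) : ((x % d).toNat : ℤ) = x % d ∧ (x % d).toNat < d := by
  have hd : (0 : ℤ) < d := by exact_mod_cast (by omega : 0 < d)
  have h0 : 0 ≤ x % d := Int.emod_nonneg _ (by omega)
  have h1 : x % d < d := Int.emod_lt_of_pos _ hd
  have h2 : ((x % d).toNat : ℤ) = x % d := Int.toNat_of_nonneg h0
  refine ⟨h2, ?_⟩
  have : ((x % d).toNat : ℤ) < (d : ℤ) := by rw [h2]; exact h1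
  exact_mod_cast this

lemma Cop.Tm_eq (h : Cop d m r) (x : ℤ) :
    (d : ℤ) * Tm d m r x = m (x % d).toNat * x - r (x % d).toNat := by
  obtain ⟨h1, h2⟩ := toNat_mod h.two_le x
  unfold Tm
  apply Int.mul_ediv_cancel'
  have h3 := h.adm _ h2
  have h4 : (d : ℤ) ∣ m (x % d).toNat * (x - ((x % d).toNat : ℤ)) := by
    apply Dvd.dvd.mul_left
    rw [h1]
    exact Int.dvd_self_sub_emod
  have h5 := dvd_add h3 h4
  have h6 : m (x % d).toNat * ((x % d).toNat : ℤ) - r (x % d).toNat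
      + m (x % d).toNat * (x - ((x % d).toNat : ℤ)) = m (x % d).toNat * x - r (x % d).toNat := by
    ring
  rwa [h6] at h5

lemma Cop.iter_eq (h : Cop d m r) (k : ℕ) (x : ℤ) :
    (d : ℤ) ^ k * (Tm d m r)^[k] x = Mw m (wd d m r k x) * x - Ww d m r (wd d m r k x) := by
  induction k generalizing x with
  | zero => simp [wd, Mw, Ww]
  | succ k ih =>
    have h1 := ih (Tm d m r x)
    have h2 := h.Tm_eq x
    rw [Function.iterate_succ_apply]
    have h3 : Mw m (wd d m r (k + 1) x)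
        = m (x % d).toNat * Mw m (wd d m r k (Tm d m r x)) := by simp [wd, Mw]
    have h4 : Ww d m r (wd d m r (k + 1) x)
        = r (x % d).toNat * Mw m (wd d m r k (Tm d m r x))
          + d * Ww d m r (wd d m r k (Tm d m r x)) := by simp [wd, Ww]
    rw [h3, h4, pow_succ]
    linear_combination (d : ℤ) * h1 + Mw m (wd d m r k (Tm d m r x)) * h2

lemma Cop.wd_mem' (h : Cop d m r) (k : ℕ) (x : ℤ) : ∀ i ∈ wd d m r k x, i < d :=
  (mem_LW.1 (wd_mem h.two_le k x)).2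

lemma Cop.wd_cong (h : Cop d m r) {k : ℕ} {x y : ℤ} (hw : wd d m r k x = wd d m r k y) :
    (d : ℤ) ^ k ∣ x - y := by
  have h1 := h.iter_eq k x
  have h2 := h.iter_eq k y
  rw [← hw] at h2
  have hc : IsCoprime (Mw m (wd d m r k x)) (d : ℤ) := h.Mw_cop (h.wd_mem' k x)
  have hc' : IsCoprime ((d : ℤ) ^ k) (Mw m (wd d m r k x)) := (hc.pow_right (n := k)).symm
  apply hc'.dvd_of_dvd_mul_left
  exact ⟨(Tm d m r)^[k] x - (Tm d m r)^[k] y, by linear_combination h2 - h1⟩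

/-- the residue of an integer with a given word -/
lemma Cop.residue (h : Cop d m r) {K : ℕ} {g μ x : ℤ} (hg : (d : ℤ) ^ K ∣ μ * g - 1)
    (hx : Mw m (wd d m r K x) = μ) : (d : ℤ) ^ K ∣ x - g * Ww d m r (wd d m r K x) := by
  have h1 : (d : ℤ) ^ K ∣ μ * x - Ww d m r (wd d m r K x) := by
    rw [← hx, ← h.iter_eq]
    exact dvd_mul_right _ _
  have h2 : x - g * Ww d m r (wd d m r K x) =
      g * (μ * x - Ww d m r (wd d m r K x)) - x * (μ * g - 1) := by ring
  rw [h2]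
  exact dvd_sub (h1.mul_left g) (hg.mul_left x)

/-- THE COUNT OF THE INTEGERS OF AN INTERVAL WITH PRESCRIBED RESIDUES -/
lemma count_abs {ι : Type*} [DecidableEq ι] {N R : ℕ} (hN : 0 < N) (hR : 0 < R) (S : Finset ι)
    (c : ι → ℤ) (u : ℤ) (B : Finset ℤ) (w : ℤ → ι) (hw : Set.InjOn w B)
    (hB : ∀ x ∈ B, |x - u| * (8 * R) ≤ N ∧ w x ∈ S ∧ (N : ℤ) ∣ x - c (w x)) :
    (B.card : ℝ) ≤ 4 / R * ∑ ξ ∈ range R, ‖∑ v ∈ S, e (ξ * ((c v : ℝ) / N))‖ := by
  have hRR : (0 : ℝ) < R := by exact_mod_cast hR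
  have hNR : (0 : ℝ) < N := by exact_mod_cast hN
  set f : ℝ → ℝ := fun x => ‖∑ r ∈ range R, e (r * ((x - u) / N))‖ ^ 2 with hf
  set F : ℤ → ℂ := fun ξ => ∑ v ∈ S, e (ξ * ((c v : ℝ) / N)) with hF
  have hfper : ∀ x y : ℤ, (N : ℤ) ∣ x - y → f x = f y := by
    intro x y h
    rw [hf]
    simp only
    congr 2
    apply sum_congr rfl
    intro r _
    apply e_congr
    obtain ⟨t, ht⟩ := h
    refine ⟨r * t, ?_⟩
    have : (x : ℝ) - y = N * t := by exact_mod_cast ht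
    have e1 : (r : ℝ) * (((x : ℝ) - u) / N) - r * (((y : ℝ) - u) / N) =
        r * (((x : ℝ) - y) / N) := by
      ring
    rw [e1, this]
    push_cast
    field_simp
  have hlow : (B.card : ℝ) * ((R : ℝ) ^ 2 / 2) ≤ ∑ v ∈ S, f (c v) := by
    have h1 : (B.card : ℝ) * ((R : ℝ) ^ 2 / 2) ≤ ∑ x ∈ B, f (x : ℝ) := by
      have := Finset.card_nsmul_le_sum B (fun x : ℤ => f (x : ℝ)) ((R : ℝ) ^ 2 / 2) (by
        intro x hx
        apply fejer
        obtain ⟨hx1, -⟩ := hB x hx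
        have hx2 : |(x : ℝ) - u| * (8 * R) ≤ N := by exact_mod_cast hx1
        rw [abs_div, abs_of_pos hNR, mul_div_assoc', div_le_iff₀ hNR]
        linarith)
      rwa [nsmul_eq_mul] at this
    refine h1.trans ?_
    have h2 : ∑ x ∈ B, f (x : ℝ) = ∑ v ∈ B.image w, f (c v) := by
      rw [sum_image hw]
      apply sum_congr rfl
      intro x hx
      exact hfper x _ (hB x hx).2.2
    rw [h2]
    apply sum_le_sum_of_subset_of_nonneg
    · intro v hv
      rw [mem_image] at hv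
      obtain ⟨x, hx, rfl⟩ := hv
      exact (hB x hx).2.1
    · intro v _ _; positivity
  have hup : ∑ v ∈ S, f (c v) ≤ ∑ r ∈ range R, ∑ s ∈ range R, ‖F ((r : ℤ) - s)‖ := by
    have h3 : ((∑ v ∈ S, f (c v) : ℝ) : ℂ) =
        ∑ r ∈ range R, ∑ s ∈ range R,
          F ((r : ℤ) - s) * e (-((((r : ℤ) - s : ℤ) : ℝ) * ((u : ℝ) / N))) := by
      have h4 : ∀ r ∈ range R, ∀ s ∈ range R,
          F ((r : ℤ) - s) * e (-((((r : ℤ) - s : ℤ) : ℝ) * ((u : ℝ) / N))) = ∑ v ∈ S,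
          e ((((r : ℤ) - s : ℤ) : ℝ) * (((c v : ℝ) - u) / N)) := by
        intro r _ s _
        rw [hF]
        simp only
        rw [sum_mul]
        apply sum_congr rfl
        intro v _
        rw [← e_add]
        congr 1
        ring
      rw [sum_congr rfl (fun r hr => sum_congr rfl (fun s hs => h4 r hr s hs))]
      have h5 : ∀ r ∈ range R, (∑ s ∈ range R, ∑ v ∈ S,
          e ((((r : ℤ) - s : ℤ) : ℝ) * (((c v : ℝ) - u) / N))) =
          ∑ v ∈ S, ∑ s ∈ range R, e ((((r : ℤ) - s : ℤ) : ℝ) * (((c v : ℝ) - u) / N)) :=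
        fun r _ => sum_comm
      rw [sum_congr rfl h5, sum_comm]
      push_cast
      apply sum_congr rfl
      intro v _
      have := normSq_sum (range R) (fun r : ℕ => (r : ℝ) * (((c v : ℝ) - u) / N))
      rw [hf]
      simp only
      rw [this]
      apply sum_congr rfl
      intro r _
      apply sum_congr rfl
      intro s _
      congr 1
      push_cast
      ring
    have h6 : (∑ v ∈ S, f (c v) : ℝ) =
        ‖∑ r ∈ range R, ∑ s ∈ range R,
          F ((r : ℤ) - s) * e (-((((r : ℤ) - s : ℤ) : ℝ) * ((u : ℝ) / N)))‖ := by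
      rw [← h3, Complex.norm_real, Real.norm_of_nonneg]
      apply sum_nonneg
      intro x _
      positivity
    rw [h6]
    refine (norm_sum_le _ _).trans (sum_le_sum fun r _ => (norm_sum_le _ _).trans (le_of_eq ?_))
    apply sum_congr rfl
    intro s _
    rw [norm_mul, norm_e, mul_one]
  have hFneg : ∀ ξ : ℤ, ‖F (-ξ)‖ = ‖F ξ‖ := by
    intro ξ
    have : F (-ξ) = (starRingEnd ℂ) (F ξ) := by
      rw [hF]
      simp only
      rw [map_sum]
      apply sum_congr rfl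
      intro v _
      rw [conj_e]
      congr 1
      push_cast
      ring
    rw [this, RCLike.norm_conj]
  have h7 : ∑ r ∈ range R, ∑ s ∈ range R, ‖F ((r : ℤ) - s)‖ ≤ R * (2 * ∑ ξ ∈ range R, ‖F (ξ : ℤ)‖) := by
    have := Finset.sum_le_card_nsmul (range R) (fun r => ∑ s ∈ range R, ‖F ((r : ℤ) - s)‖)
      (2 * ∑ ξ ∈ range R, ‖F (ξ : ℤ)‖) (fun r hr => sum_abs_sub (fun x => ‖F x‖)
        (fun x => norm_nonneg _) hFneg R hr)
    rwa [card_range, nsmul_eq_mul] at this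
  have h8 := (hlow.trans hup).trans h7
  have h9 : (B.card : ℝ) * R ^ 2 ≤ (4 * ∑ ξ ∈ range R, ‖F (ξ : ℤ)‖) * R := by linarith
  rw [div_mul_eq_mul_div, le_div_iff₀ hRR]
  have h10 : (B.card : ℝ) * R * R ≤ (4 * ∑ ξ ∈ range R, ‖F (ξ : ℤ)‖) * R := by
    calc (B.card : ℝ) * R * R = (B.card : ℝ) * R ^ 2 := by ring
      _ ≤ _ := h9
  have h11 := le_of_mul_le_mul_right h10 hRR
  simpa [hF] using h11

/-! ### The sums over words -/

/-- the mixed blocks -/
def mx (x : ℕ × ℕ) : Prop := x = (0, 1) ∨ x = (1, 0)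

instance : DecidablePred mx := fun x => by unfold mx; infer_instance

lemma split_pair {α : Type*} [AddCommMonoid α] (hd : 2 ≤ d) (f : ℕ × ℕ → α) :
    ∑ x ∈ range d ×ˢ range d, f x =
      (f (0, 1) + f (1, 0)) + ∑ x ∈ (range d ×ˢ range d).filter (fun x => ¬ mx x), f x := by
  rw [← sum_filter_add_sum_filter_not (range d ×ˢ range d) mx]
  congr 1
  have h1 : (range d ×ˢ range d).filter mx = {(0, 1), (1, 0)} := by
    ext x
    rw [mem_filter, mem_product, mem_range, mem_range, mem_insert, mem_singleton]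
    constructor
    · exact fun h => h.2
    · intro h
      refine ⟨?_, h⟩
      rcases h with rfl | rfl
      · exact ⟨by omega, by omega⟩
      · exact ⟨by omega, by omega⟩
  rw [h1, sum_pair (by decide)]

lemma sum_LW_two {α : Type*} [AddCommMonoid α] (n : ℕ) (f : List ℕ → α) :
    ∑ v ∈ LW d (2 * (n + 1)), f v =
      ∑ x ∈ range d ×ˢ range d, ∑ v ∈ LW d (2 * n), f (x.1 :: x.2 :: v) := by
  rw [show 2 * (n + 1) = (2 * n + 1) + 1 by ring, sum_LW_succ, sum_product]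
  apply sum_congr rfl
  intro a _
  rw [sum_LW_succ]

/-- the product of the moduli of the mixed blocks -/
noncomputable def Pw (d : ℕ) (m : ℕ → ℤ) : ℝ → List ℕ → ℝ
  | φ, (a :: b :: v) =>
    (if mx (a, b) then |Real.cos (Real.pi * φ)| else 1) * Pw d m ((d : ℝ) ^ 2 * φ / (m a * m b)) v
  | _, _ => 1

/-- the product of the conditional mean squares -/
noncomputable def Gw (d : ℕ) (m : ℕ → ℤ) (κ : ℝ) : ℝ → List ℕ → ℝ
  | φ, (a :: b :: v) =>
    (1 - κ * Real.sin (Real.pi * φ) ^ 2) * Gw d m κ ((d : ℝ) ^ 2 * φ / (m a * m b)) v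
  | _, _ => 1

/-- the probability of a word -/
noncomputable def Pr (p : ℕ → ℝ) (v : List ℕ) : ℝ := (v.map p).prod

lemma Pw_nil (φ : ℝ) : Pw d m φ [] = 1 := by simp [Pw]

lemma Pw_cons (φ : ℝ) (a b : ℕ) (v : List ℕ) : Pw d m φ (a :: b :: v) =
    (if mx (a, b) then |Real.cos (Real.pi * φ)| else 1) *
      Pw d m ((d : ℝ) ^ 2 * φ / (m a * m b)) v := rfl

lemma Gw_nil (κ φ : ℝ) : Gw d m κ φ [] = 1 := by simp [Gw]

lemma Gw_cons (κ φ : ℝ) (a b : ℕ) (v : List ℕ) : Gw d m κ φ (a :: b :: v) =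
    (1 - κ * Real.sin (Real.pi * φ) ^ 2) * Gw d m κ ((d : ℝ) ^ 2 * φ / (m a * m b)) v := rfl

lemma Pr_nil (p : ℕ → ℝ) : Pr p [] = 1 := by simp [Pr]

lemma Pr_cons (p : ℕ → ℝ) (a : ℕ) (v : List ℕ) : Pr p (a :: v) = p a * Pr p v := by simp [Pr]

lemma Pr_append (p : ℕ → ℝ) (u v : List ℕ) : Pr p (u ++ v) = Pr p u * Pr p v := by simp [Pr]

lemma Pr_pos {p : ℕ → ℝ} (hp : ∀ i < d, 0 < p i) {v : List ℕ} (hv : ∀ i ∈ v, i < d) : 0 < Pr p v := by
  induction v with
  | nil => rw [Pr_nil]; exact one_pos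
  | cons a v ih =>
    rw [Pr_cons]
    exact mul_pos (hp a (hv a (by simp))) (ih fun i hi => hv i (by simp [hi]))

lemma sum_Pr {p : ℕ → ℝ} (n : ℕ) : ∑ v ∈ LW d n, Pr p v = (∑ i ∈ range d, p i) ^ n := by
  induction n with
  | zero => simp [LW, Pr]
  | succ n ih =>
    rw [sum_LW_succ, pow_succ', ← ih, sum_mul_sum]
    apply sum_congr rfl
    intro i _
    apply sum_congr rfl
    intro v _
    rw [Pr_cons]

lemma g_pos {κ : ℝ} (h0 : 0 ≤ κ) (h1 : κ < 1) (x : ℝ) : 0 < 1 - κ * Real.sin x ^ 2 := by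
  have := Real.sin_sq_le_one x
  nlinarith [sq_nonneg (Real.sin x)]

lemma Gw_pos {κ : ℝ} (h0 : 0 ≤ κ) (h1 : κ < 1) : ∀ (n : ℕ) (φ : ℝ) (v : List ℕ),
    v.length = 2 * n → 0 < Gw d m κ φ v := by
  intro n
  induction n with
  | zero =>
    intro φ v hv
    rw [mul_zero, List.length_eq_zero_iff] at hv
    rw [hv, Gw_nil]; exact one_pos
  | succ n ih =>
    intro φ v hv
    match v, hv with
    | (a :: b :: v), hv =>
      rw [Gw_cons]
      apply mul_pos (g_pos h0 h1 _)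
      apply ih
      simp only [List.length_cons] at hv
      omega

lemma LW_len {n : ℕ} {v : List ℕ} (hv : v ∈ LW d n) : v.length = n := (mem_LW.1 hv).1

/-- the martingale identity -/
lemma martingale {p : ℕ → ℝ} (hd : 2 ≤ d) (hp : ∀ i < d, 0 < p i) (hp1 : ∑ i ∈ range d, p i = 1)
    (hκ : 2 * p 0 * p 1 < 1) : ∀ (n : ℕ) (φ : ℝ),
    ∑ v ∈ LW d (2 * n), Pr p v * Pw d m φ v ^ 2 / Gw d m (2 * p 0 * p 1) φ v = 1 := by
  have hκ0 : 0 ≤ 2 * p 0 * p 1 := by
    have := hp 0 (by omega)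
    have := hp 1 (by omega)
    positivity
  intro n
  induction n with
  | zero => intro φ; simp [LW, Pr, Pw_nil, Gw_nil]
  | succ n ih =>
    intro φ
    rw [sum_LW_two]
    set g : ℝ := 1 - 2 * p 0 * p 1 * Real.sin (Real.pi * φ) ^ 2 with hg
    have hg0 : 0 < g := g_pos hκ0 hκ _
    have h1 : ∀ x ∈ range d ×ˢ range d, ∑ v ∈ LW d (2 * n), Pr p (x.1 :: x.2 :: v) *
        Pw d m φ (x.1 :: x.2 :: v) ^ 2 / Gw d m (2 * p 0 * p 1) φ (x.1 :: x.2 :: v) =
        p x.1 * p x.2 * (if mx x then Real.cos (Real.pi * φ) ^ 2 else 1) / g := by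
      intro x _
      have h2 := ih ((d : ℝ) ^ 2 * φ / (m x.1 * m x.2))
      have h3 : ∀ v ∈ LW d (2 * n), Pr p (x.1 :: x.2 :: v) *
          Pw d m φ (x.1 :: x.2 :: v) ^ 2 / Gw d m (2 * p 0 * p 1) φ (x.1 :: x.2 :: v) =
          (p x.1 * p x.2 * (if mx x then Real.cos (Real.pi * φ) ^ 2 else 1) / g) *
          (Pr p v * Pw d m ((d : ℝ) ^ 2 * φ / (m x.1 * m x.2)) v ^ 2 /
            Gw d m (2 * p 0 * p 1) ((d : ℝ) ^ 2 * φ / (m x.1 * m x.2)) v) := by
        intro v hv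
        have g1 := (Gw_pos (d := d) (m := m) hκ0 hκ n ((d : ℝ) ^ 2 * φ / (m x.1 * m x.2)) v (LW_len hv)).ne'
        have g0 := hg0.ne'
        rw [Pr_cons, Pr_cons, Pw_cons, Gw_cons, ← hg, mul_pow]
        have h4 : (if mx (x.1, x.2) then |Real.cos (Real.pi * φ)| else 1) ^ 2 =
            if mx x then Real.cos (Real.pi * φ) ^ 2 else 1 := by
          split_ifs
          · rw [sq_abs]
          · rw [one_pow]
        rw [h4]
        field_simp
      rw [sum_congr rfl h3, ← mul_sum, h2, mul_one]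
    rw [sum_congr rfl h1, ← sum_div, div_eq_one_iff_eq hg0.ne', split_pair hd]
    have h2 : ∀ x ∈ (range d ×ˢ range d).filter (fun x => ¬ mx x),
        p x.1 * p x.2 * (if mx x then Real.cos (Real.pi * φ) ^ 2 else 1) = p x.1 * p x.2 := by
      intro x hx
      rw [if_neg (mem_filter.1 hx).2, mul_one]
    rw [sum_congr rfl h2]
    have h3 : ∑ x ∈ range d ×ˢ range d, p x.1 * p x.2 = 1 := by
      rw [sum_product, ← sum_mul_sum, hp1, one_mul]
    rw [split_pair hd] at h3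
    have m1 : mx (0, 1) := Or.inl rfl
    have m2 : mx (1, 0) := Or.inr rfl
    rw [if_pos m1, if_pos m2]
    simp only at h3 ⊢
    have h4 := Real.sin_sq_add_cos_sq (Real.pi * φ)
    rw [hg]
    linear_combination h3 + 2 * p 0 * p 1 * h4

/-- Cauchy-Schwarz with the conditional mean squares -/
lemma cauchy {p : ℕ → ℝ} (hd : 2 ≤ d) (hp : ∀ i < d, 0 < p i) (hp1 : ∑ i ∈ range d, p i = 1)
    (hκ : 2 * p 0 * p 1 < 1) (n : ℕ) (φ : ℝ) (S : Finset (List ℕ)) (hS : S ⊆ LW d (2 * n)) :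
    (∑ v ∈ S, Pr p v * Pw d m φ v) ^ 2 ≤ ∑ v ∈ S, Pr p v * Gw d m (2 * p 0 * p 1) φ v := by
  have hκ0 : 0 ≤ 2 * p 0 * p 1 := by
    have := hp 0 (by omega)
    have := hp 1 (by omega)
    positivity
  have hP : ∀ v ∈ LW d (2 * n), 0 < Pr p v := fun v hv => Pr_pos hp (mem_LW.1 hv).2
  have hG : ∀ v ∈ LW d (2 * n), 0 < Gw d m (2 * p 0 * p 1) φ v := fun v hv =>
    Gw_pos hκ0 hκ n φ v (LW_len hv)
  have h1 := Finset.sum_sq_le_sum_mul_sum_of_sq_eq_mul S
    (r := fun v => Pr p v * Pw d m φ v)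
    (f := fun v => Pr p v * Pw d m φ v ^ 2 / Gw d m (2 * p 0 * p 1) φ v)
    (g := fun v => Pr p v * Gw d m (2 * p 0 * p 1) φ v)
    (fun v hv => div_nonneg (mul_nonneg (hP v (hS hv)).le (sq_nonneg _)) (hG v (hS hv)).le)
    (fun v hv => mul_nonneg (hP v (hS hv)).le (hG v (hS hv)).le)
    (fun v hv => by
      have := (hG v (hS hv)).ne'
      field_simp)
  have h2 : ∑ v ∈ S, Pr p v * Pw d m φ v ^ 2 / Gw d m (2 * p 0 * p 1) φ v ≤ 1 := by
    rw [← martingale (m := m) hd hp hp1 hκ n φ]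
    apply sum_le_sum_of_subset_of_nonneg hS
    intro v hv _
    exact div_nonneg (mul_nonneg (hP v hv).le (sq_nonneg _)) (hG v hv).le
  have h4 : 0 ≤ ∑ v ∈ S, Pr p v * Gw d m (2 * p 0 * p 1) φ v :=
    sum_nonneg fun v hv => mul_nonneg (hP v (hS hv)).le (hG v (hS hv)).le
  exact h1.trans (mul_le_of_le_one_left h4 h2)

end Pool.Agent.TH930.GH
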